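import Pool.Agent.LMach.Spec

/-!
# Bounds below regular cardinals
-/

open Set Cardinal

universe u

namespace Pool.Agent.LMach

theorem bdd {κ : Cardinal.{u}} (hκ : κ.IsRegular) {α : Type u} (f : α → Ordinal.{u})
    (hα : Cardinal.mk α < κ) (hf : ∀ i, f i < κ.ord) : ∃ b < κ.ord, ∀ i, f i < b :=
  ⟨⨆ i, f i + 1, Ordinal.iSup_add_one_lt_of_lt_cof (by rwa [hκ.cof_ord]) hf,
    fun i => Ordinal.lt_iSup_add_one f i⟩

theorem bddIio {κ : Cardinal.{u}} (hκ : κ.IsRegular) (f : Ordinal.{u} → Ordinal.{u})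
    {x : Ordinal.{u}} (hx : x < κ.ord) (hf : ∀ y < x, f y < κ.ord) :
    ∃ b < κ.ord, ∀ y < x, f y < b := by
  obtain ⟨b, hb, hb'⟩ := bdd hκ (α := x.ToType) (fun i => f ((Ordinal.ToType.mk (o := x)).symm i).1)
    (by rw [mk_toType]; exact lt_ord.mp hx)
    (fun i => hf _ ((Ordinal.ToType.mk (o := x)).symm i).2)
  refine ⟨b, hb, fun y hy => ?_⟩
  have := hb' (Ordinal.ToType.mk ⟨y, hy⟩)
  simpa using this

theorem bddNat {κ : Cardinal.{u}} (h0 : ℵ₀ < κ) (hκ : κ.IsRegular) {ι : Type} [Countable ι]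
    (f : ι → Ordinal.{u}) (hf : ∀ n, f n < κ.ord) : ∃ b < κ.ord, ∀ n, f n < b := by
  obtain ⟨b, hb, hb'⟩ := bdd hκ (α := ULift.{u} ι) (fun i => f i.down)
    (lt_of_le_of_lt (by simp) h0) (fun i => hf _)
  exact ⟨b, hb, fun n => hb' ⟨n⟩⟩

theorem succ_lt {κ : Cardinal.{u}} (h0 : ℵ₀ ≤ κ) {x : Ordinal.{u}} (hx : x < κ.ord) :
    x + 1 < κ.ord := by
  have := (Cardinal.isSuccLimit_ord h0).succ_lt hx
  simpa using this

/-- bounds for functions of two variables -/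
theorem bddIio2 {κ : Cardinal.{u}} (hκ : κ.IsRegular) (f : Ordinal.{u} → Ordinal.{u} → Ordinal.{u})
    {x : Ordinal.{u}} (hx : x < κ.ord) (hf : ∀ y < x, ∀ z < x, f y z < κ.ord) :
    ∃ b < κ.ord, ∀ y < x, ∀ z < x, f y z < b := by
  have h1 : ∀ y, ∃ b, y < x → b < κ.ord ∧ ∀ z < x, f y z < b := by
    intro y
    by_cases hy : y < x
    · obtain ⟨b, hb⟩ := bddIio hκ (f y) hx (hf y hy)
      exact ⟨b, fun _ => hb⟩
    · exact ⟨0, fun h => absurd h hy⟩
  choose g hg using h1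
  obtain ⟨b, hb, hb'⟩ := bddIio hκ g hx (fun y hy => (hg y hy).1)
  exact ⟨b, hb, fun y hy z hz => ((hg y hy).2 z hz).trans (hb' y hy)⟩

/-- bounds for functions on lists -/
theorem bddList {κ : Cardinal.{u}} (h0 : ℵ₀ < κ) (hκ : κ.IsRegular)
    (f : List Ordinal.{u} → Ordinal.{u}) {x : Ordinal.{u}} (hx : x < κ.ord)
    (hf : ∀ l : List Ordinal.{u}, (∀ a ∈ l, a < x) → f l < κ.ord) :
    ∃ b < κ.ord, ∀ l : List Ordinal.{u}, (∀ a ∈ l, a < x) → f l < b := by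
  have hcard : Cardinal.mk (List x.ToType) < κ := by
    refine lt_of_le_of_lt (mk_list_le_max _) (max_lt h0 ?_)
    rw [mk_toType]; exact lt_ord.mp hx
  obtain ⟨b, hb, hb'⟩ := bdd hκ (α := List x.ToType)
    (fun l => f (l.map (fun i => ((Ordinal.ToType.mk (o := x)).symm i).1))) hcard
    (fun l => hf _ (by
      intro a ha
      obtain ⟨i, _, rfl⟩ := List.mem_map.mp ha
      exact ((Ordinal.ToType.mk (o := x)).symm i).2))
  refine ⟨b, hb, fun l hl => ?_⟩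
  have := hb' (l.attach.map (fun a => Ordinal.ToType.mk ⟨a.1, hl a.1 a.2⟩))
  simpa [List.map_map, Function.comp_def] using this

end Pool.Agent.LMach
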