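import Pool.Agent.LMach.Col

/-!
# The collapse of a closed set preserves the machine
-/

open Set Cardinal Order

universe u

namespace Pool.Agent.LMach

section

variable {θ : Ordinal.{u}} {X : Set Ordinal.{u}} (hX : ClosedIn θ X)
include hX

theorem col_code_of {loc : ∀ x ∈ X, lev (col X x) = col X (lev x) ∧ hd (col X x) = col X (hd x) ∧
    tl (col X x) = col X (tl x)} {a b c : Ordinal.{u}} (ha : a ∈ X) (hb : b ∈ X) (hc : c ∈ X)
    (h1 : b ≤ a) (h2 : c ≤ a) (h : code a b c < θ) :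
    col X (code a b c) = code (col X a) (col X b) (col X c) := by
  obtain ⟨e1, e2, e3⟩ := loc _ (hX.code ha hb hc h1 h2 h)
  rw [← code_eq' (col X (code a b c)), e1, e2, e3, lev_code' h1 h2, hd_code' h1 h2,
    tl_code' h1 h2]

theorem ct_main : (∀ x ∈ X, lev (col X x) = col X (lev x) ∧ hd (col X x) = col X (hd x) ∧
    tl (col X x) = col X (tl x)) ∧ ∀ w ∈ X, ∀ v ∈ X, (Mem (col X w) (col X v) ↔ Mem w v) := by
  obtain ⟨inv, hinv, hinv'⟩ := exists_inv X θ
  obtain ⟨H1, H2⟩ := p_REC (col X θ) (fun v => col X (lev (inv v))) (fun v => col X (hd (inv v)))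
    (fun v => col X (tl (inv v))) (fun w v => Mem (inv w) (inv v))
    (by
      intro v hv
      obtain ⟨hx, hxθ, _⟩ := hinv v hv
      exact ⟨col_smono (hX.lev hx) (hX.lt (hX.lev hx)), col_mono X (hd_le' _),
        col_mono X (tl_le' _)⟩)
    (by
      intro v w hvw hw
      obtain ⟨hx, hxθ, hxv⟩ := hinv v (hvw.trans hw)
      obtain ⟨hy, hyθ, hyw⟩ := hinv w hw
      rw [lex_col (hX.lev hx) (hX.hd hx) (hX.tl hx) (hX.lev hy) (hX.hd hy), ← lt_iff',
        ← col_lt_iff hx, hxv, hyw]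
      exact hvw)
    (by
      intro w g h t hw hhg htg hl
      obtain ⟨hy, hyθ, hyw⟩ := hinv w hw
      have hgw : g ≤ col X (lev (inv w)) := by
        rcases hl with h1 | ⟨h1, _⟩
        · exact h1.le
        · exact h1.le
      have hgd : g < col X θ := hgw.trans_lt (col_smono (hX.lev hy) (hX.lt (hX.lev hy)))
      obtain ⟨hg, hgθ, hg'⟩ := hinv g hgd
      obtain ⟨hh, hhθ, hh'⟩ := hinv h (hhg.trans_lt hgd)
      obtain ⟨ht, htθ, ht'⟩ := hinv t (htg.trans_lt hgd)
      have h1 : inv h ≤ inv g := by rw [← col_le_iff hg, hh', hg']; exact hhg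
      have h2 : inv t ≤ inv g := by rw [← col_le_iff hg, ht', hg']; exact htg
      have hlt : code (inv g) (inv h) (inv t) < inv w := by
        rw [← code_eq' (inv w), code_lt_iff h1 h2 (hd_le' _) (tl_le' _), ← lex_col hg hh ht
          (hX.lev hy) (hX.hd hy), hg', hh', ht']
        exact hl
      have hmem := hX.code hg hh ht h1 h2 (hlt.trans hyθ)
      refine ⟨col X (code (inv g) (inv h) (inv t)), col_smono hmem (hX.lt hmem), ?_⟩
      simp only [hinv' _ hmem (hX.lt hmem), lev_code' h1 h2, hd_code' h1 h2, tl_code' h1 h2,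
        hg', hh', ht']
      exact ⟨trivial, trivial, trivial⟩)
  have loc : ∀ x ∈ X, lev (col X x) = col X (lev x) ∧ hd (col X x) = col X (hd x) ∧
      tl (col X x) = col X (tl x) := by
    intro x hx
    obtain ⟨a, b, c⟩ := H1 (col X x) (col_smono hx (hX.lt hx))
    rw [hinv' x hx (hX.lt hx)] at a b c
    exact ⟨a.symm, b.symm, c.symm⟩
  have hcode : ∀ {a b c : Ordinal.{u}}, a ∈ X → b ∈ X → c ∈ X → b ≤ a → c ≤ a → code a b c < θ →
      col X (code a b c) = code (col X a) (col X b) (col X c) := fun ha hb hc h1 h2 h =>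
    col_code_of hX (loc := loc) ha hb hc h1 h2 h
  have hJ : ∀ {a b : Ordinal.{u}}, a ∈ X → b ∈ X → J a b < θ →
      col X (J a b) = J (col X a) (col X b) := by
    intro a b ha hb h
    rw [J, hcode (max_mem' ha hb) ha hb (le_max_left _ _) (le_max_right _ _) h, col_max, J]
  have htl : ∀ {w : Ordinal.{u}} (i : ℕ), w ∈ X → col X (tl^[i] w) = tl^[i] (col X w) := by
    intro w i hw
    induction i with
    | zero => rfl
    | succ n ih =>
      rw [Function.iterate_succ_apply', Function.iterate_succ_apply', ← ih,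
        (loc _ (hX.tl_iter hw n)).2.2]
  have hvar : ∀ {w : Ordinal.{u}} (i : ℕ), w ∈ X → col X (var i w) = var i (col X w) := by
    intro w i hw
    rw [var, var, ← htl i hw, (loc _ (hX.tl_iter hw i)).2.1]
  have hMM : ∀ w v, w < col X θ → v < col X θ → (Mem (inv w) (inv v) ↔ Mem w v) := by
    refine H2 ?_ ?_
    · intro w v hw hv hm
      obtain ⟨hx, hxθ, hxv⟩ := hinv v hv
      obtain ⟨hy, hyθ, hyw⟩ := hinv w hw
      obtain ⟨m1, m2, m3, p, m4, _⟩ := (mem_iff' _ _).mp hm
      obtain ⟨e1, e2, e3⟩ := loc _ hx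
      rw [hxv] at e1 e2 e3
      have e1' := (loc _ (hX.lev hx)).1
      rw [← e1, m1] at e1'
      refine ⟨e1'.trans e1.symm, ?_, ?_, p, ?_⟩
      · rw [e1, ← hyw]; exact col_smono hy m2
      · rw [e1, e3]; exact col_smono (hX.tl hx) m3
      · rw [e2, m4]
        exact hX.col_nat (by rw [← m4]; exact hX.lt (hX.hd hx))
    · intro w v hw hv h1 h2 h3
      obtain ⟨hx, hxθ, hxv⟩ := hinv v hv
      obtain ⟨hy, hyθ, hyw⟩ := hinv w hw
      generalize inv v = x at hx hxθ hxv ⊢
      generalize inv w = y at hy hyθ hyw ⊢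
      obtain ⟨e1, e2, e3⟩ := loc _ hx
      rw [hxv] at e1 e2 e3
      have e1' := (loc _ (hX.lev hx)).1
      rw [← e1, h1] at e1'
      have l1 : lev (lev x) = lev x := by
        refine col_inj (hX.lev (hX.lev hx)) (hX.lev hx) ?_
        rw [← e1', e1]
      have l2 : y < lev x := by rw [← col_lt_iff hy, hyw, ← e1]; exact h2
      have l3 : tl x < lev x := by rw [← col_lt_iff (hX.tl hx), ← e3, ← e1]; exact h3
      have hlevθ : lev x < θ := hX.lt (hX.lev hx)
      have hu1 : J y (tl x) < lev x := J_lt' l1 l2 l3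
      have hu2 : J y (tl x) ∈ X := hX.J hy (hX.tl hx) (hu1.trans hlevθ)
      have hu3 : J w (tl v) = col X (J y (tl x)) := by
        rw [hJ hy (hX.tl hx) (hu1.trans hlevθ), hyw, e3]
      have hv1 : ∀ i, var i (J w (tl v)) = col X (var i (J y (tl x))) := by
        intro i; rw [hu3, hvar i hu2]
      have hv2 : ∀ i, var i (J y (tl x)) ∈ X := fun i => hX.var hu2 i
      have hv3 : ∀ i, var i (J y (tl x)) < lev x := fun i => (var_le' i _).trans_lt hu1
      have hhd : ∀ p : Fm, hd v = (idx p : Ordinal.{u}) → hd x = (idx p : Ordinal.{u}) := by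
        intro p hp
        rw [e2] at hp
        have h5 : (idx p : Ordinal.{u}) < θ := by
          rw [← hp]; exact (col_le X _).trans_lt (hX.lt (hX.hd hx))
        refine col_inj (hX.hd hx) (hX.nat h5) ?_
        rw [hp, hX.col_nat h5]
      have hsat : ∀ p : Fm, hd v = (idx p : Ordinal.{u}) →
          (Mem y x ↔ SatE (lev x) Mem p (fun i => var i (J y (tl x)))) := by
        intro p hp
        exact mem_of_loc l1 l2 l3 (hhd p hp)
      have hsub : ∀ (p q : Fm) (a : Ordinal.{u}), hd v = (idx p : Ordinal.{u}) → idx q < idx p →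
          a ∈ X → a < lev x → (code (lev x) (idx q : Ordinal.{u}) a ∈ X ∧
            col X (code (lev x) (idx q : Ordinal.{u}) a) =
              code (lev v) (idx q : Ordinal.{u}) (col X a) ∧
            ∀ z < lev x, (Mem z (code (lev x) (idx q : Ordinal.{u}) a) ↔
              SatE (lev x) Mem q (fun i => var i (J z a)))) := by
        intro p q a hp hq ha ha'
        have hq1 : (idx q : Ordinal.{u}) ≤ lev x := by
          refine le_trans ?_ (hd_le' x)
          rw [hhd p hp]; exact_mod_cast hq.le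
        have hq2 : (idx q : Ordinal.{u}) < θ := hq1.trans_lt hlevθ
        have f1 : lev (code (lev x) (idx q : Ordinal.{u}) a) = lev x := lev_code' hq1 ha'.le
        have f2 : hd (code (lev x) (idx q : Ordinal.{u}) a) = idx q := hd_code' hq1 ha'.le
        have f3 : tl (code (lev x) (idx q : Ordinal.{u}) a) = a := tl_code' hq1 ha'.le
        have hlt : code (lev x) (idx q : Ordinal.{u}) a < x := by
          rw [lt_iff', f1, f2, f3, hhd p hp]
          exact Or.inr ⟨rfl, Or.inl (by exact_mod_cast hq)⟩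
        refine ⟨hX.code (hX.lev hx) (hX.nat hq2) ha hq1 ha'.le (hlt.trans hxθ), ?_, ?_⟩
        · rw [hcode (hX.lev hx) (hX.nat hq2) ha hq1 ha'.le (hlt.trans hxθ), hX.col_nat hq2, e1]
        · intro z hz
          rw [mem_of_loc (p := q) (by rw [f1, l1]) (by rwa [f1]) (by rwa [f1, f3]) f2, f1, f3]
      have hinvc : ∀ z ∈ X, inv (col X z) = z := fun z hz => hinv' z hz (hX.lt hz)
      refine ⟨?_, ?_, ?_, ?_, ?_, ?_⟩
      · intro i j hp
        rw [hsat _ hp, SatE, hv1, hv1, col_lt_iff (hv2 i)]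
      · intro i j hp
        rw [hsat _ hp, SatE, hv1, hv1, hinvc _ (hv2 i), hinvc _ (hv2 j)]
      · intro i j k hp
        rw [hsat _ hp, SatE, hv1, hv1, hv1]
        have hlt : J (var i (J y (tl x))) (var j (J y (tl x))) < θ :=
          (J_lt' l1 (hv3 i) (hv3 j)).trans hlevθ
        rw [← hJ (hv2 i) (hv2 j) hlt]
        exact ⟨fun h => by rw [h], fun h => col_inj (hX.J (hv2 i) (hv2 j) hlt) (hv2 k) h⟩
      · intro p hp
        obtain ⟨s1, s2, s3⟩ := hsub _ p (tl x) hp (idx_neg p) (hX.tl hx) l3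
        rw [hsat _ hp, SatE, ← s3 y l2, e3, ← s2, hinvc _ s1]
      · intro p q hp
        obtain ⟨s1, s2, s3⟩ := hsub _ p (tl x) hp (idx_and1 p q) (hX.tl hx) l3
        obtain ⟨t1, t2, t3⟩ := hsub _ q (tl x) hp (idx_and2 p q) (hX.tl hx) l3
        rw [hsat _ hp, SatE, ← s3 y l2, ← t3 y l2, e3, ← s2, ← t2, hinvc _ s1, hinvc _ t1]
      · intro p hp
        obtain ⟨s1, s2, s3⟩ := hsub _ p (J y (tl x)) hp (idx_ex p) hu2 hu1
        rw [hsat _ hp, SatE, hu3, ← s2, hinvc _ s1]
        constructor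
        · rintro ⟨z, hz, hz'⟩
          rw [← env_J, ← s3 z hz] at hz'
          obtain ⟨m, hm1, hm2⟩ := exists_mn hz'
          have hmX : m ∈ X := hX.mn s1 hm2
          refine ⟨col X m, ?_, ?_⟩
          · rw [e1]; exact col_smono hmX (hm1.trans_lt hz)
          · rw [hinvc _ hmX]; exact hm2.1
        · rintro ⟨z, hz, hz'⟩
          have hzd : z < col X θ := by
            rw [e1] at hz; exact hz.trans (col_smono (hX.lev hx) hlevθ)
          obtain ⟨hz1, hz2, hz3⟩ := hinv z hzd
          have hz4 : inv z < lev x := by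
            rw [← col_lt_iff hz1, hz3, ← e1]; exact hz
          refine ⟨inv z, hz4, ?_⟩
          rw [← env_J, ← s3 _ hz4]
          exact hz'
  refine ⟨loc, fun w hw v hv => ?_⟩
  rw [← hMM _ _ (col_smono hw (hX.lt hw)) (col_smono hv (hX.lt hv)), hinv' w hw (hX.lt hw),
    hinv' v hv (hX.lt hv)]

theorem ct_lev {x : Ordinal.{u}} (hx : x ∈ X) : lev (col X x) = col X (lev x) :=
  ((ct_main hX).1 x hx).1

theorem ct_hd {x : Ordinal.{u}} (hx : x ∈ X) : hd (col X x) = col X (hd x) :=
  ((ct_main hX).1 x hx).2.1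

theorem ct_tl {x : Ordinal.{u}} (hx : x ∈ X) : tl (col X x) = col X (tl x) :=
  ((ct_main hX).1 x hx).2.2

theorem ct_mem {w v : Ordinal.{u}} (hw : w ∈ X) (hv : v ∈ X) :
    Mem (col X w) (col X v) ↔ Mem w v := (ct_main hX).2 w hw v hv

theorem ct_code {a b c : Ordinal.{u}} (ha : a ∈ X) (hb : b ∈ X) (hc : c ∈ X)
    (h1 : b ≤ a) (h2 : c ≤ a) (h : code a b c < θ) :
    col X (code a b c) = code (col X a) (col X b) (col X c) :=
  col_code_of hX (loc := (ct_main hX).1) ha hb hc h1 h2 h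

theorem ct_J {a b : Ordinal.{u}} (ha : a ∈ X) (hb : b ∈ X) (h : J a b < θ) :
    col X (J a b) = J (col X a) (col X b) := by
  rw [J, ct_code hX (max_mem' ha hb) ha hb (le_max_left _ _) (le_max_right _ _) h, col_max, J]

theorem ct_code' {a b c : Ordinal.{u}} (ha : a ∈ X) (hb : b ∈ X) (hc : c ∈ X)
    (h1 : b ≤ a) (h2 : c ≤ a) (h : code (col X a) (col X b) (col X c) < col X θ) :
    code a b c < θ := by
  obtain ⟨x, hx, hxθ, h'⟩ := col_onto h
  have e1 := ct_lev hX hx
  have e2 := ct_hd hX hx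
  have e3 := ct_tl hX hx
  have h1' := col_mono X h1
  have h2' := col_mono X h2
  rw [h', lev_code' h1' h2'] at e1
  rw [h', hd_code' h1' h2'] at e2
  rw [h', tl_code' h1' h2'] at e3
  rw [col_inj ha (hX.lev hx) e1, col_inj hb (hX.hd hx) e2, col_inj hc (hX.tl hx) e3, code_eq']
  exact hxθ

theorem ct_mn {w v : Ordinal.{u}} (hw : w ∈ X) (hv : v ∈ X) :
    IsMn (col X w) (col X v) ↔ IsMn w v := by
  constructor
  · rintro ⟨h1, h2⟩
    rw [ct_mem hX hw hv] at h1
    obtain ⟨m, hm1, hm2⟩ := exists_mn h1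
    rcases hm1.eq_or_lt with h3 | h3
    · rw [← h3]; exact hm2
    · have hmX := hX.mn hv hm2
      exact absurd ((ct_mem hX hmX hv).mpr hm2.1) (h2 _ (col_smono hmX h3))
  · rintro ⟨h1, h2⟩
    refine ⟨(ct_mem hX hw hv).mpr h1, fun z hz hz' => ?_⟩
    obtain ⟨z', hz1, hz2, rfl⟩ := col_onto hz
    exact h2 z' hz2 ((ct_mem hX hz1 hv).mp hz')

end

end Pool.Agent.LMach
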