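import Pool.Agent.LMach.Base

/-!
# Closed points of countably many functions
-/

open Set Cardinal Order

universe u

namespace Pool.Agent.LMach

/-- Countable sequences below `ν` are bounded below `ν`. -/
def Unc (ν : Ordinal.{u}) : Prop :=
  ∀ f : ℕ → Ordinal.{u}, (∀ n, f n < ν) → ∃ b < ν, ∀ n, f n < b

/-- `a` is closed under the functions `G i`. -/
def ClPt {ι : Type} (G : ι → List Ordinal.{u} → Ordinal.{u}) (a : Ordinal.{u}) : Prop :=
  ∀ i l, (∀ b ∈ l, b < a) → G i l < a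

theorem ClPt.limit {ι : Type} {G : ι → List Ordinal.{u} → Ordinal.{u}} {a : Ordinal.{u}}
    (h0 : 0 < a) (h : ∀ x < a, ∃ y < a, x < y ∧ ClPt G y) : ClPt G a := by
  intro i l hl
  obtain ⟨x, hx, hlx⟩ : ∃ x < a, ∀ b ∈ l, b ≤ x := by
    induction l with
    | nil => exact ⟨0, h0, by simp⟩
    | cons c l ih =>
      obtain ⟨x, hx, hx'⟩ := ih (fun b hb => hl b (List.mem_cons_of_mem _ hb))
      refine ⟨max c x, max_lt (hl c (by simp)) hx, ?_⟩
      intro b hb
      rcases List.mem_cons.mp hb with h1 | h1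
      · rw [h1]; exact le_max_left _ _
      · exact (hx' b h1).trans (le_max_right _ _)
  obtain ⟨y, hy, hxy, hc⟩ := h x hx
  exact (hc i l (fun b hb => (hlx b hb).trans_lt hxy)).trans hy

theorem exists_clPt {ι : Type} [Countable ι] (G : ι → List Ordinal.{u} → Ordinal.{u})
    {μ : Cardinal.{u}} (h0 : ℵ₀ < μ) (hμ : μ.IsRegular)
    (hG : ∀ i l, (∀ b ∈ l, b < μ.ord) → G i l < μ.ord) {x : Ordinal.{u}} (hx : x < μ.ord) :
    ∃ a < μ.ord, x < a ∧ ClPt G a := by
  have hb : ∀ y, ∃ b, y < μ.ord → b < μ.ord ∧ y < b ∧ ∀ i l, (∀ c ∈ l, c < y) → G i l < b := by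
    intro y
    by_cases hy : y < μ.ord
    · choose f hf1 hf2 using fun i => bddList h0 hμ (G i) hy
        (fun l hl => hG i l (fun a ha => (hl a ha).trans hy))
      obtain ⟨b, hb, hb'⟩ := bddNat h0 hμ f hf1
      refine ⟨max b (y + 1), fun _ => ⟨max_lt hb (succ_lt h0.le hy),
        lt_max_of_lt_right (lt_add_one y), fun i l hl => ?_⟩⟩
      exact lt_max_of_lt_left ((hf2 i l hl).trans (hb' i))
    · exact ⟨0, fun h => absurd h hy⟩
  choose b hb using hb
  let f : ℕ → Ordinal.{u} := fun n => Nat.rec x (fun _ y => b y) n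
  have hf1 : ∀ n, f (n + 1) = b (f n) := fun n => rfl
  have hf : ∀ n, f n < μ.ord := by
    intro n
    induction n with
    | zero => exact hx
    | succ n ih => rw [hf1]; exact (hb _ ih).1
  obtain ⟨c, hc, hc'⟩ := bddNat h0 hμ f hf
  have hbd : BddAbove (range f) := ⟨c, by rintro _ ⟨n, rfl⟩; exact (hc' n).le⟩
  have hlt : ∀ n, f n < ⨆ n, f n := fun n =>
    lt_of_lt_of_le (by rw [hf1]; exact (hb _ (hf n)).2.1) (le_ciSup hbd (n + 1))
  refine ⟨⨆ n, f n, (ciSup_le fun n => (hc' n).le).trans_lt hc, hlt 0, ?_⟩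
  intro i l hl
  obtain ⟨n, hn⟩ : ∃ n, ∀ a ∈ l, a < f n := by
    induction l with
    | nil => exact ⟨0, by simp⟩
    | cons a l ih =>
      obtain ⟨n, hn⟩ := ih (fun b hb => hl b (List.mem_cons_of_mem _ hb))
      obtain ⟨m, hm⟩ := exists_lt_of_lt_ciSup (hl a (by simp))
      have hmono : Monotone f := monotone_nat_of_le_succ fun n => by
        rw [hf1]; exact (hb _ (hf n)).2.1.le
      refine ⟨max n m, fun b hb => ?_⟩
      rcases List.mem_cons.mp hb with h1 | h1
      · rw [h1]; exact hm.trans_le (hmono (le_max_right _ _))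
      · exact (hn b h1).trans_le (hmono (le_max_left _ _))
  have := (hb _ (hf n)).2.2 i l hn
  rw [← hf1] at this
  exact this.trans (hlt (n + 1))

/-- transfinite iteration -/
noncomputable def iter (nx : Ordinal.{u} → Ordinal.{u}) (i : Ordinal.{u}) : Ordinal.{u} :=
  nx (⨆ j : Iio i, iter nx j.1)
termination_by i
decreasing_by exact j.2

theorem exists_clPt_unc {ι : Type} [Countable ι] (G : ι → List Ordinal.{u} → Ordinal.{u})
    {μ : Cardinal.{u}} (h1 : ℵ₁ < μ) (hμ : μ.IsRegular)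
    (hG : ∀ i l, (∀ b ∈ l, b < μ.ord) → G i l < μ.ord) {x : Ordinal.{u}} (hx : x < μ.ord) :
    ∃ a < μ.ord, x < a ∧ ClPt G a ∧ Unc a := by
  have h0 : ℵ₀ < μ := aleph0_lt_aleph_one.trans h1
  have hnx : ∀ y, ∃ z, y < μ.ord → z < μ.ord ∧ max x y < z ∧ ClPt G z := by
    intro y
    by_cases hy : y < μ.ord
    · obtain ⟨a, ha, hxa, hca⟩ := exists_clPt G h0 hμ hG (max_lt hx hy)
      exact ⟨a, fun _ => ⟨ha, hxa, hca⟩⟩
    · exact ⟨0, fun h => absurd h hy⟩
  choose nx hnx using hnx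
  have hit : ∀ i, iter nx i = nx (⨆ j : Iio i, iter nx j.1) := fun i => by
    conv_lhs => rw [iter]
  have hsup : ∀ i, i < μ.ord → (∀ j < i, iter nx j < μ.ord) →
      (⨆ j : Iio i, iter nx j.1) < μ.ord := by
    intro i hi hj
    obtain ⟨b, hb, hb'⟩ := bddIio hμ (iter nx) hi hj
    refine lt_of_le_of_lt (Ordinal.iSup_le fun j => (hb' j.1 j.2).le) hb
  have hlt : ∀ i, i < μ.ord → iter nx i < μ.ord := by
    intro i
    induction i using WellFoundedLT.induction with
    | _ i ih =>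
      intro hi
      rw [hit]
      exact (hnx _ (hsup i hi fun j hj => ih j hj (hj.trans hi))).1
  have hprop : ∀ i, i < μ.ord → (⨆ j : Iio i, iter nx j.1) < iter nx i ∧ x < iter nx i ∧
      ClPt G (iter nx i) := by
    intro i hi
    have := hnx _ (hsup i hi fun j hj => hlt j (hj.trans hi))
    rw [← hit] at this
    exact ⟨(le_max_right _ _).trans_lt this.2.1, (le_max_left _ _).trans_lt this.2.1, this.2.2⟩
  have hmono : ∀ i j, i < j → j < μ.ord → iter nx i < iter nx j := by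
    intro i j hij hj
    exact lt_of_le_of_lt (Ordinal.le_iSup (fun k : Iio j => iter nx k.1) ⟨i, hij⟩)
      (hprop j hj).1
  have hw : (ℵ₁ : Cardinal.{u}).ord < μ.ord := ord_lt_ord.mpr h1
  have hreg1 : (ℵ₁ : Cardinal.{u}).IsRegular := isRegular_aleph_one
  set a : Ordinal.{u} := ⨆ j : Iio (ℵ₁ : Cardinal.{u}).ord, iter nx j.1 with ha
  have haμ : a < μ.ord := hsup _ hw fun j hj => hlt j (hj.trans hw)
  have hja : ∀ j, j < (ℵ₁ : Cardinal.{u}).ord → iter nx j < a := by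
    intro j hj
    have h2 : j + 1 < (ℵ₁ : Cardinal.{u}).ord := succ_lt (aleph0_le_aleph 1) hj
    exact lt_of_lt_of_le (hmono j (j + 1) (lt_add_one j) (h2.trans hw))
      (Ordinal.le_iSup (fun k : Iio (ℵ₁ : Cardinal.{u}).ord => iter nx k.1) ⟨j + 1, h2⟩)
  have hex : ∀ y < a, ∃ j < (ℵ₁ : Cardinal.{u}).ord, y < iter nx j := by
    intro y hy
    by_contra hcon
    push Not at hcon
    refine absurd (Ordinal.iSup_le (f := fun k : Iio (ℵ₁ : Cardinal.{u}).ord => iter nx k.1)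
      (a := y) fun j => hcon j.1 j.2) (not_le.mpr hy)
  have h00 : (0 : Ordinal.{u}) < (ℵ₁ : Cardinal.{u}).ord :=
    lt_of_le_of_lt zero_le (ord_lt_ord.mpr aleph0_lt_aleph_one)
  refine ⟨a, haμ, (hprop 0 (h00.trans hw)).2.1.trans (hja 0 h00), ?_, ?_⟩
  · refine ClPt.limit (lt_of_le_of_lt zero_le (hja 0 h00)) fun y hy => ?_
    obtain ⟨j, hj, hyj⟩ := hex y hy
    exact ⟨_, hja j hj, hyj, (hprop j (hj.trans hw)).2.2⟩
  · intro f hf
    choose j hj hfj using fun n => hex (f n) (hf n)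
    obtain ⟨b, hb, hb'⟩ := bddNat aleph0_lt_aleph_one hreg1 j hj
    exact ⟨iter nx b, hja b hb, fun n => (hfj n).trans (hmono _ _ (hb' n) (hb.trans hw))⟩

end Pool.Agent.LMach
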