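import Pool.Agent.LMach.CohKey

/-!
# The coherent sequence is coherent: `T_COH` and `T_COHX`
-/

open Set Cardinal

universe u

namespace Pool.Agent.LMach

open CohP

/-- Basic facts about `th`, `pl`, `CS`. -/
theorem p_COHX (hLOC : T_LOC.{u}) (hCT : T_CT.{u}) (hTR : T_TR.{u}) (hCL : T_CL.{u})
    (hHULL : T_HULL.{u}) (hTRANS : T_TRANS.{u}) : T_COHX.{u} := by
  have H : Hy.{u} := ⟨hLOC, hCT, hTR, hCL, hHULL, hTRANS⟩
  refine ⟨?_, ?_, ?_, ?_, ?_, ?_⟩
  · intro l τ e hτ he hn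
    exact ⟨(th_mem H hτ he hn).1, th_le_of (thSet_e H hτ he hn)⟩
  · intro l τ e hτ he hn
    exact th_lim H hτ he hn
  · intro l τ e hτ he hn
    exact (pl_mem H hτ he hn).1
  · intro l τ e hτ he hn
    exact hull_pl H hτ he hn
  · intro l τ e r p hτ he hn hr hrt hp
    exact th_min hr hrt hp
  · intro l τ e r hτ he hn hr
    exact dd H hτ hr

/-- The coherent sequence is coherent. -/
theorem p_COH (hLOC : T_LOC.{u}) (hCT : T_CT.{u}) (hTR : T_TR.{u}) (hCL : T_CL.{u})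
    (hHULL : T_HULL.{u}) (hTRANS : T_TRANS.{u}) : T_COH.{u} := by
  have H : Hy.{u} := ⟨hLOC, hCT, hTR, hCL, hHULL, hTRANS⟩
  intro l top e htop hn
  refine ⟨?_, ?_, ?_, ?_, ?_⟩
  · intro τ h0 h
    exact colS_of_unb h0 h
  · intro τ _ _ d hd
    rcases hd with ⟨hτl, r, hr, rfl⟩ | ⟨-, h1, h2, -⟩
    · obtain ⟨h1, h2, -⟩ := dd H hτl hr
      exact ⟨h2, h1⟩
    · exact ⟨h1, h2⟩
  · intro τ hτK hτtop x hx hxτ
    by_cases hτl : LimC l τ
    · obtain ⟨r, hr, hxr⟩ := exists_RR H hτl (hτtop.trans htop) hn x hxτ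
      exact ⟨_, (cs_iff hτl).2 ⟨r, hr, rfl⟩, hxr.le⟩
    · -- the largest element of the class below `τ`
      let B : Set Ordinal.{u} := {y | ColS l y ∧ y < τ}
      have hBne : B.Nonempty := ⟨x, hx, hxτ⟩
      have hBb : BddAbove B := ⟨τ, fun y hy => hy.2.le⟩
      have hlτ : l < τ := (show ColS l τ from hτK).1
      have hnu : ¬ UnbBelow (ColS l) τ := fun h => hτl ⟨hlτ, h⟩
      unfold UnbBelow at hnu
      push Not at hnu
      obtain ⟨b, hb, hbb⟩ := hnu
      have hle : ∀ y ∈ B, y ≤ b := by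
        intro y hy
        by_contra hcon
        rw [not_le] at hcon
        exact hbb y hy.2 hcon hy.1
      have hsb : sSup B ≤ b := csSup_le hBne hle
      have hsτ : sSup B < τ := lt_of_le_of_lt hsb hb
      have hmem : sSup B ∈ B := by
        by_contra hcon
        have hlt : ∀ y ∈ B, y < sSup B := by
          intro y hy
          refine lt_of_le_of_ne (le_csSup hBb hy) ?_
          rintro rfl
          exact hcon hy
        refine hcon ⟨colS_of_unb (lt_of_le_of_lt zero_le (hlt x ⟨hx, hxτ⟩)) ?_, hsτ⟩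
        intro y hy
        obtain ⟨z, hz, hyz⟩ := exists_lt_of_lt_csSup hBne hy
        exact ⟨z, hlt z hz, hyz, hz.1⟩
      exact ⟨sSup B, Or.inr ⟨hτl, hmem.1, hmem.2, fun d' h1 h2 => le_csSup hBb ⟨h1, h2⟩⟩,
        le_csSup hBb ⟨hx, hxτ⟩⟩
  · intro τ _ hτtop d hdτ h0 hun
    have hτl := limC_of_unb h0 hun
    obtain ⟨rs, hk⟩ := exists_key H hτl (hτtop.trans htop) hn h0 hdτ hun
    exact (cs_iff hτl).2 ⟨rs, hk.rr, hk.dd.symm⟩
  · intro τ _ hτtop d hdτ h0 hun
    have hτl := limC_of_unb h0 hun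
    obtain ⟨rs, hk⟩ := exists_key H hτl (hτtop.trans htop) hn h0 hdτ hun
    exact key_coh H hτl (hτtop.trans htop) hn hk hdτ (limC_delta H hτl h0 hun)

end Pool.Agent.LMach
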