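import Pool.Agent.LMach.Spec

/-!
# The coherent sequence: basic facts and the key lemma (BLUEPRINT section 5)
-/

open Set Cardinal

universe u

namespace Pool.Agent.LMach

namespace CohP

/-- The hypotheses of this module. -/
structure Hy : Prop where
  loc : T_LOC.{u}
  ct : T_CT.{u}
  tr : T_TR.{u}
  cl : T_CL.{u}
  hull : T_HULL.{u}
  trans : T_TRANS.{u}

/-! ### Order facts -/

theorem colS_of_unb {l τ : Ordinal.{u}} (h0 : 0 < τ) (h : UnbBelow (ColS l) τ) : ColS l τ := by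
  refine ⟨?_, ?_, ?_⟩
  · obtain ⟨y, hy, -, hyc⟩ := h 0 h0
    exact hyc.1.trans hy
  · intro x hx
    obtain ⟨y, hy, hxy, hyc⟩ := h x hx
    exact (hyc.2.1 x hxy).trans hy
  · intro y hly hy
    obtain ⟨z, hz, hyz, hzc⟩ := h y hy
    obtain ⟨v, hv, hu⟩ := hzc.2.2 y hly hyz
    exact ⟨v, hv.trans hz, hu⟩

theorem limC_colS {l τ : Ordinal.{u}} (h : LimC l τ) : ColS l τ :=
  colS_of_unb (lt_of_le_of_lt (zero_le) h.1) h.2

theorem lt_add_one' (x : Ordinal.{u}) : x < x + 1 := by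
  exact lt_add_one x

theorem add_one_le' {x y : Ordinal.{u}} (h : x < y) : x + 1 ≤ y := Order.add_one_le_of_lt h

/-! ### Shortlex -/

/-- The order on lists. -/
abbrev SL (p q : List Ordinal.{u}) : Prop := List.Shortlex (fun a b : Ordinal.{u} => a < b) p q

theorem sl_map_le (f : Ordinal.{u} → Ordinal.{u}) (hf : ∀ x, f x ≤ x) :
    ∀ p : List Ordinal.{u}, p.map f ≠ p → SL (p.map f) p
  | [], h => absurd rfl h
  | a :: p, h => by
    rcases (hf a).lt_or_eq with ha | ha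
    · exact List.Shortlex.of_lex (by simp) (List.Lex.rel ha)
    · have hp : p.map f ≠ p := by
        intro hp
        apply h
        simp [ha, hp]
      have := sl_map_le f hf p hp
      have h2 : List.Shortlex (fun a b : Ordinal.{u} => a < b) (a :: p.map f) (a :: p) :=
        List.shortlex_cons_iff.2 this
      simpa [ha] using h2

theorem sl_map (f : Ordinal.{u} → Ordinal.{u}) (Y : Set Ordinal.{u})
    (hf : ∀ x ∈ Y, ∀ y, x < y → f x < f y) (p q : List Ordinal.{u})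
    (hp : ∀ x ∈ p, x ∈ Y) (h : SL p q) : SL (p.map f) (q.map f) := by
  rcases List.shortlex_def.1 h with h | ⟨h1, h2⟩
  · exact List.Shortlex.of_length_lt (by simpa using h)
  · refine List.Shortlex.of_lex (by simpa using h1) ?_
    clear h h1
    induction h2 with
    | nil => exact List.Lex.nil
    | cons h ih =>
      exact List.Lex.cons (ih (fun x hx => hp x (List.mem_cons_of_mem _ hx)))
    | rel h => exact List.Lex.rel (hf _ (hp _ List.mem_cons_self) _ h)

theorem sl_tri (p q : List Ordinal.{u}) (h1 : ¬ SL p q) (h2 : ¬ SL q p) : p = q := by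
  have : Std.Trichotomous (List.Shortlex (fun a b : Ordinal.{u} => a < b)) := inferInstance
  exact this.trichotomous p q h1 h2

theorem sl_map' (f : Ordinal.{u} → Ordinal.{u}) (Y : Set Ordinal.{u})
    (hf : ∀ x ∈ Y, ∀ y, x < y → f x < f y) (p q : List Ordinal.{u})
    (_hp : ∀ x ∈ p, x ∈ Y) (hq : ∀ x ∈ q, x ∈ Y) (h : SL (p.map f) (q.map f)) : SL p q := by
  by_contra hn
  have hasymm : Std.Asymm (List.Shortlex (fun a b : Ordinal.{u} => a < b)) := inferInstance
  by_cases h2 : SL q p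
  · exact hasymm.asymm _ _ h (sl_map f Y hf q p hq h2)
  · have := sl_tri p q hn h2
    subst this
    exact hasymm.asymm _ _ h h

/-! ### Hulls -/

theorem hull_l {l θ x : Ordinal.{u}} {p : List Ordinal.{u}} (hx : x ≤ l) (h : x < θ) :
    Hull l θ p x := Cl.base (Or.inl hx) h

theorem hull_p {l θ x : Ordinal.{u}} {p : List Ordinal.{u}} (hx : x ∈ p) (h : x < θ) :
    Hull l θ p x := Cl.base (Or.inr hx) h

theorem hull_lt (H : Hy.{u}) {l θ x : Ordinal.{u}} {p : List Ordinal.{u}} (h : Hull l θ p x) :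
    x < θ := H.cl.lt _ _ _ h

theorem hull_mono (H : Hy.{u}) {l θ θ' x : Ordinal.{u}} {p : List Ordinal.{u}} (hθ : θ ≤ θ')
    (h : Hull l θ p x) : Hull l θ' p x := H.cl.mono _ _ _ _ _ hθ subset_rfl h

theorem image_Q (H : Hy.{u}) {X : Set Ordinal.{u}} {l : Ordinal.{u}} (hl : ∀ x ≤ l, x ∈ X)
    (p : List Ordinal.{u}) :
    col X '' (Iic l ∪ {x | x ∈ p}) = Iic l ∪ {x | x ∈ p.map (col X)} := by
  have hid : ∀ x ≤ l, col X x = x := fun x hx =>
    H.ct.ident X x (fun y hy => hl y (hy.le.trans hx))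
  ext y
  constructor
  · rintro ⟨x, hx | hx, rfl⟩
    · left
      show col X x ≤ l
      rw [hid x hx]
      exact hx
    · right
      exact List.mem_map_of_mem hx
  · rintro (hy | hy)
    · exact ⟨y, Or.inl hy, hid y hy⟩
    · obtain ⟨x, hx, rfl⟩ := List.mem_map.1 hy
      exact ⟨x, Or.inr hx, rfl⟩

theorem hull_col (H : Hy.{u}) {θ : Ordinal.{u}} {X : Set Ordinal.{u}} (hX : ClosedIn θ X)
    {r : Ordinal.{u}} (hr : r ∈ X ∨ r = θ) {l : Ordinal.{u}} {p : List Ordinal.{u}}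
    (hl : ∀ x ≤ l, x ∈ X) (hp : ∀ x ∈ p, x ∈ X) (y : Ordinal.{u}) :
    Hull l (col X r) (p.map (col X)) y ↔ ∃ x, Hull l r p x ∧ col X x = y := by
  have hQ : Iic l ∪ {x | x ∈ p} ⊆ X := by
    rintro x (hx | hx)
    · exact hl x hx
    · exact hp x hx
  have := H.tr θ X hX r (Iic l ∪ {x | x ∈ p}) hr hQ
  rw [image_Q H hl p] at this
  exact Set.ext_iff.1 this y

/-! ### (a): the ordinal `th l τ` -/

section basic

variable {l τ e : Ordinal.{u}}

/-- The set whose infimum is `th l τ`. -/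
def ThSet (l τ : Ordinal.{u}) : Set Ordinal.{u} :=
  {θ | τ ≤ θ ∧ ∃ p : List Ordinal.{u}, (∀ x ∈ p, x < θ) ∧ UnbBelow (Hull l θ p) τ}

theorem thSet_e (H : Hy.{u}) (hτ : LimC l τ) (he : τ ≤ e) (hn : New l e) :
    e + 1 ∈ ThSet l τ := by
  refine ⟨he.trans (lt_add_one' e).le, [e], ?_, ?_⟩
  · intro x hx
    rw [List.mem_singleton] at hx
    rw [hx]
    exact lt_add_one' e
  · intro x hx
    have hc := limC_colS hτ
    exact ⟨x + 1, hc.2.1 x hx, lt_add_one' x, H.hull l e hn _ ((hc.2.1 x hx).le.trans he)⟩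

theorem th_mem (H : Hy.{u}) (hτ : LimC l τ) (he : τ ≤ e) (hn : New l e) :
    th l τ ∈ ThSet l τ := csInf_mem ⟨_, thSet_e H hτ he hn⟩

theorem th_le_of (h : e ∈ ThSet l τ) : th l τ ≤ e := csInf_le' h

theorem th_lim (H : Hy.{u}) (hτ : LimC l τ) (he : τ ≤ e) (hn : New l e) :
    ∀ x < th l τ, x + 1 < th l τ := by
  intro r hr
  by_contra hcon
  have hth : th l τ = r + 1 := le_antisymm (not_lt.1 hcon) (add_one_le' hr)
  obtain ⟨hle, p, hp, hunb⟩ := th_mem H hτ he hn
  have hc := limC_colS hτ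
  have hτr : τ ≤ r := by
    by_contra h
    have := hc.2.1 r (not_le.1 h)
    rw [hth] at hle
    exact absurd hle (not_le.2 this)
  obtain ⟨Hh, hH, hfin⟩ := H.cl.fin r
  have hmem : r ∈ ThSet l τ := by
    refine ⟨hτr, p.filter (fun x => decide (x < r)) ++ Hh, ?_, ?_⟩
    · intro x hx
      rw [List.mem_append, List.mem_filter] at hx
      rcases hx with hx | hx
      · simpa using hx.2
      · exact hH x hx
    · intro x hx
      obtain ⟨y, hy, hxy, hh⟩ := hunb x hx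
      refine ⟨y, hy, hxy, ?_⟩
      rw [hth] at hh
      rcases hfin _ _ hh with h | h
      · exact absurd (h ▸ hy) (not_lt.2 hτr)
      · refine H.cl.idem r r _ _ y le_rfl ?_ h
        intro z hz hzr
        refine Cl.base ?_ hzr
        rcases hz with (hz | hz) | hz
        · exact Or.inl hz
        · exact Or.inr (List.mem_append.2 (Or.inl (List.mem_filter.2 ⟨hz, by simpa using hzr⟩)))
        · exact Or.inr (List.mem_append.2 (Or.inr hz))
  exact absurd (th_le_of hmem) (not_le.2 hr)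

theorem trans_hull (H : Hy.{u}) (hτ : ColS l τ) {r : Ordinal.{u}} (hr : τ ≤ r ∨ ColS l r)
    {p : List Ordinal.{u}} {x y : Ordinal.{u}} (hx : x < τ) (h : Hull l r p x) (hy : y ≤ x) :
    Hull l r p y := by
  rcases hy.lt_or_eq with hy | hy
  · exact H.trans l τ r _ hτ.1 hτ.2.2 hr subset_union_left x hx h y hy
  · rw [hy]
    exact h

theorem plSet_nonempty (H : Hy.{u}) (hτ : LimC l τ) (he : τ ≤ e) (hn : New l e) :
    (PlSet l τ).Nonempty := by
  obtain ⟨hle, p, hp, hunb⟩ := th_mem H hτ he hn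
  refine ⟨p, hp, ?_⟩
  intro x hx
  obtain ⟨y, hy, hxy, hh⟩ := hunb x hx
  exact trans_hull H (limC_colS hτ) (Or.inl hle) hy hh hxy.le

theorem pl_mem (H : Hy.{u}) (hτ : LimC l τ) (he : τ ≤ e) (hn : New l e) :
    pl l τ ∈ PlSet l τ := by
  have h := plSet_nonempty H hτ he hn
  have : pl l τ = WellFounded.min
      (List.Shortlex.wf (r := (fun a b : Ordinal.{u} => a < b)) Ordinal.lt_wf)
      (PlSet l τ) h := by
    unfold pl
    rw [dif_pos h]
  rw [this]
  exact WellFounded.min_mem _ _ _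

theorem pl_min {p : List Ordinal.{u}} (hp : p ∈ PlSet l τ) : ¬ SL p (pl l τ) := by
  have h : (PlSet l τ).Nonempty := ⟨p, hp⟩
  have : pl l τ = WellFounded.min
      (List.Shortlex.wf (r := (fun a b : Ordinal.{u} => a < b)) Ordinal.lt_wf)
      (PlSet l τ) h := by
    unfold pl
    rw [dif_pos h]
  rw [this]
  exact WellFounded.not_lt_min _ _ hp

/-- (c) -/
theorem hull_pl (H : Hy.{u}) (hτ : LimC l τ) (he : τ ≤ e) (hn : New l e) :
    ∀ x < th l τ, Hull l (th l τ) (pl l τ) x := by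
  have hpl := pl_mem H hτ he hn
  have hth := th_mem H hτ he hn
  have hc := limC_colS hτ
  set θ := th l τ with hθ
  set p := pl l τ with hp
  let X : Set Ordinal.{u} := {x | Hull l θ p x}
  have hX : ClosedIn θ X := H.cl.closedIn θ _
  have hτX : ∀ x < τ, x ∈ X := hpl.2
  have hlX : ∀ x ≤ l, x ∈ X := fun x hx => hτX x (lt_of_le_of_lt hx hτ.1)
  have hpX : ∀ x ∈ p, x ∈ X := fun x hx => hull_p hx (hpl.1 x hx)
  have hXlt : ∀ x ∈ X, x < θ := fun x hx => hull_lt H hx
  have hcolτ : col X τ = τ := H.ct.ident X τ hτX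
  have hτθ : τ ≤ col X θ := by
    rw [← hcolτ]
    exact H.ct.mono X _ _ hth.1
  -- the hull of the collapse
  have hull' : ∀ y, Hull l (col X θ) (p.map (col X)) y ↔ y < col X θ := by
    intro y
    rw [hull_col H hX (Or.inr rfl) hlX hpX]
    constructor
    · rintro ⟨x, hx, rfl⟩
      exact H.ct.smono X x θ hx (hXlt x hx)
    · intro hy
      obtain ⟨x, hx, -, hxy⟩ := H.ct.onto X θ y hy
      exact ⟨x, hx, hxy⟩
  have hp' : ∀ x ∈ p.map (col X), x < col X θ := by
    intro x hx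
    obtain ⟨y, hy, rfl⟩ := List.mem_map.1 hx
    exact H.ct.smono X y θ (hpX y hy) (hpl.1 y hy)
  have hq : col X θ ∈ ThSet l τ := by
    refine ⟨hτθ, p.map (col X), hp', ?_⟩
    intro x hx
    exact ⟨x + 1, hc.2.1 x hx, lt_add_one' x,
      (hull' _).2 ((hc.2.1 x hx).trans_le hτθ)⟩
  have hθ' : col X θ = θ := le_antisymm (H.ct.le X θ) (th_le_of hq)
  have hmem : p.map (col X) ∈ PlSet l τ := by
    refine ⟨?_, ?_⟩
    · intro x hx
      have := hp' x hx
      rwa [hθ'] at this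
    · intro x hx
      have := (hull' x).2 (hx.trans_le hτθ)
      rwa [hθ'] at this
  have hpp : p.map (col X) = p := by
    by_contra hne
    exact pl_min hmem (sl_map_le _ (H.ct.le X) p hne)
  intro x hx
  have := (hull' x).2 (by rwa [hθ'])
  rwa [hθ', hpp] at this

theorem th_min {r : Ordinal.{u}} {p : List Ordinal.{u}} (hr : τ ≤ r)
    (hrt : r < th l τ) (hp : ∀ x ∈ p, x < r) : ∃ b < τ, ∀ y < τ, Hull l r p y → y ≤ b := by
  by_contra hcon
  push Not at hcon
  have : r ∈ ThSet l τ := by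
    refine ⟨hr, p, hp, ?_⟩
    intro x hx
    obtain ⟨y, hy, hh, hxy⟩ := hcon x hx
    exact ⟨y, hy, hxy, hh⟩
  exact absurd (th_le_of this) (not_le.2 hrt)

/-! ### (d): the ordinals `DD l τ r` -/

theorem dd (H : Hy.{u}) (hτ : LimC l τ) {r : Ordinal.{u}} (hr : RR l τ r) :
    DD l τ r < τ ∧ ColS l (DD l τ r) ∧ ∀ y < τ, (Hull l r (pl l τ) y ↔ y < DD l τ r) := by
  have hc := limC_colS hτ
  obtain ⟨hr1, hr2, hr3⟩ := hr
  set p := pl l τ with hp
  set D := DD l τ r with hD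
  have hne : ({d | ¬ (d < τ ∧ Hull l r p d)} : Set Ordinal.{u}).Nonempty :=
    ⟨τ, fun h => lt_irrefl _ h.1⟩
  have hDm : ¬ (D < τ ∧ Hull l r p D) := csInf_mem hne
  have hbelow : ∀ y < D, y < τ ∧ Hull l r p y := by
    intro y hy
    by_contra h
    exact absurd (csInf_le' h : D ≤ y) (not_le.2 hy)
  have hiff : ∀ y < τ, (Hull l r p y ↔ y < D) := by
    intro y hy
    constructor
    · intro h
      by_contra hn
      rw [not_lt] at hn
      exact hDm ⟨lt_of_le_of_lt hn hy, trans_hull H hc hr1 hy h hn⟩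
    · exact fun h => (hbelow y h).2
  have hDτ' : D ≤ τ := by
    by_contra h
    rw [not_le] at h
    exact lt_irrefl _ (hbelow τ h).1
  have hDτ : D < τ := by
    refine lt_of_le_of_ne hDτ' ?_
    intro hDe
    rcases le_or_gt τ r with h | h
    · obtain ⟨b, hb, hbb⟩ := th_min h hr3 hr2
      have h1 := hc.2.1 b hb
      have := hbb (b + 1) h1 ((hiff _ h1).2 (by rw [hDe]; exact h1))
      exact absurd this (not_le.2 (lt_add_one' b))
    · have := (hiff r h).2 (by rw [hDe]; exact h)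
      exact lt_irrefl _ (hull_lt H this)
  have hlr : l < r := by
    rcases hr1 with h | h
    · exact hτ.1.trans_le h
    · exact h.1
  have hlH : Hull l r p l := hull_l le_rfl hlr
  refine ⟨hDτ, ⟨(hiff l hτ.1).1 hlH, ?_, ?_⟩, hiff⟩
  · intro x hx
    have h1 : x + 1 < τ := hc.2.1 x (hx.trans hDτ)
    refine (hiff _ h1).1 ?_
    have hxH := (hbelow x hx).2
    refine Cl.succ hxH ?_
    rcases hr1 with h | h
    · exact h1.trans_le h
    · exact h.2.1 x (hull_lt H hxH)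
  · intro y hly hy
    have hyH := (hbelow y hy).2
    rcases le_or_gt τ r with h | h
    · obtain ⟨v, hv, hu⟩ := hc.2.2 y hly (hy.trans hDτ)
      exact ⟨v, (hiff v hv).1 (Cl.up hlH hyH hu (hv.trans_le h)), hu⟩
    · have hcr : ColS l r := by
        rcases hr1 with h' | h'
        · exact absurd h' (not_le.2 h)
        · exact h'
      obtain ⟨v, hv, hu⟩ := hcr.2.2 y hly (hull_lt H hyH)
      exact ⟨v, (hiff v (hv.trans h)).1 (Cl.up hlH hyH hu hv), hu⟩

theorem dd_mono (H : Hy.{u}) (hτ : LimC l τ) {r r' : Ordinal.{u}} (hr : RR l τ r)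
    (hr' : RR l τ r') (hle : r ≤ r') : DD l τ r ≤ DD l τ r' := by
  obtain ⟨h1, -, h3⟩ := dd H hτ hr
  obtain ⟨h1', -, h3'⟩ := dd H hτ hr'
  by_contra h
  rw [not_le] at h
  have := (h3 _ h1').2 h
  exact lt_irrefl _ ((h3' _ h1').1 (hull_mono H hle this))

theorem lt_of_dd_lt (H : Hy.{u}) (hτ : LimC l τ) {r r' : Ordinal.{u}} (hr : RR l τ r)
    (hr' : RR l τ r') (hlt : DD l τ r < DD l τ r') : r < r' := by
  by_contra h
  rw [not_lt] at h
  exact absurd (dd_mono H hτ hr' hr h) (not_le.2 hlt)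

/-- a common strict bound for a finite list below a limit -/
theorem list_bound {θ : Ordinal.{u}} (h0 : 0 < θ) (hθ : ∀ x < θ, x + 1 < θ) :
    ∀ p : List Ordinal.{u}, (∀ x ∈ p, x < θ) → ∃ b < θ, ∀ x ∈ p, x < b
  | [], _ => ⟨0, h0, by simp⟩
  | a :: p, h => by
    obtain ⟨b, hb, hb'⟩ := list_bound h0 hθ p (fun x hx => h x (List.mem_cons_of_mem _ hx))
    refine ⟨max b (a + 1), max_lt hb (hθ a (h a List.mem_cons_self)), ?_⟩
    intro x hx
    rcases List.mem_cons.1 hx with rfl | hx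
    · exact (lt_add_one' x).trans_le (le_max_right _ _)
    · exact (hb' x hx).trans_le (le_max_left _ _)

/-- (e) -/
theorem exists_RR (H : Hy.{u}) (hτ : LimC l τ) (he : τ ≤ e) (hn : New l e) :
    ∀ x < τ, ∃ r, RR l τ r ∧ x < DD l τ r := by
  intro x hx
  have hpl := pl_mem H hτ he hn
  have hth := th_mem H hτ he hn
  have hlim := th_lim H hτ he hn
  have h0 : 0 < th l τ := lt_of_le_of_lt (zero_le) (hx.trans_le hth.1)
  have hxH := hull_pl H hτ he hn x (hx.trans_le hth.1)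
  obtain ⟨r₀, hr₀, hxr₀⟩ := H.cl.cont _ _ _ hlim hxH
  obtain ⟨b, hb, hpb⟩ := list_bound h0 hlim (pl l τ) hpl.1
  have key : ∀ r, max r₀ b ≤ r → r < th l τ → (τ ≤ r ∨ ColS l r) → RR l τ r ∧ x < DD l τ r := by
    intro r hr hrt hrc
    have hRR : RR l τ r := ⟨hrc, fun y hy => (hpb y hy).trans_le ((le_max_right _ _).trans hr), hrt⟩
    refine ⟨hRR, ?_⟩
    exact ((dd H hτ hRR).2.2 x hx).1 (hull_mono H ((le_max_left _ _).trans hr) hxr₀)
  rcases hth.1.lt_or_eq with h | h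
  · exact ⟨max (max r₀ b) τ, key _ (le_max_left _ _) (max_lt (max_lt hr₀ hb) h)
      (Or.inl (le_max_right _ _))⟩
  · have hm : max r₀ b < τ := by
      rw [h]
      exact max_lt hr₀ hb
    obtain ⟨y, hy, hxy, hyc⟩ := hτ.2 _ hm
    exact ⟨y, key y hxy.le (h ▸ hy) (Or.inr hyc)⟩

end basic

/-! ### (e), (f): the key lemma -/

section key

variable {l τ e δ : Ordinal.{u}}

/-- The cut of the construction at `τ` that belongs to the limit point `δ` of `CS l τ`. -/
structure Key (l τ δ rs : Ordinal.{u}) : Prop where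
  rr : RR l τ rs
  dd : DD l τ rs = δ
  lim : ∀ x < rs, ∃ a, x < a ∧ a < rs ∧ RR l τ a ∧ DD l τ a < δ
  lt : ∀ r, RR l τ r → DD l τ r < δ → r < rs

theorem cs_iff (hτ : LimC l τ) {d : Ordinal.{u}} : d ∈ CS l τ ↔ ∃ r, RR l τ r ∧ d = DD l τ r := by
  constructor
  · rintro (h | h)
    · exact h.2
    · exact absurd hτ h.1
  · intro h
    exact Or.inl ⟨hτ, h⟩

/-- a limit point of `CS l τ` below `τ` comes from a limit `τ` of `ColS l` -/
theorem limC_of_unb (h0 : 0 < δ) (h : UnbBelow (fun y => y ∈ CS l τ) δ) : LimC l τ := by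
  by_contra hn
  obtain ⟨y, hy, -, hyc⟩ := h 0 h0
  obtain ⟨z, hz, hyz, hzc⟩ := h y hy
  rcases hyc with hyc | hyc
  · exact hn hyc.1
  rcases hzc with hzc | hzc
  · exact hn hzc.1
  exact absurd (hyc.2.2.2 z hzc.2.1 hzc.2.2.1) (not_le.2 hyz)

theorem exists_key (H : Hy.{u}) (hτ : LimC l τ) (he : τ ≤ e) (hn : New l e) (h0 : 0 < δ)
    (hδ : δ < τ) (h : UnbBelow (fun y => y ∈ CS l τ) δ) : ∃ rs, Key l τ δ rs := by
  have hc := limC_colS hτ
  let A : Set Ordinal.{u} := {r | RR l τ r ∧ DD l τ r < δ}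
  obtain ⟨r₁, hr₁, hδr₁⟩ := exists_RR H hτ he hn δ hδ
  have hAlt : ∀ a ∈ A, a < r₁ := fun a ha => lt_of_dd_lt H hτ ha.1 hr₁ (ha.2.trans hδr₁)
  have hbdd : BddAbove A := ⟨r₁, fun a ha => (hAlt a ha).le⟩
  have hnomax : ∀ x < δ, ∃ a ∈ A, x < DD l τ a := by
    intro x hx
    obtain ⟨y, hy, hxy, hyc⟩ := h x hx
    obtain ⟨r, hr, rfl⟩ := (cs_iff hτ).1 hyc
    exact ⟨r, ⟨hr, hy⟩, hxy⟩
  obtain ⟨a₀, ha₀, -⟩ := hnomax 0 h0
  have hAne : A.Nonempty := ⟨a₀, ha₀⟩
  let rs := sSup A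
  have hlt : ∀ a ∈ A, a < rs := by
    intro a ha
    obtain ⟨a', ha', haa'⟩ := hnomax _ ha.2
    exact (lt_of_dd_lt H hτ ha.1 ha'.1 haa').trans_le (le_csSup hbdd ha')
  have hcof : ∀ x < rs, ∃ a ∈ A, x < a := by
    intro x hx
    obtain ⟨a, ha, hxa⟩ := exists_lt_of_lt_csSup hAne hx
    exact ⟨a, ha, hxa⟩
  have hrsr₁ : rs ≤ r₁ := csSup_le hAne (fun a ha => (hAlt a ha).le)
  have hrr : RR l τ rs := by
    refine ⟨?_, fun x hx => (ha₀.1.2.1 x hx).trans (hlt a₀ ha₀), hrsr₁.trans_lt hr₁.2.2⟩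
    by_cases hex : ∃ a ∈ A, τ ≤ a
    · obtain ⟨a, ha, hτa⟩ := hex
      exact Or.inl (hτa.trans (hlt a ha).le)
    · push Not at hex
      right
      refine colS_of_unb (lt_of_le_of_lt zero_le (hlt a₀ ha₀)) ?_
      intro x hx
      obtain ⟨a, ha, hxa⟩ := hcof x hx
      refine ⟨a, hlt a ha, hxa, ?_⟩
      rcases ha.1.1 with h' | h'
      · exact absurd h' (not_le.2 (hex a ha))
      · exact h'
  have hrslim : ∀ x < rs, x + 1 < rs := by
    intro x hx
    obtain ⟨a, ha, hxa⟩ := hcof x hx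
    exact (add_one_le' hxa).trans_lt (hlt a ha)
  refine ⟨rs, hrr, ?_, ?_, fun r hr hd => hlt r ⟨hr, hd⟩⟩
  · obtain ⟨hD1, -, hD3⟩ := dd H hτ hrr
    apply le_antisymm
    · by_contra hcon
      rw [not_le] at hcon
      have h1 : Hull l rs (pl l τ) δ := (hD3 δ hδ).2 hcon
      obtain ⟨r, hr, hδr⟩ := H.cl.cont _ _ _ hrslim h1
      obtain ⟨a, ha, hra⟩ := hcof r hr
      have h2 : Hull l a (pl l τ) δ := hull_mono H hra.le hδr
      exact lt_asymm (((dd H hτ ha.1).2.2 δ hδ).1 h2) ha.2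
    · by_contra hcon
      rw [not_le] at hcon
      obtain ⟨a, ha, hDa⟩ := hnomax _ hcon
      exact absurd (dd_mono H hτ ha.1 hrr (hlt a ha).le) (not_le.2 hDa)
  · intro x hx
    obtain ⟨a, ha, hxa⟩ := hcof x hx
    exact ⟨a, hxa, hlt a ha, ha.1, ha.2⟩

/-- `δ` is a limit of `ColS l`. -/
theorem limC_delta (H : Hy.{u}) (hτ : LimC l τ) (h0 : 0 < δ)
    (h : UnbBelow (fun y => y ∈ CS l τ) δ) : LimC l δ := by
  have hcs : ∀ y, y ∈ CS l τ → ColS l y := by
    intro y hy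
    obtain ⟨r, hr, rfl⟩ := (cs_iff hτ).1 hy
    exact (dd H hτ hr).2.1
  constructor
  · obtain ⟨y, hy, -, hyc⟩ := h 0 h0
    exact (hcs y hyc).1.trans hy
  · intro x hx
    obtain ⟨y, hy, hxy, hyc⟩ := h x hx
    exact ⟨y, hy, hxy, hcs y hyc⟩

/-- The hull that is collapsed. -/
def YY (l τ rs : Ordinal.{u}) : Set Ordinal.{u} := {x | Hull l rs (pl l τ) x}

variable {rs : Ordinal.{u}}

theorem yy_closed (H : Hy.{u}) : ClosedIn rs (YY l τ rs) := H.cl.closedIn rs _

theorem yy_iff (H : Hy.{u}) (hτ : LimC l τ) (hk : Key l τ δ rs) {y : Ordinal.{u}} (hy : y < τ) :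
    y ∈ YY l τ rs ↔ y < δ := by
  have := (dd H hτ hk.rr).2.2 y hy
  rw [hk.dd] at this
  exact this

theorem yy_delta (H : Hy.{u}) (hτ : LimC l τ) (hk : Key l τ δ rs) (hδ : δ < τ) :
    ∀ x < δ, x ∈ YY l τ rs := fun _ hx => (yy_iff H hτ hk (hx.trans hδ)).2 hx

theorem yy_p (hk : Key l τ δ rs) : ∀ x ∈ pl l τ, x ∈ YY l τ rs :=
  fun x hx => hull_p hx (hk.rr.2.1 x hx)

theorem yy_lt (H : Hy.{u}) {x : Ordinal.{u}} (hx : x ∈ YY l τ rs) : x < rs := hull_lt H hx

/-- `col` is the identity up to `δ` -/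
theorem yy_id (H : Hy.{u}) (hτ : LimC l τ) (hk : Key l τ δ rs) (hδ : δ < τ) :
    ∀ x ≤ δ, col (YY l τ rs) x = x := fun x hx =>
  H.ct.ident _ x (fun y hy => yy_delta H hτ hk hδ y (hy.trans_le hx))

/-- an element whose collapse is below `δ` is below `δ` -/
theorem yy_lt_delta (H : Hy.{u}) (hτ : LimC l τ) (hk : Key l τ δ rs) (hδ : δ < τ) {x : Ordinal.{u}}
    (h : col (YY l τ rs) x < δ) : x < δ := by
  by_contra hn
  rw [not_lt] at hn
  have := H.ct.mono (YY l τ rs) δ x hn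
  rw [yy_id H hτ hk hδ δ le_rfl] at this
  exact absurd this (not_le.2 h)

theorem yy_tau_le (H : Hy.{u}) (hτ : LimC l τ) (hk : Key l τ δ rs) {x : Ordinal.{u}}
    (hx : x ∈ YY l τ rs) (h : δ ≤ x) : τ ≤ x := by
  by_contra hn
  rw [not_le] at hn
  exact absurd ((yy_iff H hτ hk hn).1 hx) (not_lt.2 h)

theorem yy_l (H : Hy.{u}) (hτ : LimC l τ) (hk : Key l τ δ rs) (hδ : δ < τ) (hl : l < δ) :
    ∀ x ≤ l, x ∈ YY l τ rs := fun x hx => yy_delta H hτ hk hδ x (lt_of_le_of_lt hx hl)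

/-- the hull of the collapsed list -/
theorem yy_full (H : Hy.{u}) (hτ : LimC l τ) (hk : Key l τ δ rs) (hδ : δ < τ) (hl : l < δ)
    (y : Ordinal.{u}) : Hull l (col (YY l τ rs) rs) ((pl l τ).map (col (YY l τ rs))) y ↔
      y < col (YY l τ rs) rs := by
  rw [hull_col H (yy_closed H) (Or.inr rfl) (yy_l H hτ hk hδ hl) (yy_p hk)]
  constructor
  · rintro ⟨x, hx, rfl⟩
    exact H.ct.smono _ x rs hx (yy_lt H hx)
  · intro hy
    obtain ⟨x, hx, -, hxy⟩ := H.ct.onto _ rs y hy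
    exact ⟨x, hx, hxy⟩

/-- every element of `Y` lies in a hull below some `s` of the construction with `DD l τ s < δ`,
above a given element -/
theorem yy_cofinal (H : Hy.{u}) (hτ : LimC l τ) (hk : Key l τ δ rs) (h0 : 0 < rs) :
    ∀ (q : List Ordinal.{u}), (∀ x ∈ q, x ∈ YY l τ rs) → ∀ r < rs,
      ∃ s, r < s ∧ s < rs ∧ RR l τ s ∧ DD l τ s < δ ∧ ∀ x ∈ q, Hull l s (pl l τ) x
  | [], _, r, hr => by
    obtain ⟨a, h1, h2, h3, h4⟩ := hk.lim r hr
    exact ⟨a, h1, h2, h3, h4, by simp⟩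
  | a :: q, hq, r, hr => by
    have hlim : ∀ x < rs, x + 1 < rs := by
      intro x hx
      obtain ⟨a, h1, h2, -⟩ := hk.lim x hx
      exact (add_one_le' h1).trans_lt h2
    obtain ⟨s, h1, h2, h3, h4, h5⟩ := yy_cofinal H hτ hk h0 q
      (fun x hx => hq x (List.mem_cons_of_mem _ hx)) r hr
    obtain ⟨t, ht, hta⟩ := H.cl.cont _ _ _ hlim (hq a List.mem_cons_self)
    obtain ⟨s', h1', h2', h3', h4'⟩ := hk.lim (max s t) (max_lt h2 ht)
    refine ⟨s', h1.trans (lt_of_le_of_lt (le_max_left _ _) h1'), h2', h3', h4', ?_⟩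
    intro x hx
    rcases List.mem_cons.1 hx with rfl | hx
    · exact hull_mono H ((le_max_right _ _).trans h1'.le) hta
    · exact hull_mono H ((le_max_left _ _).trans h1'.le) (h5 x hx)

/-- pull back of lists -/
theorem pull_list (H : Hy.{u}) {Y : Set Ordinal.{u}} {r : Ordinal.{u}} :
    ∀ q' : List Ordinal.{u}, (∀ x ∈ q', x < col Y r) →
      ∃ q : List Ordinal.{u}, q.map (col Y) = q' ∧ (∀ x ∈ q, x ∈ Y) ∧ ∀ x ∈ q, x < r
  | [], _ => ⟨[], rfl, by simp, by simp⟩
  | a :: q', h => by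
    obtain ⟨q, h1, h2, h3⟩ := pull_list H q' (fun x hx => h x (List.mem_cons_of_mem _ hx))
    obtain ⟨x, hx, hxr, hxa⟩ := H.ct.onto Y r a (h a List.mem_cons_self)
    refine ⟨x :: q, by simp [hxa, h1], ?_, ?_⟩
    · intro y hy
      rcases List.mem_cons.1 hy with rfl | hy
      · exact hx
      · exact h2 y hy
    · intro y hy
      rcases List.mem_cons.1 hy with rfl | hy
      · exact hxr
      · exact h3 y hy

theorem key_th (H : Hy.{u}) (hτ : LimC l τ) (hk : Key l τ δ rs)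
    (hδ : δ < τ) (hδl : LimC l δ) : th l δ = col (YY l τ rs) rs := by
  have hcδ := limC_colS hδl
  have hδrs : δ ≤ rs := by
    by_contra hn
    rw [not_le] at hn
    exact lt_irrefl _ (yy_lt H (yy_delta H hτ hk hδ rs hn))
  have hδθ : δ ≤ col (YY l τ rs) rs := by
    have := H.ct.mono (YY l τ rs) δ rs hδrs
    rwa [yy_id H hτ hk hδ δ le_rfl] at this
  have h0 : 0 < rs := lt_of_le_of_lt zero_le (hδl.1.trans_le hδrs)
  have hfull := yy_full H hτ hk hδ hδl.1
  apply le_antisymm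
  · refine th_le_of ⟨hδθ, (pl l τ).map (col (YY l τ rs)), ?_, ?_⟩
    · intro x hx
      obtain ⟨y, hy, rfl⟩ := List.mem_map.1 hx
      exact H.ct.smono _ y rs (yy_p hk y hy) (hk.rr.2.1 y hy)
    · intro x hx
      exact ⟨x + 1, hcδ.2.1 x hx, lt_add_one' x, (hfull _).2 ((hcδ.2.1 x hx).trans_le hδθ)⟩
  · by_contra hcon
    rw [not_le] at hcon
    have hne : (ThSet l δ).Nonempty := by
      refine ⟨col (YY l τ rs) rs, hδθ, (pl l τ).map (col (YY l τ rs)), ?_, ?_⟩
      · intro x hx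
        obtain ⟨y, hy, rfl⟩ := List.mem_map.1 hx
        exact H.ct.smono _ y rs (yy_p hk y hy) (hk.rr.2.1 y hy)
      · intro x hx
        exact ⟨x + 1, hcδ.2.1 x hx, lt_add_one' x, (hfull _).2 ((hcδ.2.1 x hx).trans_le hδθ)⟩
    obtain ⟨hle, q', hq', hunb⟩ : th l δ ∈ ThSet l δ := csInf_mem hne
    obtain ⟨r, hrY, hrrs, hr⟩ := H.ct.onto _ rs _ hcon
    rw [← hr] at hle hq' hunb
    obtain ⟨q, rfl, hqY, hqr⟩ := pull_list H q' hq'
    have hτr : τ ≤ r := by
      refine yy_tau_le H hτ hk hrY ?_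
      by_contra hn
      rw [not_le] at hn
      rw [yy_id H hτ hk hδ r hn.le] at hle
      exact absurd hle (not_le.2 hn)
    obtain ⟨s, hrs, hsrs, hsR, hsD, hsq⟩ := yy_cofinal H hτ hk h0 q hqY r hrrs
    obtain ⟨y, hy, hDy, hyH⟩ := hunb _ hsD
    rw [hull_col H (yy_closed H) (Or.inl hrY) (yy_l H hτ hk hδ hδl.1) hqY] at hyH
    obtain ⟨x, hx, hxy⟩ := hyH
    have hxδ : x < δ := yy_lt_delta H hτ hk hδ (by rw [hxy]; exact hy)
    rw [yy_id H hτ hk hδ x hxδ.le] at hxy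
    subst hxy
    have hxs : Hull l s (pl l τ) x := by
      refine H.cl.idem r s _ _ x hrs.le ?_ hx
      rintro z (hz | hz) hzr
      · exact hull_l hz (hzr.trans hrs)
      · exact hsq z hz
    exact lt_asymm (((dd H hτ hsR).2.2 x (hxδ.trans hδ)).1 hxs) hDy

theorem key_pl (H : Hy.{u}) (hτ : LimC l τ) (he : τ ≤ e) (hn : New l e) (hk : Key l τ δ rs)
    (hδ : δ < τ) (hδl : LimC l δ) : pl l δ = (pl l τ).map (col (YY l τ rs)) := by
  have hth := key_th H hτ hk hδ hδl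
  have hfull := yy_full H hτ hk hδ hδl.1
  have hpl := pl_mem H hτ he hn
  have hthτ := th_mem H hτ he hn
  have hδe : δ ≤ e := hδ.le.trans he
  have hplδ := pl_mem H hδl hδe hn
  have hθ := th_mem H hδl hδe hn
  have hsm : ∀ x ∈ YY l τ rs, ∀ y, x < y → col (YY l τ rs) x < col (YY l τ rs) y :=
    fun x hx y hxy => H.ct.smono _ x y hx hxy
  have hmem : (pl l τ).map (col (YY l τ rs)) ∈ PlSet l δ := by
    refine ⟨?_, ?_⟩
    · intro x hx
      obtain ⟨y, hy, rfl⟩ := List.mem_map.1 hx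
      rw [hth]
      exact H.ct.smono _ y rs (yy_p hk y hy) (hk.rr.2.1 y hy)
    · intro x hx
      rw [hth]
      refine (hfull x).2 ?_
      rw [← hth]
      exact hx.trans_le hθ.1
  refine sl_tri _ _ ?_ (pl_min hmem)
  intro hlt
  have hq' := hplδ.1
  rw [hth] at hq'
  obtain ⟨q, hq, hqY, hqr⟩ := pull_list H _ hq'
  rw [← hq] at hlt
  have hlt2 : SL q (pl l τ) := sl_map' _ _ hsm q (pl l τ) hqY (yy_p hk) hlt
  refine pl_min ?_ hlt2
  have hrsth : rs < th l τ := hk.rr.2.2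
  refine ⟨fun x hx => (hqr x hx).trans hrsth, ?_⟩
  intro x hx
  refine H.cl.idem _ _ _ _ x le_rfl ?_ (hull_pl H hτ he hn x (hx.trans_le hthτ.1))
  rintro z (hz | hz) hzr
  · exact hull_l hz hzr
  · -- an entry of `pl l τ`
    have h1 : Hull l (th l δ) (pl l δ) (col (YY l τ rs) z) := by
      refine hull_pl H hδl hδe hn _ ?_
      rw [hth]
      exact H.ct.smono _ z rs (yy_p hk z hz) (hk.rr.2.1 z hz)
    rw [hth, ← hq, hull_col H (yy_closed H) (Or.inr rfl) (yy_l H hτ hk hδ hδl.1) hqY] at h1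
    obtain ⟨w, hw, hwz⟩ := h1
    have hwY : w ∈ YY l τ rs := by
      refine (yy_closed H).2 w ?_
      refine H.cl.mono _ _ _ _ w le_rfl ?_ hw
      rintro v (hv | hv)
      · exact yy_l H hτ hk hδ hδl.1 v hv
      · exact hqY v hv
    have hwz' : w = z := by
      rcases lt_trichotomy w z with h | h | h
      · exact absurd hwz (hsm w hwY z h).ne
      · exact h
      · exact absurd hwz (hsm z (yy_p hk z hz) w h).ne'
    subst hwz'
    exact hull_mono H hrsth.le hw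

/-- hulls in the collapse -/
theorem key_hull (H : Hy.{u}) (hτ : LimC l τ) (he : τ ≤ e) (hn : New l e) (hk : Key l τ δ rs)
    (hδ : δ < τ) (hδl : LimC l δ) {r : Ordinal.{u}} (hr : r ∈ YY l τ rs ∨ r = rs)
    (y : Ordinal.{u}) : Hull l (col (YY l τ rs) r) (pl l δ) y ↔
      ∃ x, Hull l r (pl l τ) x ∧ col (YY l τ rs) x = y := by
  rw [key_pl H hτ he hn hk hδ hδl, hull_col H (yy_closed H) hr (yy_l H hτ hk hδ hδl.1) (yy_p hk)]

theorem key_dd (H : Hy.{u}) (hτ : LimC l τ) (he : τ ≤ e) (hn : New l e) (hk : Key l τ δ rs)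
    (hδ : δ < τ) (hδl : LimC l δ) {r : Ordinal.{u}} (hr : r ∈ YY l τ rs) (hrr : RR l τ r)
    (hrr' : RR l δ (col (YY l τ rs) r)) : DD l δ (col (YY l τ rs) r) = DD l τ r := by
  obtain ⟨h1, -, h3⟩ := dd H hτ hrr
  obtain ⟨h1', -, h3'⟩ := dd H hδl hrr'
  have hrrs : r < rs := yy_lt H hr
  have hDr : DD l τ r < δ := by
    obtain ⟨a, ha1, ha2, ha3, ha4⟩ := hk.lim r hrrs
    exact lt_of_le_of_lt (dd_mono H hτ hrr ha3 ha1.le) ha4
  have hiff : ∀ y < δ, (y < DD l δ (col (YY l τ rs) r) ↔ y < DD l τ r) := by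
    intro y hy
    rw [← h3' y hy, key_hull H hτ he hn hk hδ hδl (Or.inl hr), ← h3 y (hy.trans hδ)]
    constructor
    · rintro ⟨x, hx, hxy⟩
      have hxδ : x < δ := yy_lt_delta H hτ hk hδ (by rw [hxy]; exact hy)
      rw [yy_id H hτ hk hδ x hxδ.le] at hxy
      rw [← hxy]
      exact hx
    · intro hx
      exact ⟨y, hx, yy_id H hτ hk hδ y hy.le⟩
  apply le_antisymm
  · by_contra hcon
    rw [not_le] at hcon
    exact lt_irrefl _ ((hiff _ hDr).1 hcon)
  · by_contra hcon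
    rw [not_le] at hcon
    exact lt_irrefl _ ((hiff _ h1').2 hcon)

/-- coherence -/
theorem key_coh (H : Hy.{u}) (hτ : LimC l τ) (he : τ ≤ e) (hn : New l e) (hk : Key l τ δ rs)
    (hδ : δ < τ) (hδl : LimC l δ) : CS l δ = CS l τ ∩ Iio δ := by
  have hth := key_th H hτ hk hδ hδl
  have hpl := key_pl H hτ he hn hk hδ hδl
  ext d
  rw [mem_inter_iff, mem_Iio, cs_iff hδl, cs_iff hτ]
  constructor
  · rintro ⟨r', hr', rfl⟩
    have hr3 := hr'.2.2
    rw [hth] at hr3
    obtain ⟨r, hrY, hrrs, rfl⟩ := H.ct.onto _ rs _ hr3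
    have hrr : RR l τ r := by
      refine ⟨?_, ?_, hrrs.trans hk.rr.2.2⟩
      · rcases lt_or_ge r δ with h | h
        · right
          have h2 : col (YY l τ rs) r = r := yy_id H hτ hk hδ r h.le
          have h3 := hr'.1
          rw [h2] at h3
          rcases h3 with h3 | h3
          · exact absurd h3 (not_le.2 h)
          · exact h3
        · exact Or.inl (yy_tau_le H hτ hk hrY h)
      · intro x hx
        by_contra hcon
        rw [not_lt] at hcon
        have h2 : col (YY l τ rs) x < col (YY l τ rs) r := by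
          refine hr'.2.1 _ ?_
          rw [hpl]
          exact List.mem_map_of_mem hx
        exact absurd (H.ct.mono (YY l τ rs) _ _ hcon) (not_le.2 h2)
    have hdd := key_dd H hτ he hn hk hδ hδl hrY hrr hr'
    rw [hdd]
    refine ⟨⟨r, hrr, rfl⟩, ?_⟩
    rw [← hdd]
    exact (dd H hδl hr').1
  · rintro ⟨⟨r, hrr, rfl⟩, hDδ⟩
    have hrrs := hk.lt r hrr hDδ
    -- the least element of `Y` that is at least `r`
    have hex : ∃ x, x ∈ YY l τ rs ∧ r ≤ x := by
      by_contra hcon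
      push Not at hcon
      have hdown := H.cl.down rs r (Iic l ∪ {x | x ∈ pl l τ}) hrrs.le (fun x hx => hcon x hx)
      obtain ⟨h1, -, h3⟩ := dd H hτ hrr
      have h4 := hdown _ (yy_delta H hτ hk hδ _ hDδ)
      exact lt_irrefl _ ((h3 _ h1).1 h4)
    let S : Set Ordinal.{u} := {x | x ∈ YY l τ rs ∧ r ≤ x}
    have hSne : S.Nonempty := hex
    let r₁ := sInf S
    have hr₁ : r₁ ∈ S := csInf_mem hSne
    have hr₁min : ∀ x ∈ YY l τ rs, x < r₁ → x < r := by
      intro x hx hxr₁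
      by_contra hcon
      rw [not_lt] at hcon
      exact absurd (csInf_le' (show x ∈ S from ⟨hx, hcon⟩)) (not_le.2 hxr₁)
    have hr₁rs : r₁ < rs := yy_lt H hr₁.1
    have hhull : ∀ x, Hull l r₁ (pl l τ) x ↔ Hull l r (pl l τ) x := by
      intro x
      constructor
      · intro hx
        refine H.cl.down r₁ r _ hr₁.2 ?_ x hx
        intro y hy
        exact hr₁min y (hull_mono H hr₁rs.le hy) (hull_lt H hy)
      · exact fun hx => hull_mono H hr₁.2 hx
    have hrr₁ : RR l τ r₁ := by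
      refine ⟨?_, fun x hx => (hrr.2.1 x hx).trans_le hr₁.2, hr₁rs.trans hk.rr.2.2⟩
      rcases hrr.1 with h | h
      · exact Or.inl (h.trans hr₁.2)
      · rcases hr₁.2.lt_or_eq with h2 | h2
        · left
          refine yy_tau_le H hτ hk hr₁.1 ?_
          by_contra hcon
          rw [not_le] at hcon
          have h5 : r ∈ YY l τ rs := yy_delta H hτ hk hδ r (h2.trans hcon)
          exact absurd (csInf_le' (show r ∈ S from ⟨h5, le_rfl⟩)) (not_le.2 h2)
        · right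
          rw [← h2]
          exact h
    have hDD : DD l τ r₁ = DD l τ r := by
      unfold DD
      congr 1
      ext d
      simp only [Set.mem_ofPred_eq, hhull]
    have hrr' : RR l δ (col (YY l τ rs) r₁) := by
      refine ⟨?_, ?_, ?_⟩
      · rcases lt_or_ge r₁ δ with h | h
        · right
          rw [yy_id H hτ hk hδ r₁ h.le]
          rcases hrr₁.1 with h2 | h2
          · exact absurd (h.trans hδ) (not_lt.2 h2)
          · exact h2
        · left
          have := H.ct.mono (YY l τ rs) _ _ h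
          rwa [yy_id H hτ hk hδ δ le_rfl] at this
      · intro x hx
        rw [hpl] at hx
        obtain ⟨y, hy, rfl⟩ := List.mem_map.1 hx
        exact H.ct.smono _ _ _ (yy_p hk y hy) (hrr₁.2.1 y hy)
      · rw [hth]
        exact H.ct.smono _ _ _ hr₁.1 hr₁rs
    refine ⟨_, hrr', ?_⟩
    rw [key_dd H hτ he hn hk hδ hδl hr₁.1 hrr₁ hrr', hDD]

end key

end CohP

end Pool.Agent.LMach
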