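import Pool.Agent.LMach.Term

/-!
# The collapse
-/

open Set Cardinal Order

universe u

namespace Pool.Agent.LMach

theorem col_succ_le {X : Set Ordinal.{u}} {w v : Ordinal.{u}} (hw : w ∈ X) (h : w < v) :
    col X w + 1 ≤ col X v := by
  have : Small.{u} {w // w ∈ X ∧ w < v} :=
    small_of_injective (β := Iio v) (f := fun w => ⟨w.1, w.2.2⟩) (by
      intro a b h
      exact Subtype.ext (show a.1 = b.1 from congrArg (fun z : Iio v => z.1) h))
  conv_rhs => rw [col]
  exact Ordinal.le_iSup (fun w : {w // w ∈ X ∧ w < v} => col X w.1 + 1) ⟨w, hw, h⟩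

theorem col_le_of {X : Set Ordinal.{u}} {v b : Ordinal.{u}}
    (h : ∀ w ∈ X, w < v → col X w + 1 ≤ b) : col X v ≤ b := by
  rw [col]
  exact Ordinal.iSup_le (fun w => h w.1 w.2.1 w.2.2)

theorem col_smono {X : Set Ordinal.{u}} {w v : Ordinal.{u}} (hw : w ∈ X) (h : w < v) :
    col X w < col X v := add_one_le_iff.mp (col_succ_le hw h)

theorem col_mono (X : Set Ordinal.{u}) {a b : Ordinal.{u}} (h : a ≤ b) : col X a ≤ col X b :=
  col_le_of (fun _ hw hwa => col_succ_le hw (hwa.trans_le h))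

theorem col_le (X : Set Ordinal.{u}) (a : Ordinal.{u}) : col X a ≤ a := by
  induction a using WellFoundedLT.induction with
  | _ a ih => exact col_le_of (fun w _ hwa => (add_le_add_left (ih w hwa) 1).trans
      (add_one_le_iff.mpr hwa))

theorem col_onto {X : Set Ordinal.{u}} {a b : Ordinal.{u}} (h : b < col X a) :
    ∃ x ∈ X, x < a ∧ col X x = b := by
  induction a using WellFoundedLT.induction with
  | _ a ih =>
    by_contra hcon
    push Not at hcon
    refine absurd (col_le_of (v := a) (b := b) fun w hw hwa => ?_) (not_le.mpr h)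
    by_contra h2
    rw [not_le, lt_add_one_iff] at h2
    rcases h2.eq_or_lt with h3 | h3
    · exact hcon w hw hwa h3.symm
    · obtain ⟨x, hx, hxw, hxb⟩ := ih w hwa h3
      exact hcon x hx (hxw.trans hwa) hxb

theorem col_ident {X : Set Ordinal.{u}} {a : Ordinal.{u}} (h : ∀ x < a, x ∈ X) : col X a = a := by
  induction a using WellFoundedLT.induction with
  | _ a ih =>
    refine le_antisymm (col_le X a) ?_
    by_contra hcon
    rw [not_le] at hcon
    have h1 := ih _ hcon (fun x hx => h x (hx.trans hcon))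
    have h2 := col_smono (h _ hcon) hcon
    rw [h1] at h2
    exact lt_irrefl _ h2

theorem col_inj {X : Set Ordinal.{u}} {a b : Ordinal.{u}} (ha : a ∈ X) (hb : b ∈ X)
    (h : col X a = col X b) : a = b := by
  rcases lt_trichotomy a b with h1 | h1 | h1
  · exact absurd h (col_smono ha h1).ne
  · exact h1
  · exact absurd h (col_smono hb h1).ne'

theorem col_lt_iff {X : Set Ordinal.{u}} {a b : Ordinal.{u}} (ha : a ∈ X) :
    col X a < col X b ↔ a < b :=
  ⟨fun h => by
    by_contra hcon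
    exact absurd (col_mono X (not_lt.mp hcon)) (not_le.mpr h), fun h => col_smono ha h⟩

theorem col_le_iff {X : Set Ordinal.{u}} {a b : Ordinal.{u}} (hb : b ∈ X) :
    col X a ≤ col X b ↔ a ≤ b := by
  rw [← not_lt, ← not_lt, col_lt_iff hb]

theorem col_add_one {X : Set Ordinal.{u}} {a : Ordinal.{u}} (ha : a ∈ X) :
    col X (a + 1) = col X a + 1 :=
  le_antisymm (col_le_of fun _ _ h => add_le_add_left (col_mono X (lt_add_one_iff.mp h)) 1)
    (col_succ_le ha (lt_add_one a))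

theorem col_max (X : Set Ordinal.{u}) (a b : Ordinal.{u}) :
    col X (max a b) = max (col X a) (col X b) := by
  rcases le_total a b with h | h
  · rw [max_eq_right h, max_eq_right (col_mono X h)]
  · rw [max_eq_left h, max_eq_left (col_mono X h)]

theorem Cl.card_col {c : Cardinal.{u}} {θ μ : Ordinal.{u}} {Q : Set Ordinal.{u}}
    {l : List Ordinal.{u}} (hc : ℵ₀ < c) (hμ : μ < c.ord) (hQ : ∀ x ∈ Q, x < μ ∨ x ∈ l) :
    col {x | Cl θ Q x} θ < c.ord := by
  classical
  let P : Type u := μ.ToType ⊕ ULift.{u} ℕ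
  let val : P → Ordinal.{u} := fun p => match p with
    | Sum.inl i => ((Ordinal.ToType.mk (o := μ)).symm i).1
    | Sum.inr n => l.getD n.down 0
  have hval : ∀ x ∈ Q, x < θ → x ∈ range val := by
    intro x hx _
    rcases hQ x hx with h | h
    · exact ⟨Sum.inl (Ordinal.ToType.mk ⟨x, h⟩), by simp [val]⟩
    · obtain ⟨n, hn, hn'⟩ := List.getElem_of_mem h
      refine ⟨Sum.inr ⟨n⟩, ?_⟩
      simp only [val, List.getD, List.getElem?_eq_getElem hn, Option.getD_some, hn']
  have hcard : Cardinal.mk (Tm P) < c := by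
    refine (mk_Tm_le P).trans_lt (max_lt ?_ hc)
    have : Cardinal.mk P = μ.card + ℵ₀ := by simp [P]
    rw [this]
    exact add_lt_of_lt hc.le (lt_ord.mp hμ) hc
  rw [lt_ord]
  refine lt_of_le_of_lt ?_ hcard
  rw [← mk_toType]
  have hx : ∀ i : (col {x | Cl θ Q x} θ).ToType, ∃ x, Cl θ Q x ∧
      col {x | Cl θ Q x} x = ((Ordinal.ToType.mk (o := col {x | Cl θ Q x} θ)).symm i).1 := by
    intro i
    obtain ⟨x, hx, _, h⟩ := col_onto
      (mem_Iio.mp ((Ordinal.ToType.mk (o := col {x | Cl θ Q x} θ)).symm i).2)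
    exact ⟨x, hx, h⟩
  choose x hx1 hx2 using hx
  choose t ht using fun i => (hx1 i).exists_term hval
  refine mk_le_of_injective (f := t) ?_
  intro i j hij
  have h1 := ht i
  rw [hij] at h1
  have h2 := h1.unique (ht j)
  have h3 := (hx2 i).symm.trans ((congrArg _ h2).trans (hx2 j))
  exact (Ordinal.ToType.mk (o := col {x | Cl θ Q x} θ)).symm.injective (Subtype.ext h3)

theorem p_CL : T_CL.{u} where
  lt := fun _ _ _ h => h.lt
  mono := fun _ _ _ _ _ h1 h2 h => h.mono h1 h2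
  idem := fun _ _ _ _ _ h1 h2 h => h.idem h1 h2
  closedIn := Cl.closedIn
  down := fun _ _ _ _ h _ hx => hx.down h
  cont := fun _ _ _ h hx => hx.cont h
  fin := Cl.fin
  supp := fun _ _ _ h => h.supp
  card := fun _ _ _ _ _ h1 h2 h3 => Cl.card_col h1 h2 h3

/-! ### Closed sets -/

section

variable {θ : Ordinal.{u}} {X : Set Ordinal.{u}} (hX : ClosedIn θ X)
include hX

theorem ClosedIn.lt {x : Ordinal.{u}} (hx : x ∈ X) : x < θ := hX.1 hx

theorem ClosedIn.base {x : Ordinal.{u}} (hx : x ∈ X) : Cl θ X x := Cl.base hx (hX.1 hx)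

theorem ClosedIn.zero (h : 0 < θ) : (0 : Ordinal.{u}) ∈ X := hX.2 _ (Cl.zero h)

theorem ClosedIn.succ {x : Ordinal.{u}} (hx : x ∈ X) (h : x + 1 < θ) : x + 1 ∈ X :=
  hX.2 _ (Cl.succ (hX.base hx) h)

theorem ClosedIn.lev {x : Ordinal.{u}} (hx : x ∈ X) : lev x ∈ X := hX.2 _ (Cl.lev (hX.base hx))

theorem ClosedIn.hd {x : Ordinal.{u}} (hx : x ∈ X) : hd x ∈ X := hX.2 _ (Cl.hd (hX.base hx))

theorem ClosedIn.tl {x : Ordinal.{u}} (hx : x ∈ X) : tl x ∈ X := hX.2 _ (Cl.tl (hX.base hx))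

theorem ClosedIn.mn {x v : Ordinal.{u}} (hx : x ∈ X) (h : IsMn v x) : v ∈ X :=
  hX.2 _ (Cl.mn (hX.base hx) h)

theorem ClosedIn.code {a b c : Ordinal.{u}} (ha : a ∈ X) (hb : b ∈ X) (hc : c ∈ X) (h1 : b ≤ a)
    (h2 : c ≤ a) (h : code a b c < θ) : code a b c ∈ X :=
  hX.2 _ (Cl.code (hX.base ha) (hX.base hb) (hX.base hc) h1 h2 h)

theorem ClosedIn.up {a b v : Ordinal.{u}} (ha : a ∈ X) (hb : b ∈ X) (h1 : URel a b v)
    (h : v < θ) : v ∈ X :=
  hX.2 _ (Cl.up (hX.base ha) (hX.base hb) h1 h)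

theorem ClosedIn.nat {n : ℕ} (h : (n : Ordinal.{u}) < θ) : (n : Ordinal.{u}) ∈ X := by
  induction n with
  | zero => exact_mod_cast hX.zero (by exact_mod_cast h)
  | succ n ih =>
    have h1 : (n : Ordinal.{u}) + 1 < θ := by exact_mod_cast h
    exact_mod_cast hX.succ (ih ((lt_add_one _).trans h1)) h1

theorem ClosedIn.col_nat {n : ℕ} (h : (n : Ordinal.{u}) < θ) : col X (n : Ordinal.{u}) = n := by
  refine col_ident fun x hx => ?_
  obtain ⟨m, rfl⟩ := Ordinal.lt_omega0.mp (hx.trans (Ordinal.natCast_lt_omega0 n))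
  exact hX.nat (hx.trans h)

theorem ClosedIn.J {a b : Ordinal.{u}} (ha : a ∈ X) (hb : b ∈ X) (h : J a b < θ) : J a b ∈ X := by
  refine hX.code ?_ ha hb (le_max_left _ _) (le_max_right _ _) h
  rcases max_choice a b with h1 | h1 <;> rw [h1] <;> assumption

omit hX in
theorem max_mem' {a b : Ordinal.{u}} (ha : a ∈ X) (hb : b ∈ X) : max a b ∈ X := by
  rcases max_choice a b with h1 | h1 <;> rw [h1] <;> assumption

theorem ClosedIn.tl_iter {w : Ordinal.{u}} (hw : w ∈ X) (i : ℕ) : Pool.Agent.LMach.tl^[i] w ∈ X := by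
  induction i with
  | zero => exact hw
  | succ n ih => rw [Function.iterate_succ_apply']; exact hX.tl ih

theorem ClosedIn.var {w : Ordinal.{u}} (hw : w ∈ X) (i : ℕ) : var i w ∈ X :=
  hX.hd (hX.tl_iter hw i)

end

/-- the inverse of the collapse -/
theorem exists_inv (X : Set Ordinal.{u}) (θ : Ordinal.{u}) : ∃ inv : Ordinal.{u} → Ordinal.{u},
    (∀ v < col X θ, inv v ∈ X ∧ inv v < θ ∧ col X (inv v) = v) ∧
    (∀ x ∈ X, x < θ → inv (col X x) = x) := by
  classical
  have h : ∀ v, ∃ x, v < col X θ → x ∈ X ∧ x < θ ∧ col X x = v := by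
    intro v
    by_cases hv : v < col X θ
    · obtain ⟨x, hx⟩ := col_onto hv
      exact ⟨x, fun _ => hx⟩
    · exact ⟨0, fun h => absurd h hv⟩
  choose inv hinv using h
  refine ⟨inv, hinv, fun x hx hxθ => ?_⟩
  obtain ⟨h1, _, h3⟩ := hinv (col X x) (col_smono hx hxθ)
  exact col_inj h1 hx h3

theorem lex_col {X : Set Ordinal.{u}} {g h t g' h' t' : Ordinal.{u}} (h1 : g ∈ X) (h2 : h ∈ X)
    (h3 : t ∈ X) (h1' : g' ∈ X) (h2' : h' ∈ X) :
    LexLt (col X g) (col X h) (col X t) (col X g') (col X h') (col X t') ↔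
      LexLt g h t g' h' t' := by
  unfold LexLt
  rw [col_lt_iff h1, col_lt_iff h2, col_lt_iff h3]
  have e1 : col X g = col X g' ↔ g = g' := ⟨fun h => col_inj h1 h1' h, fun h => by rw [h]⟩
  have e2 : col X h = col X h' ↔ h = h' := ⟨fun h => col_inj h2 h2' h, fun h => by rw [h]⟩
  rw [e1, e2]

end Pool.Agent.LMach
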