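import Pool.Agent.LMach.Mach
import Pool.Agent.LMach.Base

/-!
# Properties that are definable over a regular uncountable cardinal

`DefK kk P` says that the property `P` of environments is defined over the level `kk` by a formula
of the machine (for environments below `kk`).  The file has the closure properties of definable
properties and functions (`DefF`), the naming lemma `DefK.cod`, and the recursion lemma
`DefK.recursion`.
-/

open Set Cardinal

universe u

namespace Pool.Agent.LMach

/-- `P` is definable over `kk`. -/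
def DefK (kk : Ordinal.{u}) (P : (ℕ → Ordinal.{u}) → Prop) : Prop :=
  ∃ p : Fm, ∀ e, (∀ i, e i < kk) → (SatE kk Mem p e ↔ P e)

/-- `F` is a definable function of environments, with values below `kk`. -/
def DefF (kk : Ordinal.{u}) (F : (ℕ → Ordinal.{u}) → Ordinal.{u}) : Prop :=
  (∀ e, (∀ i, e i < kk) → F e < kk) ∧ DefK kk (fun e => e 0 = F (fun i => e (i + 1)))

namespace DefK

variable {kk : Ordinal.{u}} {P Q : (ℕ → Ordinal.{u}) → Prop}

theorem congr (hP : DefK kk P) (h : ∀ e, (∀ i, e i < kk) → (Q e ↔ P e)) : DefK kk Q := by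
  obtain ⟨p, hp⟩ := hP
  exact ⟨p, fun e he => (hp e he).trans (h e he).symm⟩

theorem neg (hP : DefK kk P) : DefK kk (fun e => ¬ P e) := by
  obtain ⟨p, hp⟩ := hP
  exact ⟨Fm.neg p, fun e he => not_congr (hp e he)⟩

theorem and (hP : DefK kk P) (hQ : DefK kk Q) : DefK kk (fun e => P e ∧ Q e) := by
  obtain ⟨p, hp⟩ := hP
  obtain ⟨q, hq⟩ := hQ
  exact ⟨Fm.and p q, fun e he => and_congr (hp e he) (hq e he)⟩

theorem or (hP : DefK kk P) (hQ : DefK kk Q) : DefK kk (fun e => P e ∨ Q e) :=
  (hP.neg.and hQ.neg).neg.congr fun e _ => by tauto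

theorem imp (hP : DefK kk P) (hQ : DefK kk Q) : DefK kk (fun e => P e → Q e) :=
  (hP.and hQ.neg).neg.congr fun e _ => by tauto

theorem iff (hP : DefK kk P) (hQ : DefK kk Q) : DefK kk (fun e => P e ↔ Q e) :=
  ((hP.imp hQ).and (hQ.imp hP)).congr fun e _ => by tauto

theorem ex (hP : DefK kk P) : DefK kk (fun e => ∃ v < kk, P (econs v e)) := by
  obtain ⟨p, hp⟩ := hP
  exact ⟨Fm.ex p, fun e he => exists_congr fun v => and_congr_right fun hv =>
    hp _ (econs_lt hv he)⟩

theorem all (hP : DefK kk P) : DefK kk (fun e => ∀ v < kk, P (econs v e)) :=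
  hP.neg.ex.neg.congr fun e _ => by push Not; rfl

/-- renaming of variables -/
theorem ren (hP : DefK kk P) (f : ℕ → ℕ) : DefK kk (fun e => P (fun i => e (f i))) := by
  obtain ⟨p, hp⟩ := hP
  obtain ⟨q, hq⟩ := rename' p f
  exact ⟨q, fun e he => (hq _ _ _).trans (hp _ fun i => he _)⟩

theorem lt (i j : ℕ) : DefK kk (fun e : ℕ → Ordinal.{u} => e i < e j) :=
  ⟨Fm.lt i j, fun _ _ => Iff.rfl⟩

theorem mem (i j : ℕ) : DefK kk (fun e : ℕ → Ordinal.{u} => Mem (e i) (e j)) :=
  ⟨Fm.mm i j, fun _ _ => Iff.rfl⟩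

theorem pr (i j k : ℕ) : DefK kk (fun e : ℕ → Ordinal.{u} => J (e i) (e j) = e k) :=
  ⟨Fm.pr i j k, fun _ _ => Iff.rfl⟩

theorem le (i j : ℕ) : DefK kk (fun e : ℕ → Ordinal.{u} => e i ≤ e j) :=
  (lt j i).neg.congr fun _ _ => not_lt.symm

theorem eq (i j : ℕ) : DefK kk (fun e : ℕ → Ordinal.{u} => e i = e j) :=
  ((le i j).and (le j i)).congr fun _ _ => le_antisymm_iff

theorem const (q : Prop) : DefK kk (fun _ : ℕ → Ordinal.{u} => q) := by
  by_cases h : q
  · exact (eq 0 0).congr fun e _ => by simp [h]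
  · exact (eq 0 0).neg.congr fun e _ => by simp [h]

/-- `∃ v < e i, P (v, e)` -/
theorem exb (i : ℕ) (hP : DefK kk P) : DefK kk (fun e => ∃ v < e i, P (econs v e)) :=
  (((lt 0 (i + 1)).and hP).ex).congr fun e he =>
    ⟨fun ⟨v, h1, h2⟩ => ⟨v, h1.trans (he i), h1, h2⟩, fun ⟨v, _, h1, h2⟩ => ⟨v, h1, h2⟩⟩

/-- `∀ v < e i, P (v, e)` -/
theorem allb (i : ℕ) (hP : DefK kk P) : DefK kk (fun e => ∀ v < e i, P (econs v e)) :=
  (hP.neg.exb i).neg.congr fun _ _ => by push Not; rfl

/-- a definable property only depends on finitely many entries -/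
theorem fin_supp (hP : DefK kk P) : ∃ N : ℕ, ∀ e e' : ℕ → Ordinal.{u}, (∀ i, e i < kk) →
    (∀ i, e' i < kk) → (∀ i < N, e i = e' i) → (P e ↔ P e') := by
  obtain ⟨p, hp⟩ := hP
  obtain ⟨N, hN⟩ := sat_congr' p
  exact ⟨N, fun e e' he he' h => ((hp e he).symm.trans (hN _ _ _ _ h)).trans (hp e' he')⟩

/-- substitution of definable functions for all variables -/
theorem comp {F : ℕ → (ℕ → Ordinal.{u}) → Ordinal.{u}} (hF : ∀ i, DefF kk (F i))
    (hP : DefK kk P) : DefK kk (fun e => P (fun i => F i e)) := by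
  obtain ⟨N, hN⟩ := hP.fin_supp
  have main : ∀ m ≤ N, DefK kk (fun e => P (fun i => if i < N - m then e i else
      F i (fun j => e (j + (N - m))))) := by
    intro m
    induction m with
    | zero =>
      intro _
      refine hP.congr fun e he => hN _ _ ?_ he ?_
      · intro i
        split_ifs
        · exact he i
        · exact (hF i).1 _ fun j => he _
      · intro i hi
        simp [hi]
    | succ m ih =>
      intro hm
      have ih' := ih (by omega)
      obtain ⟨k, hk⟩ : ∃ k, k = N - (m + 1) := ⟨_, rfl⟩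
      have hk' : N - m = k + 1 := by omega
      rw [hk'] at ih'
      rw [← hk]
      have h1 := ih'.ren (fun i => if i < k then i + 1 else if i = k then 0 else i)
      have h2 := ((hF k).2).ren (fun i => match i with
        | 0 => 0
        | i + 1 => i + k + 1)
      refine (h2.and h1).ex.congr fun e he => ?_
      have key : ∀ v, (fun i => if i < k + 1 then
          (econs v e) (if i < k then i + 1 else if i = k then 0 else i) else
          F i (fun j => (econs v e)
            (if j + (k + 1) < k then j + (k + 1) + 1 else if j + (k + 1) = k then 0 else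
              j + (k + 1)))) = fun i => if i = k then v else if i < k then e i else
          F i (fun j => e (j + k)) := by
        intro v
        funext i
        rcases lt_trichotomy i k with h | h | h
        · simp [h, h.ne, h.trans (Nat.lt_succ_self k), econs]
        · subst h
          simp [econs]
        · have e1 : ¬ i < k + 1 := by omega
          have e2 : ¬ i < k := by omega
          have e3 : ¬ i = k := by omega
          simp only [e1, e2, e3, if_false]
          congr 1
          funext j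
          have e4 : ¬ j + (k + 1) < k := by omega
          have e5 : ¬ j + (k + 1) = k := by omega
          simp only [e4, e5, if_false]
          rfl
      constructor
      · intro h
        refine ⟨F k (fun j => e (j + k)), (hF k).1 _ fun j => he _, rfl, ?_⟩
        dsimp only
        rw [key]
        refine Eq.mp ?_ h
        congr 1
        funext i
        by_cases h1 : i = k
        · subst h1; simp
        · simp [h1]
      · rintro ⟨v, hv, hv1, hv2⟩
        dsimp only at hv1 hv2
        rw [key] at hv2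
        have hv3 : v = F k (fun j => e (j + k)) := hv1
        refine Eq.mp ?_ hv2
        congr 1
        funext i
        by_cases h1 : i = k
        · subst h1; simp [hv3]
        · simp [h1]
  have := main N le_rfl
  simpa using this

theorem comp1 {R : Ordinal.{u} → Prop} {F : (ℕ → Ordinal.{u}) → Ordinal.{u}} (hF : DefF kk F)
    (hP : DefK kk (fun e => R (e 0))) : DefK kk (fun e => R (F e)) :=
  comp (F := fun _ => F) (fun _ => hF) hP

theorem comp2 {R : Ordinal.{u} → Ordinal.{u} → Prop} {F G : (ℕ → Ordinal.{u}) → Ordinal.{u}}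
    (hF : DefF kk F) (hG : DefF kk G)
    (hP : DefK kk (fun e => R (e 0) (e 1))) : DefK kk (fun e => R (F e) (G e)) :=
  comp (F := fun i => match i with
    | 0 => F
    | _ + 1 => G) (fun i => match i with
    | 0 => hF
    | _ + 1 => hG) hP

theorem comp3 {R : Ordinal.{u} → Ordinal.{u} → Ordinal.{u} → Prop}
    {F G H : (ℕ → Ordinal.{u}) → Ordinal.{u}}
    (hF : DefF kk F) (hG : DefF kk G) (hH : DefF kk H)
    (hP : DefK kk (fun e => R (e 0) (e 1) (e 2))) : DefK kk (fun e => R (F e) (G e) (H e)) :=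
  comp (F := fun i => match i with
    | 0 => F
    | 1 => G
    | _ + 2 => H) (fun i => match i with
    | 0 => hF
    | 1 => hG
    | _ + 2 => hH) hP

end DefK

namespace DefF

variable {kk : Ordinal.{u}} {F G : (ℕ → Ordinal.{u}) → Ordinal.{u}}

/-- a variable -/
theorem var (i : ℕ) : DefF kk (fun e : ℕ → Ordinal.{u} => e i) :=
  ⟨fun _ he => he i, DefK.eq 0 (i + 1)⟩

/-- substitution -/
theorem comp {H : ℕ → (ℕ → Ordinal.{u}) → Ordinal.{u}} (hH : ∀ i, DefF kk (H i))
    (hF : DefF kk F) : DefF kk (fun e => F (fun i => H i e)) :=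
  ⟨fun e he => hF.1 _ fun i => (hH i).1 e he,
    DefK.comp (F := fun i => match i with
      | 0 => fun e => e 0
      | i + 1 => fun e => H i (fun j => e (j + 1))) (fun i => match i with
      | 0 => var 0
      | i + 1 => ⟨fun _ he => (hH i).1 _ fun _ => he _, ((hH i).2).ren (fun j => match j with
        | 0 => 0
        | j + 1 => j + 2)⟩) hF.2⟩

/-- renaming -/
theorem ren (hF : DefF kk F) (f : ℕ → ℕ) : DefF kk (fun e => F (fun i => e (f i))) :=
  comp (fun i => var (f i)) hF

/-- pairs -/
theorem J (hk : lev kk = kk) (hF : DefF kk F) (hG : DefF kk G) :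
    DefF kk (fun e => LMach.J (F e) (G e)) :=
  comp (F := fun e => LMach.J (e 0) (e 1)) (H := fun i => match i with
    | 0 => F
    | _ + 1 => G) (fun i => match i with
    | 0 => hF
    | _ + 1 => hG) ⟨fun _ he => J_lt' hk (he 0) (he 1),
      (DefK.pr 1 2 0).congr fun _ _ => eq_comm⟩

end DefF

namespace DefK

variable {kk : Ordinal.{u}} {P Q : (ℕ → Ordinal.{u}) → Prop}
  {F G : (ℕ → Ordinal.{u}) → Ordinal.{u}}

/-- substitution of a definable function for the first variable -/
theorem comp0 (hF : DefF kk F) (hP : DefK kk P) : DefK kk (fun e => P (econs (F e) e)) := by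
  have h := comp (F := fun i => match i with
    | 0 => F
    | i + 1 => fun e => e i) (fun i => match i with
    | 0 => hF
    | i + 1 => DefF.var i) hP
  refine h.congr fun e _ => ?_
  have key : econs (F e) e = (fun i => (match i with
    | 0 => F
    | i + 1 => fun e => e i : (ℕ → Ordinal.{u}) → Ordinal.{u}) e) := by
    funext i
    cases i <;> rfl
  rw [key]

theorem lt' (hF : DefF kk F) (hG : DefF kk G) : DefK kk (fun e => F e < G e) :=
  comp2 (R := fun a b => a < b) hF hG (lt 0 1)

theorem le' (hF : DefF kk F) (hG : DefF kk G) : DefK kk (fun e => F e ≤ G e) :=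
  comp2 (R := fun a b => a ≤ b) hF hG (le 0 1)

theorem eq' (hF : DefF kk F) (hG : DefF kk G) : DefK kk (fun e => F e = G e) :=
  comp2 (R := fun a b => a = b) hF hG (eq 0 1)

theorem mem' (hF : DefF kk F) (hG : DefF kk G) : DefK kk (fun e => Mem (F e) (G e)) :=
  comp2 (R := fun a b => Mem a b) hF hG (mem 0 1)

/-- `∃ v < F e, P (v, e)` -/
theorem exb' (hF : DefF kk F) (hP : DefK kk P) : DefK kk (fun e => ∃ v < F e, P (econs v e)) :=
  (((lt' (DefF.var 0) (hF.ren (fun i => i + 1))).and hP).ex).congr fun e he =>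
    ⟨fun ⟨v, h1, h2⟩ => ⟨v, h1.trans (hF.1 e he), h1, h2⟩, fun ⟨v, _, h1, h2⟩ => ⟨v, h1, h2⟩⟩

/-- `∀ v < F e, P (v, e)` -/
theorem allb' (hF : DefF kk F) (hP : DefK kk P) : DefK kk (fun e => ∀ v < F e, P (econs v e)) :=
  (exb' hF hP.neg).neg.congr fun e _ => by push Not; rfl

/-- `∃ v, Mem v (F e) ∧ P (v, e)` -/
theorem exm (hF : DefF kk F) (hP : DefK kk P) :
    DefK kk (fun e => ∃ v, Mem v (F e) ∧ P (econs v e)) :=
  (((mem' (DefF.var 0) (hF.ren (fun i => i + 1))).and hP).ex).congr fun e he =>
    ⟨fun ⟨v, h1, h2⟩ => ⟨v, (mem_lt' h1).trans (hF.1 e he), h1, h2⟩,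
      fun ⟨v, _, h1, h2⟩ => ⟨v, h1, h2⟩⟩

/-- `∀ v, Mem v (F e) → P (v, e)` -/
theorem allm (hF : DefF kk F) (hP : DefK kk P) :
    DefK kk (fun e => ∀ v, Mem v (F e) → P (econs v e)) :=
  (exm hF hP.neg).neg.congr fun e _ => by push Not; rfl

end DefK

/-! ### Reflection and naming -/

section reflection

variable {κ : Cardinal.{u}}

/-- closed levels that are closed under a function -/
theorem exists_closed_fun (h0 : ℵ₀ < κ) (hκ : κ.IsRegular) (f : Ordinal.{u} → Ordinal.{u})
    (hf : ∀ x < κ.ord, f x < κ.ord) {x : Ordinal.{u}} (hx : x < κ.ord) :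
    ∃ g < κ.ord, x < g ∧ lev g = g ∧ ∀ y < g, f y < g := by
  have hstep : ∀ x, ∃ y, x < κ.ord → y < κ.ord ∧ x < y ∧ lev y = y ∧ ∀ z < x, f z < y := by
    intro x
    by_cases hx : x < κ.ord
    · obtain ⟨b, hb, hb'⟩ := bddIio hκ f hx (fun y hy => hf y (hy.trans hx))
      obtain ⟨g, hg, hg1, hg2⟩ := exists_closed' h0 hκ (max_lt hb hx)
      exact ⟨g, fun _ => ⟨hg, (le_max_right _ _).trans_lt hg1, hg2,
        fun z hz => (hb' z hz).trans ((le_max_left _ _).trans_lt hg1)⟩⟩
    · exact ⟨0, fun h => absurd h hx⟩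
  choose s hs using hstep
  let w : ℕ → Ordinal.{u} := fun n => Nat.rec x (fun _ y => s y) n
  have hw1 : ∀ n, w (n + 1) = s (w n) := fun n => rfl
  have hwk : ∀ n, w n < κ.ord := by
    intro n
    induction n with
    | zero => exact hx
    | succ n ih => rw [hw1]; exact (hs _ ih).1
  have hlt : ∀ n, w n < w (n + 1) := fun n => by rw [hw1]; exact (hs _ (hwk n)).2.1
  obtain ⟨b, hb, hb'⟩ := bddNat h0 hκ w hwk
  have hbd : BddAbove (range w) := ⟨b, by rintro _ ⟨n, rfl⟩; exact (hb' n).le⟩
  have hle : ∀ n, w n ≤ ⨆ n, w n := fun n => le_ciSup hbd n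
  refine ⟨⨆ n, w n, lt_of_le_of_lt (ciSup_le fun n => (hb' n).le) hb,
    lt_of_lt_of_le (hlt 0) (hle 1), ?_, ?_⟩
  · refine lev_limit' fun y hy => ?_
    obtain ⟨n, hn⟩ := exists_lt_of_lt_ciSup hy
    exact ⟨w (n + 1), (hlt (n + 1)).trans_le (hle (n + 1 + 1)), hn.trans (hlt n),
      by rw [hw1]; exact (hs _ (hwk n)).2.2.1⟩
  · intro y hy
    obtain ⟨n, hn⟩ := exists_lt_of_lt_ciSup hy
    have : f y < w (n + 1) := by rw [hw1]; exact (hs _ (hwk n)).2.2.2 y hn
    exact this.trans_le (hle (n + 1))

/-- Reflection: there is a function such that every limit `g` closed under it reflects `p`. -/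
theorem reflect (h0 : ℵ₀ < κ) (hκ : κ.IsRegular) (p : Fm) :
    ∃ f : Ordinal.{u} → Ordinal.{u}, (∀ x < κ.ord, f x < κ.ord) ∧
      ∀ g ≤ κ.ord, (∀ x < g, x + 1 < g) → (∀ x < g, f x < g) → ∀ e : ℕ → Ordinal.{u},
        (∀ i, e i < g) → (SatE g Mem p e ↔ SatE κ.ord Mem p e) := by
  have hk0 : 0 < κ.ord := by
    rw [Cardinal.lt_ord, Ordinal.card_zero]
    exact (Cardinal.aleph0_pos).trans h0
  induction p with
  | lt i j => exact ⟨fun _ => 0, fun _ _ => hk0, fun g _ _ _ e _ => Iff.rfl⟩
  | mm i j => exact ⟨fun _ => 0, fun _ _ => hk0, fun g _ _ _ e _ => Iff.rfl⟩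
  | pr i j k => exact ⟨fun _ => 0, fun _ _ => hk0, fun g _ _ _ e _ => Iff.rfl⟩
  | neg p ih =>
    obtain ⟨f, h1, h2⟩ := ih
    exact ⟨f, h1, fun g hg hl hf e he => not_congr (h2 g hg hl hf e he)⟩
  | and p q ih1 ih2 =>
    obtain ⟨f, h1, h2⟩ := ih1
    obtain ⟨f', h1', h2'⟩ := ih2
    exact ⟨fun x => max (f x) (f' x), fun x hx => max_lt (h1 x hx) (h1' x hx),
      fun g hg hl hf e he => and_congr
        (h2 g hg hl (fun x hx => (le_max_left _ _).trans_lt (hf x hx)) e he)
        (h2' g hg hl (fun x hx => (le_max_right _ _).trans_lt (hf x hx)) e he)⟩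
  | ex p ih =>
    obtain ⟨f, h1, h2⟩ := ih
    obtain ⟨N, hN⟩ := sat_congr' p
    -- witnesses for environments given by lists
    have hW : ∀ l : List Ordinal.{u}, ∃ w < κ.ord,
        (∃ v < κ.ord, SatE κ.ord Mem p (econs v (fun i => l.getD i 0))) →
        SatE κ.ord Mem p (econs w (fun i => l.getD i 0)) := by
      intro l
      by_cases h : ∃ v < κ.ord, SatE κ.ord Mem p (econs v (fun i => l.getD i 0))
      · obtain ⟨v, hv, hv'⟩ := h
        exact ⟨v, hv, fun _ => hv'⟩
      · exact ⟨0, hk0, fun h' => absurd h' h⟩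
    choose W hW1 hW2 using hW
    have hb : ∀ x, ∃ b, x < κ.ord → b < κ.ord ∧
        ∀ l : List Ordinal.{u}, (∀ a ∈ l, a < x) → W l < b := by
      intro x
      by_cases hx : x < κ.ord
      · obtain ⟨b, hb, hb'⟩ := bddList h0 hκ W hx (fun l _ => hW1 l)
        exact ⟨b, fun _ => ⟨hb, hb'⟩⟩
      · exact ⟨0, fun h => absurd h hx⟩
    choose b hb using hb
    refine ⟨fun x => max (f x) (b x), fun x hx => max_lt (h1 x hx) (hb x hx).1,
      fun g hg hl hf e he => ?_⟩
    have hf1 : ∀ x < g, f x < g := fun x hx => (le_max_left _ _).trans_lt (hf x hx)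
    have hf2 : ∀ x < g, b x < g := fun x hx => (le_max_right _ _).trans_lt (hf x hx)
    constructor
    · rintro ⟨v, hv, h⟩
      exact ⟨v, hv.trans_le hg, (h2 g hg hl hf1 _ (econs_lt hv he)).mp h⟩
    · rintro ⟨v, hv, h⟩
      -- a bound for the first entries
      have hx : ∀ n : ℕ, ∃ x < g, ∀ i < n, e i < x := by
        intro n
        induction n with
        | zero => exact ⟨e 0, he 0, fun i hi => absurd hi (by omega)⟩
        | succ n ih =>
          obtain ⟨x, hx, hx'⟩ := ih
          refine ⟨max x (e n + 1), max_lt hx (hl _ (he n)), fun i hi => ?_⟩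
          rcases Nat.lt_succ_iff_lt_or_eq.mp hi with h | h
          · exact (hx' i h).trans_le (le_max_left _ _)
          · subst h
            exact (lt_add_one _).trans_le (le_max_right _ _)
      obtain ⟨x, hx, hx'⟩ := hx N
      let l : List Ordinal.{u} := (List.range N).map e
      have hl' : ∀ a ∈ l, a < x := by
        intro a ha
        obtain ⟨i, hi, rfl⟩ := List.mem_map.mp ha
        exact hx' i (List.mem_range.mp hi)
      have hle : ∀ i < N, l.getD i 0 = e i := by
        intro i hi
        simp [l, hi]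
      have hcong : ∀ (g : Ordinal.{u}) (v : Ordinal.{u}),
          SatE g Mem p (econs v (fun i => l.getD i 0)) ↔ SatE g Mem p (econs v e) := by
        intro g v
        refine hN _ _ _ _ fun i hi => ?_
        cases i with
        | zero => rfl
        | succ n => exact hle n (by omega)
      have hw := hW2 l ⟨v, hv, (hcong _ _).mpr h⟩
      have hwg : W l < g := ((hb x (hx.trans_le hg)).2 l hl').trans (hf2 x hx)
      exact ⟨W l, hwg, (h2 g hg hl hf1 _ (econs_lt hwg he)).mpr ((hcong _ _).mp hw)⟩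

/-- Naming of definable bounded sets (with parameters). -/
theorem DefK.cod (h0 : ℵ₀ < κ) (hκ : κ.IsRegular) {P : (ℕ → Ordinal.{u}) → Prop}
    (hP : DefK κ.ord P) {e : ℕ → Ordinal.{u}} (he : ∀ i, e i < κ.ord) {μ : Ordinal.{u}}
    (hμ : μ < κ.ord) : ∃ v < κ.ord, ∀ w, Mem w v ↔ (w < μ ∧ P (econs w e)) := by
  obtain ⟨p, hp⟩ := hP
  obtain ⟨N, hN⟩ := sat_congr' p
  obtain ⟨f, hf1, hf2⟩ := reflect h0 hκ p
  -- the environment with `μ` at the place `N`
  let e' : ℕ → Ordinal.{u} := fun i => if i < N then e i else μ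
  have he' : ∀ i, e' i < κ.ord := by
    intro i
    simp only [e']
    split_ifs
    · exact he i
    · exact hμ
  obtain ⟨x, hx, hx'⟩ := bddNat h0 hκ e' he'
  obtain ⟨g, hg, hxg, hgl, hgf⟩ := exists_closed_fun h0 hκ f hf1 (x := max x 1)
    (max_lt hx (lt_of_le_of_lt (by simp [Order.one_le_iff_pos]; exact (hx' 0).bot_lt) hx))
  have hg1 : 1 < g := (le_max_right _ _).trans_lt hxg
  have heg : ∀ i, e' i < g := fun i => (hx' i).trans ((le_max_left _ _).trans_lt hxg)
  obtain ⟨a, ha, ha'⟩ := exists_code' hgl hg1 (N + 1) e' heg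
  have hag : ∀ i, var i a < g := fun i => (var_le' i a).trans_lt ha
  refine ⟨code g (idx (Fm.and p (Fm.lt 0 (N + 1))) : Ordinal.{u}) a, ?_, fun w => ?_⟩
  · exact code_lt_ord' h0.le hg ((idx_le hgl hg1 _).trans_lt hg) (ha.trans hg)
  · rw [mem_code' hgl hg1 ha, env_J]
    have hμN : var N a = μ := by
      rw [ha' N (by omega)]
      simp [e']
    have hμg : μ < g := by
      have := heg N
      simpa [e'] using this
    constructor
    · rintro ⟨hw, h1, h2⟩
      have h2' : w < var N a := h2
      rw [hμN] at h2'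
      refine ⟨h2', ?_⟩
      have h3 := (hf2 g hg.le (closed_lim' hgl hg1).2 hgf _ (econs_lt hw hag)).mp h1
      have h4 : SatE κ.ord Mem p (econs w e) := by
        refine (hN _ _ _ _ fun i hi => ?_).mp h3
        cases i with
        | zero => rfl
        | succ n =>
          show var n a = e n
          rw [ha' n (by omega)]
          simp only [e']
          rw [if_pos (by omega)]
      exact (hp _ (econs_lt (hw.trans hg) he)).mp h4
    · rintro ⟨hw, h1⟩
      have hwg := hw.trans hμg
      refine ⟨hwg, ?_, by show w < var N a; rw [hμN]; exact hw⟩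
      have h4 := (hp _ (econs_lt (hwg.trans hg) he)).mpr h1
      refine (hf2 g hg.le (closed_lim' hgl hg1).2 hgf _ (econs_lt hwg hag)).mpr ?_
      refine (hN _ _ _ _ fun i hi => ?_).mpr h4
      cases i with
      | zero => rfl
      | succ n =>
        show var n a = e n
        rw [ha' n (by omega)]
        simp only [e']
        rw [if_pos (by omega)]

/-! ### The recursion lemma -/

/-- The property defined by recursion from `Ψ`: the variable `0` is the argument `w`, the other
variables are parameters. -/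
def RecP (kk : Ordinal.{u}) (Ψ : (ℕ → Ordinal.{u}) → Prop) (e : ℕ → Ordinal.{u}) : Prop :=
  ∃ z < kk, (∀ i < e 0, (Mem i z ↔ Ψ (econs i (econs z (fun n => e (n + 1)))))) ∧
    Ψ (econs (e 0) (econs z (fun n => e (n + 1))))

theorem DefK.recP {kk : Ordinal.{u}} {Ψ : (ℕ → Ordinal.{u}) → Prop} (hΨ : DefK kk Ψ) :
    DefK kk (RecP kk Ψ) := by
  -- the environment of the matrix is `(z, w, e)`, then `(i, z, w, e)`
  have h1 : DefK kk (fun e => Mem (e 0) (e 1) ↔
      Ψ (econs (e 0) (econs (e 1) (fun n => e (n + 3))))) := by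
    refine (DefK.mem 0 1).iff ((hΨ.ren (fun i => match i with
      | 0 => 0
      | 1 => 1
      | i + 2 => i + 3)).congr fun e _ => ?_)
    have key : econs (e 0) (econs (e 1) (fun n => e (n + 3))) = fun i => e (match i with
      | 0 => 0
      | 1 => 1
      | i + 2 => i + 3) := by
      funext i
      match i with
      | 0 => rfl
      | 1 => rfl
      | i + 2 => rfl
    rw [key]
  have h2 : DefK kk (fun e => Ψ (econs (e 1) (econs (e 0) (fun n => e (n + 2))))) := by
    refine (hΨ.ren (fun i => match i with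
      | 0 => 1
      | 1 => 0
      | i + 2 => i + 2)).congr fun e _ => ?_
    have key : econs (e 1) (econs (e 0) (fun n => e (n + 2))) = fun i => e (match i with
      | 0 => 1
      | 1 => 0
      | i + 2 => i + 2) := by
      funext i
      match i with
      | 0 => rfl
      | 1 => rfl
      | i + 2 => rfl
    rw [key]
  exact ((h1.allb 1).and h2).ex

/-- The recursion lemma.  If membership of `w` in the class `T` is given by the definable property
`Ψ` applied to `w` and to any name of a set that agrees with `T` below `w`, then `T` is definable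
below `kk` (by a formula that depends only on `Ψ`). -/
theorem DefK.recursion (h0 : ℵ₀ < κ) (hκ : κ.IsRegular) {Ψ : (ℕ → Ordinal.{u}) → Prop}
    (hΨ : DefK κ.ord Ψ) {e : ℕ → Ordinal.{u}} (he : ∀ i, e i < κ.ord)
    {T : Ordinal.{u} → Prop}
    (hT : ∀ w < κ.ord, ∀ z < κ.ord, (∀ i < w, (Mem i z ↔ T i)) →
      (T w ↔ Ψ (econs w (econs z e)))) :
    (∀ w < κ.ord, (T w ↔ RecP κ.ord Ψ (econs w e))) ∧
      ∀ μ < κ.ord, ∃ v < κ.ord, ∀ w, Mem w v ↔ (w < μ ∧ T w) := by
  -- a name that satisfies the recursion agrees with `T`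
  have hA : ∀ w < κ.ord, ∀ z < κ.ord,
      (∀ i < w, (Mem i z ↔ Ψ (econs i (econs z e)))) → ∀ i < w, (Mem i z ↔ T i) := by
    intro w hw z hz h i
    induction i using WellFoundedLT.induction with
    | ind i ih =>
      intro hi
      rw [h i hi, hT i (hi.trans hw) z hz (fun j hj => ih j hj (hj.trans hi))]
  -- the property holds exactly on `T`, if there are names below `w`
  have hB : ∀ w < κ.ord, (∃ z < κ.ord, ∀ i < w, (Mem i z ↔ T i)) →
      (T w ↔ RecP κ.ord Ψ (econs w e)) := by
    rintro w hw ⟨z, hz, hzT⟩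
    constructor
    · intro h
      refine ⟨z, hz, fun i hi => ?_, (hT w hw z hz hzT).mp h⟩
      have hi' : i < w := hi
      rw [hzT i hi', hT i (hi'.trans hw) z hz (fun j hj => hzT j (hj.trans hi'))]
      rfl
    · rintro ⟨y, hy, h1, h2⟩
      exact (hT w hw y hy (hA w hw y hy h1)).mpr h2
  have hC : ∀ w < κ.ord, ∃ z < κ.ord, ∀ i, (Mem i z ↔ i < w ∧ T i) := by
    intro w
    induction w using WellFoundedLT.induction with
    | ind w ih =>
      intro hw
      obtain ⟨v, hv, hv'⟩ := (hΨ.recP).cod h0 hκ he hw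
      refine ⟨v, hv, fun i => ?_⟩
      rw [hv' i]
      refine and_congr_right fun hi => ?_
      obtain ⟨z, hz, hz'⟩ := ih i hi (hi.trans hw)
      refine (hB i (hi.trans hw) ⟨z, hz, fun j hj => ?_⟩).symm
      rw [hz' j]
      exact and_iff_right hj
  refine ⟨fun w hw => ?_, hC⟩
  obtain ⟨z, hz, hz'⟩ := hC w hw
  refine hB w hw ⟨z, hz, fun j hj => ?_⟩
  rw [hz' j]
  exact and_iff_right hj

end reflection

end Pool.Agent.LMach
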