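import Mathlib

/-!
# The machine: definitions

Everything is done inside the ordinals `Ordinal.{u}`.  A location is a triple `(g, h, t)` of
ordinals with `h ≤ g` and `t ≤ g`; locations are ordered lexicographically and `code` is the
order isomorphism onto the ordinals; `lev`, `hd`, `tl` are the three coordinates of an ordinal.
A closed level is an ordinal `g` with `lev g = g`.  For a closed level `g` the ordinal
`code g (idx φ) a` names the subset of `g` that is defined over `g` by the formula `φ` with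
parameter `a`; `Mem w v` says that `w` belongs to the set named by `v`.
-/

open Set

universe u

namespace Pool.Agent.LMach

/-! ### Locations -/

/-- `bet g` is the sum of `(d + 1) * (d + 1)` over all `d < g`. -/
noncomputable def bet (g : Ordinal.{u}) : Ordinal.{u} :=
  ⨆ d : Set.Iio g, (bet d.1 + (d.1 + 1) * (d.1 + 1))
termination_by g
decreasing_by exact d.2

/-- The ordinal that codes the location `(g, h, t)`. -/
noncomputable def code (g h t : Ordinal.{u}) : Ordinal.{u} :=
  bet g + (g + 1) * h + t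

/-- The level (first coordinate) of an ordinal. -/
noncomputable def lev (v : Ordinal.{u}) : Ordinal.{u} :=
  sInf {g | v < bet (g + 1)}

/-- The head (second coordinate) of an ordinal. -/
noncomputable def hd (v : Ordinal.{u}) : Ordinal.{u} :=
  (v - bet (lev v)) / (lev v + 1)

/-- The tail (third coordinate) of an ordinal. -/
noncomputable def tl (v : Ordinal.{u}) : Ordinal.{u} :=
  (v - bet (lev v)) % (lev v + 1)

/-- The pairing function. -/
noncomputable def J (x y : Ordinal.{u}) : Ordinal.{u} :=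
  code (max x y) x y

/-- The `i`-th entry of the finite list coded by `w`. -/
noncomputable def var (i : ℕ) (w : Ordinal.{u}) : Ordinal.{u} :=
  hd (tl^[i] w)

/-! ### Formulas -/

/-- Formulas of the language of the machine. -/
inductive Fm : Type
  | lt (i j : ℕ) : Fm
  | mm (i j : ℕ) : Fm
  | pr (i j k : ℕ) : Fm
  | neg (p : Fm) : Fm
  | and (p q : Fm) : Fm
  | ex (p : Fm) : Fm

/-- The number of a formula. -/
def idx : Fm → ℕ
  | Fm.lt i j => Nat.pair 0 (Nat.pair i j) + 1
  | Fm.mm i j => Nat.pair 1 (Nat.pair i j) + 1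
  | Fm.pr i j k => Nat.pair 2 (Nat.pair i (Nat.pair j k)) + 1
  | Fm.neg p => Nat.pair 3 (idx p) + 1
  | Fm.and p q => Nat.pair 4 (Nat.pair (idx p) (idx q)) + 1
  | Fm.ex p => Nat.pair 5 (idx p) + 1

/-- Put a new entry in front of an environment. -/
def econs (v : Ordinal.{u}) (e : ℕ → Ordinal.{u}) : ℕ → Ordinal.{u}
  | 0 => v
  | n + 1 => e n

/-- Truth of a formula over the level `g`; `R` interprets membership (`R w v` for `w` in the set
named by `v`). -/
def SatE (g : Ordinal.{u}) (R : Ordinal.{u} → Ordinal.{u} → Prop) :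
    Fm → (ℕ → Ordinal.{u}) → Prop
  | Fm.lt i j, e => e i < e j
  | Fm.mm i j, e => R (e i) (e j)
  | Fm.pr i j k, e => J (e i) (e j) = e k
  | Fm.neg p, e => ¬ SatE g R p e
  | Fm.and p q, e => SatE g R p e ∧ SatE g R q e
  | Fm.ex p, e => ∃ v < g, SatE g R p (econs v e)

/-! ### The membership relation of the machine -/

/-- One step of the recursion that defines `Mem`. -/
def MemStep (v : Ordinal.{u}) (IH : ∀ v', v' < v → Ordinal.{u} → Prop) (w : Ordinal.{u}) : Prop :=
  lev (lev v) = lev v ∧ w < lev v ∧ tl v < lev v ∧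
    ∃ p : Fm, hd v = (idx p : Ordinal.{u}) ∧
      SatE (lev v) (fun a b => ∃ h : b < v, IH b h a) p (fun i => var i (J w (tl v)))

/-- `MemR v w` holds if `w` belongs to the set named by `v`. -/
noncomputable def MemR : Ordinal.{u} → Ordinal.{u} → Prop :=
  WellFounded.fix (C := fun _ => Ordinal.{u} → Prop) (Ordinal.lt_wf) MemStep

/-- `Mem w v`: the ordinal `w` belongs to the set named by `v`. -/
def Mem (w v : Ordinal.{u}) : Prop := MemR v w

/-- `v` is the least element of the set named by `a`. -/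
def IsMn (v a : Ordinal.{u}) : Prop := Mem v a ∧ ∀ w < v, ¬ Mem w a

/-! ### New codes, and the function that leads to the next one -/

/-- The set named by `e` has a trace on `l` that is named by no smaller ordinal. -/
def New (l e : Ordinal.{u}) : Prop := ∀ e' < e, ∃ w < l, ¬ (Mem w e ↔ Mem w e')

/-- `v` is the code `(g + 1, 0, g)` for the least closed level `g` above the least new code
above `b` (new with respect to `a`). -/
def URel (a b v : Ordinal.{u}) : Prop :=
  a ≤ b ∧ ∃ g e, v = code (g + 1) 0 g ∧ lev g = g ∧ e < g ∧ (∀ z, e < z → z < g → lev z ≠ z) ∧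
    b < e ∧ New a e ∧ ∀ e', b < e' → e' < e → ¬ New a e'

/-! ### Hulls and collapses -/

/-- The closure of `Q` under the functions of the machine, where all values must be below `θ`. -/
inductive Cl (θ : Ordinal.{u}) (Q : Set Ordinal.{u}) : Ordinal.{u} → Prop
  | base {x : Ordinal.{u}} : x ∈ Q → x < θ → Cl θ Q x
  | zero : 0 < θ → Cl θ Q 0
  | succ {a : Ordinal.{u}} : Cl θ Q a → a + 1 < θ → Cl θ Q (a + 1)
  | lev {a : Ordinal.{u}} : Cl θ Q a → Cl θ Q (lev a)
  | hd {a : Ordinal.{u}} : Cl θ Q a → Cl θ Q (hd a)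
  | tl {a : Ordinal.{u}} : Cl θ Q a → Cl θ Q (tl a)
  | mn {a v : Ordinal.{u}} : Cl θ Q a → IsMn v a → Cl θ Q v
  | code {a b c : Ordinal.{u}} : Cl θ Q a → Cl θ Q b → Cl θ Q c → b ≤ a → c ≤ a →
      code a b c < θ → Cl θ Q (code a b c)
  | up {a b v : Ordinal.{u}} : Cl θ Q a → Cl θ Q b → URel a b v → v < θ → Cl θ Q v

/-- `X` is a subset of `θ` that is closed under the functions of the machine. -/
def ClosedIn (θ : Ordinal.{u}) (X : Set Ordinal.{u}) : Prop :=
  X ⊆ Iio θ ∧ ∀ x, Cl θ X x → x ∈ X

/-- The collapsing map of the set `X`: `col X v` is the order type of the part of `X` below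
`v`. -/
noncomputable def col (X : Set Ordinal.{u}) (v : Ordinal.{u}) : Ordinal.{u} :=
  ⨆ w : {w // w ∈ X ∧ w < v}, (col X w.1 + 1)
termination_by v
decreasing_by exact w.2.2

/-- The hull in `θ` of the ordinals up to `l` and the entries of the list `p`. -/
def Hull (l θ : Ordinal.{u}) (p : List Ordinal.{u}) : Ordinal.{u} → Prop :=
  Cl θ (Iic l ∪ {x | x ∈ p})

/-- The property `P` is unbounded below `τ`: there are arbitrarily large `y < τ` with `P y`. -/
def UnbBelow (P : Ordinal.{u} → Prop) (τ : Ordinal.{u}) : Prop :=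
  ∀ x < τ, ∃ y < τ, x < y ∧ P y

/-! ### The coherent sequence -/

/-- The class on which the coherent sequence of level `l` lives: limit ordinals above `l` that
are closed under `URel l`. -/
def ColS (l τ : Ordinal.{u}) : Prop :=
  l < τ ∧ (∀ x < τ, x + 1 < τ) ∧ ∀ y, l ≤ y → y < τ → ∃ v < τ, URel l y v

/-- Limits of `ColS l`. -/
def LimC (l τ : Ordinal.{u}) : Prop :=
  l < τ ∧ UnbBelow (ColS l) τ

/-- The least `θ ≥ τ` such that some hull of the form `Hull l θ p` is unbounded in `τ`. -/
noncomputable def th (l τ : Ordinal.{u}) : Ordinal.{u} :=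
  sInf {θ | τ ≤ θ ∧ ∃ p : List Ordinal.{u}, (∀ x ∈ p, x < θ) ∧ UnbBelow (Hull l θ p) τ}

/-- The lists of ordinals below `th l τ` whose hull contains `τ`. -/
def PlSet (l τ : Ordinal.{u}) : Set (List Ordinal.{u}) :=
  {p | (∀ x ∈ p, x < th l τ) ∧ ∀ x < τ, Hull l (th l τ) p x}

/-- The least list in `PlSet l τ`, in the short lexicographic order. -/
noncomputable def pl (l τ : Ordinal.{u}) : List Ordinal.{u} :=
  open Classical in
  if h : (PlSet l τ).Nonempty then
    WellFounded.min (List.Shortlex.wf (r := (fun a b : Ordinal.{u} => a < b)) Ordinal.lt_wf)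
      (PlSet l τ) h
  else []

/-- The bounds that are used for the construction of the sequence at `τ`. -/
def RR (l τ r : Ordinal.{u}) : Prop :=
  (τ ≤ r ∨ ColS l r) ∧ (∀ x ∈ pl l τ, x < r) ∧ r < th l τ

/-- The least ordinal that is not in `Hull l r (pl l τ)` or not below `τ`. -/
noncomputable def DD (l τ r : Ordinal.{u}) : Ordinal.{u} :=
  sInf {d | ¬ (d < τ ∧ Hull l r (pl l τ) d)}

/-- The coherent sequence of level `l`. -/
noncomputable def CS (l τ : Ordinal.{u}) : Set Ordinal.{u} :=
  {d | (LimC l τ ∧ ∃ r, RR l τ r ∧ d = DD l τ r) ∨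
    (¬ LimC l τ ∧ ColS l d ∧ d < τ ∧ ∀ d', ColS l d' → d' < τ → d' ≤ d)}

/-! ### Walks -/

/-- The step of the walk from `τ` to `x` along `C`. -/
noncomputable def stp (C : Ordinal.{u} → Set Ordinal.{u}) (τ x : Ordinal.{u}) : Ordinal.{u} :=
  sInf {d | d ∈ C τ ∧ x ≤ d}

open Classical in
/-- The number of steps of the walk from `τ` to `x` along `C`. -/
noncomputable def rho (C : Ordinal.{u} → Set Ordinal.{u}) (x τ : Ordinal.{u}) : ℕ :=
  if h : x < τ ∧ stp C τ x < τ then rho C x (stp C τ x) + 1 else 0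
termination_by τ
decreasing_by exact h.2

open Classical in
/-- The number of steps of the walk from `τ` to `x` along `C` until `x` is reached or becomes a
limit point. -/
noncomputable def cc (C : Ordinal.{u} → Set Ordinal.{u}) (x τ : Ordinal.{u}) : ℕ :=
  if h : x < τ ∧ stp C τ x < τ ∧ ¬ UnbBelow (fun y => y ∈ C τ) x then
    cc C x (stp C τ x) + 1 else 0
termination_by τ
decreasing_by exact h.2.1

/-- A coherent system on the closed class `K`, defined up to `top`. -/
structure Coh (K : Set Ordinal.{u}) (C : Ordinal.{u} → Set Ordinal.{u}) (top : Ordinal.{u}) :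
    Prop where
  /-- `K` is closed -/
  closed : ∀ τ, 0 < τ → UnbBelow (fun y => y ∈ K) τ → τ ∈ K
  /-- the members of `C τ` are members of `K` below `τ` -/
  sub : ∀ τ ∈ K, τ ≤ top → ∀ d ∈ C τ, d ∈ K ∧ d < τ
  /-- `C τ` reaches beyond every member of `K` below `τ` -/
  cof : ∀ τ ∈ K, τ ≤ top → ∀ x ∈ K, x < τ → ∃ d ∈ C τ, x ≤ d
  /-- `C τ` is closed in `τ` -/
  cl : ∀ τ ∈ K, τ ≤ top → ∀ d < τ, 0 < d → UnbBelow (fun y => y ∈ C τ) d → d ∈ C τ
  /-- coherence -/
  coh : ∀ τ ∈ K, τ ≤ top → ∀ d < τ, 0 < d → UnbBelow (fun y => y ∈ C τ) d →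
    C d = C τ ∩ Iio d

end Pool.Agent.LMach
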