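import Pool.Agent.LMach.Spec

/-!
# The machine: the abstract final combinatorics

`p_FINC : T_FINC`, by a closure argument.
-/

open Set Cardinal

universe u

namespace Pool.Agent.LMach

namespace FinC

/-- bounds for few ordinals -/
theorem exists_bound {κ : Cardinal.{u}} (hκ : ℵ₀ ≤ κ) {I : Type u} (hI : #I ≤ κ)
    (f : I → Ordinal.{u}) (hf : ∀ i, f i < (Order.succ κ).ord) :
    ∃ η < (Order.succ κ).ord, ∀ i, f i < η := by
  have hreg := isRegular_succ hκ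
  refine ⟨⨆ i, f i + 1, ?_, ?_⟩
  · apply Ordinal.iSup_add_one_lt_of_lt_cof _ hf
    rw [hreg.cof_ord]
    exact Order.lt_succ_of_le hI
  · intro i
    exact Ordinal.lt_iSup_add_one f i

/-- the sequence of closure -/
noncomputable def s (h : Ordinal.{u} → Ordinal.{u}) (i : Ordinal.{u}) : Ordinal.{u} :=
  ⨆ j : Iio i, (max (s h j.1) (h (s h j.1)) + 1)
termination_by i
decreasing_by exact j.2

theorem lt_s (h : Ordinal.{u} → Ordinal.{u}) {j i : Ordinal.{u}} (hji : j < i) :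
    max (s h j) (h (s h j)) < s h i := by
  conv_rhs => rw [s]
  exact Ordinal.lt_iSup_add_one (fun j : Iio i => max (s h j.1) (h (s h j.1))) ⟨j, hji⟩

theorem s_lt {κ : Cardinal.{u}} (hκ : ℵ₀ ≤ κ) (h : Ordinal.{u} → Ordinal.{u})
    (hh : ∀ δ < (Order.succ κ).ord, h δ < (Order.succ κ).ord) (i : Ordinal.{u})
    (hi : i < (Order.succ κ).ord) : s h i < (Order.succ κ).ord := by
  have hreg := isRegular_succ hκ
  induction i using WellFoundedLT.induction with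
  | ind i ih =>
    rw [s]
    apply Ordinal.lift_iSup_add_one_lt_of_lt_cof
    · rw [← Ordinal.lift_cof, hreg.cof_ord]
      have h1 : #(Iio i) = Cardinal.lift.{u+1} i.card := by simp
      have h2 : i.card < Order.succ κ := by rwa [← lt_ord]
      rw [h1, Cardinal.lift_lift]
      exact Cardinal.lift_lt.2 h2
    · intro j
      have := ih j.1 j.2 (j.2.trans hi)
      exact max_lt this (hh _ this)

/-- closure points of cofinality `κ` -/
theorem exists_closure {κ : Cardinal.{u}} (hκ : κ.IsRegular) (h : Ordinal.{u} → Ordinal.{u})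
    (hh : ∀ δ < (Order.succ κ).ord, h δ < (Order.succ κ).ord) :
    ∃ g < (Order.succ κ).ord, g.cof = κ ∧ ∀ δ < g, ∃ δ' < g, δ ≤ δ' ∧ h δ' < g := by
  have hreg := isRegular_succ hκ.aleph0_le
  have hmono : StrictMono (s h) := fun i j hij => (le_max_left _ _).trans_lt (lt_s h hij)
  refine ⟨⨆ i : Iio κ.ord, (s h i.1 + 1), ?_, ?_, ?_⟩
  · apply Ordinal.lift_iSup_add_one_lt_of_lt_cof
    · rw [← Ordinal.lift_cof, hreg.cof_ord]
      have h1 : #(Iio κ.ord) = Cardinal.lift.{u+1} κ := by simp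
      rw [h1, Cardinal.lift_lift]
      simp
    · intro j
      apply s_lt hκ.aleph0_le h hh
      exact j.2.trans (by simp)
  · rw [Ordinal.cof_iSup_Iio_add_one, hκ.cof_ord]
    intro i j hij
    exact hmono hij
  · intro δ hδ
    rw [Ordinal.lt_iSup_add_one_iff] at hδ
    obtain ⟨i, hi⟩ := hδ
    have hlim : ∀ x < κ.ord, x + 1 < κ.ord := fun x hx =>
      (isSuccLimit_ord hκ.aleph0_le).add_one_lt hx
    have key : ∀ x < κ.ord, s h x < ⨆ i : Iio κ.ord, (s h i.1 + 1) := fun x hx =>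
      Ordinal.lt_iSup_add_one (fun i : Iio κ.ord => s h i.1) ⟨x, hx⟩
    refine ⟨s h i.1, key i.1 i.2, hi, ?_⟩
    have h2 := (le_max_right _ _).trans_lt (lt_s h (lt_add_one i.1))
    exact h2.trans (key _ (hlim i.1 i.2))

/-- `η` decides `Q` at `δ` -/
def R (K : Ordinal.{u}) (Q : Ordinal.{u} → Prop) (δ η : Ordinal.{u}) : Prop :=
  (∀ g, Q g → g < η) ∨ ((∀ y < K, ∃ g, Q g ∧ y < g) ∧ ∃ g, Q g ∧ δ < g ∧ g < η)

theorem R.mono {K : Ordinal.{u}} {Q : Ordinal.{u} → Prop} {δ η η' : Ordinal.{u}} (h : R K Q δ η)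
    (hη : η ≤ η') : R K Q δ η' := by
  rcases h with h | ⟨h, g, h1, h2, h3⟩
  · exact Or.inl fun g hg => (h g hg).trans_le hη
  · exact Or.inr ⟨h, g, h1, h2, h3.trans_le hη⟩

theorem exists_R {κ : Cardinal.{u}} (hκ : ℵ₀ ≤ κ) (Q : Ordinal.{u} → Prop)
    (hQ : ∀ g, Q g → g < (Order.succ κ).ord) (δ : Ordinal.{u}) (hδ : δ < (Order.succ κ).ord) :
    ∃ η < (Order.succ κ).ord, R (Order.succ κ).ord Q δ η := by
  have hlim : ∀ x < (Order.succ κ).ord, x + 1 < (Order.succ κ).ord := fun x hx =>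
    (isSuccLimit_ord (hκ.trans (Order.le_succ κ))).add_one_lt hx
  by_cases hb : ∀ y < (Order.succ κ).ord, ∃ g, Q g ∧ y < g
  · obtain ⟨g, hg, hδg⟩ := hb δ hδ
    exact ⟨g + 1, hlim g (hQ g hg), Or.inr ⟨hb, g, hg, hδg, lt_add_one g⟩⟩
  · push Not at hb
    obtain ⟨y, hy, hy2⟩ := hb
    exact ⟨y + 1, hlim y hy, Or.inl fun g hg => (hy2 g hg).trans_lt (lt_add_one y)⟩

/-- few predicates at the same time -/
theorem exists_R_all {κ : Cardinal.{u}} (hκ : ℵ₀ ≤ κ) {I : Type u} (hI : #I ≤ κ)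
    (Q : I → Ordinal.{u} → Prop) (hQ : ∀ i g, Q i g → g < (Order.succ κ).ord) (δ : Ordinal.{u})
    (hδ : δ < (Order.succ κ).ord) :
    ∃ η < (Order.succ κ).ord, ∀ i, R (Order.succ κ).ord (Q i) δ η := by
  choose f hf hf2 using fun i => exists_R hκ (Q i) (hQ i) δ hδ
  obtain ⟨η, hη, hη2⟩ := exists_bound hκ hI f hf
  exact ⟨η, hη, fun i => (hf2 i).mono (hη2 i).le⟩

/-- predicates with parameters below `δ` -/
theorem exists_R_param {κ : Cardinal.{u}} (hκ : Cardinal.continuum ≤ κ)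
    (Q : ℕ → Set ℕ → Ordinal.{u} → Ordinal.{u} → Ordinal.{u} → Prop)
    (hQ : ∀ m V y b g, Q m V y b g → g < (Order.succ κ).ord) (δ : Ordinal.{u})
    (hδ : δ < (Order.succ κ).ord) :
    ∃ η < (Order.succ κ).ord, ∀ m V, ∀ y ≤ δ, ∀ b ≤ δ,
      R (Order.succ κ).ord (Q m V y b) δ η := by
  have hκ0 : ℵ₀ ≤ κ := aleph0_le_continuum.trans hκ
  have hlim : ∀ x < (Order.succ κ).ord, x + 1 < (Order.succ κ).ord := fun x hx =>
    (isSuccLimit_ord (hκ0.trans (Order.le_succ κ))).add_one_lt hx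
  have hcard : #(δ + 1).ToType ≤ κ := by
    rw [mk_toType]
    have := hlim δ hδ
    rw [lt_ord] at this
    exact Order.lt_succ_iff.1 this
  have hI : #(ℕ × Set ℕ × (δ + 1).ToType × (δ + 1).ToType) ≤ κ := by
    simp only [mk_prod, mk_set, mk_nat, lift_aleph0, lift_mul, lift_id, lift_lift,
      two_power_aleph0, lift_continuum]
    refine mul_le_of_le hκ0 hκ0 (mul_le_of_le hκ0 hκ (mul_le_of_le hκ0 ?_ ?_))
    · simpa using hcard
    · simpa using hcard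
  obtain ⟨η, hη, h⟩ := exists_R_all hκ0 hI
    (fun i => Q i.1 i.2.1 (Ordinal.ToType.mk.symm i.2.2.1).1 (Ordinal.ToType.mk.symm i.2.2.2).1)
    (fun i g hg => hQ _ _ _ _ g hg) δ hδ
  refine ⟨η, hη, ?_⟩
  intro m V y hy b hb
  have := h (m, V, Ordinal.ToType.mk ⟨y, Order.lt_add_one_iff.2 hy⟩,
    Ordinal.ToType.mk ⟨b, Order.lt_add_one_iff.2 hb⟩)
  simpa using this

end FinC

open FinC in
theorem p_FINC : T_FINC.{u} := by
  intro κ χ A ρ c ι hκ hcont hχ hA hAunb hI1 hI2 hcol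
  set K := (Order.succ κ).ord with hK
  have hκ0 : ℵ₀ ≤ κ := hκ.aleph0_le
  let Lg : Ordinal.{u} → Prop := fun g => g < K ∧ UnbBelow (fun y => y ∈ A) g ∧ g.cof = κ
  let VV : Ordinal.{u} → Set ℕ := fun g => {v | UnbBelow (fun x => x ∈ A ∧ ρ x g = v) g}
  let LL : ℕ → Set ℕ → Ordinal.{u} → Ordinal.{u} → Prop := fun m V y g =>
    Lg g ∧ y < g ∧ (∀ x ∈ A, y < x → x < g → χ (m + ρ x g) = ι) ∧ VV g = V
  let LB : ℕ → Set ℕ → Ordinal.{u} → Ordinal.{u} → Ordinal.{u} → Prop := fun m V y b g =>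
    LL m V y g ∧ ∀ g₁, LL m V y g₁ → b < g₁ → g₁ < g → c g₁ g = 0
  -- the closure function
  have hcl : ∀ δ : Ordinal.{u}, ∃ η : Ordinal.{u}, δ < K → η < K ∧
      R K (fun x => x ∈ A) δ η ∧ ∀ m V, ∀ y ≤ δ, ∀ b ≤ δ,
        R K (LL m V y) δ η ∧ R K (LB m V y b) δ η := by
    intro δ
    by_cases hδ : δ < K
    · obtain ⟨η₁, h1, h1'⟩ := exists_R hκ0 (fun x => x ∈ A) hA δ hδ
      obtain ⟨η₂, h2, h2'⟩ := exists_R_param hcont (fun m V y _ g => LL m V y g)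
        (fun m V y b g h => h.1.1) δ hδ
      obtain ⟨η₃, h3, h3'⟩ := exists_R_param hcont LB (fun m V y b g h => h.1.1.1) δ hδ
      refine ⟨max η₁ (max η₂ η₃), fun _ => ⟨max_lt h1 (max_lt h2 h3), h1'.mono (le_max_left _ _),
        fun m V y hy b hb => ⟨(h2' m V y hy b hb).mono ?_, (h3' m V y hy b hb).mono ?_⟩⟩⟩
      · exact (le_max_left _ _).trans (le_max_right _ _)
      · exact (le_max_right _ _).trans (le_max_right _ _)
    · exact ⟨0, fun h => absurd h hδ⟩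
  choose h hh using hcl
  obtain ⟨g, hgK, hgcof, hgcl⟩ := exists_closure hκ h (fun δ hδ => (hh δ hδ).1)
  -- unboundedness of `A` below `g`
  have hgA : UnbBelow (fun y => y ∈ A) g := by
    intro x hx
    obtain ⟨δ, hδ, hxδ, hδ2⟩ := hgcl x hx
    rcases (hh δ (hδ.trans hgK)).2.1 with h1 | ⟨-, z, hz, hz1, hz2⟩
    · obtain ⟨z, hz, hz2⟩ := hAunb _ (hh δ (hδ.trans hgK)).1
      exact absurd (h1 z hz) hz2.not_gt
    · exact ⟨z, hz2.trans hδ2, hxδ.trans_lt hz1, hz⟩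
  have hgL : Lg g := ⟨hgK, hgA, hgcof⟩
  have hg0 : 0 < g := by
    rw [← Ordinal.cof_pos, hgcof]
    exact aleph0_pos.trans_le hκ0
  have hglim : ∀ x < g, x + 1 < g := by
    have : Order.IsSuccLimit g := by
      rw [← Ordinal.aleph0_le_cof, hgcof]
      exact hκ0
    exact fun x hx => this.add_one_lt hx
  -- reflection
  have hrefl : ∀ Q : Ordinal.{u} → Prop, Q g → (∃ δ₀ < g, ∀ δ, δ₀ ≤ δ → δ < g → R K Q δ (h δ)) →
      (∀ y < K, ∃ g', Q g' ∧ y < g') ∧ ∀ δ < g, ∃ g', Q g' ∧ δ < g' ∧ g' < g := by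
    intro Q hQ ⟨δ₀, hδ₀, hR⟩
    have key : ∀ δ < g, (∀ y < K, ∃ g', Q g' ∧ y < g') ∧ ∃ g', Q g' ∧ δ < g' ∧ g' < g := by
      intro δ hδ
      obtain ⟨δ', hδ', h1, h2⟩ := hgcl (max δ δ₀) (max_lt hδ hδ₀)
      rcases hR δ' ((le_max_right _ _).trans h1) hδ' with h3 | ⟨h3, g', h4, h5, h6⟩
      · exact absurd (h3 g hQ) h2.not_gt
      · exact ⟨h3, g', h4, ((le_max_left _ _).trans h1).trans_lt h5, h6.trans h2⟩
    exact ⟨(key 0 hg0).1, fun δ hδ => (key δ hδ).2⟩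
  -- the type of `g`
  obtain ⟨m, y, hyg, hmy⟩ := hcol g hgK hgA hgcof
  set V := VV g with hV
  have hLLg : LL m V y g := ⟨hgL, hyg, hmy, rfl⟩
  obtain ⟨-, hGam⟩ := hrefl (LL m V y) hLLg ⟨y, hyg, fun δ hδ hδg =>
    ((hh δ (hδg.trans hgK)).2.2 m V y hδ y hδ).1⟩
  -- countable cofinality arguments
  have hsup : ∀ f : ℕ → Ordinal.{u}, (∀ n, f n < g) → ∃ b < g, ∀ n, f n ≤ b := by
    intro f hf
    refine ⟨⨆ n, f n, ?_, fun n => Ordinal.le_iSup f n⟩
    apply Ordinal.lift_iSup_lt_of_lt_cof _ hf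
    rw [← Ordinal.lift_cof, hgcof]
    have : ℵ₀ < κ := aleph0_lt_continuum.trans_le hcont
    simpa using this
  have hVne : V.Nonempty := by
    by_contra hne
    rw [Set.not_nonempty_iff_eq_empty] at hne
    have : ∀ v : ℕ, ∃ b < g, ∀ x, b < x → x < g → ¬ (x ∈ A ∧ ρ x g = v) := by
      intro v
      have hv : v ∉ V := by rw [hne]; exact Set.notMem_empty v
      simp only [hV, VV, Set.mem_ofPred_eq, UnbBelow] at hv
      push Not at hv
      obtain ⟨b, hb, hb2⟩ := hv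
      exact ⟨b, hb, fun x hx hxg hxx => hb2 x hxg hx hxx.1 hxx.2⟩
    choose f hf hf2 using this
    obtain ⟨b, hb, hb2⟩ := hsup f hf
    obtain ⟨x, hxg, hbx, hxA⟩ := hgA b hb
    exact hf2 (ρ x g) x ((hb2 _).trans_lt hbx) hxg ⟨hxA, rfl⟩
  -- positive values of `c` are bounded
  have hpos : ∀ n : ℕ, ∃ b < g, ∀ g₁, LL m V y g₁ → b < g₁ → g₁ < g → c g₁ g ≠ n + 1 := by
    intro n
    by_contra hcon
    push Not at hcon
    have hstep : ∀ v ∈ V, v + (n + 1) ∈ V := by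
      intro v hv
      show UnbBelow (fun x => x ∈ A ∧ ρ x g = v + (n + 1)) g
      intro δ hδ
      obtain ⟨g₁, hg₁, hδg₁, hg₁g, hc⟩ := hcon δ hδ
      obtain ⟨b, hb, hb2⟩ := hI1 g₁ g hg₁.1.2.1 hg₁.1.2.2 hgA hgcof hgK hg₁g
      have hv1 : v ∈ VV g₁ := by rw [hg₁.2.2.2]; exact hv
      obtain ⟨x, hx1, hx2, hx3, hx4⟩ := hv1 (max b δ) (max_lt hb hδg₁)
      refine ⟨x, hx1.trans hg₁g, (le_max_right _ _).trans_lt hx2, hx3, ?_⟩
      rw [hb2 x hx3 ((le_max_left _ _).trans_lt hx2) hx1, hc, hx4, add_comm]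
    obtain ⟨v, hv⟩ := hVne
    have hall : ∀ k : ℕ, v + k * (n + 1) ∈ V := by
      intro k
      induction k with
      | zero => simpa using hv
      | succ k ih =>
        have := hstep _ ih
        rwa [show v + (k + 1) * (n + 1) = v + k * (n + 1) + (n + 1) by ring]
    obtain ⟨k, hk⟩ := hχ (m + v) (n + 1) (by omega) ι
    obtain ⟨x, hxg, hyx, hxA, hxv⟩ := hall k y hyg
    apply hk
    have := hmy x hxA hyx hxg
    rw [hxv] at this
    rw [← this]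
    congr 1
    ring
  choose f hf hf2 using hpos
  obtain ⟨b, hb, hb2⟩ := hsup f hf
  have hzero : ∀ g₁, LL m V y g₁ → b < g₁ → g₁ < g → c g₁ g = 0 := by
    intro g₁ h1 h2 h3
    by_contra hc
    obtain ⟨n, hn⟩ := Nat.exists_eq_succ_of_ne_zero hc
    exact hf2 n g₁ h1 ((hb2 n).trans_lt h2) h3 hn
  have hLBg : LB m V y b g := ⟨hLLg, hzero⟩
  obtain ⟨hunb, -⟩ := hrefl (LB m V y b) hLBg ⟨max y b, max_lt hyg hb, fun δ hδ hδg =>
    ((hh δ (hδg.trans hgK)).2.2 m V y ((le_max_left _ _).trans hδ) b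
      ((le_max_right _ _).trans hδ)).2⟩
  refine hI2 {g' | LB m V y b g' ∧ b < g'} ?_ ?_ ?_
  · rintro g' ⟨h1, -⟩
    exact ⟨h1.1.1.1, h1.1.1.2.1, h1.1.1.2.2⟩
  · intro z hz
    obtain ⟨g', h1, h2⟩ := hunb (max z b) (max_lt hz (hb.trans hgK))
    exact ⟨g', ⟨h1, (le_max_right _ _).trans_lt h2⟩, (le_max_left _ _).trans_lt h2⟩
  · rintro g₁ ⟨h1, h1'⟩ g' ⟨h2, -⟩ hlt
    exact h2.2 g₁ h1.1 h1' hlt

end Pool.Agent.LMach
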