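import Pool.Agent.LMach.Base

/-!
# Locations: proofs
-/

open Set Cardinal Order

universe u

namespace Pool.Agent.LMach

theorem bet_term_le {d g : Ordinal.{u}} (h : d < g) :
    bet d + (d + 1) * (d + 1) ≤ bet g := by
  conv_rhs => rw [bet]
  exact Ordinal.le_iSup (fun d : Iio g => bet d.1 + (d.1 + 1) * (d.1 + 1)) ⟨d, h⟩

theorem bet_le {g v : Ordinal.{u}} (h : ∀ d < g, bet d + (d + 1) * (d + 1) ≤ v) : bet g ≤ v := by
  rw [bet]
  exact Ordinal.iSup_le (fun d => h d.1 d.2)

theorem sq_pos (d : Ordinal.{u}) : 0 < (d + 1) * (d + 1) := by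
  have h : (0 : Ordinal.{u}) < d + 1 := by
    exact lt_of_lt_of_le zero_lt_one le_add_self
  exact mul_pos h h

theorem bet_lt {d g : Ordinal.{u}} (h : d < g) : bet d < bet g :=
  lt_of_lt_of_le (lt_add_of_pos_right _ (sq_pos d)) (bet_term_le h)

theorem bet_strictMono : StrictMono (bet.{u}) := fun _ _ h => bet_lt h

theorem bet_add_one (g : Ordinal.{u}) : bet (g + 1) = bet g + (g + 1) * (g + 1) := by
  refine le_antisymm (bet_le fun d hd => ?_) (bet_term_le (lt_add_one g))
  rcases (lt_add_one_iff.mp hd).lt_or_eq with h | h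
  · exact (bet_term_le h).trans le_self_add
  · rw [h]

theorem le_bet (g : Ordinal.{u}) : g ≤ bet g := bet_strictMono.le_apply

theorem lev_set_nonempty (v : Ordinal.{u}) : {g | v < bet (g + 1)}.Nonempty :=
  ⟨v, lt_of_lt_of_le (lt_add_one v) (le_bet _)⟩

theorem lt_bet_lev (v : Ordinal.{u}) : v < bet (lev v + 1) :=
  csInf_mem (lev_set_nonempty v)

theorem bet_lev_le (v : Ordinal.{u}) : bet (lev v) ≤ v := by
  refine bet_le fun d hd => ?_
  rw [← bet_add_one]
  by_contra hcon
  exact absurd (csInf_le' (s := {g | v < bet (g + 1)}) (not_le.mp hcon)) (not_le.mpr hd)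

theorem lev_eq {g v : Ordinal.{u}} (h1 : bet g ≤ v) (h2 : v < bet (g + 1)) : lev v = g := by
  refine le_antisymm (csInf_le' h2) ?_
  by_contra hcon
  rw [not_le] at hcon
  have : lev v + 1 ≤ g := add_one_le_iff.mpr hcon
  exact absurd (lt_bet_lev v) (not_lt.mpr ((bet_strictMono.monotone this).trans h1))

theorem add_one_ne {g : Ordinal.{u}} : g + 1 ≠ 0 :=
  (lt_of_lt_of_le zero_lt_one le_add_self).ne'

theorem code_bd {g h t : Ordinal.{u}} (hh : h ≤ g) (ht : t ≤ g) :
    (g + 1) * h + t < (g + 1) * (g + 1) := by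
  calc (g + 1) * h + t < (g + 1) * h + (g + 1) := by
        exact (add_lt_add_iff_left _).mpr (lt_add_one_iff.mpr ht)
    _ = (g + 1) * (h + 1) := by rw [mul_add, mul_one]
    _ ≤ (g + 1) * (g + 1) := by gcongr

theorem bet_le_code (g h t : Ordinal.{u}) : bet g ≤ code g h t := by
  rw [code, add_assoc]; exact le_self_add

theorem code_lt_bet {g h t : Ordinal.{u}} (hh : h ≤ g) (ht : t ≤ g) : code g h t < bet (g + 1) := by
  rw [code, add_assoc, bet_add_one]
  exact (add_lt_add_iff_left _).mpr (code_bd hh ht)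

theorem lev_code' {g h t : Ordinal.{u}} (hh : h ≤ g) (ht : t ≤ g) : lev (code g h t) = g :=
  lev_eq (bet_le_code _ _ _) (code_lt_bet hh ht)

theorem code_sub (g h t : Ordinal.{u}) : code g h t - bet g = (g + 1) * h + t := by
  rw [code, add_assoc, Ordinal.add_sub_cancel]

theorem hd_code' {g h t : Ordinal.{u}} (hh : h ≤ g) (ht : t ≤ g) : hd (code g h t) = h := by
  rw [hd, lev_code' hh ht, code_sub, Ordinal.mul_add_div _ add_one_ne,
    Ordinal.div_eq_zero_of_lt (lt_add_one_iff.mpr ht), add_zero]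

theorem tl_code' {g h t : Ordinal.{u}} (hh : h ≤ g) (ht : t ≤ g) : tl (code g h t) = t := by
  rw [tl, lev_code' hh ht, code_sub, Ordinal.mul_add_mod_self,
    Ordinal.mod_eq_of_lt (lt_add_one_iff.mpr ht)]

theorem code_eq' (v : Ordinal.{u}) : code (lev v) (hd v) (tl v) = v := by
  rw [code, hd, tl, add_assoc, Ordinal.div_add_mod,
    Ordinal.add_sub_cancel_of_le (bet_lev_le v)]

theorem hd_le' (v : Ordinal.{u}) : hd v ≤ lev v := by
  rw [← lt_add_one_iff, hd, ← Ordinal.lt_mul_iff_div_lt add_one_ne,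
    Ordinal.sub_lt_of_le (bet_lev_le v), ← bet_add_one]
  exact lt_bet_lev v

theorem tl_le' (v : Ordinal.{u}) : tl v ≤ lev v := by
  rw [← lt_add_one_iff, tl]
  exact Ordinal.mod_lt _ add_one_ne

theorem le_code' (g h t : Ordinal.{u}) : g ≤ code g h t := (le_bet g).trans (bet_le_code g h t)

theorem lev_le' (v : Ordinal.{u}) : lev v ≤ v := (le_bet _).trans (bet_lev_le v)

theorem lev_zero' : lev (0 : Ordinal.{u}) = 0 := le_antisymm (lev_le' 0) zero_le

theorem hd_lt' {v : Ordinal.{u}} (hv : 0 < v) : hd v < v := by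
  refine lt_of_le_of_ne ((hd_le' v).trans (lev_le' v)) fun hcon => ?_
  have h1 : lev v = v := le_antisymm (lev_le' v) (by conv_lhs => rw [← hcon]
                                                     exact hd_le' v)
  have h2 := code_eq' v
  rw [h1, hcon] at h2
  have h3 : (v + 1) * v ≤ v := by
    conv_rhs => rw [← h2]
    rw [code, add_assoc]
    exact (le_self_add).trans le_add_self
  have h4 : v + 1 ≤ (v + 1) * v := le_mul_of_one_le_right zero_le (one_le_iff_pos.mpr hv)
  exact absurd (h4.trans h3) (not_le.mpr (lt_add_one v))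

theorem tl_lt' {v : Ordinal.{u}} (hv : 0 < v) : tl v < v := by
  refine lt_of_le_of_ne ((tl_le' v).trans (lev_le' v)) fun hcon => ?_
  have h1 : lev v = v := le_antisymm (lev_le' v) (by conv_lhs => rw [← hcon]
                                                     exact tl_le' v)
  have h2 := code_eq' v
  rw [h1, hcon] at h2
  have h3 : bet v + v ≤ v := by
    conv_rhs => rw [← h2]
    rw [code]
    gcongr
    exact le_self_add
  have h4 : v + v ≤ bet v + v := by gcongr; exact le_bet v
  have h5 : v < v + v := lt_add_of_pos_right v hv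
  exact absurd (h4.trans h3) (not_le.mpr h5)

theorem code_lt_of_lex {g h t g' h' t' : Ordinal.{u}} (hh : h ≤ g) (ht : t ≤ g)
    (hl : LexLt g h t g' h' t') : code g h t < code g' h' t' := by
  rcases hl with h1 | ⟨rfl, h1⟩
  · exact lt_of_lt_of_le (code_lt_bet hh ht)
      ((bet_strictMono.monotone (add_one_le_iff.mpr h1)).trans (bet_le_code _ _ _))
  · rw [code, code, add_assoc, add_assoc]
    refine (add_lt_add_iff_left _).mpr ?_
    rcases h1 with h1 | ⟨rfl, h1⟩
    · calc (g + 1) * h + t < (g + 1) * h + (g + 1) :=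
            (add_lt_add_iff_left _).mpr (lt_add_one_iff.mpr ht)
        _ = (g + 1) * (h + 1) := by rw [mul_add, mul_one]
        _ ≤ (g + 1) * h' := by gcongr; exact add_one_le_iff.mpr h1
        _ ≤ (g + 1) * h' + t' := le_self_add
    · exact (add_lt_add_iff_left _).mpr h1

theorem lex_trichotomy (g h t g' h' t' : Ordinal.{u}) :
    LexLt g h t g' h' t' ∨ (g = g' ∧ h = h' ∧ t = t') ∨ LexLt g' h' t' g h t := by
  unfold LexLt
  rcases lt_trichotomy g g' with h1 | h1 | h1 <;> rcases lt_trichotomy h h' with h2 | h2 | h2 <;>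
    rcases lt_trichotomy t t' with h3 | h3 | h3 <;> simp [h1, h2, h3]

theorem code_lt_iff {g h t g' h' t' : Ordinal.{u}} (hh : h ≤ g) (ht : t ≤ g) (hh' : h' ≤ g')
    (ht' : t' ≤ g') : code g h t < code g' h' t' ↔ LexLt g h t g' h' t' := by
  refine ⟨fun hl => ?_, code_lt_of_lex hh ht⟩
  rcases lex_trichotomy g h t g' h' t' with h1 | ⟨rfl, rfl, rfl⟩ | h1
  · exact h1
  · exact absurd hl (lt_irrefl _)
  · exact absurd (code_lt_of_lex hh' ht' h1) (not_lt.mpr hl.le)

theorem lt_iff' (v w : Ordinal.{u}) :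
    v < w ↔ LexLt (lev v) (hd v) (tl v) (lev w) (hd w) (tl w) := by
  rw [← code_lt_iff (hd_le' v) (tl_le' v) (hd_le' w) (tl_le' w), code_eq', code_eq']

theorem lev_J' (x y : Ordinal.{u}) : lev (J x y) = max x y :=
  lev_code' (le_max_left _ _) (le_max_right _ _)

theorem hd_J' (x y : Ordinal.{u}) : hd (J x y) = x :=
  hd_code' (le_max_left _ _) (le_max_right _ _)

theorem tl_J' (x y : Ordinal.{u}) : tl (J x y) = y :=
  tl_code' (le_max_left _ _) (le_max_right _ _)

theorem J_lt' {g x y : Ordinal.{u}} (hg : lev g = g) (hx : x < g) (hy : y < g) : J x y < g := by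
  rw [lt_iff', lev_J', hd_J', tl_J', hg]
  exact Or.inl (max_lt hx hy)

theorem J_mono' {x y x' y' : Ordinal.{u}} (hx : x < x') (hy : y < y') : J x y < J x' y' := by
  rw [lt_iff', lev_J', hd_J', tl_J', lev_J', hd_J', tl_J']
  exact Or.inl (max_lt (lt_max_of_lt_left hx) (lt_max_of_lt_right hy))

theorem code_closed' {g : Ordinal.{u}} (hg : lev g = g) : code g 0 0 = g := by
  refine le_antisymm ?_ (le_code' _ _ _)
  have h := code_eq' g
  rw [hg] at h
  conv_rhs => rw [← h]
  rcases lex_trichotomy g 0 0 g (hd g) (tl g) with h1 | ⟨_, h1, h2⟩ | h1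
  · exact (code_lt_of_lex zero_le zero_le h1).le
  · rw [← h1, ← h2]
  · unfold LexLt at h1
    simp at h1

theorem hd_closed {g : Ordinal.{u}} (hg : lev g = g) : hd g = 0 := by
  conv_lhs => rw [← code_closed' hg]
  exact hd_code' zero_le zero_le

theorem tl_closed {g : Ordinal.{u}} (hg : lev g = g) : tl g = 0 := by
  conv_lhs => rw [← code_closed' hg]
  exact tl_code' zero_le zero_le

theorem closed_lim' {g : Ordinal.{u}} (hg : lev g = g) (h1 : 1 < g) :
    Ordinal.omega0 ≤ g ∧ ∀ x < g, x + 1 < g := by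
  have h2 : ∀ x < g, x + 1 < g := by
    intro x hx
    rcases (zero_le (a := x)).eq_or_lt with h | h
    · rw [← h, zero_add]; exact h1
    · refine lt_of_le_of_lt ?_ (J_lt' hg hx hx)
      have h3 : x + x ≤ J x x := by
        rw [J, max_self, code]
        gcongr
        exact (le_bet x).trans le_self_add
      refine le_trans ?_ h3
      gcongr
      exact one_le_iff_pos.mpr h
  refine ⟨?_, h2⟩
  rw [Ordinal.omega0_le]
  intro n
  have : (n : Ordinal.{u}) < g := by
    induction n with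
    | zero => exact_mod_cast zero_lt_one.trans h1
    | succ n ih => exact_mod_cast h2 _ ih
  exact this.le

theorem var_zero_J' (v w : Ordinal.{u}) : var 0 (J v w) = v := hd_J' v w

theorem var_succ_J' (i : ℕ) (v w : Ordinal.{u}) : var (i + 1) (J v w) = var i w := by
  rw [var, Function.iterate_succ_apply, tl_J', var]

theorem tl_iter_le (i : ℕ) (w : Ordinal.{u}) : tl^[i] w ≤ w := by
  induction i with
  | zero => exact le_rfl
  | succ n ih =>
    rw [Function.iterate_succ_apply']
    exact ((tl_le' _).trans (lev_le' _)).trans ih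

theorem var_le' (i : ℕ) (w : Ordinal.{u}) : var i w ≤ w :=
  ((hd_le' _).trans (lev_le' _)).trans (tl_iter_le i w)

theorem lev_eq_self_iff (g : Ordinal.{u}) : lev g = g ↔ bet g ≤ g :=
  ⟨fun h => by conv_rhs => rw [← code_closed' h]
               exact bet_le_code _ _ _,
   fun h => lev_eq h (lt_of_lt_of_le (lt_add_one g) (le_bet _))⟩

theorem lev_limit' {g : Ordinal.{u}} (h : ∀ x < g, ∃ y < g, x < y ∧ lev y = y) : lev g = g := by
  rw [lev_eq_self_iff]
  refine bet_le fun d hd => ?_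
  obtain ⟨y, hy, hdy, hly⟩ := h d hd
  exact (bet_term_le hdy).trans (((lev_eq_self_iff y).mp hly).trans hy.le)

theorem bet_le_mul (g : Ordinal.{u}) : bet g ≤ (g + 1) * (g + 1) * g := by
  induction g using WellFoundedLT.induction with
  | _ g ih =>
    refine bet_le fun d hd => ?_
    calc bet d + (d + 1) * (d + 1) ≤ (d + 1) * (d + 1) * d + (d + 1) * (d + 1) := by
          gcongr; exact ih d hd
      _ = (d + 1) * (d + 1) * (d + 1) := by rw [mul_add ((d + 1) * (d + 1)) d 1, mul_one]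
      _ ≤ (g + 1) * (g + 1) * g := by
          have : d + 1 ≤ g := add_one_le_iff.mpr hd
          gcongr

theorem bet_lt_ord {c : Cardinal.{u}} (hc : ℵ₀ ≤ c) {g : Ordinal.{u}} (hg : g < c.ord) :
    bet g < c.ord := by
  have h1 := succ_lt hc hg
  exact (bet_le_mul g).trans_lt (Ordinal.isPrincipal_mul_ord hc
    (Ordinal.isPrincipal_mul_ord hc h1 h1) hg)

theorem code_lt_ord' {c : Cardinal.{u}} (hc : ℵ₀ ≤ c) {g h t : Ordinal.{u}} (hg : g < c.ord)
    (hh : h < c.ord) (ht : t < c.ord) : code g h t < c.ord := by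
  rw [code]
  exact Ordinal.isPrincipal_add_ord hc (Ordinal.isPrincipal_add_ord hc (bet_lt_ord hc hg)
    (Ordinal.isPrincipal_mul_ord hc (succ_lt hc hg) hh)) ht

theorem lev_ord' {c : Cardinal.{u}} (hc : ℵ₀ ≤ c) : lev c.ord = c.ord := by
  rw [lev_eq_self_iff]
  refine bet_le fun d hd => ?_
  rw [← bet_add_one]
  exact (bet_lt_ord hc (succ_lt hc hd)).le

theorem exists_closed' {c : Cardinal.{u}} {x : Ordinal.{u}} (h0 : ℵ₀ < c) (hc : c.IsRegular)
    (hx : x < c.ord) : ∃ g < c.ord, x < g ∧ lev g = g := by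
  let f : ℕ → Ordinal.{u} := fun n => Nat.rec x (fun _ y => bet (y + 1)) n
  have hf0 : f 0 = x := rfl
  have hf1 : ∀ n, f (n + 1) = bet (f n + 1) := fun n => rfl
  have hf : ∀ n, f n < c.ord := by
    intro n
    induction n with
    | zero => exact hx
    | succ n ih => rw [hf1]; exact bet_lt_ord h0.le (succ_lt h0.le ih)
  have hlt : ∀ n, f n < f (n + 1) := by
    intro n; rw [hf1]; exact lt_of_lt_of_le (lt_add_one _) (le_bet _)
  obtain ⟨b, hb, hb'⟩ := bddNat h0 hc f hf
  have hbd : BddAbove (range f) := ⟨b, by rintro _ ⟨n, rfl⟩; exact (hb' n).le⟩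
  refine ⟨⨆ n, f n, lt_of_le_of_lt (ciSup_le fun n => (hb' n).le) hb,
    lt_of_lt_of_le (hlt 0) (le_ciSup hbd 1), ?_⟩
  rw [lev_eq_self_iff]
  refine bet_le fun d hd => ?_
  obtain ⟨n, hn⟩ := exists_lt_of_lt_ciSup hd
  rw [← bet_add_one]
  refine le_trans (bet_strictMono.monotone ?_) (le_ciSup hbd (n + 1))
  exact add_le_add_left hn.le 1

theorem p_LOC : T_LOC.{u} where
  code_eq := code_eq'
  hd_le := hd_le'
  tl_le := tl_le'
  lev_le := lev_le'
  hd_lt := fun _ h => hd_lt' h
  tl_lt := fun _ h => tl_lt' h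
  lev_code := fun _ _ _ h1 h2 => lev_code' h1 h2
  hd_code := fun _ _ _ h1 h2 => hd_code' h1 h2
  tl_code := fun _ _ _ h1 h2 => tl_code' h1 h2
  le_code := le_code'
  code_lt := fun _ _ _ _ _ _ h1 h2 h3 h4 => code_lt_iff h1 h2 h3 h4
  lt_iff := lt_iff'
  J_lt := fun _ _ _ h1 h2 h3 => J_lt' h1 h2 h3
  hd_J := hd_J'
  tl_J := tl_J'
  lev_J := lev_J'
  J_mono := fun _ _ _ _ h1 h2 => J_mono' h1 h2
  code_closed := fun _ h => code_closed' h
  closed_lim := fun _ h1 h2 => closed_lim' h1 h2
  var_zero_J := var_zero_J'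
  var_succ_J := var_succ_J'
  var_le := var_le'
  lev_zero := lev_zero'
  lev_limit := fun _ h => lev_limit' h
  code_lt_ord := fun _ _ _ _ h1 h2 h3 h4 => code_lt_ord' h1 h2 h3 h4
  exists_closed := fun _ _ h1 h2 h3 => exists_closed' h1 h2 h3
  lev_ord := fun _ h => lev_ord' h

end Pool.Agent.LMach
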