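import Pool.Agent.LMach.Loc

/-!
# The membership relation of the machine: proofs
-/

open Set Cardinal Order

universe u

namespace Pool.Agent.LMach

theorem idx_inj' : Function.Injective idx := by
  intro p
  induction p with
  | lt i j =>
    intro q h
    cases q <;> simp [idx, Nat.pair_eq_pair] at h ⊢
    exact h
  | mm i j =>
    intro q h
    cases q <;> simp [idx, Nat.pair_eq_pair] at h ⊢
    exact h
  | pr i j k =>
    intro q h
    cases q <;> simp [idx, Nat.pair_eq_pair] at h ⊢
    exact h
  | neg p ih =>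
    intro q h
    cases q <;> simp [idx, Nat.pair_eq_pair] at h ⊢
    exact ih h
  | and p q ih1 ih2 =>
    intro q h
    cases q <;> simp [idx, Nat.pair_eq_pair] at h ⊢
    exact ⟨ih1 h.1, ih2 h.2⟩
  | ex p ih =>
    intro q h
    cases q <;> simp [idx, Nat.pair_eq_pair] at h ⊢
    exact ih h

theorem idx_neg (p : Fm) : idx p < idx (Fm.neg p) := by
  rw [idx]; exact Nat.lt_succ_of_le (Nat.right_le_pair _ _)

theorem idx_ex (p : Fm) : idx p < idx (Fm.ex p) := by
  rw [idx]; exact Nat.lt_succ_of_le (Nat.right_le_pair _ _)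

theorem idx_and1 (p q : Fm) : idx p < idx (Fm.and p q) := by
  rw [idx]; exact Nat.lt_succ_of_le ((Nat.left_le_pair _ _).trans (Nat.right_le_pair _ _))

theorem idx_and2 (p q : Fm) : idx q < idx (Fm.and p q) := by
  rw [idx]; exact Nat.lt_succ_of_le ((Nat.right_le_pair _ _).trans (Nat.right_le_pair _ _))

theorem econs_lt {g v : Ordinal.{u}} {e : ℕ → Ordinal.{u}} (hv : v < g) (he : ∀ i, e i < g) :
    ∀ i, econs v e i < g := by
  intro i
  cases i with
  | zero => exact hv
  | succ n => exact he n

theorem sat_bdd {g : Ordinal.{u}} {R R' : Ordinal.{u} → Ordinal.{u} → Prop}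
    (hR : ∀ a b, b < g → (R a b ↔ R' a b)) (p : Fm) :
    ∀ e : ℕ → Ordinal.{u}, (∀ i, e i < g) → (SatE g R p e ↔ SatE g R' p e) := by
  induction p with
  | lt i j => intro e _; exact Iff.rfl
  | mm i j => intro e he; exact hR _ _ (he j)
  | pr i j k => intro e _; exact Iff.rfl
  | neg p ih => intro e he; exact not_congr (ih e he)
  | and p q ih1 ih2 => intro e he; exact and_congr (ih1 e he) (ih2 e he)
  | ex p ih =>
    intro e he
    exact exists_congr fun v => and_congr_right fun hv => ih _ (econs_lt hv he)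

theorem env_J (v w : Ordinal.{u}) : (fun i => var i (J v w)) = econs v (fun i => var i w) := by
  funext i
  cases i with
  | zero => exact var_zero_J' v w
  | succ n => exact var_succ_J' n v w

theorem MemR_eq (v w : Ordinal.{u}) : MemR v w = MemStep v (fun v' _ => MemR v') w := by
  rw [MemR, WellFounded.fix_eq]

theorem mem_iff' (w v : Ordinal.{u}) : Mem w v ↔ lev (lev v) = lev v ∧ w < lev v ∧
    tl v < lev v ∧ ∃ p : Fm, hd v = (idx p : Ordinal.{u}) ∧
      SatE (lev v) Mem p (fun i => var i (J w (tl v))) := by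
  rw [Mem, MemR_eq, MemStep]
  refine and_congr_right fun h1 => and_congr_right fun h2 => and_congr_right fun h3 =>
    exists_congr fun p => and_congr_right fun _ => ?_
  refine sat_bdd (fun a b hb => ?_) p _ (fun i => (var_le' i _).trans_lt (J_lt' h1 h2 h3))
  exact ⟨fun ⟨_, h⟩ => h, fun h => ⟨hb.trans_le (lev_le' v), h⟩⟩

theorem mem_lt' {w v : Ordinal.{u}} (h : Mem w v) : w < v :=
  ((mem_iff' w v).mp h).2.1.trans_le (lev_le' v)

theorem mem_of_loc {w v : Ordinal.{u}} {p : Fm} (h1 : lev (lev v) = lev v) (h2 : w < lev v)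
    (h3 : tl v < lev v) (h4 : hd v = (idx p : Ordinal.{u})) :
    Mem w v ↔ SatE (lev v) Mem p (fun i => var i (J w (tl v))) := by
  rw [mem_iff']
  refine ⟨?_, fun h => ⟨h1, h2, h3, p, h4, h⟩⟩
  rintro ⟨_, _, _, q, hq, h⟩
  have : idx q = idx p := by exact_mod_cast (hq.symm.trans h4)
  rwa [idx_inj' this] at h

theorem idx_le {g : Ordinal.{u}} (hg : lev g = g) (h1 : 1 < g) (p : Fm) :
    (idx p : Ordinal.{u}) ≤ g :=
  (Ordinal.natCast_lt_omega0 _).le.trans (closed_lim' hg h1).1

theorem mem_code' {g a w : Ordinal.{u}} {p : Fm} (hg : lev g = g) (h1 : 1 < g) (ha : a < g) :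
    Mem w (code g (idx p : Ordinal.{u}) a) ↔ w < g ∧ SatE g Mem p (fun i => var i (J w a)) := by
  have e1 : lev (code g (idx p : Ordinal.{u}) a) = g := lev_code' (idx_le hg h1 p) ha.le
  have e2 : hd (code g (idx p : Ordinal.{u}) a) = idx p := hd_code' (idx_le hg h1 p) ha.le
  have e3 : tl (code g (idx p : Ordinal.{u}) a) = a := tl_code' (idx_le hg h1 p) ha.le
  constructor
  · intro h
    have hw : w < g := by
      have := ((mem_iff' _ _).mp h).2.1
      rwa [e1] at this
    refine ⟨hw, ?_⟩
    have := (mem_of_loc (v := code g (idx p : Ordinal.{u}) a) (by rw [e1, hg]) (by rwa [e1])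
      (by rwa [e1, e3]) e2).mp h
    rwa [e1, e3] at this
  · rintro ⟨hw, h⟩
    refine (mem_of_loc (v := code g (idx p : Ordinal.{u}) a) (by rw [e1, hg]) (by rwa [e1])
      (by rwa [e1, e3]) e2).mpr ?_
    rwa [e1, e3]

theorem sat_congr' (p : Fm) : ∃ N : ℕ, ∀ (g : Ordinal.{u})
    (R : Ordinal.{u} → Ordinal.{u} → Prop) (e e' : ℕ → Ordinal.{u}),
    (∀ i < N, e i = e' i) → (SatE g R p e ↔ SatE g R p e') := by
  induction p with
  | lt i j =>
    refine ⟨max i j + 1, fun g R e e' h => ?_⟩
    rw [SatE, SatE, h i (by omega), h j (by omega)]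
  | mm i j =>
    refine ⟨max i j + 1, fun g R e e' h => ?_⟩
    rw [SatE, SatE, h i (by omega), h j (by omega)]
  | pr i j k =>
    refine ⟨max i (max j k) + 1, fun g R e e' h => ?_⟩
    rw [SatE, SatE, h i (by omega), h j (by omega), h k (by omega)]
  | neg p ih =>
    obtain ⟨N, hN⟩ := ih
    exact ⟨N, fun g R e e' h => not_congr (hN g R e e' h)⟩
  | and p q ih1 ih2 =>
    obtain ⟨N, hN⟩ := ih1
    obtain ⟨M, hM⟩ := ih2
    exact ⟨max N M, fun g R e e' h => and_congr (hN g R e e' fun i hi => h i (by omega))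
      (hM g R e e' fun i hi => h i (by omega))⟩
  | ex p ih =>
    obtain ⟨N, hN⟩ := ih
    refine ⟨N, fun g R e e' h => exists_congr fun v => and_congr_right fun _ => hN g R _ _ ?_⟩
    intro i hi
    cases i with
    | zero => rfl
    | succ n => exact h n (by omega)

theorem exists_code' {g : Ordinal.{u}} (hg : lev g = g) (h1 : 1 < g) (N : ℕ) :
    ∀ e : ℕ → Ordinal.{u}, (∀ i, e i < g) → ∃ a < g, ∀ i < N, var i a = e i := by
  induction N with
  | zero => intro e _; exact ⟨0, zero_lt_one.trans h1, fun i hi => absurd hi (by omega)⟩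
  | succ N ih =>
    intro e he
    obtain ⟨a, ha, hai⟩ := ih (fun i => e (i + 1)) (fun i => he _)
    refine ⟨J (e 0) a, J_lt' hg (he 0) ha, fun i hi => ?_⟩
    cases i with
    | zero => exact var_zero_J' _ _
    | succ n => rw [var_succ_J']; exact hai n (by omega)

/-- shift of a renaming under a quantifier -/
def shiftR (f : ℕ → ℕ) : ℕ → ℕ
  | 0 => 0
  | n + 1 => f n + 1

theorem rename' (p : Fm) : ∀ f : ℕ → ℕ, ∃ q : Fm, ∀ (g : Ordinal.{u})
    (R : Ordinal.{u} → Ordinal.{u} → Prop) (e : ℕ → Ordinal.{u}),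
    (SatE g R q e ↔ SatE g R p (fun i => e (f i))) := by
  induction p with
  | lt i j => intro f; exact ⟨Fm.lt (f i) (f j), fun g R e => Iff.rfl⟩
  | mm i j => intro f; exact ⟨Fm.mm (f i) (f j), fun g R e => Iff.rfl⟩
  | pr i j k => intro f; exact ⟨Fm.pr (f i) (f j) (f k), fun g R e => Iff.rfl⟩
  | neg p ih =>
    intro f
    obtain ⟨q, hq⟩ := ih f
    exact ⟨Fm.neg q, fun g R e => not_congr (hq g R e)⟩
  | and p q ih1 ih2 =>
    intro f
    obtain ⟨q1, hq1⟩ := ih1 f
    obtain ⟨q2, hq2⟩ := ih2 f
    exact ⟨Fm.and q1 q2, fun g R e => and_congr (hq1 g R e) (hq2 g R e)⟩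
  | ex p ih =>
    intro f
    obtain ⟨q, hq⟩ := ih (shiftR f)
    refine ⟨Fm.ex q, fun g R e => exists_congr fun v => and_congr_right fun _ => ?_⟩
    rw [hq]
    have : (fun i => econs v e (shiftR f i)) = econs v (fun i => e (f i)) := by
      funext i
      cases i <;> rfl
    rw [this]

theorem p_MEM : T_MEM.{u} where
  idx_inj := idx_inj'
  mem_iff := mem_iff'
  mem_code := fun _ _ _ _ h1 h2 h3 => mem_code' h1 h2 h3
  mem_lt := fun _ _ h => mem_lt' h
  sat_congr := sat_congr'
  exists_code := fun _ N e h1 h2 h3 => exists_code' h1 h2 N e h3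
  rename := rename'

theorem p_REC : T_REC.{u} := by
  intro d lv hd' tl' MM H1 H2 H3
  have key : ∀ v < d, lv v = lev v ∧ hd' v = hd v ∧ tl' v = tl v := by
    intro v
    induction v using WellFoundedLT.induction with
    | _ v ih =>
      intro hv
      obtain ⟨h1, h2, h3⟩ := H1 v hv
      have hle : ∀ v' < v, v' < code (lv v) (hd' v) (tl' v) := by
        intro v' hv'
        obtain ⟨e1, e2, e3⟩ := ih v' hv' (hv'.trans hv)
        have := H2 v' v hv' hv
        rw [e1, e2, e3] at this
        have h5 := code_lt_of_lex (hd_le' v') (tl_le' v') this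
        rwa [code_eq'] at h5
      have hle' : v ≤ code (lv v) (hd' v) (tl' v) := by
        by_contra hcon
        exact absurd (hle _ (not_le.mp hcon)) (lt_irrefl _)
      rcases hle'.eq_or_lt with he | hlt
      · exact ⟨((congrArg lev he).trans (lev_code' h2 h3)).symm,
          ((congrArg hd he).trans (hd_code' h2 h3)).symm,
          ((congrArg tl he).trans (tl_code' h2 h3)).symm⟩
      · exfalso
        have hlt' := hlt
        rw [← code_eq' v, code_lt_iff (hd_le' v) (tl_le' v) (by rw [code_eq']; exact h2)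
          (by rw [code_eq']; exact h3), code_eq'] at hlt'
        obtain ⟨v'', hv'', e1, e2, e3⟩ := H3 v (lev v) (hd v) (tl v) hv (hd_le' v) (tl_le' v) hlt'
        rcases lt_trichotomy v'' v with h5 | h5 | h5
        · obtain ⟨f1, f2, f3⟩ := ih v'' h5 hv''
          have : v'' = v := by rw [← code_eq' v'', ← code_eq' v, ← f1, ← f2, ← f3, e1, e2, e3]
          exact absurd this h5.ne
        · subst h5
          rw [e1, e2, e3] at hlt
          rw [code_eq'] at hlt
          exact lt_irrefl _ hlt
        · have h6 := H2 v v'' h5 hv''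
          rw [e1, e2, e3] at h6
          rcases lex_trichotomy (lev v) (hd v) (tl v) (lv v) (hd' v) (tl' v) with h7 | h7 | h7
          · have := code_lt_of_lex h2 h3 h6
            have h8 := code_lt_of_lex (hd_le' v) (tl_le' v) h7
            exact absurd (this.trans h8) (lt_irrefl _)
          · rw [← h7.1, ← h7.2.1, ← h7.2.2, code_eq'] at hlt
            exact lt_irrefl _ hlt
          · have h8 := code_lt_of_lex (hd_le' v) (tl_le' v) hlt'
            have h9 := code_lt_of_lex h2 h3 h7
            exact absurd (h8.trans h9) (lt_irrefl _)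
  refine ⟨key, fun G1 G2 => ?_⟩
  have main : ∀ v, v < d → ∀ w < d, (MM w v ↔ Mem w v) := by
    intro v
    induction v using WellFoundedLT.induction with
    | _ v ih =>
      intro hv w hw
      by_cases hc : lev (lev v) = lev v ∧ w < lev v ∧ tl v < lev v ∧
          ∃ p : Fm, hd v = (idx p : Ordinal.{u})
      · obtain ⟨h1, h2, h3, p, h4⟩ := hc
        obtain ⟨c1, c2, c3, c4, c5, c6⟩ := G2 w v hw hv h1 h2 h3
        have hu : J w (tl v) < lev v := J_lt' h1 h2 h3
        have hvar : ∀ i, var i (J w (tl v)) < lev v := fun i => (var_le' i _).trans_lt hu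
        have hlv : lev v ≤ v := lev_le' v
        rw [mem_of_loc h1 h2 h3 h4]
        have hsub : ∀ (q : Fm) (a : Ordinal.{u}), idx q < idx p → a < lev v →
            (code (lev v) (idx q : Ordinal.{u}) a < v ∧
              ∀ z < lev v, (Mem z (code (lev v) (idx q : Ordinal.{u}) a) ↔
                SatE (lev v) Mem q (fun i => var i (J z a)))) := by
          intro q a hq ha
          have hq1 : (idx q : Ordinal.{u}) ≤ lev v := by
            refine le_trans ?_ (hd_le' v)
            rw [h4]; exact_mod_cast hq.le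
          have e1 : lev (code (lev v) (idx q : Ordinal.{u}) a) = lev v := lev_code' hq1 ha.le
          have e2 : hd (code (lev v) (idx q : Ordinal.{u}) a) = idx q := hd_code' hq1 ha.le
          have e3 : tl (code (lev v) (idx q : Ordinal.{u}) a) = a := tl_code' hq1 ha.le
          refine ⟨?_, fun z hz => ?_⟩
          · rw [lt_iff', e1, e2, e3, h4]
            exact Or.inr ⟨rfl, Or.inl (by exact_mod_cast hq)⟩
          · rw [mem_of_loc (p := q) (by rw [e1, h1]) (by rwa [e1]) (by rwa [e1, e3]) e2, e1, e3]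
        cases p with
        | lt i j => rw [c1 i j h4]; exact Iff.rfl
        | mm i j =>
          rw [c2 i j h4]
          exact ih _ ((hvar j).trans_le hlv) (((hvar j).trans_le hlv).trans hv) _
            (((hvar i).trans_le hlv).trans hv)
        | pr i j k => rw [c3 i j k h4]; exact Iff.rfl
        | neg q =>
          obtain ⟨s1, s2⟩ := hsub q (tl v) (idx_neg q) h3
          rw [c4 q h4, ih _ s1 (s1.trans hv) w hw, s2 w h2]
          exact Iff.rfl
        | and q r =>
          obtain ⟨s1, s2⟩ := hsub q (tl v) (idx_and1 q r) h3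
          obtain ⟨t1, t2⟩ := hsub r (tl v) (idx_and2 q r) h3
          rw [c5 q r h4, ih _ s1 (s1.trans hv) w hw, s2 w h2, ih _ t1 (t1.trans hv) w hw, t2 w h2]
          exact Iff.rfl
        | ex q =>
          obtain ⟨s1, s2⟩ := hsub q (J w (tl v)) (idx_ex q) hu
          rw [c6 q h4, SatE]
          refine exists_congr fun z => and_congr_right fun hz => ?_
          rw [ih _ s1 (s1.trans hv) z ((hz.trans_le hlv).trans hv), s2 z hz, env_J]
      · constructor
        · intro h
          exact absurd (G1 w v hw hv h) hc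
        · intro h
          obtain ⟨h1, h2, h3, p, h4, _⟩ := (mem_iff' w v).mp h
          exact absurd ⟨h1, h2, h3, p, h4⟩ hc
  exact fun w v hw hv => main v hv w hw

end Pool.Agent.LMach
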