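import Pool.Agent.LMach.CohKey

/-!
# There is no thread
-/

open Set Cardinal

universe u

namespace Pool.Agent.LMach

namespace NTP

/-! ### Terms -/

/-- Terms with parameters in `α`. -/
inductive Tm (α : Type u) : Type u
  | par (a : α) : Tm α
  | op (i : ℕ) (t₁ t₂ t₃ : Tm α) : Tm α

namespace Tm

/-- The branching of the trees that represent the terms. -/
def Br (α : Type u) : α ⊕ ULift.{u} ℕ → Type u
  | Sum.inl _ => ULift.{u} (Fin 0)
  | Sum.inr _ => ULift.{u} (Fin 3)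

instance (α : Type u) : ∀ a, Finite (Br α a)
  | Sum.inl _ => inferInstanceAs (Finite (ULift.{u} (Fin 0)))
  | Sum.inr _ => inferInstanceAs (Finite (ULift.{u} (Fin 3)))

/-- Terms as trees. -/
def toW {α : Type u} : Tm α → WType (Br α)
  | par a => WType.mk (Sum.inl a) (fun j => Fin.elim0 j.down)
  | op i t₁ t₂ t₃ => WType.mk (Sum.inr ⟨i⟩)
      (fun j => match j.down with
        | 0 => toW t₁
        | 1 => toW t₂
        | 2 => toW t₃)

theorem toW_inj {α : Type u} : ∀ t t' : Tm α, toW t = toW t' → t = t' := by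
  intro t
  induction t with
  | par a =>
    intro t' h
    cases t' with
    | par b =>
      simp only [toW, WType.mk.injEq, Sum.inl.injEq] at h
      rw [h.1]
    | op j s₁ s₂ s₃ => simp [toW] at h
  | op i t₁ t₂ t₃ h₁ h₂ h₃ =>
    intro t' h
    cases t' with
    | par b => simp [toW] at h
    | op j s₁ s₂ s₃ =>
      simp only [toW, WType.mk.injEq, Sum.inr.injEq, ULift.up.injEq] at h
      obtain ⟨h, h'⟩ := h
      subst h
      have h' := eq_of_heq h'
      rw [h₁ s₁ (congrFun h' ⟨0⟩), h₂ s₂ (congrFun h' ⟨1⟩), h₃ s₃ (congrFun h' ⟨2⟩)]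

theorem mk_le (α : Type u) : #(Tm α) ≤ max #α ℵ₀ := by
  have h1 : #(Tm α) ≤ #(WType (Br α)) := mk_le_of_injective (fun t t' h => toW_inj t t' h)
  refine h1.trans ((WType.cardinalMk_le_max_aleph0_of_finite').trans ?_)
  rw [lift_id, mk_sum, mk_uLift, mk_nat, lift_id, lift_aleph0, lift_aleph0]
  refine max_le ?_ (le_max_right _ _)
  exact add_le_of_le (le_max_right _ _) (le_max_left _ _) (le_max_right _ _)

end Tm

/-- The operations of the machine, as relations. -/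
def Op (θ : Ordinal.{u}) (i : ℕ) (a b c x : Ordinal.{u}) : Prop :=
  match i with
  | 0 => x = a + 1 ∧ x < θ
  | 1 => x = lev a
  | 2 => x = hd a
  | 3 => x = tl a
  | 4 => IsMn x a
  | 5 => b ≤ a ∧ c ≤ a ∧ x = code a b c ∧ x < θ
  | 6 => URel a b x ∧ x < θ
  | _ => False

/-- The term `t` has the value `x` at the parameters `p`, where all values are below `θ`. -/
def Ev {α : Type u} (θ : Ordinal.{u}) (p : α → Ordinal.{u}) : Tm α → Ordinal.{u} → Prop
  | .par a, x => x = p a ∧ x < θ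
  | .op i t₁ t₂ t₃, x => ∃ a b c, Ev θ p t₁ a ∧ Ev θ p t₂ b ∧ Ev θ p t₃ c ∧ Op θ i a b c x

theorem isMn_unique {a x y : Ordinal.{u}} (hx : IsMn x a) (hy : IsMn y a) : x = y := by
  rcases lt_trichotomy x y with h | h | h
  · exact absurd hx.1 (hy.2 x h)
  · exact h
  · exact absurd hy.1 (hx.2 y h)

theorem uRel_unique {a b x y : Ordinal.{u}} (hx : URel a b x) (hy : URel a b y) : x = y := by
  obtain ⟨-, g, e, rfl, hg, heg, hm, hbe, hN, hne⟩ := hx
  obtain ⟨-, g', e', rfl, hg', heg', hm', hbe', hN', hne'⟩ := hy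
  have he : e = e' := by
    rcases lt_trichotomy e e' with h | h | h
    · exact absurd hN (hne' e hbe h)
    · exact h
    · exact absurd hN' (hne e' hbe' h)
  subst he
  have hgg : g = g' := by
    rcases lt_trichotomy g g' with h | h | h
    · exact absurd hg (hm' g heg h)
    · exact h
    · exact absurd hg' (hm g' heg' h)
  rw [hgg]

theorem Op.unique {θ : Ordinal.{u}} {i : ℕ} {a b c x y : Ordinal.{u}} (hx : Op θ i a b c x)
    (hy : Op θ i a b c y) : x = y := by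
  match i, hx, hy with
  | 0, hx, hy => exact hx.1.trans hy.1.symm
  | 1, hx, hy => exact hx.trans hy.symm
  | 2, hx, hy => exact hx.trans hy.symm
  | 3, hx, hy => exact hx.trans hy.symm
  | 4, hx, hy => exact isMn_unique hx hy
  | 5, hx, hy => exact hx.2.2.1.trans hy.2.2.1.symm
  | 6, hx, hy => exact uRel_unique hx.1 hy.1
  | _ + 7, hx, _ => exact hx.elim

theorem Ev.unique {α : Type u} {θ : Ordinal.{u}} {p : α → Ordinal.{u}} :
    ∀ {t : Tm α} {x y : Ordinal.{u}}, Ev θ p t x → Ev θ p t y → x = y := by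
  intro t
  induction t with
  | par a => exact fun hx hy => hx.1.trans hy.1.symm
  | op i t₁ t₂ t₃ h₁ h₂ h₃ =>
    rintro x y ⟨a, b, c, ha, hb, hc, hx⟩ ⟨a', b', c', ha', hb', hc', hy⟩
    rw [h₁ ha ha', h₂ hb hb', h₃ hc hc'] at hx
    exact hx.unique hy

theorem Op.mono {θ θ' : Ordinal.{u}} (hθ : θ ≤ θ') {i : ℕ} {a b c x : Ordinal.{u}}
    (hx : Op θ i a b c x) : Op θ' i a b c x := by
  match i, hx with
  | 0, hx => exact ⟨hx.1, hx.2.trans_le hθ⟩
  | 1, hx => exact hx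
  | 2, hx => exact hx
  | 3, hx => exact hx
  | 4, hx => exact hx
  | 5, hx => exact ⟨hx.1, hx.2.1, hx.2.2.1, hx.2.2.2.trans_le hθ⟩
  | 6, hx => exact ⟨hx.1, hx.2.trans_le hθ⟩
  | _ + 7, hx => exact hx.elim

theorem Ev.mono {α : Type u} {θ θ' : Ordinal.{u}} (hθ : θ ≤ θ') {p : α → Ordinal.{u}} :
    ∀ {t : Tm α} {x : Ordinal.{u}}, Ev θ p t x → Ev θ' p t x := by
  intro t
  induction t with
  | par a => exact fun hx => ⟨hx.1, hx.2.trans_le hθ⟩
  | op i t₁ t₂ t₃ h₁ h₂ h₃ =>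
    rintro x ⟨a, b, c, ha, hb, hc, hx⟩
    exact ⟨a, b, c, h₁ ha, h₂ hb, h₃ hc, hx.mono hθ⟩

/-- Every element of a hull is the value of a term. -/
theorem exists_Ev {α : Type u} {θ : Ordinal.{u}} {p : α → Ordinal.{u}} {Q : Set Ordinal.{u}}
    (hQ : ∀ x ∈ Q, ∃ a, p a = x) (h0 : (0 : Ordinal.{u}) ∈ Q) {x : Ordinal.{u}}
    (hx : Cl θ Q x) : ∃ t : Tm α, Ev θ p t x := by
  induction hx with
  | @base x h1 h2 =>
    obtain ⟨a, rfl⟩ := hQ x h1
    exact ⟨.par a, rfl, h2⟩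
  | zero h =>
    obtain ⟨a, ha⟩ := hQ 0 h0
    exact ⟨.par a, ha.symm, h⟩
  | succ _ h ih =>
    obtain ⟨t, ht⟩ := ih
    exact ⟨.op 0 t t t, _, _, _, ht, ht, ht, rfl, h⟩
  | lev _ ih =>
    obtain ⟨t, ht⟩ := ih
    exact ⟨.op 1 t t t, _, _, _, ht, ht, ht, rfl⟩
  | hd _ ih =>
    obtain ⟨t, ht⟩ := ih
    exact ⟨.op 2 t t t, _, _, _, ht, ht, ht, rfl⟩
  | tl _ ih =>
    obtain ⟨t, ht⟩ := ih
    exact ⟨.op 3 t t t, _, _, _, ht, ht, ht, rfl⟩
  | mn _ h ih =>
    obtain ⟨t, ht⟩ := ih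
    exact ⟨.op 4 t t t, _, _, _, ht, ht, ht, h⟩
  | code _ _ _ h1 h2 h3 ih1 ih2 ih3 =>
    obtain ⟨t, ht⟩ := ih1
    obtain ⟨t', ht'⟩ := ih2
    obtain ⟨t'', ht''⟩ := ih3
    exact ⟨.op 5 t t' t'', _, _, _, ht, ht', ht'', h1, h2, rfl, h3⟩
  | up _ _ h1 h2 ih1 ih2 =>
    obtain ⟨t, ht⟩ := ih1
    obtain ⟨t', ht'⟩ := ih2
    exact ⟨.op 6 t t' t', _, _, _, ht, ht', ht', h1, h2⟩

/-- Evaluation commutes with collapses. -/
theorem Ev.pull {α : Type u} (hM : ∀ w v : Ordinal.{u}, Mem w v → w < v) (hC : T_CT.{u})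
    {θ : Ordinal.{u}} {X : Set Ordinal.{u}} (hX : ClosedIn θ X) {p : α → Ordinal.{u}}
    (hp : ∀ a, p a < θ → p a ∈ X) : ∀ {t : Tm α} {y : Ordinal.{u}},
    Ev (col X θ) (fun a => col X (p a)) t y → ∃ x ∈ X, col X x = y ∧ Ev θ p t x := by
  -- collapse reflects the order
  have hlt : ∀ a b : Ordinal.{u}, col X a < col X b → a < b := fun a b h => by
    by_contra hcon
    exact absurd (hC.mono X b a (not_lt.1 hcon)) (not_le.2 h)
  have hle : ∀ a b : Ordinal.{u}, a ∈ X → b ∈ X → col X b ≤ col X a → b ≤ a := fun a b ha hb h => by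
    by_contra hcon
    exact absurd (hC.smono X a b ha (not_le.1 hcon)) (not_lt.2 h)
  have hbs : ∀ a ∈ X, Cl θ X a := fun a ha => Cl.base ha (hX.1 ha)
  intro t
  induction t with
  | par a =>
    rintro y ⟨rfl, hy⟩
    have h1 := hlt _ _ hy
    exact ⟨p a, hp a h1, rfl, rfl, h1⟩
  | op i t₁ t₂ t₃ h₁ h₂ h₃ =>
    rintro y ⟨a', b', c', ha', hb', hc', hy⟩
    obtain ⟨a, haX, rfl, ha⟩ := h₁ ha'
    obtain ⟨b, hbX, rfl, hb⟩ := h₂ hb'
    obtain ⟨c, hcX, rfl, hc⟩ := h₃ hc'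
    suffices h : ∃ x ∈ X, col X x = y ∧ Op θ i a b c x by
      obtain ⟨x, hx1, hx2, hx3⟩ := h
      exact ⟨x, hx1, hx2, a, b, c, ha, hb, hc, hx3⟩
    match i, hy with
    | 0, hy =>
      obtain ⟨rfl, hy⟩ := hy
      obtain ⟨x, hx, hxθ, hxe⟩ := hC.onto X θ _ hy
      have h1 : a < x := by
        apply hlt
        rw [hxe]
        exact lt_add_one _
      have h2 : a + 1 ≤ x := Order.add_one_le_iff.2 h1
      have h3 : a + 1 < θ := h2.trans_lt hxθ
      have h4 : a + 1 ∈ X := hX.2 _ (Cl.succ (hbs a haX) h3)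
      refine ⟨a + 1, h4, ?_, rfl, h3⟩
      apply le_antisymm
      · rw [← hxe]
        exact hC.mono X _ _ h2
      · exact Order.add_one_le_iff.2 (hC.smono X a (a + 1) haX (lt_add_one _))
    | 1, hy =>
      exact ⟨lev a, hX.2 _ (Cl.lev (hbs a haX)), (hC.lev θ X hX a haX).symm.trans hy.symm, rfl⟩
    | 2, hy =>
      exact ⟨hd a, hX.2 _ (Cl.hd (hbs a haX)), (hC.hd θ X hX a haX).symm.trans hy.symm, rfl⟩
    | 3, hy =>
      exact ⟨tl a, hX.2 _ (Cl.tl (hbs a haX)), (hC.tl θ X hX a haX).symm.trans hy.symm, rfl⟩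
    | 4, hy =>
      have hy' : IsMn y (col X a) := hy
      obtain ⟨x, hx, hxa, rfl⟩ := hC.onto X a y (hM _ _ hy'.1)
      exact ⟨x, hx, rfl, (hC.mn θ X hX x hx a haX).1 hy'⟩
    | 5, hy =>
      obtain ⟨h1, h2, rfl, h3⟩ := hy
      have h4 := hle a b haX hbX h1
      have h5 := hle a c haX hcX h2
      have h6 := hC.code' θ X hX a haX b hbX c hcX h4 h5 h3
      exact ⟨code a b c, hX.2 _ (Cl.code (hbs a haX) (hbs b hbX) (hbs c hcX) h4 h5 h6),
        hC.code θ X hX a haX b hbX c hcX h4 h5 h6, h4, h5, rfl, h6⟩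
    | 6, hy =>
      obtain ⟨h1, h2⟩ := hy
      obtain ⟨x, hx, hxθ, rfl⟩ := hC.onto X θ _ h2
      exact ⟨x, hx, rfl, (hC.up θ X hX a haX b hbX x hx).1 h1, hxθ⟩
    | _ + 7, hy => exact hy.elim

/-! ### The assembly -/

/-- The key lemma: the hull that defines a limit point of the coherent sequence. -/
def KeyLemma : Prop :=
  ∀ l τ e δ : Ordinal.{u}, LimC l τ → τ ≤ e → New l e → 0 < δ → δ < τ →
    UnbBelow (fun y => y ∈ CS l τ) δ → ∃ r, r ≤ th l τ ∧
      (∀ x < τ, (Hull l r (pl l τ) x ↔ x < δ)) ∧ (∀ x ∈ pl l τ, Hull l r (pl l τ) x) ∧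
      (pl l τ).map (col {x | Hull l r (pl l τ) x}) = pl l δ ∧
      col {x | Hull l r (pl l τ) x} r = th l δ

/-- The parameters of the terms. -/
noncomputable def parv (l : Ordinal.{u}) (q : List Ordinal.{u}) :
    (l + 1).ToType ⊕ ULift.{u} ℕ → Ordinal.{u}
  | Sum.inl i => ((Ordinal.ToType.mk (o := l + 1)).symm i).1
  | Sum.inr n => q.getD n.down 0

theorem exists_parv {l : Ordinal.{u}} {q : List Ordinal.{u}} {x : Ordinal.{u}}
    (hx : x ∈ Iic l ∪ {x | x ∈ q}) : ∃ a, parv l q a = x := by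
  rcases hx with hx | hx
  · refine ⟨Sum.inl (Ordinal.ToType.mk ⟨x, show x < l + 1 from Order.lt_add_one_iff.2 hx⟩), ?_⟩
    simp [parv]
  · obtain ⟨n, hn, rfl⟩ := List.getElem_of_mem hx
    refine ⟨Sum.inr ⟨n⟩, ?_⟩
    exact List.getD_eq_getElem _ _ hn

theorem parv_mem (l : Ordinal.{u}) (q : List Ordinal.{u}) (a) :
    parv l q a ∈ Iic l ∪ {x | x ∈ q} := by
  match a with
  | Sum.inl i =>
    left
    have h : ((Ordinal.ToType.mk (o := l + 1)).symm i).1 < l + 1 :=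
      ((Ordinal.ToType.mk (o := l + 1)).symm i).2
    exact Order.lt_add_one_iff.1 h
  | Sum.inr n =>
    rcases lt_or_ge n.down q.length with h | h
    · right
      change q.getD n.down 0 ∈ q
      rw [List.getD_eq_getElem _ _ h]
      exact List.getElem_mem h
    · left
      change q.getD n.down 0 ≤ l
      rw [List.getD_eq_default _ _ h]
      exact zero_le

theorem parv_map {l : Ordinal.{u}} {q : List Ordinal.{u}} {f : Ordinal.{u} → Ordinal.{u}}
    (hf : ∀ x ≤ l, f x = x) (a) : parv l (q.map f) a = f (parv l q a) := by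
  match a with
  | Sum.inl i =>
    have h : ((Ordinal.ToType.mk (o := l + 1)).symm i).1 < l + 1 :=
      ((Ordinal.ToType.mk (o := l + 1)).symm i).2
    exact (hf _ (Order.lt_add_one_iff.1 h)).symm
  | Sum.inr n =>
    change (q.map f).getD n.down 0 = f (q.getD n.down 0)
    rcases lt_or_ge n.down q.length with h | h
    · rw [List.getD_eq_getElem _ _ h, List.getD_eq_getElem _ _ (by simpa using h)]
      simp
    · rw [List.getD_eq_default _ _ h, List.getD_eq_default _ _ (by simpa using h),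
        hf 0 (zero_le)]

theorem nt_of_key (hM : ∀ w v : Ordinal.{u}, Mem w v → w < v) (hCT : T_CT.{u}) (hCL : T_CL.{u})
    (hX : T_COHX.{u}) (hkey : KeyLemma.{u}) : T_NT.{u} := by
  intro c hc hnew Γ hΓ hunb hth
  set l : Ordinal.{u} := c.ord with hl
  set K : Ordinal.{u} := (Order.succ c).ord with hK
  -- terms
  have hterm : ∀ ξ : Ordinal.{u}, ∃ (g : Ordinal.{u}) (t : Tm ((l + 1).ToType ⊕ ULift.{u} ℕ)),
      ξ < K → g ∈ Γ ∧ ξ < g ∧ Ev (th l g) (parv l (pl l g)) t ξ := by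
    intro ξ
    by_cases hξ : ξ < K
    · obtain ⟨g, hg, hξg⟩ := hunb ξ hξ
      obtain ⟨hgK, hgL⟩ := hΓ g hg
      obtain ⟨e, heK, hge, hNe⟩ := hnew g hgK
      have h1 := hX.th_le l g e hgL hge.le hNe
      have h2 := hX.hull_pl l g e hgL hge.le hNe ξ (hξg.trans_le h1.1)
      obtain ⟨t, ht⟩ := exists_Ev (p := parv l (pl l g)) (fun x hx => exists_parv hx)
        (Or.inl (show (0 : Ordinal.{u}) ≤ l from zero_le)) h2
      exact ⟨g, t, fun _ => ⟨hg, hξg, ht⟩⟩
    · exact ⟨0, Tm.par (Sum.inr ⟨0⟩), fun h => absurd h hξ⟩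
  choose gg tt hgt using hterm
  -- the terms keep their values
  have hkeep : ∀ ξ < K, ∀ g' ∈ Γ, gg ξ ≤ g' → Ev (th l g') (parv l (pl l g')) (tt ξ) ξ := by
    intro ξ hξ g' hg' hle
    obtain ⟨hgΓ, hξg, hev⟩ := hgt ξ hξ
    rcases hle.eq_or_lt with h | h
    · rw [← h]
      exact hev
    obtain ⟨hgK, hgL⟩ := hΓ g' hg'
    obtain ⟨e, heK, hge, hNe⟩ := hnew g' hgK
    have hlg : l < gg ξ := (hΓ _ hgΓ).2.1
    have hunbg := hth (gg ξ) hgΓ g' hg' h
    obtain ⟨r, hr, hH1, hH2, hpl, hcol⟩ := hkey l g' e (gg ξ) hgL hge.le hNe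
      (lt_of_le_of_lt zero_le hlg) h hunbg
    set X : Set Ordinal.{u} := {x | Hull l r (pl l g') x} with hXdef
    have hXcl : ClosedIn r X := hCL.closedIn r _
    have hid : ∀ x ≤ gg ξ, col X x = x := by
      intro x hx
      apply hCT.ident
      intro y hy
      exact (hH1 y ((hy.trans_le hx).trans h)).2 (hy.trans_le hx)
    have hev' : Ev (col X r) (fun a => col X (parv l (pl l g') a)) (tt ξ) ξ := by
      rw [hcol]
      rw [← hpl] at hev
      have h3 : (fun a => col X (parv l (pl l g') a)) =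
          parv l ((pl l g').map (col X)) := by
        funext a
        exact (parv_map (fun x hx => hid x (hx.trans hlg.le)) a).symm
      rw [h3]
      exact hev
    obtain ⟨x, hx, hxe, hxev⟩ := Ev.pull hM hCT hXcl (p := parv l (pl l g'))
      (fun a ha => hXcl.2 _ (by
        rcases parv_mem l (pl l g') a with h4 | h4
        · exact Cl.base ((hH1 _ ((h4.trans_lt hlg).trans h)).2 (h4.trans_lt hlg)) ha
        · exact Cl.base (hH2 _ h4) ha)) hev'
    have hxξ : x = ξ := by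
      have h5 : ξ ∈ X := (hH1 ξ (hξg.trans h)).2 hξg
      rcases lt_trichotomy x ξ with h6 | h6 | h6
      · have := hCT.smono X x ξ hx h6
        rw [hxe, hid ξ hξg.le] at this
        exact absurd this (lt_irrefl _)
      · exact h6
      · have := hCT.smono X ξ x h5 h6
        rw [hxe, hid ξ hξg.le] at this
        exact absurd this (lt_irrefl _)
    rw [hxξ] at hxev
    exact hxev.mono hr
  -- injectivity
  have hinj : ∀ ξ < K, ∀ ξ' < K, tt ξ = tt ξ' → ξ = ξ' := by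
    intro ξ hξ ξ' hξ' he
    obtain ⟨h1, h2, -⟩ := hgt ξ hξ
    obtain ⟨h3, h4, -⟩ := hgt ξ' hξ'
    obtain ⟨g', hg', hlt⟩ := hunb (max (gg ξ) (gg ξ')) (max_lt (hΓ _ h1).1 (hΓ _ h3).1)
    have h5 := hkeep ξ hξ g' hg' ((le_max_left _ _).trans hlt.le)
    have h6 := hkeep ξ' hξ' g' hg' ((le_max_right _ _).trans hlt.le)
    rw [he] at h5
    exact h5.unique h6
  have hcard : #K.ToType ≤ #(Tm ((l + 1).ToType ⊕ ULift.{u} ℕ)) := by
    refine mk_le_of_injective (f := fun i => tt ((Ordinal.ToType.mk (o := K)).symm i).1) ?_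
    intro i j hij
    have := hinj _ ((Ordinal.ToType.mk (o := K)).symm i).2 _
      ((Ordinal.ToType.mk (o := K)).symm j).2 hij
    exact (Ordinal.ToType.mk (o := K)).symm.injective (Subtype.ext this)
  have h1 : #K.ToType = Order.succ c := by
    rw [mk_toType, hK, card_ord]
  have h2 : #(Tm ((l + 1).ToType ⊕ ULift.{u} ℕ)) ≤ c := by
    refine (Tm.mk_le _).trans (max_le ?_ hc)
    rw [mk_sum, mk_uLift, mk_nat, lift_id, lift_aleph0, lift_aleph0, mk_toType,
      Ordinal.card_add, Ordinal.card_one, hl, card_ord]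
    exact add_le_of_le hc (add_le_of_le hc le_rfl ((one_le_aleph0).trans hc)) hc
  rw [h1] at hcard
  exact absurd (hcard.trans h2) (not_le.2 (Order.lt_succ c))

theorem keyLemma (H : CohP.Hy.{u}) : KeyLemma.{u} := by
  intro l τ e δ hτ he hn h0 hδ hunb
  obtain ⟨rs, hk⟩ := CohP.exists_key H hτ he hn h0 hδ hunb
  have hδl : LimC l δ := CohP.limC_delta H hτ h0 hunb
  exact ⟨rs, hk.rr.2.2.le, fun x hx => CohP.yy_iff H hτ hk hx, CohP.yy_p hk,
    (CohP.key_pl H hτ he hn hk hδ hδl).symm, (CohP.key_th H hτ hk hδ hδl).symm⟩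

end NTP

/-- There is no thread. -/
theorem p_NT (hLOC : T_LOC.{u}) (hMEM : T_MEM.{u}) (hCT : T_CT.{u}) (hTR : T_TR.{u})
    (hCL : T_CL.{u}) (hHULL : T_HULL.{u}) (hTRANS : T_TRANS.{u}) (hCOHX : T_COHX.{u}) :
    T_NT.{u} :=
  NTP.nt_of_key hMEM.mem_lt hCT hCL hCOHX (NTP.keyLemma ⟨hLOC, hCT, hTR, hCL, hHULL, hTRANS⟩)

end Pool.Agent.LMach
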