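import Pool.Agent.LMach.Up

/-!
# Traces on small ordinals are named below `κ`
-/

open Set Cardinal Order

universe u

namespace Pool.Agent.LMach

theorem p_RED : T_RED.{u} := by
  intro κ h0 μ hμ e
  rcases lt_or_ge e μ with h | h
  · exact ⟨e, h.trans hμ, fun w _ => Iff.rfl⟩
  have hX : ClosedIn (e + 1) {x | Cl (e + 1) (Iio μ ∪ {x | x ∈ [e]}) x} := Cl.closedIn _ _
  have heX : e ∈ {x | Cl (e + 1) (Iio μ ∪ {x | x ∈ [e]}) x} :=
    Cl.base (Or.inr (by simp)) (lt_add_one e)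
  have hmem : ∀ w < μ, w ∈ {x | Cl (e + 1) (Iio μ ∪ {x | x ∈ [e]}) x} := fun w hw =>
    Cl.base (Or.inl hw) ((hw.trans_le h).trans (lt_add_one e))
  refine ⟨col {x | Cl (e + 1) (Iio μ ∪ {x | x ∈ [e]}) x} e, ?_, fun w hw => ?_⟩
  · refine (col_mono _ (lt_add_one e).le).trans_lt (Cl.card_col (l := [e]) h0 hμ ?_)
    rintro x (hx | hx)
    · exact Or.inl hx
    · exact Or.inr hx
  · have h1 := ct_mem hX (hmem w hw) heX
    have h2 : col {x | Cl (e + 1) (Iio μ ∪ {x | x ∈ [e]}) x} w = w :=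
      col_ident fun z hz => hmem z (hz.trans hw)
    rw [h2] at h1
    exact h1

end Pool.Agent.LMach
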