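import Pool.Agent.LMach.Spec

/-!
# Walks along a coherent system
-/

open Set

universe u

namespace Pool.Agent.LMach

lemma rho_eq_succ {C : Ordinal.{u} → Set Ordinal.{u}} {x τ : Ordinal.{u}}
    (h : x < τ ∧ stp C τ x < τ) : rho C x τ = rho C x (stp C τ x) + 1 := by
  rw [rho]; exact dif_pos h

lemma cc_eq_succ {C : Ordinal.{u} → Set Ordinal.{u}} {x τ : Ordinal.{u}}
    (h : x < τ ∧ stp C τ x < τ ∧ ¬ UnbBelow (fun y => y ∈ C τ) x) :
    cc C x τ = cc C x (stp C τ x) + 1 := by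
  rw [cc]; exact dif_pos h

lemma cc_eq_zero {C : Ordinal.{u} → Set Ordinal.{u}} {x τ : Ordinal.{u}}
    (h : ¬ (x < τ ∧ stp C τ x < τ ∧ ¬ UnbBelow (fun y => y ∈ C τ) x)) :
    cc C x τ = 0 := by
  rw [cc]; exact dif_neg h

/-- Additivity of walks. -/
theorem p_WALK : T_WALK.{u} := by
  intro K C top hC d τ hd hKd
  induction τ using WellFoundedLT.induction with
  | ind τ ih =>
    intro hτK hdτ hτt
    rcases hdτ.eq_or_lt with rfl | hlt
    · refine ⟨⟨0, hd, fun x _ _ _ => ?_⟩, fun h => absurd h (lt_irrefl _)⟩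
      rw [cc_eq_zero (fun h => lt_irrefl _ h.1), zero_add]
    have hdK : d ∈ K := hC.closed d hd hKd
    -- the step from `τ` to a member of `K` at most `d`
    have key : ∀ x ∈ K, x < τ → stp C τ x ∈ C τ ∧ x ≤ stp C τ x := by
      intro x hx hxτ
      obtain ⟨e, he, hxe⟩ := hC.cof τ hτK hτt x hx hxτ
      have : stp C τ x ∈ {d | d ∈ C τ ∧ x ≤ d} := csInf_mem ⟨e, he, hxe⟩
      exact this
    have hs := key d hdK hlt
    have hsK := hC.sub τ hτK hτt _ hs.1
    by_cases hU : UnbBelow (fun y => y ∈ C τ) d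
    · have hcc : cc C d τ = 0 := cc_eq_zero (fun h => h.2.2 hU)
      refine ⟨⟨0, hd, fun x hx _ hxd => ?_⟩, fun _ _ => hU⟩
      have hcoh := hC.coh τ hτK hτt d hlt hd hU
      obtain ⟨y, hyd, hxy, hy⟩ := hU x hxd
      have hst : stp C d x = stp C τ x := by
        have h1 := key x hx (hxd.trans hlt)
        have hle : stp C τ x ≤ y := csInf_le' ⟨hy, hxy.le⟩
        have hmem : stp C τ x ∈ C d := by
          rw [hcoh]; exact ⟨h1.1, hle.trans_lt hyd⟩
        apply le_antisymm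
        · exact csInf_le' ⟨hmem, h1.2⟩
        · have h2 : stp C d x ∈ {e | e ∈ C d ∧ x ≤ e} := csInf_mem ⟨_, hmem, h1.2⟩
          have h3 : stp C d x ∈ C τ := by
            have := h2.1
            rw [hcoh] at this
            exact this.1
          exact csInf_le' ⟨h3, h2.2⟩
      have hle : stp C τ x ≤ y := csInf_le' ⟨hy, hxy.le⟩
      rw [hcc, zero_add, rho_eq_succ ⟨hxd.trans hlt, (hle.trans_lt hyd).trans hlt⟩,
        rho_eq_succ (C := C) (τ := d) ⟨hxd, by rw [hst]; exact hle.trans_lt hyd⟩, hst]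
    · have hcc : cc C d τ = cc C d (stp C τ d) + 1 := cc_eq_succ ⟨hlt, hsK.2, hU⟩
      obtain ⟨⟨d₀, hd₀, h₀⟩, -⟩ := ih (stp C τ d) hsK.2 hsK.1 hs.2 (hsK.2.le.trans hτt)
      have hU' : ∃ d₁ < d, ∀ y, d₁ < y → y < d → y ∉ C τ := by
        by_contra hcon
        push Not at hcon
        apply hU
        intro x hx
        obtain ⟨y, h1, h2, h3⟩ := hcon x hx
        exact ⟨y, h2, h1, h3⟩
      obtain ⟨d₁, hd₁, h₁⟩ := hU'
      refine ⟨⟨max d₀ d₁, max_lt hd₀ hd₁, fun x hx hlx hxd => ?_⟩, fun _ h0 => ?_⟩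
      · have hset : {e | e ∈ C τ ∧ x ≤ e} = {e | e ∈ C τ ∧ d ≤ e} := by
          ext e
          constructor
          · rintro ⟨h1, h2⟩
            refine ⟨h1, ?_⟩
            by_contra h3
            exact h₁ e (((le_max_right _ _).trans_lt hlx).trans_le h2) (not_le.1 h3) h1
          · rintro ⟨h1, h2⟩
            exact ⟨h1, hxd.le.trans h2⟩
        have hst : stp C τ x = stp C τ d := by
          unfold stp
          rw [hset]
        rw [rho_eq_succ ⟨hxd.trans hlt, by rw [hst]; exact hsK.2⟩, hst,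
          h₀ x hx ((le_max_left _ _).trans_lt hlx) hxd, hcc]
        ring
      · rw [hcc] at h0
        exact absurd h0 (Nat.succ_ne_zero _)

end Pool.Agent.LMach
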