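import Pool.Agent.LMach.Transfer
import Pool.Agent.LMach.Walk

/-!
# The limit of the collapses
-/

open Set Cardinal Order

universe u

namespace Pool.Agent.LMach

open CohP

/-- The collapsed value of `b` at `a`. -/
noncomputable def ff (π : Ordinal.{u} → Ordinal.{u} → Ordinal.{u}) (b a : Ordinal.{u}) :
    Ordinal.{u} := col (XX π b a) b

/-- The situation in the proof of the colour lemma. -/
structure Sit (κ : Cardinal.{u}) (π : Ordinal.{u} → Ordinal.{u} → Ordinal.{u})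
    (g a ea : Ordinal.{u}) (Z : Set Ordinal.{u}) : Prop where
  ctx : Ctx κ π
  gck : CK κ π g
  new : New a ea
  ck : ∀ b ∈ Z, CK κ π b
  ee : ∀ b ∈ Z, EE κ π b a
  lt : ∀ b ∈ Z, b < g
  mem : ∀ b ∈ Z, ∀ b' ∈ Z, b < b' → b ∈ XX π b' a
  le : ∀ b ∈ Z, ff π b a ≤ ea
  unb : ∀ b ∈ Z, ∃ b' ∈ Z, b < b' ∧ UnbBelow (fun y => y ∈ CS κ.ord g) b'
  stp1 : ∀ x ∈ Z, ∀ b ∈ Z, stp (CS κ.ord) g x < b → stp (CS κ.ord) g x ∈ XX π b a
  stp2 : ∀ x ∈ Z, ∃ b ∈ Z, stp (CS κ.ord) g x < b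
  ne : Z.Nonempty
  unc : ∀ f : ℕ → Ordinal.{u}, (∀ n, f n ∈ Z) → ∃ b ∈ Z, ∀ n, f n < b

section

variable {κ : Cardinal.{u}} {π : Ordinal.{u} → Ordinal.{u} → Ordinal.{u}}
  {g a ea : Ordinal.{u}} {Z : Set Ordinal.{u}} (S : Sit κ π g a ea Z)
include S

theorem Sit.app {b : Ordinal.{u}} (hb : b ∈ Z) : App κ π b a (XX π b a) :=
  S.ctx.app (S.ck b hb) (S.ee b hb)

theorem Sit.coh {b b' : Ordinal.{u}} (hb : b ∈ Z) (hb' : b' ∈ Z) (h : b < b') :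
    XX π b a = XX π b' a ∩ Iio b :=
  (S.ctx.ee_coh (S.ck b hb) h (S.ee b' hb') (S.mem b hb b' hb' h)).1

theorem Sit.col_eq {b b' x : Ordinal.{u}} (hb : b ∈ Z) (hb' : b' ∈ Z) (h : b ≤ b') (hx : x ≤ b) :
    col (XX π b a) x = col (XX π b' a) x := by
  rcases h.eq_or_lt with h | h
  · rw [h]
  refine col_congr fun w hw => ?_
  rw [S.coh hb hb' h]
  exact ⟨fun h1 => h1.1, fun h1 => ⟨h1, hw.trans_le hx⟩⟩

theorem Sit.ff_eq {b b' : Ordinal.{u}} (hb : b ∈ Z) (hb' : b' ∈ Z) (h : b ≤ b') :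
    ff π b a = col (XX π b' a) b := S.col_eq hb hb' h le_rfl

theorem Sit.ff_lt {b b' : Ordinal.{u}} (hb : b ∈ Z) (hb' : b' ∈ Z) (h : b < b') :
    ff π b a < ff π b' a := by
  rw [S.ff_eq hb hb' h.le]
  exact col_smono (S.mem b hb b' hb' h) h

theorem Sit.ff_lt_iff {b b' : Ordinal.{u}} (hb : b ∈ Z) (hb' : b' ∈ Z) :
    ff π b a < ff π b' a ↔ b < b' := by
  refine ⟨fun h => ?_, S.ff_lt hb hb'⟩
  by_contra hcon
  rcases (not_lt.mp hcon).eq_or_lt with h1 | h1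
  · rw [h1] at h; exact lt_irrefl _ h
  · exact absurd (S.ff_lt hb' hb h1) (not_lt.mpr h.le)

theorem Sit.colS {b : Ordinal.{u}} (hb : b ∈ Z) : ColS a (ff π b a) :=
  (S.app hb).colS le_rfl (S.ctx.ck_colS (S.ck b hb))

/-- the limit -/
noncomputable def dl (π : Ordinal.{u} → Ordinal.{u} → Ordinal.{u}) (a : Ordinal.{u})
    (Z : Set Ordinal.{u}) : Ordinal.{u} := sSup ((fun b => ff π b a) '' Z)

theorem Sit.bdd : BddAbove ((fun b => ff π b a) '' Z) :=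
  ⟨ea, by rintro _ ⟨b, hb, rfl⟩; exact S.le b hb⟩

theorem Sit.next {b : Ordinal.{u}} (hb : b ∈ Z) : ∃ b' ∈ Z, b < b' := by
  obtain ⟨b', h1, h2, _⟩ := S.unb b hb
  exact ⟨b', h1, h2⟩

theorem Sit.ff_dl {b : Ordinal.{u}} (hb : b ∈ Z) : ff π b a < dl π a Z := by
  obtain ⟨b', hb', h⟩ := S.next hb
  exact (S.ff_lt hb hb' h).trans_le (le_csSup S.bdd ⟨b', hb', rfl⟩)

theorem Sit.ex_dl {x : Ordinal.{u}} (hx : x < dl π a Z) : ∃ b ∈ Z, x < ff π b a := by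
  obtain ⟨_, ⟨b, hb, rfl⟩, h⟩ := exists_lt_of_lt_csSup (S.ne.image _) hx
  exact ⟨b, hb, h⟩

theorem Sit.dl_pos : 0 < dl π a Z := by
  obtain ⟨b, hb⟩ := S.ne
  exact lt_of_le_of_lt zero_le (S.ff_dl hb)

theorem Sit.dl_le : dl π a Z ≤ ea :=
  csSup_le (S.ne.image _) (by rintro _ ⟨b, hb, rfl⟩; exact S.le b hb)

theorem Sit.dl_unb : UnbBelow (ColS a) (dl π a Z) := by
  intro x hx
  obtain ⟨b, hb, h⟩ := S.ex_dl hx
  exact ⟨_, S.ff_dl hb, h, S.colS hb⟩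

theorem Sit.dl_colS : ColS a (dl π a Z) := colS_of_unb S.dl_pos S.dl_unb

theorem Sit.dl_unc : Unc (dl π a Z) := by
  intro f hf
  choose b hb hfb using fun n => S.ex_dl (hf n)
  obtain ⟨c, hc, hbc⟩ := S.unc b hb
  exact ⟨ff π c a, S.ff_dl hc, fun n => (hfb n).trans (S.ff_lt (hb n) hc (hbc n))⟩

theorem Sit.coha : Coh {τ | ColS a τ} (CS a) ea := hcoh a ea ea le_rfl S.new

theorem Sit.cohk : ∃ e, g ≤ e ∧ Coh {τ | ColS κ.ord τ} (CS κ.ord) e := by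
  obtain ⟨e, _, hge, hne⟩ := S.ctx.new g S.gck.2.1
  exact ⟨e, hge.le, hcoh κ.ord e e le_rfl hne⟩

/-- coherence at limit points of `CS κ.ord g` -/
theorem Sit.cs_lim {b : Ordinal.{u}} (hb : b < g) (h0 : 0 < b)
    (hu : UnbBelow (fun y => y ∈ CS κ.ord g) b) : CS κ.ord b = CS κ.ord g ∩ Iio b := by
  obtain ⟨e, hge, hk⟩ := S.cohk
  exact hk.coh g (S.ctx.ck_colS S.gck) hge b hb h0 hu

theorem Sit.bpos {b : Ordinal.{u}} (hb : b ∈ Z) : 0 < b := S.ctx.posk.trans (S.ck b hb).1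

/-- D1 -/
theorem Sit.d1 {τ τ' : Ordinal.{u}} (hτ : τ ∈ Z) (hτ' : τ' ∈ Z) (h : τ < τ')
    (hu : UnbBelow (fun y => y ∈ CS κ.ord g) τ) (hu' : UnbBelow (fun y => y ∈ CS κ.ord g) τ') :
    UnbBelow (fun y => y ∈ CS a (ff π τ' a)) (ff π τ a) ∧
      CS a (ff π τ a) = CS a (ff π τ' a) ∩ Iio (ff π τ a) := by
  have key : UnbBelow (fun y => y ∈ CS a (ff π τ' a)) (ff π τ a) := by
    intro x hx
    obtain ⟨β, hβ, hτβ⟩ := S.next hτ'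
    have A := S.app hβ
    have hτY : τ ∈ XX π β a := S.mem τ hτ β hβ (h.trans hτβ)
    have hτ'Y : τ' ∈ XX π β a := S.mem τ' hτ' β hβ hτβ
    have e1 := S.ff_eq hτ hβ (h.trans hτβ).le
    have e2 := S.ff_eq hτ' hβ hτβ.le
    rw [e1] at hx
    obtain ⟨x, hxY, hxτ, rfl⟩ := col_onto hx
    have hcS := S.ctx.ck_colS (S.ck τ hτ)
    have hx1 := hcS.2.1 x hxτ
    have hx1Y : x + 1 ∈ XX π β a := A.cin.succ hxY (hx1.trans (h.trans hτβ))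
    have hle : col (XX π β a) τ' ≤ ea := by rw [← e2]; exact S.le τ' hτ'
    obtain ⟨s1, s2⟩ := A.stp hτ'Y hx1Y hle S.new
    obtain ⟨d, hd1, hd2, hd3⟩ := hu (x + 1) hx1
    have hcs := S.cs_lim (S.lt τ' hτ') (S.bpos hτ') hu'
    have hdm : d ∈ CS κ.ord τ' := by rw [hcs]; exact ⟨hd3, hd1.trans h⟩
    have hne : ({d | d ∈ CS κ.ord τ' ∧ x + 1 ≤ d} : Set Ordinal.{u}).Nonempty := ⟨d, hdm, hd2.le⟩
    have h1 : stp (CS κ.ord) τ' (x + 1) ∈ CS κ.ord τ' ∧ x + 1 ≤ stp (CS κ.ord) τ' (x + 1) :=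
      csInf_mem hne
    have h2 : stp (CS κ.ord) τ' (x + 1) < τ :=
      (csInf_le' (s := {d | d ∈ CS κ.ord τ' ∧ x + 1 ≤ d}) ⟨hdm, hd2.le⟩).trans_lt hd1
    refine ⟨col (XX π β a) (stp (CS κ.ord) τ' (x + 1)), ?_, ?_, ?_⟩
    · rw [e1]; exact col_smono s1 h2
    · exact col_smono hxY ((lt_add_one x).trans_le h1.2)
    · show _ ∈ CS a (ff π τ' a)
      rw [e2, A.cs hτ'Y s1 hle S.new]
      exact h1.1
  refine ⟨key, ?_⟩
  have hpos : 0 < ff π τ a := lt_of_le_of_lt zero_le (S.colS hτ).1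
  exact S.coha.coh _ (S.colS hτ') (S.le τ' hτ') _ (S.ff_lt hτ hτ' h) hpos key

/-- Claim A -/
theorem Sit.claimA {y : Ordinal.{u}} (hy : y < dl π a Z) :
    ∃ d < dl π a Z, y < d ∧ ∃ τ ∈ Z, UnbBelow (fun y => y ∈ CS κ.ord g) τ ∧ d < ff π τ a ∧
      ∀ x < d, (x ∈ CS a (dl π a Z) ↔ x ∈ CS a (ff π τ a)) := by
  -- steps
  have hC : ∀ y < dl π a Z, ∃ c, c < dl π a Z ∧ y < c ∧ c ∈ CS a (dl π a Z) := by
    intro y hy
    obtain ⟨b, hb, hyb⟩ := S.ex_dl hy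
    obtain ⟨d, hd1, hd2⟩ := S.coha.cof _ S.dl_colS S.dl_le _ (S.colS hb) (S.ff_dl hb)
    exact ⟨d, (S.coha.sub _ S.dl_colS S.dl_le d hd1).2, hyb.trans_le hd2, hd1⟩
  have hD : ∀ y < dl π a Z, ∃ c, c < dl π a Z ∧ y < c ∧ ∃ τ ∈ Z,
      UnbBelow (fun y => y ∈ CS κ.ord g) τ ∧ c ∈ CS a (ff π τ a) := by
    intro y hy
    obtain ⟨b, hb, hyb⟩ := S.ex_dl hy
    obtain ⟨τ, hτ, hbτ, hu⟩ := S.unb b hb
    obtain ⟨τ', hτ', hττ', hu'⟩ := S.unb τ hτ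
    obtain ⟨c, hc1, hc2, hc3⟩ := (S.d1 hτ hτ' hττ' hu hu').1 y (hyb.trans (S.ff_lt hb hτ hbτ))
    exact ⟨c, hc1.trans (S.ff_dl hτ), hc2, τ', hτ', hu', hc3⟩
  have hC' : ∀ y, ∃ c, y < dl π a Z → c < dl π a Z ∧ y < c ∧ c ∈ CS a (dl π a Z) := by
    intro y
    by_cases hy : y < dl π a Z
    · obtain ⟨c, hc⟩ := hC y hy; exact ⟨c, fun _ => hc⟩
    · exact ⟨0, fun h => absurd h hy⟩
  have hD' : ∀ y, ∃ c, y < dl π a Z → c < dl π a Z ∧ y < c ∧ ∃ τ ∈ Z,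
      UnbBelow (fun y => y ∈ CS κ.ord g) τ ∧ c ∈ CS a (ff π τ a) := by
    intro y
    by_cases hy : y < dl π a Z
    · obtain ⟨c, hc⟩ := hD y hy; exact ⟨c, fun _ => hc⟩
    · exact ⟨0, fun h => absurd h hy⟩
  choose fC hfC using hC'
  choose fD hfD using hD'
  let s : ℕ → Ordinal.{u} := fun n => Nat.rec y (fun _ z => fD (fC z)) n
  have hs1 : ∀ n, s (n + 1) = fD (fC (s n)) := fun n => rfl
  have hs : ∀ n, s n < dl π a Z := by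
    intro n
    induction n with
    | zero => exact hy
    | succ n ih => rw [hs1]; exact (hfD _ (hfC _ ih).1).1
  have hstep : ∀ n, s n < fC (s n) ∧ fC (s n) < s (n + 1) := by
    intro n
    rw [hs1]
    exact ⟨(hfC _ (hs n)).2.1, (hfD _ (hfC _ (hs n)).1).2.1⟩
  obtain ⟨c, hc, hsc⟩ := S.dl_unc s hs
  have hbd : BddAbove (range s) := ⟨c, by rintro _ ⟨n, rfl⟩; exact (hsc n).le⟩
  have hsn : ∀ n, s n < ⨆ n, s n := fun n =>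
    ((hstep n).1.trans (hstep n).2).trans_le (le_ciSup hbd (n + 1))
  have hdc : (⨆ n, s n) < dl π a Z := (ciSup_le fun n => (hsc n).le).trans_lt hc
  have h0 : 0 < ⨆ n, s n := lt_of_le_of_lt zero_le (hsn 0)
  have huC : UnbBelow (fun y => y ∈ CS a (dl π a Z)) (⨆ n, s n) := by
    intro x hx
    obtain ⟨n, hn⟩ := exists_lt_of_lt_ciSup hx
    exact ⟨fC (s n), (hstep n).2.trans (hsn (n + 1)), hn.trans (hstep n).1, (hfC _ (hs n)).2.2⟩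
  obtain ⟨b, hb, hdb⟩ := S.ex_dl hdc
  obtain ⟨τ, hτ, hbτ, hu⟩ := S.unb b hb
  have hdτ : (⨆ n, s n) < ff π τ a := hdb.trans (S.ff_lt hb hτ hbτ)
  have huD : UnbBelow (fun y => y ∈ CS a (ff π τ a)) (⨆ n, s n) := by
    intro x hx
    obtain ⟨n, hn⟩ := exists_lt_of_lt_ciSup hx
    obtain ⟨_, h1, τ₂, hτ₂, hu₂, h2⟩ := hfD _ (hfC _ (hs n)).1
    refine ⟨s (n + 1), hsn (n + 1), hn.trans ((hstep n).1.trans (hstep n).2), ?_⟩
    show s (n + 1) ∈ CS a (ff π τ a)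
    rw [hs1]
    have hlt : fD (fC (s n)) < ff π τ a := by rw [← hs1]; exact (hsn (n + 1)).trans hdτ
    rcases lt_trichotomy τ₂ τ with h3 | h3 | h3
    · rw [(S.d1 hτ₂ hτ h3 hu₂ hu).2] at h2
      exact h2.1
    · rw [← h3]; exact h2
    · rw [(S.d1 hτ hτ₂ h3 hu hu₂).2]
      exact ⟨h2, hlt⟩
  have e1 := S.coha.coh _ S.dl_colS S.dl_le _ hdc h0 huC
  have e2 := S.coha.coh _ (S.colS hτ) (S.le τ hτ) _ hdτ h0 huD
  refine ⟨⨆ n, s n, hdc, hsn 0, τ, hτ, hu, hdτ, fun x hx => ?_⟩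
  have h1 : x ∈ CS a (⨆ n, s n) ↔ x ∈ CS a (dl π a Z) := by
    rw [e1]; exact ⟨fun h => h.1, fun h => ⟨h, hx⟩⟩
  have h2 : x ∈ CS a (⨆ n, s n) ↔ x ∈ CS a (ff π τ a) := by
    rw [e2]; exact ⟨fun h => h.1, fun h => ⟨h, hx⟩⟩
  rw [← h1, h2]

/-- The walk from the limit. -/
theorem Sit.rho_dl {x : Ordinal.{u}} (hx : x ∈ Z) :
    rho (CS a) (ff π x a) (dl π a Z) = rho (CS κ.ord) x g := by
  obtain ⟨e, hge, hk⟩ := S.cohk
  have hgS := S.ctx.ck_colS S.gck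
  obtain ⟨d, hd1, hd2⟩ := hk.cof g hgS hge x (S.ctx.ck_colS (S.ck x hx)) (S.lt x hx)
  have hne : ({d | d ∈ CS κ.ord g ∧ x ≤ d} : Set Ordinal.{u}).Nonempty := ⟨d, hd1, hd2⟩
  have hσ : stp (CS κ.ord) g x ∈ CS κ.ord g ∧ x ≤ stp (CS κ.ord) g x := csInf_mem hne
  have hσg : stp (CS κ.ord) g x < g := (hk.sub g hgS hge _ hσ.1).2
  have hmin : ∀ d ∈ CS κ.ord g, x ≤ d → stp (CS κ.ord) g x ≤ d := fun d h1 h2 =>
    csInf_le' (s := {d | d ∈ CS κ.ord g ∧ x ≤ d}) ⟨h1, h2⟩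
  rw [rho_pos (C := CS κ.ord) ⟨S.lt x hx, hσg⟩]
  have hs1 := S.stp1 x hx
  obtain ⟨β₁, hβ₁, hσβ₁⟩ := S.stp2 x hx
  generalize stp (CS κ.ord) g x = σ at hσ hσg hmin hs1 hσβ₁ ⊢
  have hgσ : col (XX π β₁ a) σ < dl π a Z :=
    (col_smono (hs1 β₁ hβ₁ hσβ₁) hσβ₁).trans (S.ff_dl hβ₁)
  obtain ⟨d, hd1, hd2, τ, hτ, hu, hdτ, hiff⟩ := S.claimA hgσ
  -- `σ < τ`
  have hστ : σ < τ := by
    by_contra hcon
    rw [not_lt] at hcon
    have h1 : τ < β₁ := hcon.trans_lt hσβ₁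
    have h2 := S.ff_eq hτ hβ₁ h1.le
    have h3 := col_mono (XX π β₁ a) hcon
    rw [← h2] at h3
    exact absurd (hd2.trans hdτ) (not_lt.mpr h3)
  obtain ⟨β, hβ, hτβ⟩ := S.next hτ
  have A := S.app hβ
  have hτY : τ ∈ XX π β a := S.mem τ hτ β hβ hτβ
  have hσY : σ ∈ XX π β a := hs1 β hβ (hστ.trans hτβ)
  have hxσ : x ≤ σ := hσ.2
  have hxY : x ∈ XX π β a := S.mem x hx β hβ ((hxσ.trans_lt hστ).trans hτβ)
  have e1 := S.ff_eq hτ hβ hτβ.le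
  have e2 := S.ff_eq hx hβ ((hxσ.trans_lt hστ).trans hτβ).le
  have e3 : col (XX π β₁ a) σ = col (XX π β a) σ := by
    rcases le_total β₁ β with h | h
    · exact S.col_eq hβ₁ hβ h hσβ₁.le
    · exact (S.col_eq hβ hβ₁ h (hστ.trans hτβ).le).symm
  have hleτ : col (XX π β a) τ ≤ ea := by rw [← e1]; exact S.le τ hτ
  obtain ⟨s1, s2⟩ := A.stp hτY hxY hleτ S.new
  have hcs := S.cs_lim (S.lt τ hτ) (S.bpos hτ) hu
  have hστm : σ ∈ CS κ.ord τ := by rw [hcs]; exact ⟨hσ.1, hστ⟩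
  have hstp : stp (CS κ.ord) τ x = σ := by
    refine le_antisymm (csInf_le' ⟨hστm, hxσ⟩) (le_csInf ⟨σ, hστm, hxσ⟩ ?_)
    rintro d' ⟨h1, h2⟩
    rw [hcs] at h1
    exact hmin d' h1.1 h2
  rw [hstp, ← e1, ← e2] at s2
  -- the step from the limit
  have hσm : col (XX π β a) σ ∈ CS a (ff π τ a) := by
    rw [e1, A.cs hτY hσY hleτ S.new]; exact hστm
  have hσd : col (XX π β a) σ < d := by rw [← e3]; exact hd2
  have hσm' : col (XX π β a) σ ∈ CS a (dl π a Z) := (hiff _ hσd).mpr hσm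
  have hxσ' : ff π x a ≤ col (XX π β a) σ := by rw [e2]; exact col_mono _ hxσ
  have hstp' : stp (CS a) (dl π a Z) (ff π x a) = col (XX π β a) σ := by
    refine le_antisymm (csInf_le' ⟨hσm', hxσ'⟩) (le_csInf ⟨_, hσm', hxσ'⟩ ?_)
    rintro d' ⟨h1, h2⟩
    rcases lt_or_ge d' d with h3 | h3
    · have h4 := (hiff _ h3).mp h1
      rw [s2]
      exact csInf_le' ⟨h4, h2⟩
    · exact hσd.le.trans h3
  have hlt : ff π x a < dl π a Z ∧ stp (CS a) (dl π a Z) (ff π x a) < dl π a Z :=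
    ⟨S.ff_dl hx, by rw [hstp']; exact hσd.trans hd1⟩
  rw [rho_pos hlt, hstp', e2, A.rho hxY S.new σ hσY]
  exact (hσd.trans hd1).le.trans S.dl_le

end

end Pool.Agent.LMach
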