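import Pool.Agent.LMach.CT

/-!
# The collapse preserves `URel`
-/

open Set Cardinal Order

universe u

namespace Pool.Agent.LMach

theorem closed_iff (z : Ordinal.{u}) : lev z = z ↔ ∀ x < z, ∀ y < z, J x y < z := by
  refine ⟨fun h x hx y hy => J_lt' h hx hy, fun h => ?_⟩
  rw [lev_eq_self_iff]
  refine bet_le fun d hd => ?_
  have h1 := h d hd d hd
  have h2 : bet d + (d + 1) * (d + 1) = J d d + 1 := by
    rw [J, max_self, code, mul_add (d + 1) d 1, mul_one]
    simp only [add_assoc]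
  rw [h2]
  exact add_one_le_iff.mpr h1

/-- equivalence of two formulas -/
def fiff (p q : Fm) : Fm := Fm.and (Fm.neg (Fm.and p (Fm.neg q))) (Fm.neg (Fm.and q (Fm.neg p)))

theorem sat_fiff (g : Ordinal.{u}) (R : Ordinal.{u} → Ordinal.{u} → Prop) (p q : Fm)
    (e : ℕ → Ordinal.{u}) : SatE g R (fiff p q) e ↔ (SatE g R p e ↔ SatE g R q e) := by
  simp only [fiff, SatE]
  tauto

/-- variables `0 = e`, `1 = a`, `2 = b`: `b < e` and `e` is new with respect to `a` -/
def newF : Fm :=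
  Fm.and (Fm.lt 2 0) (Fm.neg (Fm.ex (Fm.and (Fm.lt 0 1) (Fm.neg (Fm.ex (Fm.and (Fm.lt 0 3)
    (Fm.neg (fiff (Fm.mm 0 2) (Fm.mm 0 1)))))))))

theorem sat_newF {g e a b : Ordinal.{u}} (he : e < g) (ha : a < g) (r : ℕ → Ordinal.{u}) :
    SatE g Mem newF (econs e (econs a (econs b r))) ↔ b < e ∧ New a e := by
  simp only [newF, SatE, sat_fiff]
  constructor
  · rintro ⟨h1, h2⟩
    refine ⟨h1, fun e' he' => ?_⟩
    by_contra hcon
    refine h2 ⟨e', he'.trans he, he', ?_⟩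
    rintro ⟨w, hw, hwa, hw'⟩
    exact hcon ⟨w, hwa, hw'⟩
  · rintro ⟨h1, h2⟩
    refine ⟨h1, ?_⟩
    rintro ⟨e', _, he', hcon⟩
    obtain ⟨w, hwa, hw'⟩ := h2 e' he'
    exact hcon ⟨w, hwa.trans ha, hwa, hw'⟩

/-- variables `0 = z`, `1 = e`: `e < z` and `z` is closed under pairing -/
def closF : Fm :=
  Fm.and (Fm.lt 1 0) (Fm.neg (Fm.ex (Fm.and (Fm.lt 0 1) (Fm.ex (Fm.and (Fm.lt 0 2)
    (Fm.neg (Fm.ex (Fm.and (Fm.lt 0 3) (Fm.pr 2 1 0)))))))))

theorem sat_closF {g z e : Ordinal.{u}} (hz : z < g) (r : ℕ → Ordinal.{u}) :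
    SatE g Mem closF (econs z (econs e r)) ↔ e < z ∧ lev z = z := by
  rw [closed_iff]
  simp only [closF, SatE]
  constructor
  · rintro ⟨h1, h2⟩
    refine ⟨h1, fun x hx y hy => ?_⟩
    by_contra hcon
    refine h2 ⟨x, hx.trans hz, hx, y, hy.trans hz, hy, ?_⟩
    rintro ⟨w, _, hw, hw'⟩
    rw [show J x y = w from hw'] at hcon
    exact hcon hw
  · rintro ⟨h1, h2⟩
    refine ⟨h1, ?_⟩
    rintro ⟨x, _, hx, y, _, hy, hcon⟩
    exact hcon ⟨J x y, (h2 x hx y hy).trans hz, h2 x hx y hy, rfl⟩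

theorem env_J2 (a b w : Ordinal.{u}) :
    (fun i => var i (J a (J b w))) = econs a (econs b (fun i => var i w)) := by
  rw [env_J, env_J]

theorem env_J3 (a b c w : Ordinal.{u}) :
    (fun i => var i (J a (J b (J c w)))) =
      econs a (econs b (econs c (fun i => var i w))) := by
  rw [env_J, env_J, env_J]

section

variable {θ : Ordinal.{u}} {X : Set Ordinal.{u}} (hX : ClosedIn θ X)
include hX

theorem one_lt_col {g : Ordinal.{u}} (hg : g ∈ X) (h1 : 1 < g) : 1 < col X g := by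
  have h2 : (1 : Ordinal.{u}) < θ := h1.trans (hX.lt hg)
  have h3 : (1 : Ordinal.{u}) ∈ X := by
    have := hX.nat (n := 1) (by simpa using h2)
    simpa using this
  have h4 : col X (1 : Ordinal.{u}) = 1 := by
    have := hX.col_nat (n := 1) (by simpa using h2)
    simpa using this
  rw [← h4]
  exact col_smono h3 h1

/-- Codes over a closed level. -/
theorem ct_sat {g a : Ordinal.{u}} (hg : g ∈ X) (hl : lev g = g) (h1 : 1 < g)
    (hb : code (g + 1) 0 g < θ) (ha : a ∈ X) (hag : a < g) (p : Fm) :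
    code g (idx p : Ordinal.{u}) a ∈ X ∧
      col X (code g (idx p : Ordinal.{u}) a) = code (col X g) (idx p : Ordinal.{u}) (col X a) := by
  have h2 := idx_le hl h1 p
  have h3 : (idx p : Ordinal.{u}) < θ := h2.trans_lt (hX.lt hg)
  have h4 : code g (idx p : Ordinal.{u}) a < θ := by
    refine lt_trans ?_ hb
    exact code_lt_of_lex h2 hag.le (Or.inl (lt_add_one g))
  exact ⟨hX.code hg (hX.nat h3) ha h2 hag.le h4,
    by rw [ct_code hX hg (hX.nat h3) ha h2 hag.le h4, hX.col_nat h3]⟩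

theorem ct_lev_eq {z : Ordinal.{u}} (hz : z ∈ X) : lev (col X z) = col X z ↔ lev z = z := by
  rw [ct_lev hX hz]
  exact ⟨fun h => col_inj (hX.lev hz) hz h, fun h => by rw [h]⟩

omit hX in
theorem URel.facts {a b g e : Ordinal.{u}} (hl : lev g = g) (he : e < g) (hab : a ≤ b)
    (hbe : b < e) : 1 < g ∧ a < g ∧ b < g ∧ J a (J b 0) < g := by
  have h1 : 1 < g := lt_of_le_of_lt (one_le_iff_pos.mpr (lt_of_le_of_lt zero_le hbe)) he
  have hb := hbe.trans he
  exact ⟨h1, hab.trans_lt hb, hb, J_lt' hl (hab.trans_lt hb)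
    (J_lt' hl hb (zero_lt_one.trans h1))⟩

omit hX in
theorem closF_mem {g e z : Ordinal.{u}} (hl : lev g = g) (h1 : 1 < g) (he : e < g) :
    Mem z (code g (idx closF : Ordinal.{u}) (J e 0)) ↔ z < g ∧ e < z ∧ lev z = z := by
  rw [mem_code' hl h1 (J_lt' hl he (zero_lt_one.trans h1))]
  refine and_congr_right fun hz => ?_
  rw [env_J2, sat_closF hz]

omit hX in
theorem newF_mn {g a b e : Ordinal.{u}} (hl : lev g = g) (h1 : 1 < g) (ha : a < g)
    (hpar : J a (J b 0) < g) (he : e < g) :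
    IsMn e (code g (idx newF : Ordinal.{u}) (J a (J b 0))) ↔
      b < e ∧ New a e ∧ ∀ e', b < e' → e' < e → ¬ New a e' := by
  have key : ∀ y, Mem y (code g (idx newF : Ordinal.{u}) (J a (J b 0))) ↔
      y < g ∧ b < y ∧ New a y := by
    intro y
    rw [mem_code' hl h1 hpar]
    refine and_congr_right fun hy => ?_
    rw [env_J3, sat_newF hy ha]
  rw [IsMn, key]
  constructor
  · rintro ⟨⟨_, h2, h3⟩, h4⟩
    refine ⟨h2, h3, fun e' h5 h6 h7 => h4 e' h6 ?_⟩
    rw [key]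
    exact ⟨h6.trans he, h5, h7⟩
  · rintro ⟨h2, h3, h4⟩
    refine ⟨⟨he, h2, h3⟩, fun e' h5 h6 => ?_⟩
    rw [key] at h6
    exact h4 e' h6.2.1 h5 h6.2.2

theorem ct_up {a b v : Ordinal.{u}} (ha : a ∈ X) (hb : b ∈ X) (hv : v ∈ X) :
    URel (col X a) (col X b) (col X v) ↔ URel a b v := by
  constructor
  · rintro ⟨h1, g', e', hv', h2, h3, h4, h5, h6, h7⟩
    have hle1 : (0 : Ordinal.{u}) ≤ g' + 1 := zero_le
    have hle2 : g' ≤ g' + 1 := (lt_add_one g').le
    -- the level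
    have etl : col X (tl v) = g' := by rw [← ct_tl hX hv, hv', tl_code' hle1 hle2]
    have elev : col X (lev v) = g' + 1 := by rw [← ct_lev hX hv, hv', lev_code' hle1 hle2]
    have ehd : col X (hd v) = 0 := by rw [← ct_hd hX hv, hv', hd_code' hle1 hle2]
    have hg : tl v ∈ X := hX.tl hv
    have hglt : tl v < lev v := by
      rw [← col_lt_iff hg, etl, elev]; exact lt_add_one _
    have hg1 : tl v + 1 ∈ X := hX.succ hg
      ((add_one_le_iff.mpr hglt).trans_lt (hX.lt (hX.lev hv)))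
    have hlev : lev v = tl v + 1 := by
      refine col_inj (hX.lev hv) hg1 ?_
      rw [elev, col_add_one hg, etl]
    have h0 : (0 : Ordinal.{u}) < θ := lt_of_le_of_lt zero_le (hX.lt hv)
    have hhd : hd v = 0 := by
      refine col_inj (hX.hd hv) (hX.zero h0) ?_
      rw [ehd]
      exact (le_antisymm (col_le X 0) zero_le).symm
    have hveq : v = code (tl v + 1) 0 (tl v) := by
      conv_lhs => rw [← code_eq' v, hlev, hhd]
    have hl : lev (tl v) = tl v := by rw [← ct_lev_eq hX hg, etl]; exact h2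
    obtain ⟨f1, f2, f3, f4⟩ := URel.facts h2 h3 h1 h5
    have hone : 1 < tl v := by
      rcases lt_trichotomy 1 (tl v) with h | h | h
      · exact h
      · exfalso
        have := col_le X (tl v)
        rw [etl, ← h] at this
        exact absurd f1 (not_lt.mpr this)
      · exfalso
        have := (col_le X (tl v)).trans_lt h
        rw [etl] at this
        exact absurd f1 (not_lt.mpr this.le)
    have hag : a < tl v := by rw [← col_lt_iff ha, etl]; exact f2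
    have hbg : b < tl v := by rw [← col_lt_iff hb, etl]; exact f3
    have hcb : code (tl v + 1) 0 (tl v) < θ := by rw [← hveq]; exact hX.lt hv
    have h0g : (0 : Ordinal.{u}) < tl v := zero_lt_one.trans hone
    have hJ1 : J b 0 < tl v := J_lt' hl hbg h0g
    have hJ2 : J a (J b 0) < tl v := J_lt' hl hag hJ1
    have hgθ : tl v < θ := hX.lt hg
    have hJ1X : J b 0 ∈ X := hX.J hb (hX.zero h0) (hJ1.trans hgθ)
    have hJ2X : J a (J b 0) ∈ X := hX.J ha hJ1X (hJ2.trans hgθ)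
    have hcolJ : col X (J a (J b 0)) = J (col X a) (J (col X b) 0) := by
      rw [ct_J hX ha hJ1X (hJ2.trans hgθ), ct_J hX hb (hX.zero h0) (hJ1.trans hgθ),
        le_antisymm (col_le X 0) zero_le]
    obtain ⟨c1, c2⟩ := ct_sat hX hg hl hone hcb hJ2X hJ2 newF
    rw [etl, hcolJ] at c2
    have hmn' := (newF_mn h2 f1 f2 f4 h3).mpr ⟨h5, h6, h7⟩
    rw [← c2] at hmn'
    obtain ⟨e, he, heg, rfl⟩ := col_onto (X := X) (a := tl v) (b := e') (by rw [etl]; exact h3)
    rw [ct_mn hX he c1, newF_mn hl hone hag hJ2 heg] at hmn'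
    refine ⟨(col_le_iff hb).mp h1, tl v, e, hveq, hl, heg, ?_, hmn'.1, hmn'.2.1, hmn'.2.2⟩
    intro z hz1 hz2 hz3
    -- least closed level above `e`
    have hJe : J e 0 < tl v := J_lt' hl heg h0g
    have hJeX : J e 0 ∈ X := hX.J he (hX.zero h0) (hJe.trans hgθ)
    obtain ⟨d1, _⟩ := ct_sat hX hg hl hone hcb hJeX hJe closF
    obtain ⟨m, hm1, hm2⟩ := exists_mn ((closF_mem hl hone heg).mpr ⟨hz2, hz1, hz3⟩)
    have hmX : m ∈ X := hX.mn d1 hm2
    obtain ⟨m1, m2, m3⟩ := (closF_mem hl hone heg).mp hm2.1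
    refine h4 (col X m) (col_smono he m2) ?_ ((ct_lev_eq hX hmX).mpr m3)
    rw [← etl]
    exact col_smono hmX m1
  · rintro ⟨h1, g, e, hv', h2, h3, h4, h5, h6, h7⟩
    have hle1 : (0 : Ordinal.{u}) ≤ g + 1 := zero_le
    have hle2 : g ≤ g + 1 := (lt_add_one g).le
    have hgX : g ∈ X := by
      have := hX.tl hv
      rwa [hv', tl_code' hle1 hle2] at this
    have hg1X : g + 1 ∈ X := by
      have := hX.lev hv
      rwa [hv', lev_code' hle1 hle2] at this
    obtain ⟨f1, f2, f3, f4⟩ := URel.facts h2 h3 h1 h5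
    have h0 : (0 : Ordinal.{u}) < θ := lt_of_le_of_lt zero_le (hX.lt hv)
    have h0X := hX.zero h0
    have hgθ : g < θ := hX.lt hgX
    have h0g : (0 : Ordinal.{u}) < g := zero_lt_one.trans f1
    have hcb : code (g + 1) 0 g < θ := by rw [← hv']; exact hX.lt hv
    have hJ1 : J b 0 < g := J_lt' h2 f3 h0g
    have hJ1X : J b 0 ∈ X := hX.J hb h0X (hJ1.trans hgθ)
    have hJ2X : J a (J b 0) ∈ X := hX.J ha hJ1X (f4.trans hgθ)
    have hc0 : col X 0 = 0 := le_antisymm (col_le X 0) zero_le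
    have hcolJ : col X (J a (J b 0)) = J (col X a) (J (col X b) 0) := by
      rw [ct_J hX ha hJ1X (f4.trans hgθ), ct_J hX hb h0X (hJ1.trans hgθ), hc0]
    obtain ⟨c1, c2⟩ := ct_sat hX hgX h2 f1 hcb hJ2X f4 newF
    have hmn := (newF_mn h2 f1 f2 f4 h3).mpr ⟨h5, h6, h7⟩
    have heX : e ∈ X := hX.mn c1 hmn
    have hl' : lev (col X g) = col X g := (ct_lev_eq hX hgX).mpr h2
    have h1' := one_lt_col hX hgX f1
    have ha' : col X a < col X g := col_smono ha f2
    have he' : col X e < col X g := col_smono heX h3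
    have hpar' : J (col X a) (J (col X b) 0) < col X g := by
      rw [← hcolJ]; exact col_smono hJ2X f4
    have hmn' := (ct_mn hX heX c1).mpr hmn
    rw [c2, hcolJ, newF_mn hl' h1' ha' hpar' he'] at hmn'
    refine ⟨col_mono X h1, col X g, col X e, ?_, hl', he', ?_, hmn'.1, hmn'.2.1, hmn'.2.2⟩
    · rw [hv', ct_code hX hg1X h0X hgX hle1 hle2 hcb, col_add_one hgX, hc0]
    · intro z hz1 hz2 hz3
      obtain ⟨z', hz'X, hz'g, rfl⟩ := col_onto hz2
      exact h4 z' ((col_lt_iff heX).mp hz1) hz'g ((ct_lev_eq hX hz'X).mp hz3)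

end

theorem p_CT : T_CT.{u} where
  mono := fun X _ _ h => col_mono X h
  smono := fun _ _ _ h1 h2 => col_smono h1 h2
  le := col_le
  onto := fun _ _ _ h => col_onto h
  ident := fun _ _ h => col_ident h
  lev := fun _ _ hX _ hv => ct_lev hX hv
  hd := fun _ _ hX _ hv => ct_hd hX hv
  tl := fun _ _ hX _ hv => ct_tl hX hv
  code := fun _ _ hX _ ha _ hb _ hc h1 h2 h => ct_code hX ha hb hc h1 h2 h
  code' := fun _ _ hX _ ha _ hb _ hc h1 h2 h => ct_code' hX ha hb hc h1 h2 h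
  mem := fun _ _ hX _ hw _ hv => ct_mem hX hw hv
  mn := fun _ _ hX _ hw _ hv => ct_mn hX hw hv
  up := fun _ _ hX _ ha _ hb _ hv => ct_up hX ha hb hv

/-! ### Hulls commute with the collapse -/

theorem tr_sub {θ : Ordinal.{u}} {X : Set Ordinal.{u}} (hX : ClosedIn θ X) {r : Ordinal.{u}}
    (hr : r ≤ θ) {Q : Set Ordinal.{u}} (hQ : Q ⊆ X) {x : Ordinal.{u}} (h : Cl r Q x) :
    x ∈ X ∧ Cl (col X r) (col X '' Q) (col X x) := by
  have hc0 : col X 0 = 0 := le_antisymm (col_le X 0) zero_le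
  have hmem : ∀ y, Cl r Q y → y ∈ X := fun y hy =>
    hX.2 _ (hy.idem hr (fun z hz hzr => Cl.base (hQ hz) (hzr.trans_le hr)))
  have hlt : ∀ y, Cl r Q y → col X y < col X r := fun y hy => col_smono (hmem y hy) hy.lt
  refine ⟨hmem x h, ?_⟩
  induction h with
  | base h1 h2 => exact Cl.base (mem_image_of_mem _ h1) (col_smono (hQ h1) h2)
  | zero h =>
    rw [hc0]
    refine Cl.zero ?_
    rw [← hc0]; exact hlt 0 (Cl.zero h)
  | @succ a ha h ih =>
    have := hlt _ (Cl.succ ha h)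
    rw [col_add_one (hmem _ ha)] at this ⊢
    exact Cl.succ ih this
  | lev ha ih => rw [← ct_lev hX (hmem _ ha)]; exact Cl.lev ih
  | hd ha ih => rw [← ct_hd hX (hmem _ ha)]; exact Cl.hd ih
  | tl ha ih => rw [← ct_tl hX (hmem _ ha)]; exact Cl.tl ih
  | @mn a v ha h ih =>
    exact Cl.mn ih ((ct_mn hX (hmem _ (Cl.mn ha h)) (hmem _ ha)).mpr h)
  | @code a b c ha hb hc h1 h2 h ih1 ih2 ih3 =>
    have := hlt _ (Cl.code ha hb hc h1 h2 h)
    rw [ct_code hX (hmem _ ha) (hmem _ hb) (hmem _ hc) h1 h2 (h.trans_le hr)] at this ⊢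
    exact Cl.code ih1 ih2 ih3 (col_mono X h1) (col_mono X h2) this
  | @up a b v ha hb h1 h ih1 ih2 =>
    have hv := Cl.up ha hb h1 h
    exact Cl.up ih1 ih2 ((ct_up hX (hmem _ ha) (hmem _ hb) (hmem _ hv)).mpr h1) (hlt _ hv)

theorem tr_sup {θ : Ordinal.{u}} {X : Set Ordinal.{u}} (hX : ClosedIn θ X) {r : Ordinal.{u}}
    (hr : r ∈ X ∨ r = θ) {Q : Set Ordinal.{u}} (hQ : Q ⊆ X) {y : Ordinal.{u}}
    (h : Cl (col X r) (col X '' Q) y) : ∃ x, Cl r Q x ∧ col X x = y := by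
  have hrθ : r ≤ θ := by
    rcases hr with h | h
    · exact (hX.lt h).le
    · exact h.le
  have hc0 : col X 0 = 0 := le_antisymm (col_le X 0) zero_le
  have hmem : ∀ y, Cl r Q y → y ∈ X := fun y hy =>
    hX.2 _ (hy.idem hrθ (fun z hz hzr => Cl.base (hQ hz) (hzr.trans_le hrθ)))
  induction h with
  | base h1 h2 =>
    obtain ⟨x, hx, rfl⟩ := h1
    exact ⟨x, Cl.base hx ((col_lt_iff (hQ hx)).mp h2), rfl⟩
  | zero h =>
    have : 0 < r := lt_of_le_of_lt zero_le (h.trans_le (col_le X r))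
    exact ⟨0, Cl.zero this, hc0⟩
  | @succ a _ h ih =>
    obtain ⟨x, hx, rfl⟩ := ih
    rw [← col_add_one (hmem x hx)] at h
    have h2 : x + 1 < r := by
      by_contra hcon
      exact absurd (col_mono X (not_lt.mp hcon)) (not_le.mpr h)
    exact ⟨x + 1, Cl.succ hx h2, col_add_one (hmem x hx)⟩
  | lev _ ih =>
    obtain ⟨x, hx, rfl⟩ := ih
    exact ⟨_, Cl.lev hx, (ct_lev hX (hmem x hx)).symm⟩
  | hd _ ih =>
    obtain ⟨x, hx, rfl⟩ := ih
    exact ⟨_, Cl.hd hx, (ct_hd hX (hmem x hx)).symm⟩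
  | tl _ ih =>
    obtain ⟨x, hx, rfl⟩ := ih
    exact ⟨_, Cl.tl hx, (ct_tl hX (hmem x hx)).symm⟩
  | @mn a v _ h ih =>
    obtain ⟨x, hx, rfl⟩ := ih
    obtain ⟨v', hv', hv'x, rfl⟩ := col_onto (h.lt)
    exact ⟨v', Cl.mn hx ((ct_mn hX hv' (hmem x hx)).mp h), rfl⟩
  | @code a b c _ _ _ h1 h2 h ih1 ih2 ih3 =>
    obtain ⟨x1, hx1, rfl⟩ := ih1
    obtain ⟨x2, hx2, rfl⟩ := ih2
    obtain ⟨x3, hx3, rfl⟩ := ih3
    have h1' := (col_le_iff (hmem _ hx1)).mp h1
    have h2' := (col_le_iff (hmem _ hx1)).mp h2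
    have h3 : Pool.Agent.LMach.code x1 x2 x3 < θ :=
      ct_code' hX (hmem _ hx1) (hmem _ hx2) (hmem _ hx3) h1' h2'
        (h.trans_le (col_mono X hrθ))
    have h4 := ct_code hX (hmem _ hx1) (hmem _ hx2) (hmem _ hx3) h1' h2' h3
    have h5 := hX.code (hmem _ hx1) (hmem _ hx2) (hmem _ hx3) h1' h2' h3
    rw [← h4, col_lt_iff h5] at h
    exact ⟨_, Cl.code hx1 hx2 hx3 h1' h2' h, h4⟩
  | @up a b v _ _ h1 h ih1 ih2 =>
    obtain ⟨x1, hx1, rfl⟩ := ih1
    obtain ⟨x2, hx2, rfl⟩ := ih2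
    obtain ⟨v', hv', hv'r, rfl⟩ := col_onto h
    exact ⟨v', Cl.up hx1 hx2 ((ct_up hX (hmem _ hx1) (hmem _ hx2) hv').mp h1) hv'r, rfl⟩

theorem p_TR : T_TR.{u} := by
  intro θ X hX r Q hr hQ
  have hrθ : r ≤ θ := by
    rcases hr with h | h
    · exact (hX.lt h).le
    · exact h.le
  ext y
  constructor
  · intro h
    obtain ⟨x, hx, rfl⟩ := tr_sup hX hr hQ h
    exact ⟨x, hx, rfl⟩
  · rintro ⟨x, hx, rfl⟩
    exact (tr_sub hX hrθ hQ hx).2

/-! ### Hulls of new codes, transitivity -/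

theorem p_HULL : T_HULL.{u} := by
  intro l e hnew x hx
  have hle : ∀ y, y ≤ e → y < e + 1 := fun y hy => lt_add_one_iff.mpr hy
  rcases lt_or_ge e l with hel | hel
  · exact Cl.base (Or.inl (hx.trans hel.le)) (hle x hx)
  let Q : Set Ordinal.{u} := Iic l ∪ {x | x ∈ [e]}
  let X : Set Ordinal.{u} := {x | Cl (e + 1) Q x}
  have hX : ClosedIn (e + 1) X := Cl.closedIn _ _
  have hQX : Q ⊆ X := by
    rintro y (hy | hy)
    · exact Cl.base (Or.inl hy) (hle y ((show y ≤ l from hy).trans hel))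
    · have h1 : y = e := by simpa using hy
      rw [h1]
      exact Cl.base (Or.inr (by simp)) (hle e le_rfl)
  have heX : e ∈ X := hQX (Or.inr (by simp))
  have hid : ∀ y ≤ l, col X y = y := by
    intro y hy
    exact col_ident fun z hz => hQX (Or.inl (show z ≤ l from hz.le.trans hy))
  have hce : col X e = e := by
    refine le_antisymm (col_le X e) ?_
    by_contra hcon
    obtain ⟨w, hwl, hw⟩ := hnew (col X e) (not_le.mp hcon)
    apply hw
    have hwX : w ∈ X := hQX (Or.inl (show w ≤ l from hwl.le))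
    rw [← ct_mem hX hwX heX, hid w hwl.le]
  have hQ' : col X '' Q = Q := by
    ext y
    constructor
    · rintro ⟨z, (hz | hz), rfl⟩
      · rw [hid z hz]; exact Or.inl hz
      · have : z = e := by simpa using hz
        rw [this, hce]; exact Or.inr (by simp)
    · rintro (hy | hy)
      · exact ⟨y, Or.inl hy, hid y hy⟩
      · have : y = e := by simpa using hy
        rw [this]; exact ⟨e, Or.inr (by simp), hce⟩
  have hce1 : col X (e + 1) = e + 1 := by rw [col_add_one heX, hce]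
  obtain ⟨z, hz, _, hzx⟩ := col_onto (X := X) (a := e + 1) (b := x) (by rw [hce1]; exact hle x hx)
  have := (tr_sub hX le_rfl hQX (show Cl (e + 1) Q z from hz)).2
  rw [hce1, hQ', hzx] at this
  exact this

theorem p_TRANS : T_TRANS.{u} := by
  intro l τ r Q hlτ hτ hr hQ x hxτ hx y hyx
  have hxr : x < r := hx.lt
  rcases lt_or_ge l x with hlx | hlx
  swap
  · exact Cl.base (hQ (show y ≤ l from hyx.le.trans hlx)) (hyx.trans hxr)
  have hv : ∃ v, URel l x v ∧ v < r := by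
    rcases hr with h | h
    · obtain ⟨v, hv1, hv2⟩ := hτ x hlx.le hxτ
      exact ⟨v, hv2, hv1.trans_le h⟩
    · obtain ⟨v, hv1, hv2⟩ := h.2.2 x hlx.le hxr
      exact ⟨v, hv2, hv1⟩
  obtain ⟨v, hv, hvr⟩ := hv
  have hlr : l < r := hlx.trans hxr
  have hl : Cl r Q l := Cl.base (hQ (show l ≤ l from le_rfl)) hlr
  have hvc : Cl r Q v := Cl.up hl hx hv hvr
  obtain ⟨h1, g, e, hv', h2, h3, h4, h5, h6, h7⟩ := hv
  have hle1 : (0 : Ordinal.{u}) ≤ g + 1 := zero_le
  have hle2 : g ≤ g + 1 := (lt_add_one g).le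
  have hg : Cl r Q g := by
    have := Cl.tl hvc
    rwa [hv', tl_code' hle1 hle2] at this
  obtain ⟨f1, f2, f3, f4⟩ := URel.facts h2 h3 h1 h5
  have h0g : (0 : Ordinal.{u}) < g := zero_lt_one.trans f1
  have h0r : (0 : Ordinal.{u}) < r := lt_of_le_of_lt zero_le hxr
  have hXr : ClosedIn r {x | Cl r Q x} := Cl.closedIn _ _
  have hJ1 : J x 0 < g := J_lt' h2 f3 h0g
  have hgr : g < r := hg.lt
  have hJ1X : Cl r Q (J x 0) := hXr.J (a := x) hx (Cl.zero h0r) (hJ1.trans hgr)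
  have hJ2X : Cl r Q (J l (J x 0)) := hXr.J (a := l) hl hJ1X (f4.trans hgr)
  have hcb : code (g + 1) 0 g < r := by rw [← hv']; exact hvr
  obtain ⟨c1, _⟩ := ct_sat hXr hg h2 f1 hcb hJ2X f4 newF
  have hmn := (newF_mn h2 f1 f2 f4 h3).mpr ⟨h5, h6, h7⟩
  have he : Cl r Q e := Cl.mn c1 hmn
  have her : e + 1 ≤ r := add_one_le_iff.mpr he.lt
  have hh := p_HULL l e h6 y (hyx.le.trans h5.le)
  refine Cl.idem her ?_ hh
  rintro z (hz | hz) hze
  · exact Cl.base (hQ hz) (hze.trans_le her)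
  · have : z = e := by simpa using hz
    rw [this]; exact he

end Pool.Agent.LMach
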