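import Pool.Agent.LMach.Coh
import Pool.Agent.LMach.Club
import Pool.Agent.LMach.Up

/-!
# Skolem functions and their closed sets
-/

open Set Cardinal Order

universe u

namespace Pool.Agent.LMach

/-- The least ordinal with the property `P`. -/
noncomputable def lst (P : Ordinal.{u} → Prop) : Ordinal.{u} := sInf {x | P x}

theorem lst_spec {P : Ordinal.{u} → Prop} (h : ∃ x, P x) : P (lst P) :=
  csInf_mem (s := {x | P x}) h

theorem lst_le {P : Ordinal.{u} → Prop} {x : Ordinal.{u}} (h : P x) : lst P ≤ x :=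
  csInf_le' (s := {x | P x}) h

/-- A list of ordinals below `k` that together with `k` and `l` generates `x`. -/
noncomputable def supp (k r x : Ordinal.{u}) (l : List Ordinal.{u}) : List Ordinal.{u} :=
  open Classical in
  if h : ∃ s : List Ordinal.{u}, (∀ a ∈ s, a < k) ∧
    Cl r ({k} ∪ {a | a ∈ s} ∪ {a | a ∈ l}) x then h.choose else []

/-- The Skolem functions. -/
noncomputable def F0 (κ : Cardinal.{u}) (π : Ordinal.{u} → Ordinal.{u} → Ordinal.{u})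
    (i n : ℕ) (l : List Ordinal.{u}) : Ordinal.{u} :=
  match i with
  | 0 => 0
  | 1 => κ.ord
  | 2 => l.getD 0 0 + 1
  | 3 => lev (l.getD 0 0)
  | 4 => hd (l.getD 0 0)
  | 5 => tl (l.getD 0 0)
  | 6 => lst (fun v => IsMn v (l.getD 0 0))
  | 7 => code (l.getD 0 0) (l.getD 1 0) (l.getD 2 0)
  | 8 => lst (fun v => URel (l.getD 0 0) (l.getD 1 0) v)
  | 9 => th κ.ord (l.getD 0 0)
  | 10 => (pl κ.ord (l.getD 0 0)).getD n 0
  | 11 => (supp κ.ord (l.getD 0 0) (l.getD 1 0) (l.drop 2)).getD n 0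
  | 12 => lst (fun b => b < l.getD 0 0 ∧
      ∀ y < l.getD 0 0, Hull κ.ord (l.getD 1 0) (l.drop 2) y → y ≤ b)
  | 13 => DD κ.ord (l.getD 0 0) (l.getD 1 0)
  | 14 => lst (fun r => RR κ.ord (l.getD 0 0) r ∧ l.getD 1 0 = DD κ.ord (l.getD 0 0) r)
  | 15 => lst (fun y => y < l.getD 0 0 ∧ κ.ord ≤ y ∧ ¬ ∃ v < l.getD 0 0, URel κ.ord y v)
  | 16 => lst (fun x => x < l.getD 0 0 ∧ ∀ c < l.getD 0 0, x < c → ¬ ColS κ.ord c)
  | 17 => lst (fun c => c < l.getD 0 0 ∧ l.getD 1 0 < c ∧ ColS κ.ord c)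
  | 18 => stp (CS κ.ord) (l.getD 0 0) (l.getD 1 0)
  | 19 => lst (fun d => d < (succ κ).ord ∧ WW κ.ord (l.getD 0 0) d)
  | 20 => lst (fun z => z < κ.ord ∧ l.getD 3 0 < z ∧
      ∀ i < l.getD 2 0, (Mem (J z i) (l.getD 0 0) ↔ Mem i (l.getD 1 0)))
  | 21 => π (l.getD 0 0) (l.getD 1 0)
  | 22 => lst (fun x => x < κ.ord ∧ π (l.getD 0 0) x = l.getD 1 0)
  | 23 => lst (fun x => x < l.getD 0 0 ∧ ¬ Hull κ.ord (l.getD 1 0) (l.drop 2) x)
  | 24 => Ordinal.omega0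
  | 25 => lst (fun x => l.getD 0 0 = x + 1)
  | _ => 0

/-- `X` is closed under the Skolem functions, as far as their values are below `κ⁺`. -/
def SkCl (κ : Cardinal.{u}) (π : Ordinal.{u} → Ordinal.{u} → Ordinal.{u})
    (X : Set Ordinal.{u}) : Prop :=
  ∀ i n l, (∀ a ∈ l, a ∈ X) → F0 κ π i n l < (succ κ).ord → F0 κ π i n l ∈ X

/-- The closed ordinals between `κ` and `κ⁺`. -/
def CK (κ : Cardinal.{u}) (π : Ordinal.{u} → Ordinal.{u} → Ordinal.{u}) (b : Ordinal.{u}) : Prop :=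
  κ.ord < b ∧ b < (succ κ).ord ∧ SkCl κ π (Iio b)

/-- The approximations of `b`. -/
def XX (π : Ordinal.{u} → Ordinal.{u} → Ordinal.{u}) (b a : Ordinal.{u}) : Set Ordinal.{u} :=
  π b '' Iio a

/-- The good approximations of `b`. -/
def EE (κ : Cardinal.{u}) (π : Ordinal.{u} → Ordinal.{u} → Ordinal.{u}) (b a : Ordinal.{u}) :
    Prop :=
  a < κ.ord ∧ SkCl κ π (XX π b a) ∧ (∀ x ∈ XX π b a, x < κ.ord → x < a) ∧ ∀ x < a, x ∈ XX π b a

/-- The assumptions of this part. -/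
structure Ctx (κ : Cardinal.{u}) (π : Ordinal.{u} → Ordinal.{u} → Ordinal.{u}) : Prop where
  unc : ℵ₁ < κ
  reg : κ.IsRegular
  pi1 : ∀ b < (succ κ).ord, 0 < b → ∀ x < κ.ord, π b x < b
  pi2 : ∀ b < (succ κ).ord, ∀ y < b, ∃ x < κ.ord, π b x = y
  new : ∀ y < (succ κ).ord, ∃ e < (succ κ).ord, y < e ∧ New κ.ord e
  bp : ∀ c < (succ κ).ord, ∃ d < (succ κ).ord, WW κ.ord c d

theorem exists_pi (κ : Cardinal.{u}) :
    ∃ π : Ordinal.{u} → Ordinal.{u} → Ordinal.{u},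
      (∀ b < (succ κ).ord, 0 < b → ∀ x < κ.ord, π b x < b) ∧
      (∀ b < (succ κ).ord, ∀ y < b, ∃ x < κ.ord, π b x = y) := by
  classical
  have key : ∀ b : Ordinal.{u}, ∃ f : Ordinal.{u} → Ordinal.{u}, b < (succ κ).ord →
      (0 < b → ∀ x < κ.ord, f x < b) ∧ ∀ y < b, ∃ x < κ.ord, f x = y := by
    intro b
    by_cases hb : b < (succ κ).ord
    swap
    · exact ⟨fun _ => 0, fun h => absurd h hb⟩
    have hcard : Cardinal.mk b.ToType ≤ Cardinal.mk κ.ord.ToType := by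
      rw [mk_toType, mk_toType, card_ord]
      exact lt_succ_iff.mp (lt_ord.mp hb)
    obtain ⟨g⟩ := hcard
    let f : Ordinal.{u} → Ordinal.{u} := fun x =>
      if h : ∃ y : b.ToType, ((Ordinal.ToType.mk (o := κ.ord)).symm (g y)).1 = x then
        ((Ordinal.ToType.mk (o := b)).symm h.choose).1 else 0
    refine ⟨f, fun _ => ⟨fun h0 x _ => ?_, fun y hy => ?_⟩⟩
    · by_cases h : ∃ y : b.ToType, ((Ordinal.ToType.mk (o := κ.ord)).symm (g y)).1 = x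
      · simp only [f, dif_pos h]
        exact ((Ordinal.ToType.mk (o := b)).symm h.choose).2
      · simp only [f, dif_neg h]
        exact h0
    · let y' : b.ToType := Ordinal.ToType.mk ⟨y, hy⟩
      refine ⟨((Ordinal.ToType.mk (o := κ.ord)).symm (g y')).1,
        ((Ordinal.ToType.mk (o := κ.ord)).symm (g y')).2, ?_⟩
      have h : ∃ z : b.ToType, ((Ordinal.ToType.mk (o := κ.ord)).symm (g z)).1 =
          ((Ordinal.ToType.mk (o := κ.ord)).symm (g y')).1 := ⟨y', rfl⟩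
      simp only [f, dif_pos h]
      have h2 := h.choose_spec
      have h3 : h.choose = y' :=
        g.injective ((Ordinal.ToType.mk (o := κ.ord)).symm.injective (Subtype.ext h2))
      rw [h3]
      simp [y']
  choose f hf using key
  exact ⟨f, fun b hb => (hf b hb).1, fun b hb => (hf b hb).2⟩

section

variable {κ : Cardinal.{u}} {π : Ordinal.{u} → Ordinal.{u} → Ordinal.{u}} (C : Ctx κ π)
include C

theorem Ctx.h0 : ℵ₀ < κ := aleph0_lt_aleph_one.trans C.unc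

theorem Ctx.regK : (succ κ).IsRegular := isRegular_succ C.h0.le

theorem Ctx.h0K : ℵ₀ < succ κ := C.h0.trans (lt_succ κ)

omit C in
theorem kK' : κ.ord < (succ κ).ord := ord_lt_ord.mpr (lt_succ κ)

theorem Ctx.posk : (0 : Ordinal.{u}) < κ.ord := by
  rw [lt_ord]; simpa using aleph0_pos.trans C.h0

theorem Ctx.pinv {b y : Ordinal.{u}} (hb : b < (succ κ).ord) (hy : y < b) :
    lst (fun x => x < κ.ord ∧ π b x = y) < κ.ord ∧
      π b (lst (fun x => x < κ.ord ∧ π b x = y)) = y :=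
  lst_spec (P := fun x => x < κ.ord ∧ π b x = y) (by
    obtain ⟨x, hx⟩ := C.pi2 b hb y hy
    exact ⟨x, hx⟩)

end

/-! ### Consequences of closure -/

section

variable {κ : Cardinal.{u}} {π : Ordinal.{u} → Ordinal.{u} → Ordinal.{u}} {X : Set Ordinal.{u}}
  (hX : SkCl κ π X)
include hX

theorem SkCl.one (i n : ℕ) {a : Ordinal.{u}} (ha : a ∈ X) (h : F0 κ π i n [a] < (succ κ).ord) :
    F0 κ π i n [a] ∈ X := hX i n [a] (by simpa using ha) h

theorem SkCl.two (i n : ℕ) {a b : Ordinal.{u}} (ha : a ∈ X) (hb : b ∈ X)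
    (h : F0 κ π i n [a, b] < (succ κ).ord) : F0 κ π i n [a, b] ∈ X :=
  hX i n [a, b] (by simpa using ⟨ha, hb⟩) h

theorem SkCl.k : κ.ord ∈ X := hX 1 0 [] (by simp) (ord_lt_ord.mpr (lt_succ κ))

theorem SkCl.zero : (0 : Ordinal.{u}) ∈ X :=
  hX 0 0 [] (by simp) (lt_of_le_of_lt zero_le (ord_lt_ord.mpr (lt_succ κ)))

theorem SkCl.om (h0 : ℵ₀ ≤ κ) : (Ordinal.omega0 : Ordinal.{u}) ∈ X :=
  hX 24 0 [] (by simp) (lt_of_le_of_lt (Cardinal.omega0_le_ord.mpr h0)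
    (ord_lt_ord.mpr (lt_succ κ)))

theorem SkCl.succ' {a : Ordinal.{u}} (ha : a ∈ X) (h : a + 1 < (succ κ).ord) : a + 1 ∈ X :=
  hX.one 2 0 ha h

theorem SkCl.lev' {a : Ordinal.{u}} (ha : a ∈ X) (h : lev a < (succ κ).ord) : lev a ∈ X :=
  hX.one 3 0 ha h

theorem SkCl.hd' {a : Ordinal.{u}} (ha : a ∈ X) (h : hd a < (succ κ).ord) : hd a ∈ X :=
  hX.one 4 0 ha h

theorem SkCl.tl' {a : Ordinal.{u}} (ha : a ∈ X) (h : tl a < (succ κ).ord) : tl a ∈ X :=
  hX.one 5 0 ha h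

theorem SkCl.mn' {a v : Ordinal.{u}} (ha : a ∈ X) (hv : IsMn v a) (h : v < (succ κ).ord) :
    v ∈ X := by
  have h1 : F0 κ π 6 0 [a] = v := IsMn.unique (lst_spec (P := fun v => IsMn v a) ⟨v, hv⟩) hv
  have h2 := hX.one 6 0 ha (by rw [h1]; exact h)
  rwa [h1] at h2

theorem SkCl.code' {a b c : Ordinal.{u}} (ha : a ∈ X) (hb : b ∈ X) (hc : c ∈ X)
    (h : code a b c < (succ κ).ord) : code a b c ∈ X :=
  hX 7 0 [a, b, c] (by simpa using ⟨ha, hb, hc⟩) h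

theorem SkCl.up' {a b v : Ordinal.{u}} (ha : a ∈ X) (hb : b ∈ X) (hv : URel a b v)
    (h : v < (succ κ).ord) : v ∈ X := by
  have h1 : F0 κ π 8 0 [a, b] = v :=
    URel.unique (lst_spec (P := fun v => URel a b v) ⟨v, hv⟩) hv
  have h2 := hX.two 8 0 ha hb (by rw [h1]; exact h)
  rwa [h1] at h2

theorem SkCl.th' {a : Ordinal.{u}} (ha : a ∈ X) (h : th κ.ord a < (succ κ).ord) :
    th κ.ord a ∈ X := hX.one 9 0 ha h

theorem SkCl.pl' {a x : Ordinal.{u}} (ha : a ∈ X) (hx : x ∈ pl κ.ord a)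
    (h : x < (succ κ).ord) : x ∈ X := by
  obtain ⟨n, hn, hn'⟩ := List.getElem_of_mem hx
  have h1 : F0 κ π 10 n [a] = x := by
    show (pl κ.ord a).getD n 0 = x
    simp only [List.getD, List.getElem?_eq_getElem hn, Option.getD_some, hn']
  have h2 := hX.one 10 n ha (by rw [h1]; exact h)
  rwa [h1] at h2

theorem SkCl.supp' {r x a : Ordinal.{u}} {l : List Ordinal.{u}} (hr : r ∈ X) (hx : x ∈ X)
    (hl : ∀ a ∈ l, a ∈ X) (ha : a ∈ supp κ.ord r x l) (h : a < (succ κ).ord) : a ∈ X := by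
  obtain ⟨n, hn, hn'⟩ := List.getElem_of_mem ha
  have h1 : F0 κ π 11 n (r :: x :: l) = a := by
    show (supp κ.ord r x l).getD n 0 = a
    simp only [List.getD, List.getElem?_eq_getElem hn, Option.getD_some, hn']
  have h2 := hX 11 n (r :: x :: l) (by
    intro b hb
    simp only [List.mem_cons] at hb
    rcases hb with rfl | rfl | hb
    · exact hr
    · exact hx
    · exact hl b hb) (by rw [h1]; exact h)
  rwa [h1] at h2

theorem SkCl.bnd' {τ r : Ordinal.{u}} {l : List Ordinal.{u}} (hτ : τ ∈ X) (hr : r ∈ X)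
    (hl : ∀ a ∈ l, a ∈ X) (hτK : τ < (succ κ).ord)
    (h : ∃ b < τ, ∀ y < τ, Hull κ.ord r l y → y ≤ b) :
    ∃ b ∈ X, b < τ ∧ ∀ y < τ, Hull κ.ord r l y → y ≤ b := by
  have h1 := lst_spec (P := fun b => b < τ ∧ ∀ y < τ, Hull κ.ord r l y → y ≤ b) h
  refine ⟨_, hX 12 0 (τ :: r :: l) ?_ (h1.1.trans hτK), h1⟩
  intro b hb
  simp only [List.mem_cons] at hb
  rcases hb with rfl | rfl | hb
  · exact hτ
  · exact hr
  · exact hl b hb

theorem SkCl.dd' {τ r : Ordinal.{u}} (hτ : τ ∈ X) (hr : r ∈ X)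
    (h : DD κ.ord τ r < (succ κ).ord) : DD κ.ord τ r ∈ X := hX.two 13 0 hτ hr h

theorem SkCl.rk' {τ c : Ordinal.{u}} (hτ : τ ∈ X) (hc : c ∈ X)
    (h : ∃ r < (succ κ).ord, RR κ.ord τ r ∧ c = DD κ.ord τ r) :
    ∃ r ∈ X, RR κ.ord τ r ∧ c = DD κ.ord τ r := by
  obtain ⟨r, hr, hr'⟩ := h
  have h1 := lst_spec (P := fun r => RR κ.ord τ r ∧ c = DD κ.ord τ r) ⟨r, hr'⟩
  exact ⟨_, hX.two 14 0 hτ hc ((lst_le (P := fun r => RR κ.ord τ r ∧ c = DD κ.ord τ r)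
    hr').trans_lt hr), h1⟩

theorem SkCl.ncol' {τ : Ordinal.{u}} (hτ : τ ∈ X) (hτK : τ < (succ κ).ord)
    (h : ∃ y < τ, κ.ord ≤ y ∧ ¬ ∃ v < τ, URel κ.ord y v) :
    ∃ y ∈ X, y < τ ∧ κ.ord ≤ y ∧ ¬ ∃ v < τ, URel κ.ord y v := by
  have h1 := lst_spec (P := fun y => y < τ ∧ κ.ord ≤ y ∧ ¬ ∃ v < τ, URel κ.ord y v) h
  exact ⟨_, hX.one 15 0 hτ (h1.1.trans hτK), h1⟩

theorem SkCl.nlim' {τ : Ordinal.{u}} (hτ : τ ∈ X) (hτK : τ < (succ κ).ord)
    (h : ∃ x < τ, ∀ c < τ, x < c → ¬ ColS κ.ord c) :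
    ∃ x ∈ X, x < τ ∧ ∀ c < τ, x < c → ¬ ColS κ.ord c := by
  have h1 := lst_spec (P := fun x => x < τ ∧ ∀ c < τ, x < c → ¬ ColS κ.ord c) h
  exact ⟨_, hX.one 16 0 hτ (h1.1.trans hτK), h1⟩

theorem SkCl.nxt' {τ x : Ordinal.{u}} (hτ : τ ∈ X) (hx : x ∈ X) (hτK : τ < (succ κ).ord)
    (h : ∃ c < τ, x < c ∧ ColS κ.ord c) : ∃ c ∈ X, c < τ ∧ x < c ∧ ColS κ.ord c := by
  have h1 := lst_spec (P := fun c => c < τ ∧ x < c ∧ ColS κ.ord c) h
  exact ⟨_, hX.two 17 0 hτ hx (h1.1.trans hτK), h1⟩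

theorem SkCl.stp' {τ x : Ordinal.{u}} (hτ : τ ∈ X) (hx : x ∈ X)
    (h : stp (CS κ.ord) τ x < (succ κ).ord) : stp (CS κ.ord) τ x ∈ X := hX.two 18 0 hτ hx h

theorem SkCl.ww' {c : Ordinal.{u}} (hc : c ∈ X) (h : ∃ d < (succ κ).ord, WW κ.ord c d) :
    ∃ d ∈ X, d < (succ κ).ord ∧ WW κ.ord c d := by
  have h1 := lst_spec (P := fun d => d < (succ κ).ord ∧ WW κ.ord c d) h
  exact ⟨_, hX.one 19 0 hc h1.1, h1⟩

theorem SkCl.wz' {c d x z : Ordinal.{u}} (hc : c ∈ X) (hd : d ∈ X) (hx : x ∈ X) (hz : z ∈ X)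
    (h : ∃ z' < κ.ord, z < z' ∧ ∀ i < x, (Mem (J z' i) c ↔ Mem i d)) :
    ∃ z' ∈ X, z' < κ.ord ∧ z < z' ∧ ∀ i < x, (Mem (J z' i) c ↔ Mem i d) := by
  have h1 := lst_spec (P := fun z' => z' < κ.ord ∧ z < z' ∧
    ∀ i < x, (Mem (J z' i) c ↔ Mem i d)) h
  exact ⟨_, hX 20 0 [c, d, x, z] (by simpa using ⟨hc, hd, hx, hz⟩)
    (h1.1.trans (ord_lt_ord.mpr (lt_succ κ))), h1⟩

theorem SkCl.pi' {b x : Ordinal.{u}} (hb : b ∈ X) (hx : x ∈ X) (h : π b x < (succ κ).ord) :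
    π b x ∈ X := hX.two 21 0 hb hx h

theorem SkCl.pinv' {b y : Ordinal.{u}} (hb : b ∈ X) (hy : y ∈ X)
    (h : lst (fun x => x < κ.ord ∧ π b x = y) < (succ κ).ord) :
    lst (fun x => x < κ.ord ∧ π b x = y) ∈ X := hX.two 22 0 hb hy h

theorem SkCl.nh' {τ r : Ordinal.{u}} {l : List Ordinal.{u}} (hτ : τ ∈ X) (hr : r ∈ X)
    (hl : ∀ a ∈ l, a ∈ X) (hτK : τ < (succ κ).ord)
    (h : ∃ x < τ, ¬ Hull κ.ord r l x) : ∃ x ∈ X, x < τ ∧ ¬ Hull κ.ord r l x := by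
  have h1 := lst_spec (P := fun x => x < τ ∧ ¬ Hull κ.ord r l x) h
  refine ⟨_, hX 23 0 (τ :: r :: l) ?_ (h1.1.trans hτK), h1⟩
  intro b hb
  simp only [List.mem_cons] at hb
  rcases hb with rfl | rfl | hb
  · exact hτ
  · exact hr
  · exact hl b hb

theorem SkCl.pred' {x : Ordinal.{u}} (hx : x + 1 ∈ X) (h : x < (succ κ).ord) : x ∈ X := by
  have h1 := lst_spec (P := fun y => x + 1 = y + 1) ⟨x, rfl⟩
  have h2 : F0 κ π 25 0 [x + 1] = x := by
    show lst (fun y => x + 1 = y + 1) = x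
    exact (add_one_inj.mp h1).symm
  have h3 := hX.one 25 0 hx (by rw [h2]; exact h)
  rwa [h2] at h3

/-- Closed sets are closed under the machine. -/
theorem SkCl.closedIn {β : Ordinal.{u}} (hβ : β ≤ (succ κ).ord) (hs : X ⊆ Iio β) :
    ClosedIn β X := by
  refine ⟨hs, fun x h => ?_⟩
  have hK : ∀ y, Cl β X y → y < (succ κ).ord := fun y hy => hy.lt.trans_le hβ
  induction h with
  | base h _ => exact h
  | zero _ => exact hX.zero
  | succ ha h ih => exact hX.succ' ih (h.trans_le hβ)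
  | lev ha ih => exact hX.lev' ih (hK _ (Cl.lev ha))
  | hd ha ih => exact hX.hd' ih (hK _ (Cl.hd ha))
  | tl ha ih => exact hX.tl' ih (hK _ (Cl.tl ha))
  | mn ha h ih => exact hX.mn' ih h (hK _ (Cl.mn ha h))
  | code _ _ _ _ _ h ih1 ih2 ih3 => exact hX.code' ih1 ih2 ih3 (h.trans_le hβ)
  | up _ _ h1 h ih1 ih2 => exact hX.up' ih1 ih2 h1 (h.trans_le hβ)

end

/-! ### Clubs -/

theorem list_image {f : Ordinal.{u} → Ordinal.{u}} {a : Ordinal.{u}} (l : List Ordinal.{u})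
    (h : ∀ x ∈ l, x ∈ f '' Iio a) : ∃ l' : List Ordinal.{u}, (∀ y ∈ l', y < a) ∧ l'.map f = l := by
  induction l with
  | nil => exact ⟨[], by simp, rfl⟩
  | cons b l ih =>
    obtain ⟨l', h1, h2⟩ := ih (fun x hx => h x (List.mem_cons_of_mem _ hx))
    obtain ⟨y, hy, hy'⟩ := h b (by simp)
    refine ⟨y :: l', ?_, by simp [h2, hy']⟩
    intro z hz
    rcases List.mem_cons.mp hz with rfl | hz
    · exact hy
    · exact h1 z hz

theorem list_bdd {P : Ordinal.{u} → Prop} {a : Ordinal.{u}} (h0 : 0 < a)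
    (h : ∀ x < a, ∃ y < a, x < y ∧ P y) (l : List Ordinal.{u}) (hl : ∀ b ∈ l, b < a) :
    ∃ y < a, P y ∧ ∀ b ∈ l, b < y := by
  obtain ⟨x, hx, hlx⟩ : ∃ x < a, ∀ b ∈ l, b ≤ x := by
    induction l with
    | nil => exact ⟨0, h0, by simp⟩
    | cons c l ih =>
      obtain ⟨x, hx, hx'⟩ := ih (fun b hb => hl b (List.mem_cons_of_mem _ hb))
      refine ⟨max c x, max_lt (hl c (by simp)) hx, ?_⟩
      intro b hb
      rcases List.mem_cons.mp hb with h1 | h1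
      · rw [h1]; exact le_max_left _ _
      · exact (hx' b h1).trans (le_max_right _ _)
  obtain ⟨y, hy, hxy, hc⟩ := h x hx
  exact ⟨y, hy, hc, fun b hb => (hlx b hb).trans_lt hxy⟩

section

variable {κ : Cardinal.{u}} {π : Ordinal.{u} → Ordinal.{u} → Ordinal.{u}} (C : Ctx κ π)
include C

theorem Ctx.ck_limit {g : Ordinal.{u}} (h0 : 0 < g) (hg : g < (succ κ).ord)
    (h : ∀ x < g, ∃ y < g, x < y ∧ CK κ π y) : CK κ π g := by
  obtain ⟨y, hy, _, hyC⟩ := h 0 h0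
  refine ⟨hyC.1.trans hy, hg, fun i n l hl hF => ?_⟩
  obtain ⟨z, hz, hzC, hlz⟩ := list_bdd h0 h l hl
  exact mem_Iio.mpr ((mem_Iio.mp (hzC.2.2 i n l hlz hF)).trans hz)

theorem Ctx.ck_unb {x : Ordinal.{u}} (hx : x < (succ κ).ord) :
    ∃ b < (succ κ).ord, x < b ∧ CK κ π b := by
  classical
  obtain ⟨b, hb, hxb, hc⟩ := exists_clPt (ι := ℕ × ℕ) (fun i l =>
    if F0 κ π i.1 i.2 l < (succ κ).ord then F0 κ π i.1 i.2 l else 0) C.h0K C.regK
    (by
      intro i l _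
      by_cases h : F0 κ π i.1 i.2 l < (succ κ).ord
      · simp only [if_pos h]; exact h
      · simp only [if_neg h]; exact lt_of_le_of_lt zero_le hx) (max_lt hx kK')
  refine ⟨b, hb, (le_max_left _ _).trans_lt hxb, (le_max_right _ _).trans_lt hxb, hb, ?_⟩
  intro i n l hl hF
  have := hc (i, n) l hl
  simp only [if_pos hF] at this
  exact this

theorem Ctx.xx_sub {b a : Ordinal.{u}} (hb : CK κ π b) (ha : a ≤ κ.ord) : XX π b a ⊆ Iio b := by
  rintro _ ⟨x, hx, rfl⟩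
  exact C.pi1 b hb.2.1 (C.posk.trans hb.1) x (hx.trans_le ha)

omit C in
theorem xx_mono {b a a' : Ordinal.{u}} (h : a ≤ a') : XX π b a ⊆ XX π b a' :=
  image_mono (Iio_subset_Iio h)

theorem Ctx.ee_limit {b a : Ordinal.{u}} (h0 : 0 < a) (hak : a < κ.ord)
    (h : ∀ x < a, ∃ y < a, x < y ∧ EE κ π b y) : EE κ π b a := by
  refine ⟨hak, ?_, ?_, ?_⟩
  · intro i n l hl hF
    obtain ⟨l', h1, h2⟩ := list_image l hl
    obtain ⟨z, hz, hzE, hlz⟩ := list_bdd h0 h l' h1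
    refine xx_mono hz.le (hzE.2.1 i n l ?_ hF)
    intro x hx
    rw [← h2] at hx
    obtain ⟨y, hy, rfl⟩ := List.mem_map.mp hx
    exact mem_image_of_mem _ (hlz y hy)
  · rintro _ ⟨x, hx, rfl⟩ hk
    obtain ⟨y, hy, hxy, hyE⟩ := h x hx
    exact (hyE.2.2.1 _ (mem_image_of_mem _ hxy) hk).trans hy
  · intro x hx
    obtain ⟨y, hy, hxy, hyE⟩ := h x hx
    exact xx_mono hy.le (hyE.2.2.2 x hxy)

theorem Ctx.ee_unb {b x : Ordinal.{u}} (hb : CK κ π b) (hx : x < κ.ord)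
    {ι : Type} [Countable ι] (G : ι → List Ordinal.{u} → Ordinal.{u})
    (hG : ∀ i l, (∀ y ∈ l, y < b) → G i l < b) :
    ∃ a, x < a ∧ EE κ π b a ∧ (∀ i l, (∀ y ∈ l, y ∈ XX π b a) → G i l ∈ XX π b a) ∧ Unc a := by
  classical
  have hbpos : 0 < b := C.posk.trans hb.1
  let H : (ℕ × ℕ) ⊕ ι ⊕ Bool → List Ordinal.{u} → Ordinal.{u} := fun i l => match i with
    | Sum.inl j => if F0 κ π j.1 j.2 (l.map (π b)) < (succ κ).ord then
        lst (fun x => x < κ.ord ∧ π b x = F0 κ π j.1 j.2 (l.map (π b))) else 0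
    | Sum.inr (Sum.inl j) => lst (fun x => x < κ.ord ∧ π b x = G j (l.map (π b)))
    | Sum.inr (Sum.inr true) => lst (fun x => x < κ.ord ∧ π b x = l.getD 0 0)
    | Sum.inr (Sum.inr false) => if π b (l.getD 0 0) < κ.ord then π b (l.getD 0 0) else 0
  have hmap : ∀ l : List Ordinal.{u}, (∀ y ∈ l, y < κ.ord) → ∀ y ∈ l.map (π b), y < b := by
    intro l hl y hy
    obtain ⟨z, hz, rfl⟩ := List.mem_map.mp hy
    exact C.pi1 b hb.2.1 hbpos z (hl z hz)
  have hget : ∀ l : List Ordinal.{u}, (∀ y ∈ l, y < κ.ord) → l.getD 0 0 < κ.ord := by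
    intro l hl
    cases l with
    | nil => exact C.posk
    | cons a l => exact hl a (by simp)
  have hH : ∀ i l, (∀ y ∈ l, y < κ.ord) → H i l < κ.ord := by
    intro i l hl
    match i with
    | Sum.inl j =>
      simp only [H]
      by_cases h : F0 κ π j.1 j.2 (l.map (π b)) < (succ κ).ord
      · rw [if_pos h]
        exact (C.pinv hb.2.1 (hb.2.2 j.1 j.2 _ (hmap l hl) h)).1
      · rw [if_neg h]; exact C.posk
    | Sum.inr (Sum.inl j) =>
      simp only [H]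
      exact (C.pinv hb.2.1 (hG j _ (hmap l hl))).1
    | Sum.inr (Sum.inr true) =>
      simp only [H]
      exact (C.pinv hb.2.1 ((hget l hl).trans hb.1)).1
    | Sum.inr (Sum.inr false) =>
      simp only [H]
      by_cases h : π b (l.getD 0 0) < κ.ord
      · rw [if_pos h]; exact h
      · rw [if_neg h]; exact C.posk
  obtain ⟨a, ha, hxa, hc, hu⟩ := exists_clPt_unc H C.unc C.reg hH hx
  refine ⟨a, hxa, ⟨ha, ?_, ?_, ?_⟩, ?_, hu⟩
  · intro i n l hl hF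
    obtain ⟨l', h1, h2⟩ := list_image l hl
    have h3 := hc (Sum.inl (i, n)) l' h1
    simp only [H] at h3
    rw [h2, if_pos hF] at h3
    have h4 : F0 κ π i n l < b :=
      hb.2.2 i n l (fun x hx => C.xx_sub hb ha.le (hl x hx)) hF
    exact ⟨_, h3, (C.pinv hb.2.1 h4).2⟩
  · rintro _ ⟨y, hy, rfl⟩ hk
    have h3 := hc (Sum.inr (Sum.inr false)) [y] (by simpa using hy)
    simp only [H] at h3
    have h4 : π b ([y].getD 0 0) < κ.ord := hk
    rw [if_pos h4] at h3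
    exact h3
  · intro y hy
    have h3 := hc (Sum.inr (Sum.inr true)) [y] (by simpa using hy)
    exact ⟨_, h3, (C.pinv hb.2.1 ((hy.trans ha).trans hb.1)).2⟩
  · intro i l hl
    obtain ⟨l', h1, h2⟩ := list_image l hl
    have h3 := hc (Sum.inr (Sum.inl i)) l' h1
    simp only [H] at h3
    rw [h2] at h3
    have h4 : G i l < b := hG i l (fun x hx => C.xx_sub hb ha.le (hl x hx))
    exact ⟨_, h3, (C.pinv hb.2.1 h4).2⟩

/-- Coherence of the approximations. -/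
theorem Ctx.ee_coh {b g a : Ordinal.{u}} (hb : CK κ π b) (hbg : b < g)
    (ha : EE κ π g a) (hba : b ∈ XX π g a) :
    XX π b a = XX π g a ∩ Iio b ∧ EE κ π b a := by
  have hbpos : 0 < b := C.posk.trans hb.1
  have hX : XX π b a = XX π g a ∩ Iio b := by
    ext y
    constructor
    · rintro ⟨x, hx, rfl⟩
      have h1 : π b x < b := C.pi1 b hb.2.1 hbpos x (lt_trans hx ha.1)
      exact ⟨ha.2.1.pi' hba (ha.2.2.2 x hx) (h1.trans hb.2.1), h1⟩
    · rintro ⟨hy, hyb⟩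
      obtain ⟨h1, h2⟩ := C.pinv hb.2.1 hyb
      exact ⟨_, ha.2.2.1 _ (ha.2.1.pinv' hba hy (h1.trans kK')) h1, h2⟩
  refine ⟨hX, ha.1, ?_, ?_, ?_⟩
  · intro i n l hl hF
    rw [hX] at hl ⊢
    exact ⟨ha.2.1 i n l (fun x hx => (hl x hx).1) hF, hb.2.2 i n l (fun x hx => (hl x hx).2) hF⟩
  · intro x hx hk
    rw [hX] at hx
    exact ha.2.2.1 x hx.1 hk
  · intro x hx
    rw [hX]
    exact ⟨ha.2.2.2 x hx, (hx.trans ha.1).trans hb.1⟩

theorem Ctx.card_col {b a y : Ordinal.{u}} (ha : a < κ.ord) : col (XX π b a) y < κ.ord := by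
  rw [lt_ord]
  refine lt_of_le_of_lt ?_ (lt_ord.mp ha)
  rw [← mk_toType (col (XX π b a) y), ← mk_toType a]
  have hx : ∀ i : (col (XX π b a) y).ToType, ∃ x, x < a ∧
      col (XX π b a) (π b x) = ((Ordinal.ToType.mk (o := col (XX π b a) y)).symm i).1 := by
    intro i
    obtain ⟨_, ⟨x, hx, rfl⟩, _, h⟩ := col_onto
      (mem_Iio.mp ((Ordinal.ToType.mk (o := col (XX π b a) y)).symm i).2)
    exact ⟨x, hx, h⟩
  choose x hx1 hx2 using hx
  refine mk_le_of_injective (f := fun i => Ordinal.ToType.mk ⟨x i, hx1 i⟩) ?_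
  intro i j hij
  have h1 : x i = x j := by
    have := (Ordinal.ToType.mk (o := a)).injective hij
    exact congrArg (fun z : Iio a => z.1) this
  have h3 := (hx2 i).symm.trans ((congrArg (fun z => col (XX π b a) (π b z)) h1).trans (hx2 j))
  exact (Ordinal.ToType.mk (o := col (XX π b a) y)).symm.injective (Subtype.ext h3)

end

theorem col_congr {X Y : Set Ordinal.{u}} {y : Ordinal.{u}} (h : ∀ w < y, w ∈ X ↔ w ∈ Y) :
    col X y = col Y y := by
  induction y using WellFoundedLT.induction with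
  | _ y ih =>
    refine le_antisymm (col_le_of fun w hw hwy => ?_) (col_le_of fun w hw hwy => ?_)
    · rw [ih w hwy (fun v hv => h v (hv.trans hwy))]
      exact col_succ_le ((h w hwy).mp hw) hwy
    · rw [← ih w hwy (fun v hv => h v (hv.trans hwy))]
      exact col_succ_le ((h w hwy).mpr hw) hwy

end Pool.Agent.LMach
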