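import Pool.Agent.LMach.Defs

/-!
# The machine: targets

Each `T_...` is a proposition that one module proves.
-/

open Set Cardinal

universe u

namespace Pool.Agent.LMach

/-! ### Locations and the membership relation -/

/-- Lexicographic order of locations. -/
def LexLt (g h t g' h' t' : Ordinal.{u}) : Prop :=
  g < g' ∨ (g = g' ∧ (h < h' ∨ (h = h' ∧ t < t')))

/-- Basic facts on locations. -/
structure T_LOC : Prop where
  code_eq : ∀ v : Ordinal.{u}, code (lev v) (hd v) (tl v) = v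
  hd_le : ∀ v : Ordinal.{u}, hd v ≤ lev v
  tl_le : ∀ v : Ordinal.{u}, tl v ≤ lev v
  lev_le : ∀ v : Ordinal.{u}, lev v ≤ v
  hd_lt : ∀ v : Ordinal.{u}, 0 < v → hd v < v
  tl_lt : ∀ v : Ordinal.{u}, 0 < v → tl v < v
  lev_code : ∀ g h t : Ordinal.{u}, h ≤ g → t ≤ g → lev (code g h t) = g
  hd_code : ∀ g h t : Ordinal.{u}, h ≤ g → t ≤ g → hd (code g h t) = h
  tl_code : ∀ g h t : Ordinal.{u}, h ≤ g → t ≤ g → tl (code g h t) = t
  le_code : ∀ g h t : Ordinal.{u}, g ≤ code g h t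
  code_lt : ∀ g h t g' h' t' : Ordinal.{u}, h ≤ g → t ≤ g → h' ≤ g' → t' ≤ g' →
    (code g h t < code g' h' t' ↔ LexLt g h t g' h' t')
  lt_iff : ∀ v w : Ordinal.{u}, v < w ↔ LexLt (lev v) (hd v) (tl v) (lev w) (hd w) (tl w)
  /-- closed levels are closed under pairing -/
  J_lt : ∀ g x y : Ordinal.{u}, lev g = g → x < g → y < g → J x y < g
  hd_J : ∀ x y : Ordinal.{u}, hd (J x y) = x
  tl_J : ∀ x y : Ordinal.{u}, tl (J x y) = y
  lev_J : ∀ x y : Ordinal.{u}, lev (J x y) = max x y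
  /-- the pairing function is increasing -/
  J_mono : ∀ x y x' y' : Ordinal.{u}, x < x' → y < y' → J x y < J x' y'
  /-- the code of a closed level -/
  code_closed : ∀ g : Ordinal.{u}, lev g = g → code g 0 0 = g
  /-- closed levels other than 0 and 1 are infinite limits -/
  closed_lim : ∀ g : Ordinal.{u}, lev g = g → 1 < g → Ordinal.omega0 ≤ g ∧ ∀ x < g, x + 1 < g
  var_zero_J : ∀ v w : Ordinal.{u}, var 0 (J v w) = v
  var_succ_J : ∀ (i : ℕ) (v w : Ordinal.{u}), var (i + 1) (J v w) = var i w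
  var_le : ∀ (i : ℕ) (w : Ordinal.{u}), var i w ≤ w
  lev_zero : lev (0 : Ordinal.{u}) = 0
  /-- limits of closed levels are closed -/
  lev_limit : ∀ g : Ordinal.{u}, (∀ x < g, ∃ y < g, x < y ∧ lev y = y) → lev g = g
  /-- codes below an infinite cardinal -/
  code_lt_ord : ∀ (c : Cardinal.{u}) (g h t : Ordinal.{u}), ℵ₀ ≤ c → g < c.ord → h < c.ord →
    t < c.ord → code g h t < c.ord
  /-- closed levels are unbounded in a regular uncountable cardinal, which is itself closed -/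
  exists_closed : ∀ (c : Cardinal.{u}) (x : Ordinal.{u}), ℵ₀ < c → c.IsRegular → x < c.ord →
    ∃ g < c.ord, x < g ∧ lev g = g
  lev_ord : ∀ (c : Cardinal.{u}), ℵ₀ ≤ c → lev c.ord = c.ord

/-- Facts on formulas and on the membership relation. -/
structure T_MEM : Prop where
  idx_inj : Function.Injective idx
  /-- the fixpoint equation -/
  mem_iff : ∀ w v : Ordinal.{u}, Mem w v ↔ lev (lev v) = lev v ∧ w < lev v ∧ tl v < lev v ∧
    ∃ p : Fm, hd v = (idx p : Ordinal.{u}) ∧ SatE (lev v) Mem p (fun i => var i (J w (tl v)))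
  /-- naming: over a closed infinite level `g` every formula with a parameter names a set -/
  mem_code : ∀ (g a w : Ordinal.{u}) (p : Fm), lev g = g → 1 < g → a < g →
    (Mem w (code g (idx p : Ordinal.{u}) a) ↔ w < g ∧ SatE g Mem p (fun i => var i (J w a)))
  mem_lt : ∀ w v : Ordinal.{u}, Mem w v → w < v
  /-- a formula only depends on finitely many entries of the environment -/
  sat_congr : ∀ p : Fm, ∃ N : ℕ, ∀ (g : Ordinal.{u}) (R : Ordinal.{u} → Ordinal.{u} → Prop)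
    (e e' : ℕ → Ordinal.{u}), (∀ i < N, e i = e' i) → (SatE g R p e ↔ SatE g R p e')
  /-- coding of finite lists below a closed infinite level -/
  exists_code : ∀ (g : Ordinal.{u}) (N : ℕ) (e : ℕ → Ordinal.{u}), lev g = g → 1 < g →
    (∀ i, e i < g) → ∃ a < g, ∀ i < N, var i a = e i
  /-- renaming of variables -/
  rename : ∀ (p : Fm) (f : ℕ → ℕ), ∃ q : Fm, ∀ (g : Ordinal.{u})
    (R : Ordinal.{u} → Ordinal.{u} → Prop) (e : ℕ → Ordinal.{u}),
    (SatE g R q e ↔ SatE g R p (fun i => e (f i)))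

/-- Recognition: the only structure on an initial segment that satisfies the local clauses of the
machine is the machine. -/
def T_REC : Prop :=
  ∀ (d : Ordinal.{u}) (lv hd' tl' : Ordinal.{u} → Ordinal.{u})
    (MM : Ordinal.{u} → Ordinal.{u} → Prop),
    (∀ v < d, lv v < d ∧ hd' v ≤ lv v ∧ tl' v ≤ lv v) →
    (∀ v w, v < w → w < d → LexLt (lv v) (hd' v) (tl' v) (lv w) (hd' w) (tl' w)) →
    (∀ w g h t, w < d → h ≤ g → t ≤ g → LexLt g h t (lv w) (hd' w) (tl' w) →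
      ∃ v < d, lv v = g ∧ hd' v = h ∧ tl' v = t) →
    (∀ v < d, lv v = lev v ∧ hd' v = hd v ∧ tl' v = tl v) ∧
    ((∀ w v, w < d → v < d → MM w v →
        lev (lev v) = lev v ∧ w < lev v ∧ tl v < lev v ∧ ∃ p : Fm, hd v = (idx p : Ordinal.{u})) →
      (∀ (w v : Ordinal.{u}), w < d → v < d → lev (lev v) = lev v → w < lev v → tl v < lev v →
        (∀ i j, hd v = (idx (Fm.lt i j) : Ordinal.{u}) →
          (MM w v ↔ var i (J w (tl v)) < var j (J w (tl v)))) ∧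
        (∀ i j, hd v = (idx (Fm.mm i j) : Ordinal.{u}) →
          (MM w v ↔ MM (var i (J w (tl v))) (var j (J w (tl v))))) ∧
        (∀ i j k, hd v = (idx (Fm.pr i j k) : Ordinal.{u}) →
          (MM w v ↔ J (var i (J w (tl v))) (var j (J w (tl v))) = var k (J w (tl v)))) ∧
        (∀ p, hd v = (idx (Fm.neg p) : Ordinal.{u}) →
          (MM w v ↔ ¬ MM w (code (lev v) (idx p : Ordinal.{u}) (tl v)))) ∧
        (∀ p q, hd v = (idx (Fm.and p q) : Ordinal.{u}) →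
          (MM w v ↔ MM w (code (lev v) (idx p : Ordinal.{u}) (tl v)) ∧
            MM w (code (lev v) (idx q : Ordinal.{u}) (tl v)))) ∧
        (∀ p, hd v = (idx (Fm.ex p) : Ordinal.{u}) →
          (MM w v ↔ ∃ z < lev v, MM z (code (lev v) (idx p : Ordinal.{u}) (J w (tl v)))))) →
      ∀ w v, w < d → v < d → (MM w v ↔ Mem w v))

/-! ### Collapse -/

/-- The collapse of a closed set preserves the machine. -/
structure T_CT : Prop where
  /-- `col X` is strictly increasing on `X`, at most the identity, and onto `Iio (col X θ)` -/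
  mono : ∀ (X : Set Ordinal.{u}) (a b : Ordinal.{u}), a ≤ b → col X a ≤ col X b
  smono : ∀ (X : Set Ordinal.{u}) (a b : Ordinal.{u}), a ∈ X → a < b → col X a < col X b
  le : ∀ (X : Set Ordinal.{u}) (a : Ordinal.{u}), col X a ≤ a
  onto : ∀ (X : Set Ordinal.{u}) (a b : Ordinal.{u}), b < col X a → ∃ x ∈ X, x < a ∧ col X x = b
  ident : ∀ (X : Set Ordinal.{u}) (a : Ordinal.{u}), (∀ x < a, x ∈ X) → col X a = a
  lev : ∀ (θ : Ordinal.{u}) (X : Set Ordinal.{u}), ClosedIn θ X → ∀ v ∈ X,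
    lev (col X v) = col X (lev v)
  hd : ∀ (θ : Ordinal.{u}) (X : Set Ordinal.{u}), ClosedIn θ X → ∀ v ∈ X,
    hd (col X v) = col X (hd v)
  tl : ∀ (θ : Ordinal.{u}) (X : Set Ordinal.{u}), ClosedIn θ X → ∀ v ∈ X,
    tl (col X v) = col X (tl v)
  code : ∀ (θ : Ordinal.{u}) (X : Set Ordinal.{u}), ClosedIn θ X → ∀ a ∈ X, ∀ b ∈ X, ∀ c ∈ X,
    b ≤ a → c ≤ a → code a b c < θ → col X (code a b c) = code (col X a) (col X b) (col X c)
  /-- codes that exist in the collapse exist in `X` -/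
  code' : ∀ (θ : Ordinal.{u}) (X : Set Ordinal.{u}), ClosedIn θ X → ∀ a ∈ X, ∀ b ∈ X, ∀ c ∈ X,
    b ≤ a → c ≤ a → Pool.Agent.LMach.code (col X a) (col X b) (col X c) < col X θ →
    Pool.Agent.LMach.code a b c < θ
  mem : ∀ (θ : Ordinal.{u}) (X : Set Ordinal.{u}), ClosedIn θ X → ∀ w ∈ X, ∀ v ∈ X,
    (Mem (col X w) (col X v) ↔ Mem w v)
  mn : ∀ (θ : Ordinal.{u}) (X : Set Ordinal.{u}), ClosedIn θ X → ∀ w ∈ X, ∀ v ∈ X,
    (IsMn (col X w) (col X v) ↔ IsMn w v)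
  up : ∀ (θ : Ordinal.{u}) (X : Set Ordinal.{u}), ClosedIn θ X → ∀ a ∈ X, ∀ b ∈ X, ∀ v ∈ X,
    (URel (col X a) (col X b) (col X v) ↔ URel a b v)

/-- Hulls commute with the collapse. -/
def T_TR : Prop :=
  ∀ (θ : Ordinal.{u}) (X : Set Ordinal.{u}), ClosedIn θ X →
    ∀ (r : Ordinal.{u}) (Q : Set Ordinal.{u}), (r ∈ X ∨ r = θ) → Q ⊆ X →
      {y | Cl (col X r) (col X '' Q) y} = col X '' {x | Cl r Q x}

/-- Basic facts on hulls. -/
structure T_CL : Prop where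
  lt : ∀ (θ : Ordinal.{u}) (Q : Set Ordinal.{u}) (x : Ordinal.{u}), Cl θ Q x → x < θ
  mono : ∀ (θ θ' : Ordinal.{u}) (Q Q' : Set Ordinal.{u}) (x : Ordinal.{u}), θ ≤ θ' → Q ⊆ Q' →
    Cl θ Q x → Cl θ' Q' x
  /-- idempotence -/
  idem : ∀ (θ θ' : Ordinal.{u}) (Q Q' : Set Ordinal.{u}) (x : Ordinal.{u}), θ ≤ θ' →
    (∀ y ∈ Q, y < θ → Cl θ' Q' y) → Cl θ Q x → Cl θ' Q' x
  closedIn : ∀ (θ : Ordinal.{u}) (Q : Set Ordinal.{u}), ClosedIn θ {x | Cl θ Q x}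
  /-- the hull in a smaller bound, if the hull stays below this bound -/
  down : ∀ (θ θ' : Ordinal.{u}) (Q : Set Ordinal.{u}), θ' ≤ θ → (∀ x, Cl θ Q x → x < θ') →
    ∀ x, Cl θ Q x → Cl θ' Q x
  /-- continuity at limits -/
  cont : ∀ (θ : Ordinal.{u}) (Q : Set Ordinal.{u}) (x : Ordinal.{u}), (∀ y < θ, y + 1 < θ) →
    Cl θ Q x → ∃ r < θ, Cl r Q x
  /-- finiteness -/
  fin : ∀ r : Ordinal.{u}, ∃ H : List Ordinal.{u}, (∀ y ∈ H, y < r) ∧
    ∀ (Q : Set Ordinal.{u}) (x : Ordinal.{u}), Cl (r + 1) Q x → x = r ∨ Cl r (Q ∪ {y | y ∈ H}) x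
  /-- finite support -/
  supp : ∀ (θ : Ordinal.{u}) (Q : Set Ordinal.{u}) (x : Ordinal.{u}), Cl θ Q x →
    ∃ l : List Ordinal.{u}, (∀ y ∈ l, y ∈ Q ∧ y < θ) ∧ Cl θ {y | y ∈ l} x
  /-- hulls of fewer than `c` ordinals collapse below the uncountable cardinal `c` -/
  card : ∀ (c : Cardinal.{u}) (θ μ : Ordinal.{u}) (Q : Set Ordinal.{u}) (l : List Ordinal.{u}),
    ℵ₀ < c → μ < c.ord → (∀ x ∈ Q, x < μ ∨ x ∈ l) → col {x | Cl θ Q x} θ < c.ord

/-- A new code generates everything below it. -/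
def T_HULL : Prop :=
  ∀ l e : Ordinal.{u}, New l e → ∀ x ≤ e, Hull l (e + 1) [e] x

/-- Transitivity of hulls below `τ`. -/
def T_TRANS : Prop :=
  ∀ (l τ r : Ordinal.{u}) (Q : Set Ordinal.{u}), l < τ →
    (∀ y, l ≤ y → y < τ → ∃ v < τ, URel l y v) → (τ ≤ r ∨ ColS l r) → Iic l ⊆ Q →
    ∀ x, x < τ → Cl r Q x → ∀ y < x, Cl r Q y

/-- The coherent sequence is coherent. -/
def T_COH : Prop :=
  ∀ l top e : Ordinal.{u}, top ≤ e → New l e → Coh {τ | ColS l τ} (CS l) top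

/-- Basic facts about `th`, `pl`, `CS`, used for the transfer. -/
structure T_COHX : Prop where
  th_le : ∀ l τ e : Ordinal.{u}, LimC l τ → τ ≤ e → New l e → τ ≤ th l τ ∧ th l τ ≤ e + 1
  th_lim : ∀ l τ e : Ordinal.{u}, LimC l τ → τ ≤ e → New l e → ∀ x < th l τ, x + 1 < th l τ
  pl_lt : ∀ l τ e : Ordinal.{u}, LimC l τ → τ ≤ e → New l e → ∀ x ∈ pl l τ, x < th l τ
  hull_pl : ∀ l τ e : Ordinal.{u}, LimC l τ → τ ≤ e → New l e → ∀ x < th l τ,
    Hull l (th l τ) (pl l τ) x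
  th_min : ∀ (l τ e r : Ordinal.{u}) (p : List Ordinal.{u}), LimC l τ → τ ≤ e → New l e → τ ≤ r →
    r < th l τ → (∀ x ∈ p, x < r) → ∃ b < τ, ∀ y < τ, Hull l r p y → y ≤ b
  dd : ∀ l τ e r : Ordinal.{u}, LimC l τ → τ ≤ e → New l e → RR l τ r →
    DD l τ r < τ ∧ ColS l (DD l τ r) ∧ ∀ y < τ, (Hull l r (pl l τ) y ↔ y < DD l τ r)

/-- There is no thread. -/
def T_NT : Prop :=
  ∀ c : Cardinal.{u}, ℵ₀ ≤ c →
    (∀ y < (Order.succ c).ord, ∃ e < (Order.succ c).ord, y < e ∧ New c.ord e) →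
    ∀ Γ : Set Ordinal.{u}, (∀ g ∈ Γ, g < (Order.succ c).ord ∧ LimC c.ord g) →
      (∀ y < (Order.succ c).ord, ∃ g ∈ Γ, y < g) →
      ¬ ∀ g₁ ∈ Γ, ∀ g ∈ Γ, g₁ < g → UnbBelow (fun y => y ∈ CS c.ord g) g₁

/-! ### Walks -/

/-- Additivity of walks. -/
def T_WALK : Prop :=
  ∀ (K : Set Ordinal.{u}) (C : Ordinal.{u} → Set Ordinal.{u}) (top : Ordinal.{u}), Coh K C top →
    ∀ d τ : Ordinal.{u}, 0 < d → UnbBelow (fun y => y ∈ K) d → τ ∈ K → d ≤ τ → τ ≤ top →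
      (∃ d₀ < d, ∀ x ∈ K, d₀ < x → x < d → rho C x τ = cc C d τ + rho C x d) ∧
      (d < τ → cc C d τ = 0 → UnbBelow (fun y => y ∈ C τ) d)

/-! ### Weakly compact cardinals -/

/-- `κ` is weakly compact: it is uncountable and every colouring of the pairs `x < y` of elements
of `κ` by two colours has a homogeneous set of size `κ`. -/
def WC (κ : Cardinal.{u}) : Prop :=
  ℵ₀ < κ ∧ ∀ c : κ.ord.ToType → κ.ord.ToType → Bool,
    ∃ H : Set κ.ord.ToType, Cardinal.mk H = κ ∧ ∃ i : Bool, ∀ x ∈ H, ∀ y ∈ H, x < y → c x y = i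

/-- `P` holds for almost all elements of `H` (for all elements beyond some `b < κ`). -/
def AE (κ : Cardinal.{u}) (H : Set Ordinal.{u}) (P : Ordinal.{u} → Prop) : Prop :=
  ∃ b < κ.ord, ∀ z ∈ H, b < z → P z

/-- Weakly compact cardinals are regular and strong limits. -/
def T_SL : Prop := ∀ κ : Cardinal.{u}, WC κ → κ.IsRegular ∧ κ.IsStrongLimit

/-- Normal unsplit sets. -/
def T_NUL : Prop :=
  ∀ κ : Cardinal.{u}, WC κ →
    ∀ (S : Ordinal.{u} → Set Ordinal.{u}) (f : Ordinal.{u} → Ordinal.{u} → Ordinal.{u}),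
      (∀ i < κ.ord, ∀ z < κ.ord, f i z < κ.ord) →
      ∃ H : Set Ordinal.{u}, (∀ z ∈ H, z < κ.ord) ∧ (∀ x < κ.ord, ∃ z ∈ H, x < z) ∧
        (∀ i < κ.ord, AE κ H (fun z => z ∈ S i) ∨ AE κ H (fun z => z ∉ S i)) ∧
        (∀ i < κ.ord, AE κ H (fun z => z ≤ f i z) ∨ ∃ c < κ.ord, AE κ H (fun z => f i z = c))

/-! ### Weak compactness in the machine -/

/-- `d` names a limit of the sets coded by `c`: for all `x, z₀ < l` there is `z` above `z₀` such
that the set `{i : J z i ∈ S_c}` agrees with `S_d` below `x`. -/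
def WW (l c d : Ordinal.{u}) : Prop :=
  ∀ x < l, ∀ z₀ < l, ∃ z < l, z₀ < z ∧ ∀ i < x, (Mem (J z i) c ↔ Mem i d)

/-- `l` is good for the codes below `K`. -/
def Good (K l : Ordinal.{u}) : Prop :=
  Ordinal.omega0 < l ∧ lev l = l ∧ ∀ c < K, ∃ d < K, WW l c d

/-- Traces of sets named below `κ⁺` on ordinals below `κ` are named below `κ`. -/
def T_RED : Prop :=
  ∀ κ : Cardinal.{u}, ℵ₀ < κ → ∀ μ < κ.ord, ∀ e : Ordinal.{u}, ∃ e' < κ.ord,
    ∀ w < μ, (Mem w e' ↔ Mem w e)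

/-- A weakly compact cardinal is good for the codes below its successor. -/
def T_BP : Prop := ∀ κ : Cardinal.{u}, WC κ → Good (Order.succ κ).ord κ.ord

/-- Case II. -/
def T_C2 : Prop :=
  ∀ κ : Cardinal.{u}, WC κ →
    (∃ y < (Order.succ κ).ord, ∀ e < (Order.succ κ).ord, y < e → ¬ New κ.ord e) →
    ∀ f : Ordinal.{u} → Ordinal.{u}, (∀ x < κ.ord, f x < κ.ord) →
      ∃ l < κ.ord, (∀ x < l, f x < l) ∧ Good κ.ord l

/-- The strong polarized relation with two colours. -/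
def SP (lam kap : Cardinal.{u}) : Prop :=
  ∀ c : lam.ord.ToType → kap.ord.ToType → Bool,
    ∃ (A : Set lam.ord.ToType) (B : Set kap.ord.ToType),
      Cardinal.mk A = lam ∧ Cardinal.mk B = kap ∧ ∃ i : Bool, ∀ a ∈ A, ∀ b ∈ B, c a b = i

/-- Case I. -/
def T_C1 : Prop :=
  ∀ κ : Cardinal.{u}, WC κ → SP (Order.succ κ) κ →
    (∀ y < (Order.succ κ).ord, ∃ e < (Order.succ κ).ord, y < e ∧ New κ.ord e) →
    ∀ f : Ordinal.{u} → Ordinal.{u}, (∀ x < κ.ord, f x < κ.ord) →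
      ∃ l < κ.ord, (∀ x < l, f x < l) ∧ Good κ.ord l

/-- The final combinatorial argument of case I (abstract). -/
def T_FINC : Prop :=
  ∀ (κ : Cardinal.{u}) (χ : ℕ → Bool) (A : Set Ordinal.{u}) (ρ c : Ordinal.{u} → Ordinal.{u} → ℕ)
    (ι : Bool), κ.IsRegular → Cardinal.continuum ≤ κ →
    (∀ m p : ℕ, 1 ≤ p → ∀ i : Bool, ∃ k : ℕ, χ (m + k * p) ≠ i) →
    (∀ x ∈ A, x < (Order.succ κ).ord) → (∀ y < (Order.succ κ).ord, ∃ x ∈ A, y < x) →
    (∀ g₁ g : Ordinal.{u}, UnbBelow (fun y => y ∈ A) g₁ → g₁.cof = κ →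
      UnbBelow (fun y => y ∈ A) g → g.cof = κ → g < (Order.succ κ).ord → g₁ < g →
      ∃ b < g₁, ∀ x ∈ A, b < x → x < g₁ → ρ x g = c g₁ g + ρ x g₁) →
    (∀ Γ : Set Ordinal.{u}, (∀ g ∈ Γ, g < (Order.succ κ).ord ∧
        UnbBelow (fun y => y ∈ A) g ∧ g.cof = κ) →
      (∀ y < (Order.succ κ).ord, ∃ g ∈ Γ, y < g) → ¬ ∀ g₁ ∈ Γ, ∀ g ∈ Γ, g₁ < g → c g₁ g = 0) →
    ¬ ∀ g : Ordinal.{u}, g < (Order.succ κ).ord → UnbBelow (fun y => y ∈ A) g → g.cof = κ →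
      ∃ m : ℕ, ∃ b < g, ∀ x ∈ A, b < x → x < g → χ (m + ρ x g) = ι

/-! ### The model -/

/-- Formulas of set theory; variables are numbered by de Bruijn indices. -/
inductive Fml : Type
  | mem (i j : ℕ) : Fml
  | eq (i j : ℕ) : Fml
  | neg (p : Fml) : Fml
  | and (p q : Fml) : Fml
  | all (p : Fml) : Fml

/-- Put a new entry in front of an assignment. -/
def zcons (x : ZFSet.{u}) (e : ℕ → ZFSet.{u}) : ℕ → ZFSet.{u}
  | 0 => x
  | n + 1 => e n

/-- Truth of a formula in the structure `(M, ∈)` at the assignment `e`. -/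
def Holds (M : ZFSet.{u}) : Fml → (ℕ → ZFSet.{u}) → Prop
  | Fml.mem i j, e => e i ∈ e j
  | Fml.eq i j, e => e i = e j
  | Fml.neg p, e => ¬ Holds M p e
  | Fml.and p q, e => Holds M p e ∧ Holds M q e
  | Fml.all p, e => ∀ x ∈ M, Holds M p (zcons x e)

/-- `M` is a transitive model of ZFC.  The axioms are relativised to `M`; extensionality and
foundation hold in every transitive set. -/
structure TransModel (M : ZFSet.{u}) : Prop where
  /-- transitivity -/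
  trans : M.IsTransitive
  /-- pairing -/
  pair : ∀ x ∈ M, ∀ y ∈ M, ({x, y} : ZFSet.{u}) ∈ M
  /-- union -/
  union : ∀ x ∈ M, ZFSet.sUnion x ∈ M
  /-- power set -/
  power : ∀ x ∈ M, ∃ y ∈ M, ∀ z ∈ M, z ∈ y ↔ z ⊆ x
  /-- infinity -/
  infinity : ∃ x ∈ M, (∅ : ZFSet.{u}) ∈ x ∧ ∀ y ∈ x, insert y y ∈ x
  /-- the separation scheme, with parameters -/
  separation : ∀ (p : Fml) (e : ℕ → ZFSet.{u}), (∀ n, e n ∈ M) → ∀ x ∈ M,
    ∃ y ∈ M, ∀ z ∈ M, z ∈ y ↔ z ∈ x ∧ Holds M p (zcons z e)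
  /-- the replacement scheme, with parameters -/
  replacement : ∀ (p : Fml) (e : ℕ → ZFSet.{u}), (∀ n, e n ∈ M) → ∀ x ∈ M,
    (∀ z ∈ M, z ∈ x → ∃! w, w ∈ M ∧ Holds M p (zcons w (zcons z e))) →
    ∃ y ∈ M, ∀ w ∈ M, w ∈ y ↔ ∃ z ∈ x, Holds M p (zcons w (zcons z e))
  /-- choice: a family of nonempty pairwise disjoint sets has a transversal -/
  choice : ∀ x ∈ M, (∀ y ∈ x, y ≠ ∅) → (∀ y ∈ x, ∀ z ∈ x, y ≠ z → y ∩ z = ∅) →
    ∃ t ∈ M, ∀ y ∈ x, ∃! z, z ∈ t ∧ z ∈ y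

/-- `f` is a bijection from `x` onto `y`, as a set of ordered pairs. -/
def IsBij (f x y : ZFSet.{u}) : Prop :=
  (∀ z ∈ f, ∃ a ∈ x, ∃ b ∈ y, z = ZFSet.pair a b) ∧
  (∀ a ∈ x, ∃! b, ZFSet.pair a b ∈ f) ∧ (∀ b ∈ y, ∃! a, ZFSet.pair a b ∈ f)

/-- `l` is a weakly compact cardinal in the sense of the transitive model `M`: it is an ordinal
of `M` above `ω`, there is no bijection in `M` between `l` and one of its elements, and for every
`c` in `M` there is a homogeneous `H` in `M` that is in bijection with `l` in `M`; the pair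
`x ∈ y` gets the first colour if the ordered pair `(x, y)` is in `c`. -/
def WCIn (M l : ZFSet.{u}) : Prop :=
  l ∈ M ∧ l.IsOrdinal ∧ ZFSet.omega ∈ l ∧ (∀ a ∈ l, ∀ f ∈ M, ¬ IsBij f a l) ∧
  ∀ c ∈ M, ∃ H ∈ M, H ⊆ l ∧ (∃ f ∈ M, IsBij f l H) ∧
    ((∀ x ∈ H, ∀ y ∈ H, x ∈ y → ZFSet.pair x y ∈ c) ∨
     (∀ x ∈ H, ∀ y ∈ H, x ∈ y → ZFSet.pair x y ∉ c))

/-- The model. -/
def T_ZF : Prop :=
  ∀ (κ : Cardinal.{u}), ℵ₀ < κ → κ.IsRegular → κ.IsStrongLimit →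
    ∃ M : ZFSet.{u}, TransModel M ∧ (∀ a : Ordinal.{u}, a.toZFSet ∈ M ↔ a < κ.ord) ∧
      ∀ l < κ.ord, Good κ.ord l → WCIn M l.toZFSet

end Pool.Agent.LMach
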