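import Pool.Agent.LMach.Sit
import Pool.Agent.LMach.Walk

/-!
# The least bad code, and the good approximations below an ordinal
-/

open Set Cardinal Order

universe u

namespace Pool.Agent.LMach

open CohP

/-- The least bad code at `a`. -/
noncomputable def eta (κ : Cardinal.{u}) (a : Ordinal.{u}) : Ordinal.{u} :=
  lst (fun c => c < κ.ord ∧ ∀ d < κ.ord, ¬ WW a c d)

/-- The last member of `ColS a` up to `eta κ a`. -/
noncomputable def uu (κ : Cardinal.{u}) (a : Ordinal.{u}) : Ordinal.{u} :=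
  sSup {τ | ColS a τ ∧ τ ≤ eta κ a}

/-- The last good approximation of `b` up to `z`. -/
noncomputable def em (κ : Cardinal.{u}) (π : Ordinal.{u} → Ordinal.{u} → Ordinal.{u})
    (b z : Ordinal.{u}) : Ordinal.{u} := sSup {a | EE κ π b a ∧ a ≤ z}

section

variable {κ : Cardinal.{u}} {π : Ordinal.{u} → Ordinal.{u} → Ordinal.{u}} (C : Ctx κ π)
include C

omit C in
theorem omega_lt_ord' (h0 : ℵ₀ < κ) : Ordinal.omega0.{u} < κ.ord := by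
  rw [← ord_aleph0]; exact ord_lt_ord.mpr h0

theorem Ctx.ee_om {b a : Ordinal.{u}} (ha : EE κ π b a) : Ordinal.omega0 < a :=
  ha.2.2.1 _ (ha.2.1.om C.h0.le) (omega_lt_ord' C.h0)

theorem Ctx.ee_lev {b a : Ordinal.{u}} (hb : CK κ π b) (ha : EE κ π b a) : lev a = a := by
  rw [closed_iff]
  intro x hx y hy
  have A := C.app hb ha
  have hJ : J x y < κ.ord := J_lt' (lev_ord' C.h0.le) (hx.trans ha.1) (hy.trans ha.1)
  exact A.int1 _ (A.cin.J (A.int2 x hx) (A.int2 y hy) (hJ.trans hb.1)) hJ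

theorem Ctx.ee_f {b a : Ordinal.{u}} (hb : CK κ π b) (ha : EE κ π b a)
    (hf : ∀ x < κ.ord, π 0 x < κ.ord) : ∀ x < a, π 0 x < a := by
  intro x hx
  have A := C.app hb ha
  have h1 := hf x (hx.trans ha.1)
  exact A.int1 _ (ha.2.1.pi' ha.2.1.zero (A.int2 x hx) (h1.trans kK')) h1

variable (hf : ∀ x < κ.ord, π 0 x < κ.ord)
  (hbad : ∀ l < κ.ord, (∀ x < l, π 0 x < l) → ¬ Good κ.ord l)
include hf hbad

theorem Ctx.eta_spec {b a : Ordinal.{u}} (hb : CK κ π b) (ha : EE κ π b a) :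
    eta κ a < κ.ord ∧ ∀ d < κ.ord, ¬ WW a (eta κ a) d := by
  refine lst_spec (P := fun c => c < κ.ord ∧ ∀ d < κ.ord, ¬ WW a c d) ?_
  have h := hbad a ha.1 (C.ee_f hb ha hf)
  unfold Good at h
  push Not at h
  obtain ⟨c, hc, hc'⟩ := h (C.ee_om ha) (C.ee_lev hb ha)
  exact ⟨c, hc, hc'⟩

theorem Ctx.eta_new {b a : Ordinal.{u}} (hb : CK κ π b) (ha : EE κ π b a) :
    New a (eta κ a) := by
  obtain ⟨h1, h2⟩ := C.eta_spec hf hbad hb ha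
  intro e' he'
  by_contra hcon
  push Not at hcon
  have h3 : ¬ (e' < κ.ord ∧ ∀ d < κ.ord, ¬ WW a e' d) := fun h =>
    absurd (lst_le (P := fun c => c < κ.ord ∧ ∀ d < κ.ord, ¬ WW a c d) h) (not_le.mpr he')
  push Not at h3
  obtain ⟨d, hd, hW⟩ := h3 (he'.trans h1)
  refine h2 d hd fun x hx z₀ hz₀ => ?_
  obtain ⟨z, hz, hz1, hz2⟩ := hW x hx z₀ hz₀
  refine ⟨z, hz, hz1, fun i hi => ?_⟩
  rw [hcon (J z i) (J_lt' (C.ee_lev hb ha) hz (hi.trans hx))]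
  exact hz2 i hi

theorem Ctx.ff_le_eta {b a : Ordinal.{u}} (hb : CK κ π b) (ha : EE κ π b a) :
    ff π b a ≤ eta κ a := by
  obtain ⟨h1, h2⟩ := C.eta_spec hf hbad hb ha
  have A := C.app hb ha
  by_contra hcon
  obtain ⟨c, hcX, hcb, hc⟩ := col_onto (not_le.mp hcon)
  obtain ⟨d, hdX, hdK, hW⟩ := ha.2.1.ww' hcX (C.bp c (hcb.trans hb.2.1))
  refine h2 (col (XX π b a) d) (C.card_col ha.1) fun x hx z₀ hz₀ => ?_
  obtain ⟨z, hzX, hzk, hz1, hz2⟩ := ha.2.1.wz' hcX hdX (A.int2 x hx) (A.int2 z₀ hz₀)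
    (hW x (hx.trans ha.1) z₀ (hz₀.trans ha.1))
  have hza := A.int1 z hzX hzk
  refine ⟨z, hza, hz1, fun i hi => ?_⟩
  have hia := hi.trans hx
  have hJa : J z i < a := J_lt' (C.ee_lev hb ha) hza hia
  rw [← hc]
  have e1 := p_CT.mem b (XX π b a) A.cin (J z i) (A.int2 _ hJa) c hcX
  have e2 := p_CT.mem b (XX π b a) A.cin i (A.int2 _ hia) d hdX
  rw [A.id hJa] at e1
  rw [A.id hia] at e2
  rw [e1, e2, hz2 i hi]

theorem Ctx.uu_facts {b a : Ordinal.{u}} (hb : CK κ π b) (ha : EE κ π b a) :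
    ColS a (uu κ a) ∧ uu κ a ≤ eta κ a ∧ ∀ τ, ColS a τ → τ ≤ eta κ a → τ ≤ uu κ a := by
  have A := C.app hb ha
  have hbd : BddAbove {τ | ColS a τ ∧ τ ≤ eta κ a} := ⟨eta κ a, fun τ h => h.2⟩
  have hm : ff π b a ∈ {τ | ColS a τ ∧ τ ≤ eta κ a} :=
    ⟨A.colS le_rfl (C.ck_colS hb), C.ff_le_eta hf hbad hb ha⟩
  have hle : ∀ τ, ColS a τ → τ ≤ eta κ a → τ ≤ uu κ a := fun τ h1 h2 => le_csSup hbd ⟨h1, h2⟩
  refine ⟨?_, csSup_le ⟨_, hm⟩ fun τ h => h.2, hle⟩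
  by_cases h : ColS a (uu κ a)
  · exact h
  refine colS_of_unb (lt_of_lt_of_le (lt_of_le_of_lt zero_le hm.1.1) (hle _ hm.1 hm.2))
    fun x hx => ?_
  obtain ⟨y, hy, hxy⟩ := exists_lt_of_lt_csSup ⟨_, hm⟩ hx
  refine ⟨y, lt_of_le_of_ne (hle y hy.1 hy.2) ?_, hxy, hy.1⟩
  rintro rfl
  exact h hy.1

omit hf hbad

theorem Ctx.em_facts {b ν z : Ordinal.{u}} (hν : EE κ π b ν) (hνz : ν ≤ z)
    (hz : z < κ.ord) : EE κ π b (em κ π b z) ∧ ν ≤ em κ π b z ∧ em κ π b z ≤ z ∧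
      ∀ a, EE κ π b a → a ≤ z → a ≤ em κ π b z := by
  have hbd : BddAbove {a | EE κ π b a ∧ a ≤ z} := ⟨z, fun a h => h.2⟩
  have hm : ν ∈ {a | EE κ π b a ∧ a ≤ z} := ⟨hν, hνz⟩
  have hle : ∀ a, EE κ π b a → a ≤ z → a ≤ em κ π b z := fun a h1 h2 => le_csSup hbd ⟨h1, h2⟩
  have hz' : em κ π b z ≤ z := csSup_le ⟨_, hm⟩ fun a h => h.2
  refine ⟨?_, hle ν hν hνz, hz', hle⟩
  by_cases h : EE κ π b (em κ π b z)
  · exact h
  refine C.ee_limit (lt_of_lt_of_le (lt_of_le_of_lt zero_le (C.ee_om hν)) (hle _ hν hνz))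
    (hz'.trans_lt hz) fun x hx => ?_
  obtain ⟨y, hy, hxy⟩ := exists_lt_of_lt_csSup ⟨_, hm⟩ hx
  refine ⟨y, lt_of_le_of_ne (hle y hy.1 hy.2) ?_, hxy, hy.1⟩
  rintro rfl
  exact h hy.1

theorem Ctx.em_anti {b b' ν z : Ordinal.{u}} (hb : CK κ π b) (hbb : b < b')
    (hν : EE κ π b' ν) (hm : b ∈ XX π b' ν) (hνz : ν ≤ z) (hz : z < κ.ord) :
    em κ π b' z ≤ em κ π b z := by
  obtain ⟨h1, h2, h3, h4⟩ := C.em_facts hν hνz hz
  have h5 := (C.ee_coh hb hbb hν hm).2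
  have h6 := (C.ee_coh hb hbb h1 (xx_mono h2 hm)).2
  exact (C.em_facts h5 hνz hz).2.2.2 _ h6 h3

end

end Pool.Agent.LMach
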