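import Pool.Agent.LMach.TA

/-!
# The colour lemma
-/

open Set Cardinal Order

universe u

namespace Pool.Agent.LMach

open CohP

theorem unc_of_cof {g : Ordinal.{u}} (h : ℵ₀ < g.cof) : Unc g := by
  intro f hf
  refine ⟨⨆ n : ULift.{u} ℕ, f n.down + 1, ?_, fun n =>
    Ordinal.lt_iSup_add_one (fun n : ULift.{u} ℕ => f n.down) ⟨n⟩⟩
  exact Ordinal.iSup_add_one_lt_of_lt_cof (lt_of_le_of_lt (by simp) h) fun i => hf _

theorem exists_fund {κ : Cardinal.{u}} (h0 : ℵ₀ ≤ κ) {g : Ordinal.{u}} (hcf : g.cof = κ) :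
    ∃ h hinv : Ordinal.{u} → Ordinal.{u}, (∀ i, h i < g) ∧ (∀ y, hinv y < κ.ord) ∧
      (∀ i j, i ≤ j → j < κ.ord → h i ≤ h j) ∧ ∀ y < g, y < h (hinv y) := by
  classical
  obtain ⟨f, hf⟩ := Ordinal.exists_isFundamentalSeq (o := g) (a := κ.ord) (by rw [hcf])
  have hk0 : (0 : Ordinal.{u}) < κ.ord := by
    rw [lt_ord]; simpa using aleph0_pos.trans_le h0
  let h : Ordinal.{u} → Ordinal.{u} := fun i => if hi : i < κ.ord then (f ⟨i, hi⟩).1 else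
    (f ⟨0, hk0⟩).1
  have e1 : ∀ i (hi : i < κ.ord), h i = (f ⟨i, hi⟩).1 := fun i hi => dif_pos hi
  have key : ∀ y, ∃ i, i < κ.ord ∧ (y < g → y < h i) := by
    intro y
    by_cases hy : y < g
    · obtain ⟨_, ⟨⟨i, hi⟩, rfl⟩, hyi⟩ := hf.isCofinal_range ⟨y, hy⟩
      have hi1 : i + 1 < κ.ord := succ_lt h0 hi
      refine ⟨i + 1, hi1, fun _ => ?_⟩
      rw [e1 _ hi1]
      refine lt_of_le_of_lt hyi (hf.strictMono ?_)
      exact lt_add_one i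
    · exact ⟨0, hk0, fun h => absurd h hy⟩
  choose hinv h1 h2 using key
  refine ⟨h, hinv, fun i => ?_, h1, fun i j hij hj => ?_, fun y hy => h2 y hy⟩
  · by_cases hi : i < κ.ord
    · rw [e1 i hi]; exact (f _).2
    · show (if hi : i < κ.ord then (f ⟨i, hi⟩).1 else (f ⟨0, hk0⟩).1) < g
      rw [dif_neg hi]; exact (f _).2
  · rw [e1 i (hij.trans_lt hj), e1 j hj]
    exact hf.strictMono.monotone hij

section

variable {κ : Cardinal.{u}} {π : Ordinal.{u} → Ordinal.{u} → Ordinal.{u}} (C : Ctx κ π)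
include C

/-- closed points that are limit points of the sequence -/
theorem Ctx.exists_nl {g : Ordinal.{u}} (hu : Unc g) (hgk : κ.ord < g)
    (hg : g < (succ κ).ord) (hck : ∀ x < g, ∃ y < g, x < y ∧ CK κ π y) {y : Ordinal.{u}}
    (hy : y < g) :
    ∃ d < g, y < d ∧ CK κ π d ∧ UnbBelow (fun y => y ∈ CS κ.ord g) d := by
  have hg0 : 0 < g := lt_of_le_of_lt zero_le hgk
  have hgC : CK κ π g := C.ck_limit hg0 hg hck
  obtain ⟨e, _, hge, hne⟩ := C.new g hg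
  have hk := hcoh κ.ord e e le_rfl hne
  have hs : ∀ y, ∃ c b, y < g → y < c ∧ CK κ π c ∧ c < b ∧ b < g ∧ b ∈ CS κ.ord g := by
    intro y
    by_cases hy : y < g
    · obtain ⟨c, hc, hyc, hcC⟩ := hck y hy
      obtain ⟨c', hc', hcc', hcC'⟩ := hck c hc
      obtain ⟨b, hb, hb'⟩ := hk.cof g (C.ck_colS hgC) hge.le c' (C.ck_colS hcC') hc'
      exact ⟨c, b, fun _ => ⟨hyc, hcC, hcc'.trans_le hb',
        (hk.sub g (C.ck_colS hgC) hge.le b hb).2, hb⟩⟩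
    · exact ⟨0, 0, fun h => absurd h hy⟩
  choose fc fb hs using hs
  let s : ℕ → Ordinal.{u} := fun n => Nat.rec y (fun _ z => fb z) n
  have hs1 : ∀ n, s (n + 1) = fb (s n) := fun n => rfl
  have hsg : ∀ n, s n < g := by
    intro n
    induction n with
    | zero => exact hy
    | succ n ih => rw [hs1]; exact (hs _ ih).2.2.2.1
  obtain ⟨c, hc, hsc⟩ := hu s hsg
  have hbd : BddAbove (range s) := ⟨c, by rintro _ ⟨n, rfl⟩; exact (hsc n).le⟩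
  have hstep : ∀ n, s n < fc (s n) ∧ fc (s n) < s (n + 1) := fun n =>
    ⟨(hs _ (hsg n)).1, by rw [hs1]; exact (hs _ (hsg n)).2.2.1⟩
  have hsn : ∀ n, s n < ⨆ n, s n := fun n =>
    ((hstep n).1.trans (hstep n).2).trans_le (le_ciSup hbd (n + 1))
  have hdg : (⨆ n, s n) < g := (ciSup_le fun n => (hsc n).le).trans_lt hc
  have h0 : 0 < ⨆ n, s n := lt_of_le_of_lt zero_le (hsn 0)
  refine ⟨⨆ n, s n, hdg, hsn 0, C.ck_limit h0 (hdg.trans hg) ?_, ?_⟩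
  · intro x hx
    obtain ⟨n, hn⟩ := exists_lt_of_lt_ciSup hx
    exact ⟨fc (s n), (hstep n).2.trans (hsn (n + 1)), hn.trans (hstep n).1, (hs _ (hsg n)).2.1⟩
  · intro x hx
    obtain ⟨n, hn⟩ := exists_lt_of_lt_ciSup hx
    refine ⟨s (n + 1), hsn (n + 1), hn.trans ((hstep n).1.trans (hstep n).2), ?_⟩
    show s (n + 1) ∈ CS κ.ord g
    rw [hs1]; exact (hs _ (hsg n)).2.2.2.2

/-- The colour lemma. -/
theorem Ctx.colour (hf : ∀ x < κ.ord, π 0 x < κ.ord)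
    (hbad : ∀ l < κ.ord, (∀ x < l, π 0 x < l) → ¬ Good κ.ord l) {A B : Set Ordinal.{u}} {χ : ℕ → Bool}
    {ι : Bool} (hA : ∀ x ∈ A, CK κ π x) (hB : ∀ z ∈ B, z < κ.ord)
    (hBu : ∀ x < κ.ord, ∃ z ∈ B, x < z)
    (hc : ∀ x ∈ A, ∀ z ∈ B,
      χ (rho (CS (em κ π x z)) (ff π x (em κ π x z)) (uu κ (em κ π x z))) = ι)
    {g : Ordinal.{u}} (hg : g < (succ κ).ord) (hgA : UnbBelow (fun y => y ∈ A) g)
    (hcf : g.cof = κ) :
    ∃ m : ℕ, ∃ b < g, ∀ x ∈ A, b < x → x < g → χ (m + rho (CS κ.ord) x g) = ι := by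
  by_contra hcon
  push Not at hcon
  have hg0 : 0 < g := by
    rw [← Ordinal.cof_pos, hcf]; exact aleph0_pos.trans C.h0
  have hck : ∀ x < g, ∃ y < g, x < y ∧ CK κ π y := by
    intro x hx
    obtain ⟨y, hy, hxy, hyA⟩ := hgA x hx
    exact ⟨y, hy, hxy, hA y hyA⟩
  have hgC : CK κ π g := C.ck_limit hg0 hg hck
  have hug : Unc g := unc_of_cof (by rw [hcf]; exact C.h0)
  -- the functions
  have hw : ∀ (m : ℕ) (y : Ordinal.{u}), ∃ x, x < g ∧ (y < g → x ∈ A ∧ y < x ∧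
      χ (m + rho (CS κ.ord) x g) ≠ ι) := by
    intro m y
    by_cases hy : y < g
    · obtain ⟨x, h1, h2, h3, h4⟩ := hcon m y hy
      exact ⟨x, h3, fun _ => ⟨h1, h2, h4⟩⟩
    · exact ⟨0, hg0, fun h => absurd h hy⟩
  choose w hw1 hw2 using hw
  have hnl : ∀ y, ∃ d, d < g ∧ (y < g → y < d ∧ CK κ π d ∧
      UnbBelow (fun y => y ∈ CS κ.ord g) d) := by
    intro y
    by_cases hy : y < g
    · obtain ⟨d, h1, h2⟩ := C.exists_nl hug hgC.1 hg hck hy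
      exact ⟨d, h1, fun _ => h2⟩
    · exact ⟨0, hg0, fun h => absurd h hy⟩
  choose nl hnl1 hnl2 using hnl
  obtain ⟨h, hinv, hh1, hh2, hh3, hh4⟩ := exists_fund C.h0.le hcf
  obtain ⟨g', _, hgg', hg'C⟩ := C.ck_unb hg
  let G : ℕ → List Ordinal.{u} → Ordinal.{u} := fun i l => match i with
    | 0 => g
    | 1 => h (l.getD 0 0)
    | 2 => hinv (l.getD 0 0)
    | 3 => nl (l.getD 0 0)
    | n + 4 => w n (l.getD 0 0)
  obtain ⟨ν, hν0, hνE, hνG, hνu⟩ := C.ee_unb hg'C C.posk G (by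
    intro i l _
    match i with
    | 0 => exact hgg'
    | 1 => exact (hh1 _).trans hgg'
    | 2 => exact ((hh2 _).trans hgC.1).trans hgg'
    | 3 => exact (hnl1 _).trans hgg'
    | n + 4 => exact (hw1 n _).trans hgg')
  have A' := C.app hg'C hνE
  have gX : g ∈ XX π g' ν := hνG 0 [] (by simp)
  have hX : ∀ i ∈ XX π g' ν, h i ∈ XX π g' ν := fun i hi => hνG 1 [i] (by simpa using hi)
  have hinvX : ∀ i ∈ XX π g' ν, hinv i ∈ XX π g' ν := fun i hi => hνG 2 [i] (by simpa using hi)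
  have nlX : ∀ i ∈ XX π g' ν, nl i ∈ XX π g' ν := fun i hi => hνG 3 [i] (by simpa using hi)
  have wX : ∀ n, ∀ i ∈ XX π g' ν, w n i ∈ XX π g' ν :=
    fun n i hi => hνG (n + 4) [i] (by simpa using hi)
  clear_value G
  clear hνG
  obtain ⟨ζ, hζB, hνζ⟩ := hBu ν hνE.1
  have hζ := hB ζ hζB
  -- approximations of members of `X`
  have hS1 : ∀ β ∈ XX π g' ν, β < g → CK κ π β → XX π β ν = XX π g' ν ∩ Iio β ∧ EE κ π β ν :=
    fun β h1 h2 h3 => C.ee_coh h3 (h2.trans hgg') hνE h1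
  have h0X : (0 : Ordinal.{u}) ∈ XX π g' ν := hνE.2.1.zero
  have hSne : ∃ a, ∃ β, β ∈ XX π g' ν ∧ β < g ∧ CK κ π β ∧ em κ π β ζ = a :=
    ⟨_, nl 0, nlX 0 h0X, hnl1 0, (hnl2 0 hg0).2.1, rfl⟩
  obtain ⟨b₀, hb₀X, hb₀g, hb₀C, hab⟩ := lst_spec hSne
  have hmin : ∀ β ∈ XX π g' ν, β < g → CK κ π β →
      lst (fun a => ∃ β, β ∈ XX π g' ν ∧ β < g ∧ CK κ π β ∧ em κ π β ζ = a) ≤ em κ π β ζ :=
    fun β h1 h2 h3 => lst_le ⟨β, h1, h2, h3, rfl⟩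
  generalize lst (fun a => ∃ β, β ∈ XX π g' ν ∧ β < g ∧ CK κ π β ∧ em κ π β ζ = a) = a
    at hab hmin
  -- the set `Z`
  let Z : Set Ordinal.{u} := {β | β ∈ XX π g' ν ∧ β < g ∧ CK κ π β ∧ b₀ ≤ β}
  have hZa : ∀ β ∈ Z, em κ π β ζ = a := by
    rintro β ⟨h1, h2, h3, h4⟩
    rcases h4.eq_or_lt with h5 | h5
    · rw [← h5]; exact hab
    · refine le_antisymm ?_ (hmin β h1 h2 h3)
      rw [← hab]
      refine C.em_anti hb₀C h5 (hS1 β h1 h2 h3).2 ?_ hνζ.le hζ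
      rw [(hS1 β h1 h2 h3).1]
      exact ⟨hb₀X, h5⟩
  have hZe : ∀ β ∈ Z, EE κ π β a ∧ ν ≤ a := by
    intro β hβ
    obtain ⟨h1, h2, h3, h4⟩ := C.em_facts (hS1 β hβ.1 hβ.2.1 hβ.2.2.1).2 hνζ.le hζ
    rw [hZa β hβ] at h1 h2
    exact ⟨h1, h2⟩
  have hb₀Z : b₀ ∈ Z := ⟨hb₀X, hb₀g, hb₀C, le_rfl⟩
  have hsubX : ∀ β ∈ Z, ∀ x ∈ XX π g' ν, x < β → x ∈ XX π β a := by
    intro β hβ x hx hxβ
    refine xx_mono (hZe β hβ).2 ?_
    rw [(hS1 β hβ.1 hβ.2.1 hβ.2.2.1).1]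
    exact ⟨hx, hxβ⟩
  have hnlZ : ∀ y ∈ XX π g' ν, y < g → b₀ ≤ y → nl y ∈ Z := fun y h1 h2 h3 =>
    ⟨nlX y h1, hnl1 y, (hnl2 y h2).2.1, h3.trans (hnl2 y h2).1.le⟩
  obtain ⟨e, _, hge, hne⟩ := C.new g hg
  have hk := hcoh κ.ord e e le_rfl hne
  have hstpg : ∀ x ∈ Z, stp (CS κ.ord) g x < g := by
    intro x hx
    obtain ⟨d, hd1, hd2⟩ := hk.cof g (C.ck_colS hgC) hge.le x (C.ck_colS hx.2.2.1) hx.2.1
    have hne : ({d | d ∈ CS κ.ord g ∧ x ≤ d} : Set Ordinal.{u}).Nonempty := ⟨d, hd1, hd2⟩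
    have hσ : stp (CS κ.ord) g x ∈ CS κ.ord g ∧ x ≤ stp (CS κ.ord) g x := csInf_mem hne
    exact (hk.sub g (C.ck_colS hgC) hge.le _ hσ.1).2
  have hstpX : ∀ x ∈ Z, stp (CS κ.ord) g x ∈ XX π g' ν := fun x hx =>
    hνE.2.1.stp' gX hx.1 ((hstpg x hx).trans hg)
  have S : Sit κ π g a (eta κ a) Z := by
    refine ⟨C, hgC, C.eta_new hf hbad hb₀C (hZe b₀ hb₀Z).1, fun b hb => hb.2.2.1,
      fun b hb => (hZe b hb).1, fun b hb => hb.2.1, fun b hb b' hb' hbb' =>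
      hsubX b' hb' b hb.1 hbb', fun b hb => C.ff_le_eta hf hbad hb.2.2.1 (hZe b hb).1, ?_, ?_, ?_,
      ⟨b₀, hb₀Z⟩, ?_⟩
    · intro b hb
      exact ⟨nl b, hnlZ b hb.1 hb.2.1 hb.2.2.2, (hnl2 b hb.2.1).1, (hnl2 b hb.2.1).2.2⟩
    · intro x hx b hb hlt
      exact hsubX b hb _ (hstpX x hx) hlt
    · intro x hx
      rcases le_total (stp (CS κ.ord) g x) b₀ with h1 | h1
      · exact ⟨nl b₀, hnlZ b₀ hb₀X hb₀g le_rfl, h1.trans_lt (hnl2 b₀ hb₀g).1⟩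
      · exact ⟨nl (stp (CS κ.ord) g x), hnlZ _ (hstpX x hx) (hstpg x hx) h1,
          (hnl2 _ (hstpg x hx)).1⟩
    · intro f hf
      have h1 : ∀ n, hinv (f n) < ν := fun n =>
        A'.int1 _ (hinvX _ (hf n).1) (hh2 _)
      obtain ⟨c, hc, hfc⟩ := hνu _ h1
      have h2 : ∀ n, f n < h c := fun n =>
        (hh4 _ (hf n).2.1).trans_le (hh3 _ _ (hfc n).le (hc.trans hνE.1))
      have h3 : h c ∈ XX π g' ν := hX c (A'.int2 c hc)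
      refine ⟨nl (h c), hnlZ _ h3 (hh1 c) ((hf 0).2.2.2.trans (h2 0).le), fun n =>
        (h2 n).trans (hnl2 _ (hh1 c)).1⟩
  -- the walk at level `a`
  obtain ⟨u1, u2, u3⟩ := C.uu_facts hf hbad hb₀C (hZe b₀ hb₀Z).1
  have hdu : dl π a Z ≤ uu κ a := u3 _ S.dl_colS S.dl_le
  obtain ⟨⟨d₀, hd₀, hd₀'⟩, _⟩ := p_WALK {τ | ColS a τ} (CS a) (eta κ a) S.coha (dl π a Z) (uu κ a)
    S.dl_pos S.dl_unb u1 hdu u2
  obtain ⟨β₁, hβ₁, hdβ₁⟩ := S.ex_dl hd₀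
  set m : ℕ := cc (CS a) (dl π a Z) (uu κ a) with hm
  obtain ⟨x1, x2, x3⟩ := hw2 m β₁ hβ₁.2.1
  have hxZ : w m β₁ ∈ Z := ⟨wX m β₁ hβ₁.1, hw1 m β₁, hA _ x1, hβ₁.2.2.2.trans x2.le⟩
  have h1 := hd₀' (ff π (w m β₁) a) (S.colS hxZ) (hdβ₁.trans (S.ff_lt hβ₁ hxZ x2)) (S.ff_dl hxZ)
  rw [S.rho_dl hxZ] at h1
  have h2 := hc _ x1 ζ hζB
  rw [hZa _ hxZ, h1] at h2
  exact x3 h2

end

end Pool.Agent.LMach
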