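import Pool.Agent.LMach.Spec

/-!
# The machine: weakly compact cardinals

Weakly compact cardinals are regular and strong limits, and carry normal unsplit sets.
-/

open Set Cardinal

universe u

namespace Pool.Agent.LMach

namespace VSide

theorem exists_mem_gt {lam : Cardinal.{u}} (hl : ℵ₀ ≤ lam) (A : Set lam.ord.ToType)
    (hA : Cardinal.mk A = lam) (i : lam.ord.ToType) : ∃ j ∈ A, i < j := by
  by_contra hcon
  push Not at hcon
  have h1 : A ⊆ Iic i := fun j hj => hcon j hj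
  have h2 : Cardinal.mk (Iic i) < lam := by
    have hsub : Iic i = Iio i ∪ {i} := by
      ext y; simp [le_iff_lt_or_eq]
    rw [hsub]
    refine lt_of_le_of_lt (mk_union_le _ _) ?_
    refine add_lt_of_lt hl (by simpa using Cardinal.mk_Iio_lt i) ?_
    exact lt_of_lt_of_le (by simp) hl
  have h3 := mk_le_mk_of_subset h1
  rw [hA] at h3
  exact absurd h3 (not_le.mpr h2)

theorem isRegular {kap : Cardinal.{u}} (h : WC kap) : kap.IsRegular := by
  obtain ⟨h0, hc⟩ := h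
  refine ⟨h0.le, ?_⟩
  by_contra hcon
  rw [not_le] at hcon
  obtain ⟨S, hS1, hS2⟩ := Order.exists_cof_eq kap.ord.ToType
  rw [Ordinal.cof_toType] at hS2
  classical
  choose p hp1 hp2 using hS1
  obtain ⟨H, hH, b, hHb⟩ := hc (fun x y => decide (p x = p y))
  have hHinf : ∀ x, ∃ y ∈ H, x < y := exists_mem_gt h0.le H hH
  cases b with
  | true =>
    have hne : H.Nonempty := by
      rw [← mk_set_ne_zero_iff, hH]
      exact ne_of_gt (lt_of_le_of_lt zero_le h0)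
    obtain ⟨x, hx⟩ := hne
    obtain ⟨y, hy, hxy⟩ := hHinf (p x)
    have h1 := hHb x hx y hy (lt_of_le_of_lt (hp2 x) hxy)
    rw [decide_eq_true_iff] at h1
    have h2 := hp2 y
    rw [← h1] at h2
    exact absurd h2 (not_le.mpr hxy)
  | false =>
    have hinj : ∀ x ∈ H, ∀ y ∈ H, x < y → p x ≠ p y := by
      intro x hx y hy hxy
      have h1 := hHb x hx y hy hxy
      rwa [decide_eq_false_iff_not] at h1
    have : Cardinal.mk H ≤ Cardinal.mk S :=
      mk_le_of_injective (f := fun x : H => (⟨p x, hp1 x⟩ : S)) (by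
        intro x y hxy
        have hxy' : p x = p y := congrArg Subtype.val hxy
        rcases lt_trichotomy x.1 y.1 with h1 | h1 | h1
        · exact absurd hxy' (hinj _ x.2 _ y.2 h1)
        · exact Subtype.ext h1
        · exact absurd hxy'.symm (hinj _ y.2 _ x.2 h1))
    rw [hH, hS2] at this
    exact absurd this (not_le.mpr hcon)

/-- weak compactness in terms of ordinals -/
theorem wc_ord {κ : Cardinal.{u}} (h : WC κ) (c : Ordinal.{u} → Ordinal.{u} → Prop) :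
    ∃ H : Set Ordinal.{u}, (∀ z ∈ H, z < κ.ord) ∧ (∀ x < κ.ord, ∃ z ∈ H, x < z) ∧
      ((∀ x ∈ H, ∀ y ∈ H, x < y → c x y) ∨ (∀ x ∈ H, ∀ y ∈ H, x < y → ¬ c x y)) := by
  classical
  obtain ⟨H, hH, b, hHb⟩ := h.2 (fun x y => decide (c (Ordinal.ToType.mk.symm x).1
    (Ordinal.ToType.mk.symm y).1))
  refine ⟨(fun x => (Ordinal.ToType.mk.symm x).1) '' H, ?_, ?_, ?_⟩
  · rintro _ ⟨x, -, rfl⟩
    exact (Ordinal.ToType.mk.symm x).2
  · intro x hx
    obtain ⟨j, hj, hij⟩ := exists_mem_gt h.1.le H hH (Ordinal.ToType.mk ⟨x, hx⟩)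
    refine ⟨_, ⟨j, hj, rfl⟩, ?_⟩
    have := (Ordinal.ToType.mk (o := κ.ord)).symm.lt_iff_lt.2 hij
    have h5 : (⟨x, hx⟩ : Iio κ.ord) < Ordinal.ToType.mk.symm j := by simpa using this
    exact h5
  · cases b with
    | true =>
      left
      rintro _ ⟨x, hx, rfl⟩ _ ⟨y, hy, rfl⟩ hxy
      have h1 : x < y := (Ordinal.ToType.mk (o := κ.ord)).symm.lt_iff_lt.1 hxy
      have := hHb x hx y hy h1
      rwa [decide_eq_true_iff] at this
    | false =>
      right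
      rintro _ ⟨x, hx, rfl⟩ _ ⟨y, hy, rfl⟩ hxy
      have h1 : x < y := (Ordinal.ToType.mk (o := κ.ord)).symm.lt_iff_lt.1 hxy
      have := hHb x hx y hy h1
      rwa [decide_eq_false_iff_not] at this

/-- suprema below a regular cardinal -/
theorem reg_sup {κ : Cardinal.{u}} (hκ : κ.IsRegular) {a : Ordinal.{u}} (ha : a < κ.ord)
    (F : Ordinal.{u} → Ordinal.{u}) (hF : ∀ j < a, F j < κ.ord) :
    ∃ b < κ.ord, ∀ j < a, F j < b := by
  refine ⟨⨆ j : Iio a, (F j.1 + 1), ?_, ?_⟩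
  · apply Ordinal.lift_iSup_add_one_lt_of_lt_cof
    · rw [← Ordinal.lift_cof, hκ.cof_ord]
      have h1 : #(Iio a) = Cardinal.lift.{u+1} a.card := by simp
      have h2 : a.card < κ := by rwa [← lt_ord]
      rw [h1, Cardinal.lift_lift]
      exact Cardinal.lift_lt.2 h2
    · intro j
      exact hF j.1 j.2
  · intro j hj
    exact Ordinal.lt_iSup_add_one (fun j : Iio a => F j.1) ⟨j, hj⟩

/-- countable suprema below a regular uncountable cardinal -/
theorem reg_sup_nat {κ : Cardinal.{u}} (hκ : κ.IsRegular) (hκ0 : ℵ₀ < κ)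
    (F : ℕ → Ordinal.{u}) (hF : ∀ n, F n < κ.ord) : ∃ b < κ.ord, ∀ n, F n ≤ b := by
  refine ⟨⨆ n, F n, ?_, fun n => Ordinal.le_iSup F n⟩
  apply Ordinal.lift_iSup_lt_of_lt_cof _ hF
  rw [← Ordinal.lift_cof, hκ.cof_ord]
  simpa using hκ0

theorem lim_ord {κ : Cardinal.{u}} (hκ : κ.IsRegular) : ∀ x < κ.ord, x + 1 < κ.ord := fun _ hx =>
  (isSuccLimit_ord hκ.aleph0_le).add_one_lt hx

/-- unsplit sets, indexed by the ordinals below `κ` -/
theorem ep {κ : Cardinal.{u}} (h : WC κ) (S : Ordinal.{u} → Set Ordinal.{u}) :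
    ∃ H : Set Ordinal.{u}, (∀ z ∈ H, z < κ.ord) ∧ (∀ x < κ.ord, ∃ z ∈ H, x < z) ∧
      ∀ i < κ.ord, AE κ H (fun z => z ∈ S i) ∨ AE κ H (fun z => z ∉ S i) := by
  have hreg := isRegular h
  let fd : Ordinal.{u} → Ordinal.{u} → Ordinal.{u} := fun x y => sInf {i | ¬ (x ∈ S i ↔ y ∈ S i)}
  have hfd : ∀ x y i, ¬ (x ∈ S i ↔ y ∈ S i) → (∀ j < i, (x ∈ S j ↔ y ∈ S j)) → fd x y = i := by
    intro x y i h1 h2
    apply le_antisymm (csInf_le' h1)
    by_contra hlt
    rw [not_le] at hlt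
    exact (csInf_mem (s := {i | ¬ (x ∈ S i ↔ y ∈ S i)}) ⟨i, h1⟩) (h2 _ hlt)
  obtain ⟨H, hH1, hH2, hH3⟩ := wc_ord h (fun x y => y ∈ S (fd x y))
  refine ⟨H, hH1, hH2, ?_⟩
  have key : ∀ i < κ.ord, ∃ b < κ.ord, ∀ z ∈ H, ∀ z' ∈ H, b < z → b < z' →
      (z ∈ S i ↔ z' ∈ S i) := by
    intro i
    induction i using WellFoundedLT.induction with
    | ind i ih =>
      intro hi
      have ih' : ∀ j : Ordinal.{u}, ∃ b : Ordinal.{u}, j < i → b < κ.ord ∧ ∀ z ∈ H, ∀ z' ∈ H,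
          b < z → b < z' → (z ∈ S j ↔ z' ∈ S j) := by
        intro j
        by_cases hj : j < i
        · obtain ⟨b, hb, hb2⟩ := ih j hj (hj.trans hi)
          exact ⟨b, fun _ => ⟨hb, hb2⟩⟩
        · exact ⟨0, fun h => absurd h hj⟩
      choose F hF using ih'
      obtain ⟨B, hB, hB2⟩ := reg_sup hreg hi F (fun j hj => (hF j hj).1)
      have hagree : ∀ z ∈ H, ∀ z' ∈ H, B < z → B < z' → ∀ j < i, (z ∈ S j ↔ z' ∈ S j) :=
        fun z hz z' hz' h1 h2 j hj =>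
          (hF j hj).2 z hz z' hz' ((hB2 j hj).trans h1) ((hB2 j hj).trans h2)
      rcases hH3 with hc | hc
      · by_cases hex : ∃ z₀ ∈ H, B < z₀ ∧ z₀ ∈ S i
        · obtain ⟨z₀, hz₀, hBz₀, hz₀S⟩ := hex
          have hall : ∀ z ∈ H, z₀ < z → z ∈ S i := by
            intro z hz hlt
            by_contra hzS
            have h1 := hfd z₀ z i (fun hh => hzS (hh.1 hz₀S))
              (hagree z₀ hz₀ z hz hBz₀ (hBz₀.trans hlt))
            have h2 := hc z₀ hz₀ z hz hlt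
            rw [h1] at h2
            exact hzS h2
          exact ⟨z₀, hH1 z₀ hz₀, fun z hz z' hz' h1 h2 =>
            ⟨fun _ => hall z' hz' h2, fun _ => hall z hz h1⟩⟩
        · push Not at hex
          exact ⟨B, hB, fun z hz z' hz' h1 h2 =>
            ⟨fun h3 => absurd h3 (hex z hz h1), fun h3 => absurd h3 (hex z' hz' h2)⟩⟩
      · by_cases hex : ∃ z₀ ∈ H, B < z₀ ∧ z₀ ∉ S i
        · obtain ⟨z₀, hz₀, hBz₀, hz₀S⟩ := hex
          have hall : ∀ z ∈ H, z₀ < z → z ∉ S i := by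
            intro z hz hlt hzS
            have h1 := hfd z₀ z i (fun hh => hz₀S (hh.2 hzS))
              (hagree z₀ hz₀ z hz hBz₀ (hBz₀.trans hlt))
            have h2 := hc z₀ hz₀ z hz hlt
            rw [h1] at h2
            exact h2 hzS
          exact ⟨z₀, hH1 z₀ hz₀, fun z hz z' hz' h1 h2 =>
            ⟨fun h3 => absurd h3 (hall z hz h1), fun h3 => absurd h3 (hall z' hz' h2)⟩⟩
        · push Not at hex
          exact ⟨B, hB, fun z hz z' hz' h1 h2 =>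
            ⟨fun _ => hex z' hz' h2, fun _ => hex z hz h1⟩⟩
  intro i hi
  obtain ⟨b, hb, hb2⟩ := key i hi
  obtain ⟨z₀, hz₀, hbz₀⟩ := hH2 b hb
  by_cases hz : z₀ ∈ S i
  · exact Or.inl ⟨b, hb, fun z hz' hbz => (hb2 z₀ hz₀ z hz' hbz₀ hbz).1 hz⟩
  · exact Or.inr ⟨b, hb, fun z hz' hbz hzz => hz ((hb2 z₀ hz₀ z hz' hbz₀ hbz).2 hzz)⟩

/-- unsplit sets, for a family of at most `κ` sets -/
theorem ep' {κ : Cardinal.{u}} (h : WC κ) {I : Type u} (hI : #I ≤ κ) (S : I → Set Ordinal.{u}) :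
    ∃ H : Set Ordinal.{u}, (∀ z ∈ H, z < κ.ord) ∧ (∀ x < κ.ord, ∃ z ∈ H, x < z) ∧
      ∀ i, AE κ H (fun z => z ∈ S i) ∨ AE κ H (fun z => z ∉ S i) := by
  classical
  have hI' : #I ≤ #(κ.ord.ToType) := by rwa [mk_toType, card_ord]
  obtain ⟨e⟩ := hI'
  obtain ⟨H, h1, h2, h3⟩ := ep h (fun x => if hx : ∃ i, (Ordinal.ToType.mk.symm (e i)).1 = x then
    S hx.choose else ∅)
  refine ⟨H, h1, h2, fun i => ?_⟩
  have := h3 (Ordinal.ToType.mk.symm (e i)).1 (Ordinal.ToType.mk.symm (e i)).2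
  have hx : ∃ i', (Ordinal.ToType.mk.symm (e i')).1 = (Ordinal.ToType.mk.symm (e i)).1 := ⟨i, rfl⟩
  have hi : hx.choose = i := by
    have := hx.choose_spec
    exact e.injective ((Ordinal.ToType.mk (o := κ.ord)).symm.injective (Subtype.ext this))
  simp only [hx, dif_pos, hi] at this
  exact this

theorem AE.and {κ : Cardinal.{u}} {H : Set Ordinal.{u}} {P Q : Ordinal.{u} → Prop}
    (h1 : AE κ H P) (h2 : AE κ H Q) : AE κ H (fun z => P z ∧ Q z) := by
  obtain ⟨b, hb, hb2⟩ := h1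
  obtain ⟨c, hc, hc2⟩ := h2
  exact ⟨max b c, max_lt hb hc, fun z hz hlt =>
    ⟨hb2 z hz ((le_max_left _ _).trans_lt hlt), hc2 z hz ((le_max_right _ _).trans_lt hlt)⟩⟩

theorem AE.mono {κ : Cardinal.{u}} {H : Set Ordinal.{u}} {P Q : Ordinal.{u} → Prop}
    (h1 : AE κ H P) (h2 : ∀ z ∈ H, P z → Q z) : AE κ H Q := by
  obtain ⟨b, hb, hb2⟩ := h1
  exact ⟨b, hb, fun z hz hlt => h2 z hz (hb2 z hz hlt)⟩

/-- strong limit -/
theorem isStrongLimit {κ : Cardinal.{u}} (h : WC κ) : κ.IsStrongLimit := by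
  have hreg := isRegular h
  refine ⟨(zero_le.trans_lt h.1).ne', ?_⟩
  intro μ hμ
  by_contra hcon
  rw [not_lt] at hcon
  have h1 : #(κ.ord.ToType) ≤ #(Set μ.ord.ToType) := by
    rw [mk_toType, card_ord, mk_set, mk_toType, card_ord]
    exact hcon
  obtain ⟨e⟩ := h1
  obtain ⟨H, hH1, hH2, hH3⟩ := ep h (fun i => {x | ∃ (hx : x < κ.ord) (hi : i < μ.ord),
    Ordinal.ToType.mk ⟨i, hi⟩ ∈ e (Ordinal.ToType.mk ⟨x, hx⟩)})
  have hμκ : μ.ord < κ.ord := ord_lt_ord.2 hμ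
  have h2 : ∀ i : Ordinal.{u}, ∃ b : Ordinal.{u}, i < μ.ord → b < κ.ord ∧ ∀ z ∈ H, ∀ z' ∈ H,
      b < z → b < z' → ∀ (hz : z < κ.ord) (hz' : z' < κ.ord) (hi : i < μ.ord),
      (Ordinal.ToType.mk ⟨i, hi⟩ ∈ e (Ordinal.ToType.mk ⟨z, hz⟩) ↔
        Ordinal.ToType.mk ⟨i, hi⟩ ∈ e (Ordinal.ToType.mk ⟨z', hz'⟩)) := by
    intro i
    by_cases hi : i < μ.ord
    · rcases hH3 i (hi.trans hμκ) with ⟨b, hb, hb2⟩ | ⟨b, hb, hb2⟩
      · refine ⟨b, fun _ => ⟨hb, fun z hz z' hz' h3 h4 hzκ hzκ' _ => ?_⟩⟩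
        obtain ⟨_, _, h5⟩ := hb2 z hz h3
        obtain ⟨_, _, h6⟩ := hb2 z' hz' h4
        exact ⟨fun _ => h6, fun _ => h5⟩
      · refine ⟨b, fun _ => ⟨hb, fun z hz z' hz' h3 h4 hzκ hzκ' hi' => ?_⟩⟩
        exact ⟨fun h5 => absurd ⟨hzκ, hi', h5⟩ (hb2 z hz h3),
          fun h5 => absurd ⟨hzκ', hi', h5⟩ (hb2 z' hz' h4)⟩
    · exact ⟨0, fun h => absurd h hi⟩
  choose F hF using h2
  obtain ⟨B, hB, hB2⟩ := reg_sup hreg hμκ F (fun j hj => (hF j hj).1)
  obtain ⟨z, hz, hBz⟩ := hH2 B hB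
  obtain ⟨z', hz', hzz'⟩ := hH2 z (hH1 z hz)
  have heq : e (Ordinal.ToType.mk ⟨z, hH1 z hz⟩) = e (Ordinal.ToType.mk ⟨z', hH1 z' hz'⟩) := by
    ext t
    have hi := (Ordinal.ToType.mk.symm t).2
    have hi' : (Ordinal.ToType.mk.symm t).1 < μ.ord := hi
    have := (hF _ hi').2 z hz z' hz' ((hB2 _ hi').trans hBz) ((hB2 _ hi').trans (hBz.trans hzz'))
      (hH1 z hz) (hH1 z' hz') hi'
    have ht : Ordinal.ToType.mk ⟨(Ordinal.ToType.mk.symm t).1, hi'⟩ = t :=
      (Ordinal.ToType.mk (o := μ.ord)).apply_symm_apply t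
    rwa [ht] at this
  have h5 := (Ordinal.ToType.mk (o := κ.ord)).injective (e.injective heq)
  exact hzz'.ne (congrArg Subtype.val h5)

/-- compositions of the functions `f i` -/
noncomputable def comp {κ : Cardinal.{u}} (f : Ordinal.{u} → Ordinal.{u} → Ordinal.{u}) :
    List κ.ord.ToType → Ordinal.{u} → Ordinal.{u}
  | [], z => z
  | i :: w, z => f (Ordinal.ToType.mk.symm i).1 (comp f w z)

theorem comp_lt {κ : Cardinal.{u}} (f : Ordinal.{u} → Ordinal.{u} → Ordinal.{u})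
    (hf : ∀ i < κ.ord, ∀ z < κ.ord, f i z < κ.ord) (w : List κ.ord.ToType) (z : Ordinal.{u})
    (hz : z < κ.ord) : comp f w z < κ.ord := by
  induction w with
  | nil => exact hz
  | cons i w ih => exact hf _ (Ordinal.ToType.mk.symm i).2 _ ih

end VSide

open VSide

theorem p_SL : T_SL.{u} := fun _ h => ⟨isRegular h, isStrongLimit h⟩

theorem p_NUL : T_NUL.{u} := by
  intro κ hwc S f hf
  have hreg := isRegular hwc
  have hκ0 : ℵ₀ < κ := hwc.1
  let X := κ.ord.ToType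
  have hX : #X = κ := by rw [mk_toType, card_ord]
  have : Infinite X := by
    rw [Cardinal.infinite_iff, hX]
    exact hκ0.le
  have hL : #(List X) = κ := by rw [mk_list_eq_mk, hX]
  let g : List X → Ordinal.{u} → Ordinal.{u} := comp f
  have hg : ∀ w z, z < κ.ord → g w z < κ.ord := comp_lt f hf
  have hI : #((List X × List X) ⊕ ((List X × X) ⊕ (List X × X))) ≤ κ := by
    simp only [mk_sum, mk_prod, lift_id, hL, hX]
    rw [mul_eq_self hκ0.le, add_eq_self hκ0.le, add_eq_self hκ0.le]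
  obtain ⟨H₀, h01, h02, h03⟩ := ep' hwc hI (fun i => match i with
    | Sum.inl (w, w') => {z | g w z < g w' z}
    | Sum.inr (Sum.inl (w, c)) => {z | g w z = (Ordinal.ToType.mk.symm c).1}
    | Sum.inr (Sum.inr (w, i)) => {z | g w z ∈ S (Ordinal.ToType.mk.symm i).1})
  have hlt : ∀ w w', AE κ H₀ (fun z => g w z < g w' z) ∨ AE κ H₀ (fun z => ¬ g w z < g w' z) :=
    fun w w' => h03 (Sum.inl (w, w'))
  have heq : ∀ w, ∀ c < κ.ord, AE κ H₀ (fun z => g w z = c) ∨ AE κ H₀ (fun z => ¬ g w z = c) := by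
    intro w c hc
    have := h03 (Sum.inr (Sum.inl (w, Ordinal.ToType.mk ⟨c, hc⟩)))
    simpa using this
  have hS : ∀ w, ∀ i < κ.ord, AE κ H₀ (fun z => g w z ∈ S i) ∨
      AE κ H₀ (fun z => ¬ g w z ∈ S i) := by
    intro w i hi
    have := h03 (Sum.inr (Sum.inr (w, Ordinal.ToType.mk ⟨i, hi⟩)))
    simpa using this
  -- the least function that is not almost constant
  let N : List X → Prop := fun w => ∀ c < κ.ord, ¬ AE κ H₀ (fun z => g w z = c)
  have hN0 : N [] := by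
    rintro c hc ⟨b, hb, hb2⟩
    obtain ⟨z, hz, hz2⟩ := h02 (max b c) (max_lt hb hc)
    have := hb2 z hz ((le_max_left _ _).trans_lt hz2)
    have h1 : z = c := this
    exact ((le_max_right b c).trans_lt hz2).ne' h1
  obtain ⟨w₀, hw₀, hmin⟩ : ∃ w₀, N w₀ ∧ ∀ w, N w → ¬ AE κ H₀ (fun z => g w z < g w₀ z) := by
    by_contra hcon
    push Not at hcon
    choose! nx hnx1 hnx2 using hcon
    let sq : ℕ → List X := fun n => nx^[n] []
    have hsq : ∀ n, N (sq n) := by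
      intro n
      induction n with
      | zero => exact hN0
      | succ n ih =>
        simp only [sq, Function.iterate_succ_apply']
        exact hnx1 _ ih
    have hdec : ∀ n, AE κ H₀ (fun z => g (sq (n + 1)) z < g (sq n) z) := by
      intro n
      have := hnx2 _ (hsq n)
      simp only [sq, Function.iterate_succ_apply'] at this ⊢
      exact this
    choose b hb hb2 using hdec
    obtain ⟨B, hB, hB2⟩ := reg_sup_nat hreg hκ0 b hb
    obtain ⟨z, hz, hBz⟩ := h02 B hB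
    have hd : ∀ n, g (sq (n + 1)) z < g (sq n) z := fun n => hb2 n z hz ((hB2 n).trans_lt hBz)
    exact (RelEmbedding.natGT (fun n => g (sq n) z) hd).not_wellFounded Ordinal.lt_wf
  -- transfer
  have htr : ∀ P : Ordinal.{u} → Prop, AE κ H₀ (fun z => P (g w₀ z)) → AE κ (g w₀ '' H₀) P := by
    rintro P ⟨b, hb, hb2⟩
    obtain ⟨b', hb', hb'2⟩ := reg_sup hreg (lim_ord hreg b hb) (g w₀)
      (fun j hj => hg w₀ j (hj.trans (lim_ord hreg b hb)))
    refine ⟨b', hb', ?_⟩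
    rintro _ ⟨z, hz, rfl⟩ hlt
    apply hb2 z hz
    by_contra hzb
    rw [not_lt] at hzb
    exact (hb'2 z (Order.lt_add_one_iff.2 hzb)).not_gt hlt
  refine ⟨g w₀ '' H₀, ?_, ?_, ?_, ?_⟩
  · rintro _ ⟨z, hz, rfl⟩
    exact hg w₀ z (h01 z hz)
  · intro x hx
    have h1 : ∀ c : Ordinal.{u}, ∃ b : Ordinal.{u}, c < x + 1 → b < κ.ord ∧
        ∀ z ∈ H₀, b < z → ¬ g w₀ z = c := by
      intro c
      by_cases hc : c < x + 1
      · have hcκ := hc.trans (lim_ord hreg x hx)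
        rcases heq w₀ c hcκ with h2 | ⟨b, hb, hb2⟩
        · exact absurd h2 (hw₀ c hcκ)
        · exact ⟨b, fun _ => ⟨hb, hb2⟩⟩
      · exact ⟨0, fun h => absurd h hc⟩
    choose F hF using h1
    obtain ⟨B, hB, hB2⟩ := reg_sup hreg (lim_ord hreg x hx) F (fun j hj => (hF j hj).1)
    obtain ⟨z, hz, hBz⟩ := h02 B hB
    refine ⟨_, ⟨z, hz, rfl⟩, ?_⟩
    by_contra hle
    rw [not_lt] at hle
    have h3 := Order.lt_add_one_iff.2 hle
    exact (hF _ h3).2 z hz ((hB2 _ h3).trans hBz) rfl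
  · intro i hi
    rcases hS w₀ i hi with h1 | h1
    · exact Or.inl (htr _ h1)
    · exact Or.inr (htr _ h1)
  · intro i hi
    set w : List X := Ordinal.ToType.mk ⟨i, hi⟩ :: w₀ with hw
    have hgw : ∀ z, g w z = f i (g w₀ z) := by
      intro z
      show f (Ordinal.ToType.mk.symm (Ordinal.ToType.mk ⟨i, hi⟩)).1 (comp f w₀ z) = _
      rw [OrderIso.symm_apply_apply]
    by_cases hNw : N w
    · left
      rcases hlt w w₀ with h1 | h1
      · exact absurd h1 (hmin w hNw)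
      · refine htr (fun z => z ≤ f i z) (AE.mono h1 fun z _ h2 => ?_)
        rw [hgw] at h2
        exact not_lt.1 h2
    · right
      simp only [N] at hNw
      push Not at hNw
      obtain ⟨c, hc, h1⟩ := hNw
      refine ⟨c, hc, htr (fun z => f i z = c) (AE.mono h1 fun z _ h2 => ?_)⟩
      rwa [hgw] at h2

end Pool.Agent.LMach
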