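import Pool.Agent.LMach.TB
import Pool.Agent.LMach.FinC
import Pool.Agent.LMach.VSide

/-!
# Case I
-/

open Set Cardinal Order

universe u

namespace Pool.Agent.LMach

/-- A colouring of the natural numbers without infinite monochromatic arithmetic progressions. -/
def chi (n : ℕ) : Bool := decide (Nat.log 2 (n + 1) % 2 = 0)

theorem chi_spec (m p : ℕ) (hp : 1 ≤ p) (i : Bool) : ∃ k : ℕ, chi (m + k * p) ≠ i := by
  -- a point of the progression between `2 ^ j` and `2 ^ (j + 1)`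
  have key : ∀ j : ℕ, m + p < 2 ^ j → ∃ k : ℕ, Nat.log 2 (m + k * p + 1) = j := by
    intro j hj
    refine ⟨(2 ^ j - (m + 1)) / p + 1, ?_⟩
    have h1 := Nat.div_add_mod (2 ^ j - (m + 1)) p
    have h2 := Nat.mod_lt (2 ^ j - (m + 1)) (show p > 0 from hp)
    generalize (2 ^ j - (m + 1)) / p = q at h1
    generalize (2 ^ j - (m + 1)) % p = r at h1 h2
    have h3 : m + (q + 1) * p + 1 = 2 ^ j + (p - r) := by
      have : (q + 1) * p = p * q + p := by ring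
      omega
    rw [h3]
    refine Nat.log_eq_of_pow_le_of_lt_pow (by omega) ?_
    rw [pow_succ]
    omega
  have hlt : m + p < 2 ^ (2 * (m + p)) := by
    calc m + p ≤ 2 * (m + p) := by omega
      _ < 2 ^ (2 * (m + p)) := Nat.lt_two_pow_self
  obtain ⟨k₀, hk₀⟩ := key (2 * (m + p)) hlt
  obtain ⟨k₁, hk₁⟩ := key (2 * (m + p) + 1) (hlt.trans (by
    rw [pow_succ]; have : 0 < 2 ^ (2 * (m + p)) := by positivity
    omega))
  cases i with
  | true =>
    refine ⟨k₁, ?_⟩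
    unfold chi
    rw [hk₁]
    have : ¬ (2 * (m + p) + 1) % 2 = 0 := by omega
    simp
  | false =>
    refine ⟨k₀, ?_⟩
    unfold chi
    rw [hk₀]
    have : (2 * (m + p)) % 2 = 0 := by omega
    simp [this]

/-- sets of full size are unbounded -/
theorem unb_of_mk {c : Cardinal.{u}} (h0 : ℵ₀ ≤ c) {A : Set c.ord.ToType}
    (hA : Cardinal.mk A = c) {x : Ordinal.{u}} (hx : x < c.ord) :
    ∃ i ∈ A, x < ((Ordinal.ToType.mk (o := c.ord)).symm i).1 := by
  by_contra hcon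
  push Not at hcon
  have h1 : Cardinal.mk A ≤ Cardinal.mk (x + 1).ToType := by
    refine mk_le_of_injective (f := fun i : A => Ordinal.ToType.mk
      (o := x + 1) ⟨((Ordinal.ToType.mk (o := c.ord)).symm i.1).1,
        lt_add_one_iff.mpr (hcon i.1 i.2)⟩) ?_
    intro i j hij
    have h2 := (Ordinal.ToType.mk (o := x + 1)).injective hij
    have h3 := congrArg (fun z : Iio (x + 1) => z.1) h2
    exact Subtype.ext ((Ordinal.ToType.mk (o := c.ord)).symm.injective (Subtype.ext h3))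
  rw [hA, mk_toType] at h1
  exact absurd (lt_ord.mp (succ_lt h0 hx)) (not_lt.mpr h1)

theorem p_C1 (hBP : T_BP.{u}) (hNT : T_NT.{u}) : T_C1.{u} := by
  intro κ hκ hSP hnew f hf
  by_contra hbad
  push Not at hbad
  obtain ⟨hreg, hsl⟩ := p_SL κ hκ
  have h0 := hκ.1
  have hcont : Cardinal.continuum < κ := by
    rw [← two_power_aleph0]
    exact hsl.isStrongPrelimit h0
  have hunc : ℵ₁ < κ := aleph_one_le_continuum.trans_lt hcont
  obtain ⟨π, hπ0, hπ1, hπ2⟩ : ∃ π : Ordinal.{u} → Ordinal.{u} → Ordinal.{u}, π 0 = f ∧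
      (∀ b < (succ κ).ord, 0 < b → ∀ x < κ.ord, π b x < b) ∧
      (∀ b < (succ κ).ord, ∀ y < b, ∃ x < κ.ord, π b x = y) := by
    classical
    obtain ⟨π, h1, h2⟩ := exists_pi κ
    refine ⟨fun b => if b = 0 then f else π b, if_pos rfl, fun b hb hb0 => ?_, fun b hb y hy => ?_⟩
    · dsimp only
      rw [if_neg hb0.ne']
      exact h1 b hb hb0
    · dsimp only
      rw [if_neg (lt_of_le_of_lt zero_le hy).ne']
      exact h2 b hb y hy
  have C : Ctx κ π := ⟨hunc, hreg, hπ1, hπ2, hnew, (hBP κ hκ).2.2⟩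
  have hKl : (0 : Ordinal.{u}) < (succ κ).ord := C.posk.trans kK'
  -- the next closed point
  have hnx : ∀ i, ∃ b, i < (succ κ).ord → i < b ∧ CK κ π b := by
    intro i
    by_cases hi : i < (succ κ).ord
    · obtain ⟨b, _, h1, h2⟩ := C.ck_unb hi
      exact ⟨b, fun _ => ⟨h1, h2⟩⟩
    · exact ⟨0, fun h => absurd h hi⟩
  choose nx hnx using hnx
  let vK : (succ κ).ord.ToType → Ordinal.{u} := fun i =>
    ((Ordinal.ToType.mk (o := (succ κ).ord)).symm i).1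
  let vk : κ.ord.ToType → Ordinal.{u} := fun i => ((Ordinal.ToType.mk (o := κ.ord)).symm i).1
  have hvK : ∀ i, vK i < (succ κ).ord := fun i =>
    ((Ordinal.ToType.mk (o := (succ κ).ord)).symm i).2
  have hvk : ∀ i, vk i < κ.ord := fun i => ((Ordinal.ToType.mk (o := κ.ord)).symm i).2
  obtain ⟨A₀, B₀, hA₀, hB₀, ι, hι⟩ := hSP fun i z =>
    chi (rho (CS (em κ π (nx (vK i)) (vk z))) (ff π (nx (vK i)) (em κ π (nx (vK i)) (vk z)))
      (uu κ (em κ π (nx (vK i)) (vk z))))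
  let A : Set Ordinal.{u} := (fun i => nx (vK i)) '' A₀
  let B : Set Ordinal.{u} := vk '' B₀
  have hA : ∀ x ∈ A, CK κ π x := by
    rintro _ ⟨i, hi, rfl⟩
    exact (hnx _ (hvK i)).2
  have hAu : ∀ y < (succ κ).ord, ∃ x ∈ A, y < x := by
    intro y hy
    obtain ⟨i, hi, h⟩ := unb_of_mk C.h0K.le hA₀ hy
    exact ⟨_, ⟨i, hi, rfl⟩, h.trans (hnx _ (hvK i)).1⟩
  have hBu : ∀ y < κ.ord, ∃ x ∈ B, y < x := by
    intro y hy
    obtain ⟨i, hi, h⟩ := unb_of_mk C.h0.le hB₀ hy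
    exact ⟨_, ⟨i, hi, rfl⟩, h⟩
  have hcolS : ∀ g, UnbBelow (fun y => y ∈ A) g → UnbBelow (ColS κ.ord) g := by
    intro g hg x hx
    obtain ⟨y, h1, h2, h3⟩ := hg x hx
    exact ⟨y, h1, h2, C.ck_colS (hA y h3)⟩
  refine p_FINC κ chi A (rho (CS κ.ord)) (cc (CS κ.ord)) ι hreg hcont.le
    chi_spec (fun x hx => (hA x hx).2.1) hAu ?_ ?_ ?_
  · intro g₁ g h1 h2 h3 h4 h5 h6
    obtain ⟨e, _, hge, hne⟩ := hnew g h5
    have hk := hcoh κ.ord e e le_rfl hne
    have hg10 : 0 < g₁ := by rw [← Ordinal.cof_pos, h2]; exact aleph0_pos.trans h0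
    have hg0 : 0 < g := hg10.trans h6
    obtain ⟨⟨b, hb, hb'⟩, _⟩ := p_WALK {τ | ColS κ.ord τ} (CS κ.ord) e hk g₁ g hg10
      (hcolS g₁ h1) (hk.closed g hg0 (hcolS g h3)) h6.le hge.le
    exact ⟨b, hb, fun x hx h7 h8 => hb' x (C.ck_colS (hA x hx)) h7 h8⟩
  · intro Γ hΓ hΓu hcc
    refine hNT κ h0.le hnew Γ (fun g hg => ⟨(hΓ g hg).1, ?_, hcolS g (hΓ g hg).2.1⟩) hΓu ?_
    · have hg0 : 0 < g := by rw [← Ordinal.cof_pos, (hΓ g hg).2.2]; exact aleph0_pos.trans h0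
      obtain ⟨y, h1, _, h2⟩ := (hΓ g hg).2.1 0 hg0
      exact (hA y h2).1.trans h1
    · intro g₁ hg₁ g hg hlt
      obtain ⟨e, _, hge, hne⟩ := hnew g (hΓ g hg).1
      have hk := hcoh κ.ord e e le_rfl hne
      have hg10 : 0 < g₁ := by
        rw [← Ordinal.cof_pos, (hΓ g₁ hg₁).2.2]; exact aleph0_pos.trans h0
      obtain ⟨_, h⟩ := p_WALK {τ | ColS κ.ord τ} (CS κ.ord) e hk g₁ g hg10
        (hcolS g₁ (hΓ g₁ hg₁).2.1) (hk.closed g (hg10.trans hlt) (hcolS g (hΓ g hg).2.1))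
        hlt.le hge.le
      exact h hlt (hcc g₁ hg₁ g hg hlt)
  · intro g hg hgA hcf
    refine C.colour (B := B) (by rw [hπ0]; exact hf) (by rw [hπ0]; exact hbad) hA ?_ hBu ?_ hg hgA hcf
    · rintro _ ⟨i, hi, rfl⟩
      exact hvk i
    · rintro _ ⟨i, hi, rfl⟩ _ ⟨z, hz, rfl⟩
      exact hι i hi z hz

end Pool.Agent.LMach
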