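import Pool.Agent.LMach.Mach

/-!
# Hulls: basic facts, and terms
-/

open Set Cardinal Order

universe u

namespace Pool.Agent.LMach

theorem URel.lt {a b v : Ordinal.{u}} (h : URel a b v) : a ≤ b ∧ b < v := by
  obtain ⟨h1, g, e, rfl, _, h3, _, h5, _⟩ := h
  exact ⟨h1, (h5.trans h3).trans ((lt_add_one g).trans_le (le_code' _ _ _))⟩

theorem IsMn.lt {a v : Ordinal.{u}} (h : IsMn v a) : v < a := mem_lt' h.1

theorem IsMn.unique {a v w : Ordinal.{u}} (h : IsMn v a) (h' : IsMn w a) : v = w := by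
  rcases lt_trichotomy v w with h1 | h1 | h1
  · exact absurd h.1 (h'.2 v h1)
  · exact h1
  · exact absurd h'.1 (h.2 w h1)

theorem exists_mn {a w : Ordinal.{u}} (h : Mem w a) : ∃ v ≤ w, IsMn v a := by
  induction w using WellFoundedLT.induction with
  | _ w ih =>
    by_cases hc : ∃ w' < w, Mem w' a
    · obtain ⟨w', hw', h'⟩ := hc
      obtain ⟨v, hv, hv'⟩ := ih w' hw' h'
      exact ⟨v, hv.trans hw'.le, hv'⟩
    · push Not at hc
      exact ⟨w, le_rfl, h, hc⟩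

theorem URel.unique {a b v w : Ordinal.{u}} (h : URel a b v) (h' : URel a b w) : v = w := by
  obtain ⟨_, g, e, rfl, h2, h3, h4, h5, h6, h7⟩ := h
  obtain ⟨_, g', e', rfl, h2', h3', h4', h5', h6', h7'⟩ := h'
  have he : e = e' := by
    rcases lt_trichotomy e e' with h1 | h1 | h1
    · exact absurd h6 (h7' e h5 h1)
    · exact h1
    · exact absurd h6' (h7 e' h5' h1)
  subst he
  have hg : g = g' := by
    rcases lt_trichotomy g g' with h1 | h1 | h1
    · exact absurd h2 (h4' g h3 h1)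
    · exact h1
    · exact absurd h2' (h4 g' h3' h1)
  rw [hg]

theorem Cl.lt {θ : Ordinal.{u}} {Q : Set Ordinal.{u}} {x : Ordinal.{u}} (h : Cl θ Q x) : x < θ := by
  induction h with
  | base _ h => exact h
  | zero h => exact h
  | succ _ h _ => exact h
  | lev _ ih => exact (lev_le' _).trans_lt ih
  | hd _ ih => exact ((hd_le' _).trans (lev_le' _)).trans_lt ih
  | tl _ ih => exact ((tl_le' _).trans (lev_le' _)).trans_lt ih
  | mn _ h ih => exact h.lt.trans ih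
  | code _ _ _ _ _ h _ _ _ => exact h
  | up _ _ _ h _ _ => exact h

theorem Cl.idem {θ θ' : Ordinal.{u}} {Q Q' : Set Ordinal.{u}} {x : Ordinal.{u}} (hθ : θ ≤ θ')
    (hQ : ∀ y ∈ Q, y < θ → Cl θ' Q' y) (h : Cl θ Q x) : Cl θ' Q' x := by
  induction h with
  | base h1 h2 => exact hQ _ h1 h2
  | zero h => exact Cl.zero (h.trans_le hθ)
  | succ _ h ih => exact Cl.succ ih (h.trans_le hθ)
  | lev _ ih => exact Cl.lev ih
  | hd _ ih => exact Cl.hd ih
  | tl _ ih => exact Cl.tl ih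
  | mn _ h ih => exact Cl.mn ih h
  | code _ _ _ h1 h2 h ih1 ih2 ih3 => exact Cl.code ih1 ih2 ih3 h1 h2 (h.trans_le hθ)
  | up _ _ h1 h ih1 ih2 => exact Cl.up ih1 ih2 h1 (h.trans_le hθ)

theorem Cl.mono {θ θ' : Ordinal.{u}} {Q Q' : Set Ordinal.{u}} {x : Ordinal.{u}} (hθ : θ ≤ θ')
    (hQ : Q ⊆ Q') (h : Cl θ Q x) : Cl θ' Q' x :=
  h.idem hθ (fun _ h1 h2 => Cl.base (hQ h1) (h2.trans_le hθ))

theorem Cl.closedIn (θ : Ordinal.{u}) (Q : Set Ordinal.{u}) : ClosedIn θ {x | Cl θ Q x} :=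
  ⟨fun _ h => Cl.lt h, fun _ h => h.idem le_rfl (fun _ h _ => h)⟩

theorem Cl.down {θ θ' : Ordinal.{u}} {Q : Set Ordinal.{u}} (hθ : ∀ x, Cl θ Q x → x < θ')
    {x : Ordinal.{u}} (h : Cl θ Q x) : Cl θ' Q x := by
  induction h with
  | base h1 h2 => exact Cl.base h1 (hθ _ (Cl.base h1 h2))
  | zero h => exact Cl.zero (hθ _ (Cl.zero h))
  | succ h1 h ih => exact Cl.succ ih (hθ _ (Cl.succ h1 h))
  | lev _ ih => exact Cl.lev ih
  | hd _ ih => exact Cl.hd ih
  | tl _ ih => exact Cl.tl ih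
  | mn _ h ih => exact Cl.mn ih h
  | code a b c h1 h2 h ih1 ih2 ih3 =>
    exact Cl.code ih1 ih2 ih3 h1 h2 (hθ _ (Cl.code a b c h1 h2 h))
  | up a b h1 h ih1 ih2 => exact Cl.up ih1 ih2 h1 (hθ _ (Cl.up a b h1 h))

theorem Cl.cont {θ : Ordinal.{u}} {Q : Set Ordinal.{u}} {x : Ordinal.{u}}
    (hθ : ∀ y < θ, y + 1 < θ) (h : Cl θ Q x) : ∃ r < θ, Cl r Q x := by
  induction h with
  | base h1 h2 => exact ⟨_, hθ _ h2, Cl.base h1 (lt_add_one _)⟩
  | zero h => exact ⟨_, hθ _ h, Cl.zero (lt_add_one _)⟩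
  | @succ a _ h ih =>
    obtain ⟨r, hr, h'⟩ := ih
    exact ⟨max r (a + 1 + 1), max_lt hr (hθ _ h), Cl.succ (h'.mono (le_max_left _ _) subset_rfl)
      (lt_max_of_lt_right (lt_add_one _))⟩
  | lev _ ih => obtain ⟨r, hr, h'⟩ := ih; exact ⟨r, hr, Cl.lev h'⟩
  | hd _ ih => obtain ⟨r, hr, h'⟩ := ih; exact ⟨r, hr, Cl.hd h'⟩
  | tl _ ih => obtain ⟨r, hr, h'⟩ := ih; exact ⟨r, hr, Cl.tl h'⟩
  | mn _ h ih => obtain ⟨r, hr, h'⟩ := ih; exact ⟨r, hr, Cl.mn h' h⟩
  | @code a b c _ _ _ h1 h2 h ih1 ih2 ih3 =>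
    obtain ⟨r1, hr1, h1'⟩ := ih1
    obtain ⟨r2, hr2, h2'⟩ := ih2
    obtain ⟨r3, hr3, h3'⟩ := ih3
    refine ⟨max (max r1 r2) (max r3 (Pool.Agent.LMach.code a b c + 1)),
      max_lt (max_lt hr1 hr2) (max_lt hr3 (hθ _ h)), Cl.code (h1'.mono ?_ subset_rfl)
      (h2'.mono ?_ subset_rfl) (h3'.mono ?_ subset_rfl) h1 h2 ?_⟩
    · exact (le_max_left _ _).trans (le_max_left _ _)
    · exact (le_max_right _ _).trans (le_max_left _ _)
    · exact (le_max_left _ _).trans (le_max_right _ _)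
    · exact lt_max_of_lt_right (lt_max_of_lt_right (lt_add_one _))
  | @up a b v _ _ h1 h ih1 ih2 =>
    obtain ⟨r1, hr1, h1'⟩ := ih1
    obtain ⟨r2, hr2, h2'⟩ := ih2
    refine ⟨max (max r1 r2) (v + 1),
      max_lt (max_lt hr1 hr2) (hθ _ h), Cl.up (h1'.mono ?_ subset_rfl)
      (h2'.mono ?_ subset_rfl) h1 ?_⟩
    · exact (le_max_left _ _).trans (le_max_left _ _)
    · exact (le_max_right _ _).trans (le_max_left _ _)
    · exact lt_max_of_lt_right (lt_add_one _)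

theorem Cl.fin (r : Ordinal.{u}) : ∃ H : List Ordinal.{u}, (∀ y ∈ H, y < r) ∧
    ∀ (Q : Set Ordinal.{u}) (x : Ordinal.{u}), Cl (r + 1) Q x → x = r ∨ Cl r (Q ∪ {y | y ∈ H}) x := by
  classical
  let m : Ordinal.{u} := if h : ∃ v, IsMn v r then h.choose else 0
  have hm : ∀ v, IsMn v r → v = m := by
    intro v hv
    have h : ∃ v, IsMn v r := ⟨v, hv⟩
    simp only [m, dif_pos h]
    exact hv.unique h.choose_spec
  let H : List Ordinal.{u} := [Pool.Agent.LMach.lev r, Pool.Agent.LMach.hd r,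
    Pool.Agent.LMach.tl r, m].filter (fun y => decide (y < r))
  have hH : ∀ y, y ∈ [Pool.Agent.LMach.lev r, Pool.Agent.LMach.hd r,
    Pool.Agent.LMach.tl r, m] → y < r → y ∈ H := by
    intro y h1 h2
    exact List.mem_filter.mpr ⟨h1, by simpa using h2⟩
  refine ⟨H, fun y hy => by simpa using (List.mem_filter.mp hy).2, fun Q x h => ?_⟩
  have hunary : ∀ y, y ≤ r → y ∈ [Pool.Agent.LMach.lev r, Pool.Agent.LMach.hd r,
    Pool.Agent.LMach.tl r, m] → y = r ∨ Cl r (Q ∪ {y | y ∈ H}) y := by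
    intro y h1 h2
    rcases h1.eq_or_lt with h3 | h3
    · exact Or.inl h3
    · exact Or.inr (Cl.base (Or.inr (hH y h2 h3)) h3)
  induction h with
  | base h1 h2 =>
    rcases (lt_add_one_iff.mp h2).eq_or_lt with h3 | h3
    · exact Or.inl h3
    · exact Or.inr (Cl.base (Or.inl h1) h3)
  | zero h =>
    rcases (zero_le (a := r)).eq_or_lt with h3 | h3
    · exact Or.inl h3
    · exact Or.inr (Cl.zero h3)
  | @succ a _ h ih =>
    rcases (lt_add_one_iff.mp h).eq_or_lt with h3 | h3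
    · exact Or.inl h3
    · rcases ih with ih | ih
      · rw [ih] at h3
        exact absurd h3 (not_lt.mpr (lt_add_one r).le)
      · exact Or.inr (Cl.succ ih h3)
  | lev _ ih =>
    rcases ih with rfl | ih
    · exact hunary _ (lev_le' _) (by simp)
    · exact Or.inr (Cl.lev ih)
  | hd _ ih =>
    rcases ih with rfl | ih
    · exact hunary _ ((hd_le' _).trans (lev_le' _)) (by simp)
    · exact Or.inr (Cl.hd ih)
  | tl _ ih =>
    rcases ih with rfl | ih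
    · exact hunary _ ((tl_le' _).trans (lev_le' _)) (by simp)
    · exact Or.inr (Cl.tl ih)
  | mn _ h ih =>
    rcases ih with rfl | ih
    · exact hunary _ h.lt.le (by simp [hm _ h])
    · exact Or.inr (Cl.mn ih h)
  | @code a b c _ _ _ h1 h2 h ih1 ih2 ih3 =>
    rcases (lt_add_one_iff.mp h).eq_or_lt with h3 | h3
    · exact Or.inl h3
    · have ha : a < r := (le_code' a b c).trans_lt h3
      rcases ih1 with ih1 | ih1
      · exact absurd ih1 ha.ne
      rcases ih2 with ih2 | ih2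
      · exact absurd ih2 (h1.trans_lt ha).ne
      rcases ih3 with ih3 | ih3
      · exact absurd ih3 (h2.trans_lt ha).ne
      exact Or.inr (Cl.code ih1 ih2 ih3 h1 h2 h3)
  | @up a b v _ _ h1 h ih1 ih2 =>
    rcases (lt_add_one_iff.mp h).eq_or_lt with h3 | h3
    · exact Or.inl h3
    · obtain ⟨h4, h5⟩ := h1.lt
      rcases ih1 with ih1 | ih1
      · exact absurd ih1 (h4.trans_lt (h5.trans h3)).ne
      rcases ih2 with ih2 | ih2
      · exact absurd ih2 (h5.trans h3).ne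
      exact Or.inr (Cl.up ih1 ih2 h1 h3)

theorem Cl.supp {θ : Ordinal.{u}} {Q : Set Ordinal.{u}} {x : Ordinal.{u}} (h : Cl θ Q x) :
    ∃ l : List Ordinal.{u}, (∀ y ∈ l, y ∈ Q ∧ y < θ) ∧ Cl θ {y | y ∈ l} x := by
  induction h with
  | @base x h1 h2 => exact ⟨[x], by simpa using ⟨h1, h2⟩, Cl.base (by simp) h2⟩
  | zero h => exact ⟨[], by simp, Cl.zero h⟩
  | succ _ h ih => obtain ⟨l, h1, h2⟩ := ih; exact ⟨l, h1, Cl.succ h2 h⟩
  | lev _ ih => obtain ⟨l, h1, h2⟩ := ih; exact ⟨l, h1, Cl.lev h2⟩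
  | hd _ ih => obtain ⟨l, h1, h2⟩ := ih; exact ⟨l, h1, Cl.hd h2⟩
  | tl _ ih => obtain ⟨l, h1, h2⟩ := ih; exact ⟨l, h1, Cl.tl h2⟩
  | mn _ h ih => obtain ⟨l, h1, h2⟩ := ih; exact ⟨l, h1, Cl.mn h2 h⟩
  | code _ _ _ h1 h2 h ih1 ih2 ih3 =>
    obtain ⟨l1, h11, h12⟩ := ih1
    obtain ⟨l2, h21, h22⟩ := ih2
    obtain ⟨l3, h31, h32⟩ := ih3
    refine ⟨l1 ++ l2 ++ l3, ?_, Cl.code (h12.mono le_rfl ?_) (h22.mono le_rfl ?_)
      (h32.mono le_rfl ?_) h1 h2 h⟩
    · intro y hy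
      rw [List.mem_append, List.mem_append] at hy
      rcases hy with (hy | hy) | hy
      · exact h11 y hy
      · exact h21 y hy
      · exact h31 y hy
    all_goals
      intro y hy
      simp only [mem_ofPred_eq, List.mem_append] at hy ⊢
      tauto
  | up _ _ h1 h ih1 ih2 =>
    obtain ⟨l1, h11, h12⟩ := ih1
    obtain ⟨l2, h21, h22⟩ := ih2
    refine ⟨l1 ++ l2, ?_, Cl.up (h12.mono le_rfl ?_) (h22.mono le_rfl ?_) h1 h⟩
    · intro y hy
      rw [List.mem_append] at hy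
      rcases hy with hy | hy
      · exact h11 y hy
      · exact h21 y hy
    all_goals
      intro y hy
      simp only [mem_ofPred_eq, List.mem_append] at hy ⊢
      tauto

/-! ### Terms -/

/-- Terms over the parameters `P`. -/
inductive Tm (P : Type u) : Type u
  | par (p : P) : Tm P
  | zero : Tm P
  | succ (t : Tm P) : Tm P
  | lev (t : Tm P) : Tm P
  | hd (t : Tm P) : Tm P
  | tl (t : Tm P) : Tm P
  | mn (t : Tm P) : Tm P
  | code (r s t : Tm P) : Tm P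
  | up (s t : Tm P) : Tm P

/-- Evaluation of terms below `θ`. -/
inductive Ev {P : Type u} (θ : Ordinal.{u}) (val : P → Ordinal.{u}) : Tm P → Ordinal.{u} → Prop
  | par (p : P) : val p < θ → Ev θ val (Tm.par p) (val p)
  | zero : 0 < θ → Ev θ val Tm.zero 0
  | succ {t : Tm P} {a : Ordinal.{u}} : Ev θ val t a → a + 1 < θ → Ev θ val (Tm.succ t) (a + 1)
  | lev {t : Tm P} {a : Ordinal.{u}} : Ev θ val t a → Ev θ val (Tm.lev t) (lev a)
  | hd {t : Tm P} {a : Ordinal.{u}} : Ev θ val t a → Ev θ val (Tm.hd t) (hd a)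
  | tl {t : Tm P} {a : Ordinal.{u}} : Ev θ val t a → Ev θ val (Tm.tl t) (tl a)
  | mn {t : Tm P} {a v : Ordinal.{u}} : Ev θ val t a → IsMn v a → Ev θ val (Tm.mn t) v
  | code {r s t : Tm P} {a b c : Ordinal.{u}} : Ev θ val r a → Ev θ val s b → Ev θ val t c →
      b ≤ a → c ≤ a → code a b c < θ → Ev θ val (Tm.code r s t) (code a b c)
  | up {s t : Tm P} {a b v : Ordinal.{u}} : Ev θ val s a → Ev θ val t b → URel a b v → v < θ →
      Ev θ val (Tm.up s t) v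

theorem Ev.unique {P : Type u} {θ : Ordinal.{u}} {val : P → Ordinal.{u}} {t : Tm P}
    {a b : Ordinal.{u}} (h : Ev θ val t a) (h' : Ev θ val t b) : a = b := by
  induction h generalizing b with
  | par p h => cases h'; rfl
  | zero h => cases h'; rfl
  | succ _ _ ih => cases h' with | succ h1 h2 => rw [ih h1]
  | lev _ ih => cases h' with | lev h1 => rw [ih h1]
  | hd _ ih => cases h' with | hd h1 => rw [ih h1]
  | tl _ ih => cases h' with | tl h1 => rw [ih h1]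
  | mn _ h2 ih => cases h' with | mn h1 h3 => rw [← ih h1] at h3; exact h2.unique h3
  | code _ _ _ _ _ _ ih1 ih2 ih3 =>
    cases h' with | code h1 h2 h3 h4 h5 h6 => rw [ih1 h1, ih2 h2, ih3 h3]
  | up _ _ h5 _ ih1 ih2 =>
    cases h' with | up h1 h2 h3 h4 => rw [← ih1 h1, ← ih2 h2] at h3; exact h5.unique h3

theorem Ev.mono {P : Type u} {θ θ' : Ordinal.{u}} {val : P → Ordinal.{u}} {t : Tm P}
    {a : Ordinal.{u}} (hθ : θ ≤ θ') (h : Ev θ val t a) : Ev θ' val t a := by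
  induction h with
  | par p h => exact Ev.par p (h.trans_le hθ)
  | zero h => exact Ev.zero (h.trans_le hθ)
  | succ _ h ih => exact Ev.succ ih (h.trans_le hθ)
  | lev _ ih => exact Ev.lev ih
  | hd _ ih => exact Ev.hd ih
  | tl _ ih => exact Ev.tl ih
  | mn _ h ih => exact Ev.mn ih h
  | code _ _ _ h1 h2 h ih1 ih2 ih3 => exact Ev.code ih1 ih2 ih3 h1 h2 (h.trans_le hθ)
  | up _ _ h1 h ih1 ih2 => exact Ev.up ih1 ih2 h1 (h.trans_le hθ)

theorem Ev.cl {P : Type u} {θ : Ordinal.{u}} {val : P → Ordinal.{u}} {t : Tm P}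
    {a : Ordinal.{u}} (h : Ev θ val t a) : Cl θ (range val) a := by
  induction h with
  | par p h => exact Cl.base (mem_range_self p) h
  | zero h => exact Cl.zero h
  | succ _ h ih => exact Cl.succ ih h
  | lev _ ih => exact Cl.lev ih
  | hd _ ih => exact Cl.hd ih
  | tl _ ih => exact Cl.tl ih
  | mn _ h ih => exact Cl.mn ih h
  | code _ _ _ h1 h2 h ih1 ih2 ih3 => exact Cl.code ih1 ih2 ih3 h1 h2 h
  | up _ _ h1 h ih1 ih2 => exact Cl.up ih1 ih2 h1 h

theorem Cl.exists_term {P : Type u} {θ : Ordinal.{u}} {val : P → Ordinal.{u}}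
    {Q : Set Ordinal.{u}} (hQ : ∀ x ∈ Q, x < θ → x ∈ range val) {a : Ordinal.{u}}
    (h : Cl θ Q a) : ∃ t, Ev θ val t a := by
  induction h with
  | base h1 h2 => obtain ⟨p, rfl⟩ := hQ _ h1 h2; exact ⟨_, Ev.par p h2⟩
  | zero h => exact ⟨_, Ev.zero h⟩
  | succ _ h ih => obtain ⟨t, ht⟩ := ih; exact ⟨_, Ev.succ ht h⟩
  | lev _ ih => obtain ⟨t, ht⟩ := ih; exact ⟨_, Ev.lev ht⟩
  | hd _ ih => obtain ⟨t, ht⟩ := ih; exact ⟨_, Ev.hd ht⟩
  | tl _ ih => obtain ⟨t, ht⟩ := ih; exact ⟨_, Ev.tl ht⟩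
  | mn _ h ih => obtain ⟨t, ht⟩ := ih; exact ⟨_, Ev.mn ht h⟩
  | code _ _ _ h1 h2 h ih1 ih2 ih3 =>
    obtain ⟨t1, ht1⟩ := ih1
    obtain ⟨t2, ht2⟩ := ih2
    obtain ⟨t3, ht3⟩ := ih3
    exact ⟨_, Ev.code ht1 ht2 ht3 h1 h2 h⟩
  | up _ _ h1 h ih1 ih2 =>
    obtain ⟨t1, ht1⟩ := ih1
    obtain ⟨t2, ht2⟩ := ih2
    exact ⟨_, Ev.up ht1 ht2 h1 h⟩

/-- Terms as lists of symbols (Polish notation). -/
def Tm.toL {P : Type u} : Tm P → List (P ⊕ ℕ)
  | Tm.par p => [Sum.inl p]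
  | Tm.zero => [Sum.inr 0]
  | Tm.succ t => Sum.inr 1 :: t.toL
  | Tm.lev t => Sum.inr 2 :: t.toL
  | Tm.hd t => Sum.inr 3 :: t.toL
  | Tm.tl t => Sum.inr 4 :: t.toL
  | Tm.mn t => Sum.inr 5 :: t.toL
  | Tm.code r s t => Sum.inr 6 :: (r.toL ++ (s.toL ++ t.toL))
  | Tm.up s t => Sum.inr 7 :: (s.toL ++ t.toL)

theorem Tm.toL_inj {P : Type u} (t : Tm P) : ∀ (s : Tm P) (l l' : List (P ⊕ ℕ)),
    t.toL ++ l = s.toL ++ l' → t = s ∧ l = l' := by
  induction t with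
  | par p => intro s l l' h; cases s <;> simp [Tm.toL] at h ⊢; exact h
  | zero => intro s l l' h; cases s <;> simp [Tm.toL] at h ⊢; exact h
  | succ t ih => intro s l l' h; cases s <;> simp [Tm.toL] at h ⊢; exact ih _ _ _ h
  | lev t ih => intro s l l' h; cases s <;> simp [Tm.toL] at h ⊢; exact ih _ _ _ h
  | hd t ih => intro s l l' h; cases s <;> simp [Tm.toL] at h ⊢; exact ih _ _ _ h
  | tl t ih => intro s l l' h; cases s <;> simp [Tm.toL] at h ⊢; exact ih _ _ _ h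
  | mn t ih => intro s l l' h; cases s <;> simp [Tm.toL] at h ⊢; exact ih _ _ _ h
  | code r s t ih1 ih2 ih3 =>
    intro q l l' h
    cases q <;> simp [Tm.toL] at h ⊢
    obtain ⟨h1, h2⟩ := ih1 _ _ _ h
    obtain ⟨h3, h4⟩ := ih2 _ _ _ h2
    obtain ⟨h5, h6⟩ := ih3 _ _ _ h4
    exact ⟨⟨h1, h3, h5⟩, h6⟩
  | up s t ih1 ih2 =>
    intro q l l' h
    cases q <;> simp [Tm.toL] at h ⊢
    obtain ⟨h1, h2⟩ := ih1 _ _ _ h
    obtain ⟨h3, h4⟩ := ih2 _ _ _ h2
    exact ⟨⟨h1, h3⟩, h4⟩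

theorem mk_Tm_le (P : Type u) : Cardinal.mk (Tm P) ≤ max (Cardinal.mk P) ℵ₀ := by
  have hinj : Function.Injective (Tm.toL (P := P)) := by
    intro s t h
    exact (Tm.toL_inj s t [] [] (by simpa using h)).1
  refine (mk_le_of_injective hinj).trans ?_
  refine (mk_list_le_max _).trans (max_le (le_max_right _ _) ?_)
  rw [mk_sum]
  refine (add_le_max _ _).trans (max_le (max_le ?_ ?_) (le_max_right _ _))
  · simp
  · refine le_trans ?_ (le_max_right _ _)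
    simp

end Pool.Agent.LMach
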