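import Pool.Agent.LMach.Sk

/-!
# Transfer of the coherent sequence to the approximations
-/

open Set Cardinal Order

universe u

namespace Pool.Agent.LMach

open CohP

theorem hy : Hy.{u} := ⟨p_LOC, p_CT, p_TR, p_CL, p_HULL, p_TRANS⟩

theorem hcohx : T_COHX.{u} := p_COHX p_LOC p_CT p_TR p_CL p_HULL p_TRANS

theorem hcoh : T_COH.{u} := p_COH p_LOC p_CT p_TR p_CL p_HULL p_TRANS

theorem rho_pos {C : Ordinal.{u} → Set Ordinal.{u}} {x τ : Ordinal.{u}}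
    (h : x < τ ∧ stp C τ x < τ) : rho C x τ = rho C x (stp C τ x) + 1 := by
  conv_lhs => rw [rho, dif_pos h]

theorem rho_neg {C : Ordinal.{u} → Set Ordinal.{u}} {x τ : Ordinal.{u}}
    (h : ¬ (x < τ ∧ stp C τ x < τ)) : rho C x τ = 0 := by
  conv_lhs => rw [rho, dif_neg h]

section

variable {κ : Cardinal.{u}} {π : Ordinal.{u} → Ordinal.{u} → Ordinal.{u}} (C : Ctx κ π)
include C

theorem Ctx.exists_URel {y : Ordinal.{u}} (hky : κ.ord ≤ y) (hy : y < (succ κ).ord) :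
    ∃ v < (succ κ).ord, URel κ.ord y v := by
  obtain ⟨e0, he0, hye0, hne0⟩ := C.new y hy
  obtain ⟨h1, h2⟩ := lst_spec (P := fun e => y < e ∧ New κ.ord e) ⟨e0, hye0, hne0⟩
  have h3 : ∀ e', y < e' → e' < lst (fun e => y < e ∧ New κ.ord e) → ¬ New κ.ord e' := by
    intro e' h4 h5 h6
    exact absurd (lst_le (P := fun e => y < e ∧ New κ.ord e) ⟨h4, h6⟩) (not_le.mpr h5)
  have h4 : lst (fun e => y < e ∧ New κ.ord e) < (succ κ).ord :=
    (lst_le (P := fun e => y < e ∧ New κ.ord e) ⟨hye0, hne0⟩).trans_lt he0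
  generalize lst (fun e => y < e ∧ New κ.ord e) = e at h1 h2 h3 h4
  obtain ⟨g0, hg0, heg0, hlg0⟩ := exists_closed' C.h0K C.regK h4
  obtain ⟨h5, h6⟩ := lst_spec (P := fun g => e < g ∧ lev g = g) ⟨g0, heg0, hlg0⟩
  have h7 : ∀ z, e < z → z < lst (fun g => e < g ∧ lev g = g) → lev z ≠ z := by
    intro z h8 h9 h10
    exact absurd (lst_le (P := fun g => e < g ∧ lev g = g) ⟨h8, h10⟩) (not_le.mpr h9)
  have h8 : lst (fun g => e < g ∧ lev g = g) < (succ κ).ord :=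
    (lst_le (P := fun g => e < g ∧ lev g = g) ⟨heg0, hlg0⟩).trans_lt hg0
  generalize lst (fun g => e < g ∧ lev g = g) = g at h5 h6 h7 h8
  exact ⟨code (g + 1) 0 g, code_lt_ord' C.h0K.le (succ_lt C.h0K.le h8)
    (lt_of_le_of_lt zero_le h8) h8, hky, g, e, rfl, h6, h5, h7, h1, h2, h3⟩

theorem Ctx.ck_colS {b : Ordinal.{u}} (hb : CK κ π b) : ColS κ.ord b := by
  refine ⟨hb.1, ?_, ?_⟩
  · intro x hx
    exact hb.2.2.succ' hx (succ_lt C.h0K.le (hx.trans hb.2.1))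
  · intro y hky hyb
    obtain ⟨v, hv, huv⟩ := C.exists_URel hky (hyb.trans hb.2.1)
    exact ⟨v, hb.2.2.up' hb.1 hyb huv hv, huv⟩

end

/-- The setting: `X` is an approximation with `X ∩ κ = a`. -/
structure App (κ : Cardinal.{u}) (π : Ordinal.{u} → Ordinal.{u} → Ordinal.{u})
    (b a : Ordinal.{u}) (X : Set Ordinal.{u}) : Prop where
  ctx : Ctx κ π
  ak : a < κ.ord
  kb : κ.ord < b
  bK : b < (succ κ).ord
  sk : SkCl κ π X
  sub : X ⊆ Iio b
  int1 : ∀ x ∈ X, x < κ.ord → x < a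
  int2 : ∀ x < a, x ∈ X

theorem Ctx.app {κ : Cardinal.{u}} {π : Ordinal.{u} → Ordinal.{u} → Ordinal.{u}} (C : Ctx κ π)
    {b a : Ordinal.{u}} (hb : CK κ π b) (ha : EE κ π b a) : App κ π b a (XX π b a) :=
  ⟨C, ha.1, hb.1, hb.2.1, ha.2.1, C.xx_sub hb ha.1.le, ha.2.2.1, ha.2.2.2⟩

section

variable {κ : Cardinal.{u}} {π : Ordinal.{u} → Ordinal.{u} → Ordinal.{u}}
  {b a : Ordinal.{u}} {X : Set Ordinal.{u}} (A : App κ π b a X)
include A

theorem App.cin : ClosedIn b X := A.sk.closedIn A.bK.le A.sub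

theorem App.xK {x : Ordinal.{u}} (hx : x ∈ X) : x < (succ κ).ord :=
  (mem_Iio.mp (A.sub hx)).trans A.bK

theorem App.id {x : Ordinal.{u}} (hx : x < a) : col X x = x :=
  col_ident fun z hz => A.int2 z (hz.trans hx)

theorem App.gk : col X κ.ord = a := by
  refine le_antisymm (col_le_of fun w hw hwk => ?_) ?_
  · have := A.int1 w hw hwk
    rw [A.id this]
    exact add_one_le_iff.mpr this
  · have : col X a = a := col_ident A.int2
    conv_lhs => rw [← this]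
    exact col_mono X A.ak.le

theorem App.le_k {x : Ordinal.{u}} (hx : x ∈ X) (h : a ≤ col X x) : κ.ord ≤ x := by
  by_contra hcon
  have h1 := A.int1 x hx (not_le.mp hcon)
  rw [A.id h1] at h
  exact absurd h (not_le.mpr h1)

theorem App.lt_a {x : Ordinal.{u}} (h : κ.ord < x) : a < col X x := by
  rw [← A.gk]; exact col_smono A.sk.k h

/-! ### The class `ColS` -/

theorem App.colS {τ : Ordinal.{u}} (hτ : τ ≤ b) (h : ColS κ.ord τ) : ColS a (col X τ) := by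
  refine ⟨A.lt_a h.1, ?_, ?_⟩
  · intro x hx
    obtain ⟨x, hx1, hx2, rfl⟩ := col_onto hx
    have h1 := h.2.1 x hx2
    have h2 := A.cin.succ hx1 (h1.trans_le hτ)
    rw [← col_add_one hx1]
    exact col_smono h2 h1
  · intro y hay hy
    obtain ⟨y, hy1, hy2, rfl⟩ := col_onto hy
    obtain ⟨v, hv, huv⟩ := h.2.2 y (A.le_k hy1 hay) hy2
    have hvX := A.cin.up A.sk.k hy1 huv (hv.trans_le hτ)
    refine ⟨col X v, col_smono hvX hv, ?_⟩
    have := (ct_up A.cin A.sk.k hy1 hvX).mpr huv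
    rwa [A.gk] at this

theorem App.colS' {τ : Ordinal.{u}} (hτ : τ ∈ X) (h : ColS a (col X τ)) : ColS κ.ord τ := by
  refine ⟨?_, ?_, ?_⟩
  · rw [← col_lt_iff A.sk.k, A.gk]; exact h.1
  · intro x hx
    by_contra hcon
    have h1 : τ = x + 1 := le_antisymm (not_lt.mp hcon) (add_one_le_iff.mpr hx)
    have h2 : x ∈ X := A.sk.pred' (by rw [← h1]; exact hτ) (hx.trans (A.xK hτ))
    have h3 := h.2.1 (col X x) (col_smono h2 hx)
    rw [h1, col_add_one h2] at h3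
    exact lt_irrefl _ h3
  · by_contra hcon
    push Not at hcon
    obtain ⟨y0, hy01, hy02, hy03⟩ := hcon
    obtain ⟨y, hyX, hy1, hy2, hy3⟩ := A.sk.ncol' hτ (A.xK hτ)
      ⟨y0, hy02, hy01, by push Not; exact hy03⟩
    have h4 : a ≤ col X y := by rw [← A.gk]; exact col_mono X hy2
    obtain ⟨v, hv, huv⟩ := h.2.2 (col X y) h4 (col_smono hyX hy1)
    obtain ⟨v, hvX, hvτ, rfl⟩ := col_onto hv
    apply hy3
    refine ⟨v, hvτ, ?_⟩
    rw [← A.gk] at huv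
    exact (ct_up A.cin A.sk.k hyX hvX).mp huv

theorem App.limC {τ : Ordinal.{u}} (hτ : τ ∈ X) (h : LimC κ.ord τ) : LimC a (col X τ) := by
  refine ⟨A.lt_a h.1, fun x hx => ?_⟩
  obtain ⟨x, hx1, hx2, rfl⟩ := col_onto hx
  obtain ⟨c0, h1, h2, h3⟩ := h.2 x hx2
  obtain ⟨c, hcX, hc1, hc2, hc3⟩ := A.sk.nxt' hτ hx1 (A.xK hτ) ⟨c0, h1, h2, h3⟩
  exact ⟨col X c, col_smono hcX hc1, col_smono hx1 hc2,
    A.colS (mem_Iio.mp (A.sub hcX)).le hc3⟩

theorem App.limC' {τ : Ordinal.{u}} (hτ : τ ∈ X) (h : LimC a (col X τ)) : LimC κ.ord τ := by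
  refine ⟨?_, fun x0 hx0 => ?_⟩
  · rw [← col_lt_iff A.sk.k, A.gk]; exact h.1
  by_contra hcon
  push Not at hcon
  obtain ⟨x, hxX, hx1, hx2⟩ := A.sk.nlim' hτ (A.xK hτ)
    ⟨x0, hx0, fun c hc1 hc2 hc3 => hcon c hc1 hc2 hc3⟩
  obtain ⟨c, hc1, hc2, hc3⟩ := h.2 (col X x) (col_smono hxX hx1)
  obtain ⟨c, hcX, hcτ, rfl⟩ := col_onto hc1
  exact hx2 c hcτ ((col_lt_iff hxX).mp hc2) (A.colS' hcX hc3)

/-! ### Hulls -/

theorem App.hull {r x : Ordinal.{u}} {l : List Ordinal.{u}} (hr : r ∈ X) (hx : x ∈ X)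
    (hl : ∀ y ∈ l, y ∈ X) : Hull a (col X r) (l.map (col X)) (col X x) ↔ Hull κ.ord r l x := by
  have hrb : r ≤ b := (mem_Iio.mp (A.sub hr)).le
  constructor
  · intro h
    let Q : Set Ordinal.{u} := Iio a ∪ {κ.ord} ∪ {y | y ∈ l}
    have hQ : Q ⊆ X := by
      rintro y ((hy | hy) | hy)
      · exact A.int2 y hy
      · rw [mem_singleton_iff.mp hy]; exact A.sk.k
      · exact hl y hy
    have h1 : Cl (col X r) (col X '' Q) (col X x) := by
      refine h.mono le_rfl ?_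
      rintro y (hy | hy)
      · rcases (show y ≤ a from hy).lt_or_eq with h1 | h1
        · exact ⟨y, Or.inl (Or.inl h1), A.id h1⟩
        · exact ⟨κ.ord, Or.inl (Or.inr rfl), by rw [A.gk, h1]⟩
      · obtain ⟨z, hz, rfl⟩ := List.mem_map.mp hy
        exact ⟨z, Or.inr hz, rfl⟩
    obtain ⟨x', hx', hxx'⟩ := tr_sup A.cin (Or.inl hr) hQ h1
    have hx'X : x' ∈ X := A.cin.2 _ (hx'.idem hrb (fun z hz hzr =>
      Cl.base (hQ hz) (hzr.trans_le hrb)))
    rw [col_inj hx'X hx hxx'] at hx'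
    refine hx'.mono le_rfl ?_
    rintro y ((hy | hy) | hy)
    · exact Or.inl (show y ≤ κ.ord from ((show y < a from hy).trans A.ak).le)
    · exact Or.inl (show y ≤ κ.ord from (mem_singleton_iff.mp hy).le)
    · exact Or.inr hy
  · intro h
    have hex : ∃ s : List Ordinal.{u}, (∀ a ∈ s, a < κ.ord) ∧
        Cl r ({κ.ord} ∪ {a | a ∈ s} ∪ {a | a ∈ l}) x := by
      obtain ⟨s, hs1, hs2⟩ := Cl.supp h
      classical
      refine ⟨s.filter (fun y => decide (y < κ.ord)), fun y hy => by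
        simpa using (List.mem_filter.mp hy).2, hs2.mono le_rfl fun y hy => ?_⟩
      rcases (hs1 y hy).1 with h1 | h1
      · rcases (show y ≤ κ.ord from h1).lt_or_eq with h2 | h2
        · exact Or.inl (Or.inr (List.mem_filter.mpr ⟨hy, by simpa using h2⟩))
        · exact Or.inl (Or.inl h2)
      · exact Or.inr h1
    have hspec : (∀ a ∈ supp κ.ord r x l, a < κ.ord) ∧
        Cl r ({κ.ord} ∪ {a | a ∈ supp κ.ord r x l} ∪ {a | a ∈ l}) x := by
      rw [supp, dif_pos hex]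
      exact hex.choose_spec
    have hsX : ∀ y ∈ supp κ.ord r x l, y ∈ X := fun y hy =>
      A.sk.supp' hr hx hl hy ((hspec.1 y hy).trans kK')
    have hQ : ({κ.ord} ∪ {a | a ∈ supp κ.ord r x l} ∪ {a | a ∈ l} : Set Ordinal.{u}) ⊆ X := by
      rintro y ((hy | hy) | hy)
      · rw [mem_singleton_iff.mp hy]; exact A.sk.k
      · exact hsX y hy
      · exact hl y hy
    refine (tr_sub A.cin hrb hQ hspec.2).2.mono le_rfl ?_
    rintro _ ⟨y, ((hy | hy) | hy), rfl⟩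
    · rw [mem_singleton_iff.mp hy, A.gk]; exact Or.inl (mem_Iic.mpr le_rfl)
    · have := A.int1 y (hsX y hy) (hspec.1 y hy)
      rw [A.id this]; exact Or.inl (mem_Iic.mpr this.le)
    · exact Or.inr (List.mem_map_of_mem hy)

/-! ### `th` and `pl` -/

theorem App.th_facts {τ : Ordinal.{u}} (hτ : τ ∈ X) (h : LimC κ.ord τ) :
    ∃ e, τ ≤ e ∧ New κ.ord e ∧ th κ.ord τ ∈ X ∧ (∀ x ∈ pl κ.ord τ, x ∈ X) ∧
      τ ≤ th κ.ord τ ∧ th κ.ord τ < (succ κ).ord := by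
  obtain ⟨e, he, hτe, hne⟩ := A.ctx.new τ (A.xK hτ)
  obtain ⟨h1, h2⟩ := hcohx.th_le κ.ord τ e h hτe.le hne
  have h3 : th κ.ord τ < (succ κ).ord := h2.trans_lt (succ_lt A.ctx.h0K.le he)
  refine ⟨e, hτe.le, hne, A.sk.th' hτ h3, fun x hx => ?_, h1, h3⟩
  exact A.sk.pl' hτ hx ((hcohx.pl_lt κ.ord τ e h hτe.le hne x hx).trans h3)

theorem App.th {τ : Ordinal.{u}} (hτ : τ ∈ X) (h : LimC κ.ord τ) :
    th a (col X τ) = col X (th κ.ord τ) := by
  obtain ⟨e, hτe, hne, hθX, hpX, hτθ, hθK⟩ := A.th_facts hτ h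
  have hcS := limC_colS h
  have hmem : col X (Pool.Agent.LMach.th κ.ord τ) ∈ ThSet a (col X τ) := by
    refine ⟨col_mono X hτθ, (pl κ.ord τ).map (col X), ?_, ?_⟩
    · intro x hx
      obtain ⟨y, hy, rfl⟩ := List.mem_map.mp hx
      exact col_smono (hpX y hy) (hcohx.pl_lt κ.ord τ e h hτe hne y hy)
    · intro x hx
      obtain ⟨x, hx1, hx2, rfl⟩ := col_onto hx
      have h1 := hcS.2.1 x hx2
      have h2 : x + 1 ∈ X := A.cin.succ hx1 (h1.trans (mem_Iio.mp (A.sub hτ)))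
      refine ⟨col X (x + 1), col_smono h2 h1, col_smono hx1 (lt_add_one x), ?_⟩
      rw [A.hull hθX h2 hpX]
      exact hcohx.hull_pl κ.ord τ e h hτe hne _ (h1.trans_le hτθ)
  refine le_antisymm (th_le_of hmem) (le_csInf ⟨_, hmem⟩ ?_)
  rintro θ' ⟨hθ1, q, hq1, hq2⟩
  by_contra hcon
  obtain ⟨r, hrX, hrθ, rfl⟩ := col_onto (not_le.mp hcon)
  obtain ⟨q, rfl, hqX, hqr⟩ := pull_list hy (Y := X) (r := r) q hq1
  have hτr : τ ≤ r := (col_le_iff hrX).mp hθ1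
  obtain ⟨c, hcX, hcτ, hc⟩ := A.sk.bnd' hτ hrX hqX (A.xK hτ)
    (hcohx.th_min κ.ord τ e r q h hτe hne hτr hrθ hqr)
  obtain ⟨y, hy1, hy2, hy3⟩ := hq2 (col X c) (col_smono hcX hcτ)
  obtain ⟨y, hyX, hyτ, rfl⟩ := col_onto hy1
  rw [A.hull hrX hyX hqX] at hy3
  exact absurd (col_mono X (hc y hyτ hy3)) (not_le.mpr hy2)

theorem App.pl {τ : Ordinal.{u}} (hτ : τ ∈ X) (h : LimC κ.ord τ) {e' : Ordinal.{u}}
    (he' : col X τ ≤ e') (hn' : New a e') :
    pl a (col X τ) = (pl κ.ord τ).map (col X) := by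
  obtain ⟨e, hτe, hne, hθX, hpX, hτθ, hθK⟩ := A.th_facts hτ h
  have hmem : (Pool.Agent.LMach.pl κ.ord τ).map (col X) ∈ PlSet a (col X τ) := by
    refine ⟨?_, ?_⟩
    · rw [A.th hτ h]
      intro x hx
      obtain ⟨y, hy, rfl⟩ := List.mem_map.mp hx
      exact col_smono (hpX y hy) (hcohx.pl_lt κ.ord τ e h hτe hne y hy)
    · rw [A.th hτ h]
      intro x hx
      obtain ⟨x, hx1, hx2, rfl⟩ := col_onto hx
      rw [A.hull hθX hx1 hpX]
      exact hcohx.hull_pl κ.ord τ e h hτe hne _ (hx2.trans_le hτθ)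
  refine sl_tri _ _ ?_ (pl_min hmem)
  intro hlt
  have hpm := pl_mem hy (A.limC hτ h) he' hn'
  obtain ⟨hq1, hq2⟩ := hpm
  rw [A.th hτ h] at hq1 hq2
  generalize Pool.Agent.LMach.pl a (col X τ) = q at hlt hq1 hq2
  obtain ⟨q, rfl, hqX, hqr⟩ := pull_list hy (Y := X) (r := Pool.Agent.LMach.th κ.ord τ) q hq1
  have hsl : SL q (Pool.Agent.LMach.pl κ.ord τ) :=
    sl_map' (col X) X (fun x hx y hxy => col_smono hx hxy) q _ hqX hpX hlt
  refine pl_min (l := κ.ord) (τ := τ) ⟨hqr, ?_⟩ hsl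
  by_contra hcon
  push Not at hcon
  obtain ⟨x, hxX, hx1, hx2⟩ := A.sk.nh' hτ hθX hqX (A.xK hτ) hcon
  apply hx2
  rw [← A.hull hθX hxX hqX]
  exact hq2 _ (col_smono hxX hx1)

/-! ### `RR` and `DD` -/

theorem App.rr {τ r : Ordinal.{u}} (hτ : τ ∈ X) (hr : r ∈ X) (h : LimC κ.ord τ)
    {e' : Ordinal.{u}} (he' : col X τ ≤ e') (hn' : New a e') :
    RR a (col X τ) (col X r) ↔ RR κ.ord τ r := by
  obtain ⟨e, hτe, hne, hθX, hpX, hτθ, hθK⟩ := A.th_facts hτ h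
  unfold RR
  rw [A.th hτ h, A.pl hτ h he' hn', col_le_iff hr, col_lt_iff hr]
  refine and_congr (or_congr Iff.rfl ?_) (and_congr ?_ Iff.rfl)
  · exact ⟨A.colS' hr, A.colS (mem_Iio.mp (A.sub hr)).le⟩
  · constructor
    · intro h1 x hx
      exact (col_lt_iff (hpX x hx)).mp (h1 _ (List.mem_map_of_mem hx))
    · intro h1 x hx
      obtain ⟨y, hy, rfl⟩ := List.mem_map.mp hx
      exact col_smono (hpX y hy) (h1 y hy)

theorem App.dd {τ r : Ordinal.{u}} (hτ : τ ∈ X) (hr : r ∈ X) (h : LimC κ.ord τ)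
    (hR : RR κ.ord τ r) {e' : Ordinal.{u}} (he' : col X τ ≤ e') (hn' : New a e') :
    DD κ.ord τ r ∈ X ∧ DD a (col X τ) (col X r) = col X (DD κ.ord τ r) := by
  obtain ⟨e, hτe, hne, hθX, hpX, hτθ, hθK⟩ := A.th_facts hτ h
  obtain ⟨d1, d2, d3⟩ := hcohx.dd κ.ord τ e r h hτe hne hR
  obtain ⟨e1, e2, e3⟩ := hcohx.dd a (col X τ) e' (col X r) (A.limC hτ h) he' hn'
    ((A.rr hτ hr h he' hn').mpr hR)
  have hD : DD κ.ord τ r ∈ X := A.sk.dd' hτ hr (d1.trans (A.xK hτ))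
  refine ⟨hD, ?_⟩
  have key : ∀ y < col X τ, (y < DD a (col X τ) (col X r) ↔ y < col X (DD κ.ord τ r)) := by
    intro y hy
    obtain ⟨y, hyX, hyτ, rfl⟩ := col_onto hy
    rw [← e3 _ hy, A.pl hτ h he' hn', A.hull hr hyX hpX, d3 y hyτ, col_lt_iff hyX]
  have h1 := col_smono hD d1
  rcases lt_trichotomy (DD a (col X τ) (col X r)) (col X (DD κ.ord τ r)) with h2 | h2 | h2
  · exact absurd ((key _ e1).mpr h2) (lt_irrefl _)
  · exact h2
  · exact absurd ((key _ h1).mp h2) (lt_irrefl _)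

/-! ### The sequence -/

theorem App.cs {τ c : Ordinal.{u}} (hτ : τ ∈ X) (hc : c ∈ X)
    {e' : Ordinal.{u}} (he' : col X τ ≤ e') (hn' : New a e') :
    col X c ∈ CS a (col X τ) ↔ c ∈ CS κ.ord τ := by
  by_cases h : LimC κ.ord τ
  · obtain ⟨e, hτe, hne, hθX, hpX, hτθ, hθK⟩ := A.th_facts hτ h
    rw [cs_iff h, cs_iff (A.limC hτ h)]
    constructor
    · rintro ⟨r, hr1, hr2⟩
      have hr3 := hr1.2.2
      rw [A.th hτ h] at hr3
      obtain ⟨r, hrX, _, rfl⟩ := col_onto hr3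
      have hr4 := (A.rr hτ hrX h he' hn').mp hr1
      obtain ⟨d1, d2⟩ := A.dd hτ hrX h hr4 he' hn'
      exact ⟨r, hr4, col_inj hc d1 (hr2.trans d2)⟩
    · rintro ⟨r, hr1, hr2⟩
      obtain ⟨r, hrX, hr1, hr2⟩ := A.sk.rk' hτ hc ⟨r, hr1.2.2.trans hθK, hr1, hr2⟩
      obtain ⟨d1, d2⟩ := A.dd hτ hrX h hr1 he' hn'
      exact ⟨col X r, (A.rr hτ hrX h he' hn').mpr hr1, by rw [d2, ← hr2]⟩
  · have h' : ¬ LimC a (col X τ) := fun h1 => h (A.limC' hτ h1)
    simp only [CS, mem_ofPred_eq]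
    rw [or_iff_right (fun h1 => h' h1.1), or_iff_right (fun h1 => h h1.1)]
    rw [and_iff_right h, and_iff_right h', col_lt_iff hc]
    constructor
    · rintro ⟨h1, h2, h3⟩
      refine ⟨A.colS' hc h1, h2, fun d hd1 hd2 => ?_⟩
      by_contra hcon
      obtain ⟨d', hd'X, hd'1, hd'2, hd'3⟩ := A.sk.nxt' hτ hc (A.xK hτ) ⟨d, hd2, not_le.mp hcon, hd1⟩
      exact absurd (h3 (col X d') (A.colS (mem_Iio.mp (A.sub hd'X)).le hd'3) (col_smono hd'X hd'1))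
        (not_le.mpr (col_smono hc hd'2))
    · rintro ⟨h1, h2, h3⟩
      refine ⟨A.colS (mem_Iio.mp (A.sub hc)).le h1, h2, fun d hd1 hd2 => ?_⟩
      obtain ⟨d, hdX, hdτ, rfl⟩ := col_onto hd2
      exact col_mono X (h3 d (A.colS' hdX hd1) hdτ)

/-- members of the sequence come from members of `X` -/
theorem App.cs_onto {τ c : Ordinal.{u}} (hτ : τ ∈ X)
    {e' : Ordinal.{u}} (he' : col X τ ≤ e') (hn' : New a e') (hc : c ∈ CS a (col X τ)) :
    ∃ c' ∈ X, c' < τ ∧ col X c' = c ∧ c' ∈ CS κ.ord τ := by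
  have hlt : c < col X τ := by
    by_cases h : LimC a (col X τ)
    · rw [cs_iff h] at hc
      obtain ⟨r, hr1, rfl⟩ := hc
      exact (hcohx.dd a (col X τ) e' r h he' hn' hr1).1
    · rcases hc with hc | hc
      · exact absurd hc.1 h
      · exact hc.2.2.1
  obtain ⟨c', hc'X, hc'τ, rfl⟩ := col_onto hlt
  exact ⟨c', hc'X, hc'τ, rfl, (A.cs hτ hc'X he' hn').mp hc⟩

/-! ### Walks -/

theorem App.stp {τ x : Ordinal.{u}} (hτ : τ ∈ X) (hx : x ∈ X)
    {e' : Ordinal.{u}} (he' : col X τ ≤ e') (hn' : New a e') :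
    stp (CS κ.ord) τ x ∈ X ∧ col X (stp (CS κ.ord) τ x) = stp (CS a) (col X τ) (col X x) := by
  by_cases hne : ({d | d ∈ CS κ.ord τ ∧ x ≤ d} : Set Ordinal.{u}).Nonempty
  · have h1 : Pool.Agent.LMach.stp (CS κ.ord) τ x ∈ CS κ.ord τ ∧
        x ≤ Pool.Agent.LMach.stp (CS κ.ord) τ x := csInf_mem hne
    have h2 : Pool.Agent.LMach.stp (CS κ.ord) τ x < τ := by
      by_cases h : LimC κ.ord τ
      · obtain ⟨e, hτe, hne', _⟩ := A.th_facts hτ h
        have h3 := h1.1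
        rw [cs_iff h] at h3
        obtain ⟨r, hr1, hr2⟩ := h3
        rw [hr2]
        exact (hcohx.dd κ.ord τ e r h hτe hne' hr1).1
      · rcases h1.1 with hc | hc
        · exact absurd hc.1 h
        · exact hc.2.2.1
    have hX : Pool.Agent.LMach.stp (CS κ.ord) τ x ∈ X := A.sk.stp' hτ hx (h2.trans (A.xK hτ))
    refine ⟨hX, ?_⟩
    have h4 : col X (Pool.Agent.LMach.stp (CS κ.ord) τ x) ∈
        ({d | d ∈ CS a (col X τ) ∧ col X x ≤ d} : Set Ordinal.{u}) :=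
      ⟨(A.cs hτ hX he' hn').mpr h1.1, col_mono X h1.2⟩
    refine le_antisymm (le_csInf ⟨_, h4⟩ ?_) (csInf_le' h4)
    rintro d ⟨hd1, hd2⟩
    obtain ⟨d', hd'X, _, rfl, hd'⟩ := A.cs_onto hτ he' hn' hd1
    refine col_mono X (csInf_le' ?_)
    exact ⟨hd', (col_le_iff hd'X).mp hd2⟩
  · have hne' : ¬ ({d | d ∈ CS a (col X τ) ∧ col X x ≤ d} : Set Ordinal.{u}).Nonempty := by
      rintro ⟨d, hd1, hd2⟩
      obtain ⟨d', hd'X, _, rfl, hd'⟩ := A.cs_onto hτ he' hn' hd1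
      exact hne ⟨d', hd', (col_le_iff hd'X).mp hd2⟩
    have e1 : Pool.Agent.LMach.stp (CS κ.ord) τ x = 0 := by
      rw [Pool.Agent.LMach.stp, not_nonempty_iff_eq_empty.mp hne, Ordinal.sInf_empty]
    have e2 : Pool.Agent.LMach.stp (CS a) (col X τ) (col X x) = 0 := by
      rw [Pool.Agent.LMach.stp, not_nonempty_iff_eq_empty.mp hne', Ordinal.sInf_empty]
    rw [e1, e2]
    exact ⟨A.sk.zero, le_antisymm (col_le X 0) zero_le⟩

theorem App.rho {x : Ordinal.{u}} (hx : x ∈ X) {e' : Ordinal.{u}} (hn' : New a e') :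
    ∀ τ ∈ X, col X τ ≤ e' → rho (CS a) (col X x) (col X τ) = rho (CS κ.ord) x τ := by
  intro τ
  induction τ using WellFoundedLT.induction with
  | _ τ ih =>
    intro hτ he'
    obtain ⟨h1, h2⟩ := A.stp hτ hx he' hn'
    by_cases h : x < τ ∧ Pool.Agent.LMach.stp (CS κ.ord) τ x < τ
    · have h' : col X x < col X τ ∧
          Pool.Agent.LMach.stp (CS a) (col X τ) (col X x) < col X τ := by
        rw [← h2]; exact ⟨col_smono hx h.1, col_smono h1 h.2⟩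
      rw [rho_pos h, rho_pos h', ← h2, ih _ h.2 h1 ((col_mono X h.2.le).trans he')]
    · have h' : ¬ (col X x < col X τ ∧
          Pool.Agent.LMach.stp (CS a) (col X τ) (col X x) < col X τ) := by
        rw [← h2, col_lt_iff hx, col_lt_iff h1]; exact h
      rw [rho_neg h, rho_neg h']

end

end Pool.Agent.LMach
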