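import Pool.Agent.LMach.UltB

/-!
# Ultrapowers: a weakly compact cardinal is good, and case II
-/

open Set Cardinal Order

universe u

namespace Pool.Agent.LMach

theorem omega_lt_ord {κ : Cardinal.{u}} (h0 : ℵ₀ < κ) : Ordinal.omega0.{u} < κ.ord := by
  rw [← Cardinal.ord_aleph0]
  exact Cardinal.ord_lt_ord.mpr h0

theorem J_lt_J (hLOC : T_LOC.{u}) {z i : Ordinal.{u}} (h : i < z) : J z i < J z z := by
  unfold J
  rw [max_eq_left h.le, max_self, hLOC.code_lt _ _ _ _ _ _ le_rfl h.le le_rfl le_rfl]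
  exact Or.inr ⟨rfl, Or.inr ⟨rfl, h⟩⟩

/-- The set of all `w` with `Mem (J a w) b` is named below `κ⁺`. -/
theorem exists_section (hLOC : T_LOC.{u}) (hMEM : T_MEM.{u}) {κ : Cardinal.{u}} (h0 : ℵ₀ < κ)
    {a b : Ordinal.{u}} (ha : a < (succ κ).ord) (hb : b < (succ κ).ord) :
    ∃ v < (succ κ).ord, ∀ w < κ.ord, (Mem w v ↔ Mem (J a w) b) := by
  have h1 : κ.ord < (succ κ).ord := Cardinal.ord_lt_ord.mpr (lt_succ κ)
  obtain ⟨g, hg, hg1, hg2⟩ := hLOC.exists_closed (succ κ) (max (max a b) κ.ord)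
    (h0.trans (lt_succ κ)) (isRegular_succ h0.le) (max_lt (max_lt ha hb) h1)
  have hag : a < g := lt_of_le_of_lt ((le_max_left _ _).trans (le_max_left _ _)) hg1
  have hbg : b < g := lt_of_le_of_lt ((le_max_right _ _).trans (le_max_left _ _)) hg1
  have hkg : κ.ord < g := lt_of_le_of_lt (le_max_right _ _) hg1
  have h1g : 1 < g := by
    refine lt_trans ?_ ((omega_lt_ord h0).trans hkg)
    exact Ordinal.one_lt_omega0
  obtain ⟨par, hpar, hv⟩ := hMEM.exists_code g 2 (fun i => if i = 0 then a else b) hg2 h1g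
    (fun i => by
      split_ifs
      · exact hag
      · exact hbg)
  have hv0 : var 0 par = a := hv 0 (by norm_num)
  have hv1 : var 1 par = b := hv 1 (by norm_num)
  obtain ⟨p, hp⟩ : ∃ p : Fm, p = Fm.ex (Fm.and (Fm.pr 2 1 0) (Fm.mm 0 3)) := ⟨_, rfl⟩
  refine ⟨code g (idx p : Ordinal.{u}) par, hLOC.code_lt_ord _ _ _ _
    ((h0.trans (lt_succ κ)).le) hg (nat_lt_ord (h0.trans (lt_succ κ)) _) (hpar.trans hg), ?_⟩
  intro w hw
  have hwg : w < g := hw.trans hkg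
  rw [hMEM.mem_code g par w p hg2 h1g hpar, hp]
  have e0 : var 0 (J w par) = w := hLOC.var_zero_J _ _
  have e1 : var 1 (J w par) = a := by rw [hLOC.var_succ_J 0 w par]; exact hv0
  have e2 : var 2 (J w par) = b := by rw [hLOC.var_succ_J 1 w par]; exact hv1
  constructor
  · rintro ⟨_, z, hz, h2, h3⟩
    change J (var 1 (J w par)) (var 0 (J w par)) = z at h2
    change Mem z (var 2 (J w par)) at h3
    rw [e0, e1] at h2
    rw [e2] at h3
    rw [h2]
    exact h3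
  · intro h2
    refine ⟨hwg, J a w, hLOC.J_lt g a w hg2 hag hwg, ?_, ?_⟩
    · change J (var 1 (J w par)) (var 0 (J w par)) = J a w
      rw [e0, e1]
    · change Mem (J a w) (var 2 (J w par))
      rw [e2]
      exact h2

theorem p_BP (hLOC : T_LOC.{u}) (hMEM : T_MEM.{u}) (hREC : T_REC.{u}) (hRED : T_RED.{u})
    (hNUL : T_NUL.{u}) (hSL : T_SL.{u}) : T_BP.{u} := by
  intro κ hκ
  have h0 := hκ.1
  refine ⟨omega_lt_ord h0, hLOC.lev_ord κ h0.le, fun c hc => ?_⟩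
  have hn : ∀ z : Ordinal.{u}, ∃ n : Ordinal.{u}, z < κ.ord → n < κ.ord ∧
      ∀ w < J z z, (Mem w n ↔ Mem w c) := by
    intro z
    by_cases hz : z < κ.ord
    · have hJ : J z z < κ.ord := by
        unfold J
        rw [max_self]
        exact hLOC.code_lt_ord κ z z z h0.le hz hz hz
      obtain ⟨n, hn, hn'⟩ := hRED κ h0 (J z z) hJ c
      exact ⟨n, fun _ => ⟨hn, hn'⟩⟩
    · exact ⟨0, fun h => absurd h hz⟩
  choose n hn using hn
  obtain ⟨H, ι, F, d, e, hU, hgen, _⟩ := ult_exists (α := ULift.{u} Bool)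
    (gens := fun b => if b.down = true then id else n) hLOC hMEM hNUL hSL hκ
    ((mk_le_aleph0).trans h0.le) (by
      intro b z hz
      split_ifs
      · exact hz
      · exact (hn z hz).1)
  obtain ⟨i0, hi0⟩ := hgen ⟨true⟩
  obtain ⟨i1, hi1⟩ := hgen ⟨false⟩
  simp only [if_true] at hi0
  simp only [Bool.false_eq_true, if_false] at hi1
  have hid : EUlt κ H F e (fun z => z) (e i0) := by
    have := hU.self i0
    rwa [hi0] at this
  have hnn : EUlt κ H F e n (e i1) := by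
    have := hU.self i1
    rwa [hi1] at this
  obtain ⟨v, hv, hv'⟩ := exists_section hLOC hMEM h0 ((hU.lt_d i0).trans hU.d_lt)
    ((hU.lt_d i1).trans hU.d_lt)
  refine ⟨v, hv, ?_⟩
  intro x hx z₀ hz₀
  have h1 : AE κ H (fun z => ∀ i < x, (Mem (J z i) (n z) ↔ Mem i v)) := by
    refine AE.ball hU.reg hx fun i hi => ?_
    have hik := hi.trans hx
    have hJ := hU.J hLOC hREC hid (hU.const i hik)
    have h2 := hU.mem hLOC hMEM hREC _ _ _ _ hJ hnn
    have h3 := hv' i hik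
    by_cases h4 : Mem i v
    · exact (h2.mp (h3.mp h4)).mono fun z _ hz => ⟨fun _ => h4, fun _ => hz⟩
    · rcases hU.dec_mem hJ hnn with h5 | h5
      · exact absurd (h3.mpr (h2.mpr h5)) h4
      · exact h5.mono fun z _ hz => ⟨fun h => absurd h hz, fun h => absurd h h4⟩
  obtain ⟨z, hzH, hz, hz1, hz2⟩ := (h1.and (AE.gt hx)).exists hU.unb hz₀
  have hzk := hU.sub z hzH
  refine ⟨z, hzk, hz, fun i hi => ?_⟩
  rw [← hz1 i hi]
  exact ((hn z hzk).2 _ (J_lt_J hLOC (hi.trans hz2))).symm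

theorem WW.congr (hLOC : T_LOC.{u}) {l c d c' d' : Ordinal.{u}} (hl : lev l = l)
    (h : WW l c d) (hc : ∀ w < l, (Mem w c ↔ Mem w c')) (hd : ∀ w < l, (Mem w d ↔ Mem w d')) :
    WW l c' d' := by
  intro x hx z₀ hz₀
  obtain ⟨z, hz, hz', hz''⟩ := h x hx z₀ hz₀
  refine ⟨z, hz, hz', fun i hi => ?_⟩
  rw [← hc _ (hLOC.J_lt l z i hl hz (hi.trans hx)), ← hd _ (hi.trans hx)]
  exact hz'' i hi

/-- A trace on `κ` is named by a code that is at most `y`, if there are no new codes beyond `y`. -/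
theorem old_trace {κ : Cardinal.{u}} {y : Ordinal.{u}}
    (hy : ∀ e < (succ κ).ord, y < e → ¬ New κ.ord e) {e₁ : Ordinal.{u}}
    (he₁ : e₁ < (succ κ).ord) : ∃ e₂ ≤ y, ∀ w < κ.ord, (Mem w e₂ ↔ Mem w e₁) := by
  have hne : ({e | ∀ w < κ.ord, (Mem w e ↔ Mem w e₁)} : Set Ordinal.{u}).Nonempty :=
    ⟨e₁, fun w _ => Iff.rfl⟩
  have h1 := csInf_mem hne
  set m := sInf {e | ∀ w < κ.ord, (Mem w e ↔ Mem w e₁)} with hm
  have hle : m ≤ e₁ := csInf_le' (fun w _ => Iff.rfl)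
  refine ⟨m, ?_, h1⟩
  by_contra hcon
  rw [not_le] at hcon
  refine hy m (hle.trans_lt he₁) hcon ?_
  intro e' he'
  by_contra hno
  push Not at hno
  have : m ≤ e' := csInf_le' (fun w hw => (hno w hw).symm.trans (h1 w hw))
  exact absurd this (not_le.mpr he')

theorem p_C2 (hLOC : T_LOC.{u}) (hMEM : T_MEM.{u}) (hREC : T_REC.{u}) (hRED : T_RED.{u})
    (hNUL : T_NUL.{u}) (hSL : T_SL.{u}) : T_C2.{u} := by
  intro κ hκ ⟨y, hy, hyN⟩ f hf
  by_contra hbad
  push Not at hbad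
  have h0 := hκ.1
  have hBP := p_BP hLOC hMEM hREC hRED hNUL hSL κ hκ
  -- the bad code
  have hn : ∀ a : Ordinal.{u}, ∃ n : Ordinal.{u}, n < κ.ord ∧
      (a < κ.ord → Ordinal.omega0 < a → lev a = a → (∀ x < a, f x < a) →
        ∀ d < κ.ord, ¬ WW a n d) := by
    intro a
    by_cases ha : a < κ.ord ∧ Ordinal.omega0 < a ∧ lev a = a ∧ ∀ x < a, f x < a
    · have h1 := hbad a ha.1 ha.2.2.2
      unfold Good at h1
      push Not at h1
      obtain ⟨c, hc, hc'⟩ := h1 ha.2.1 ha.2.2.1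
      exact ⟨c, hc, fun _ _ _ _ => hc'⟩
    · exact ⟨0, zero_lt_ord h0, fun h1 h2 h3 h4 => absurd ⟨h1, h2, h3, h4⟩ ha⟩
  choose n hn using hn
  -- the points that are not closed under f
  have hq : ∀ a : Ordinal.{u}, ∃ q, q ≤ a ∧ (q < a → a ≤ f q) ∧
      (a ≤ q → ∀ x < a, f x < a) := by
    intro a
    by_cases h : ∃ x < a, a ≤ f x
    · obtain ⟨x, hx, hx'⟩ := h
      exact ⟨x, hx.le, fun _ => hx', fun h => absurd hx (not_lt.mpr h)⟩
    · push Not at h
      exact ⟨a, le_rfl, fun h1 => absurd h1 (lt_irrefl _), fun _ => h⟩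
  choose qf hqf using hq
  -- the names of the codes up to y
  let Y : Type u := (y + 1).ToType
  let yo : Y → Ordinal.{u} := fun t => ((Ordinal.ToType.mk (o := y + 1)).symm t).1
  have hyo : ∀ e' ≤ y, ∃ t, yo t = e' := by
    intro e' he'
    refine ⟨Ordinal.ToType.mk ⟨e', lt_add_one_iff.mpr he'⟩, ?_⟩
    simp [yo]
  have hY : Cardinal.mk Y ≤ κ := by
    have h1 : y + 1 < (succ κ).ord := succ_lt ((h0.trans (lt_succ κ)).le) hy
    rw [mk_toType, ← lt_succ_iff]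
    exact Cardinal.lt_ord.mp h1
  -- the functions
  have hw : ∀ (t : Y) (a : Ordinal.{u}), ∃ w, w ≤ a ∧ (w < a → ¬ (Mem w (n a) ↔ Mem w (yo t))) ∧
      (a ≤ w → ∀ w' < a, (Mem w' (n a) ↔ Mem w' (yo t))) := by
    intro t a
    by_cases h : ∃ w < a, ¬ (Mem w (n a) ↔ Mem w (yo t))
    · obtain ⟨w, hw, hw'⟩ := h
      exact ⟨w, hw.le, fun _ => hw', fun h => absurd hw (not_lt.mpr h)⟩
    · push Not at h
      exact ⟨a, le_rfl, fun h1 => absurd h1 (lt_irrefl _), fun _ => h⟩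
  choose wf hwf using hw
  have hx : ∀ (t : Y × Y) (a : Ordinal.{u}), ∃ x z₀, x ≤ a ∧ z₀ ≤ a ∧
      (x < a → z₀ < a → ∀ z < a, z₀ < z → ∃ i < x, ¬ (Mem (J z i) (yo t.1) ↔ Mem i (yo t.2))) ∧
      (a ≤ x ∨ a ≤ z₀ → WW a (yo t.1) (yo t.2)) := by
    intro t a
    by_cases h : WW a (yo t.1) (yo t.2)
    · exact ⟨a, a, le_rfl, le_rfl, fun h1 => absurd h1 (lt_irrefl _), fun _ => h⟩
    · have h' := h
      unfold WW at h'
      push Not at h'
      obtain ⟨x, hx, z₀, hz₀, h1⟩ := h'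
      refine ⟨x, z₀, hx.le, hz₀.le, fun _ _ z hz hz' => ?_, ?_⟩
      · obtain ⟨i, hi, hi'⟩ := h1 z hz hz'
        exact ⟨i, hi, by tauto⟩
      · rintro (h2 | h2)
        · exact absurd hx (not_lt.mpr h2)
        · exact absurd hz₀ (not_lt.mpr h2)
  choose xf zf hxf using hx
  obtain ⟨H, ι, F, d, e, hU, hgen, hnorm⟩ := ult_exists
    (α := ((ULift.{u} Bool ⊕ Y) ⊕ ((Y × Y) ⊕ (Y × Y))) ⊕ PUnit.{u + 1})
    (gens := Sum.elim (Sum.elim (Sum.elim (fun b => if b.down = true then id else n) wf)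
      (Sum.elim xf zf)) (fun _ => qf))
    hLOC hMEM hNUL hSL hκ (by
      simp only [mk_sum, mk_prod, lift_id]
      refine (add_le_add (add_le_add (add_le_add (mk_le_aleph0.trans h0.le) hY)
        (add_le_add (mul_le_mul' hY hY) (mul_le_mul' hY hY)))
        (mk_le_aleph0.trans h0.le)).trans ?_
      rw [mul_eq_self h0.le, add_eq_self h0.le, add_eq_self h0.le, add_eq_self h0.le]) (by
      rintro (((b | t) | (t | t)) | t) z hz
      · dsimp only [Sum.elim_inl]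
        split_ifs
        · exact hz
        · exact (hn z).1
      · exact (hwf t z).1.trans_lt hz
      · exact (hxf t z).1.trans_lt hz
      · exact (hxf t z).2.1.trans_lt hz
      · exact (hqf z).1.trans_lt hz)
  obtain ⟨i0, hi0⟩ := hgen (Sum.inl (Sum.inl (Sum.inl ⟨true⟩)))
  obtain ⟨i1, hi1⟩ := hgen (Sum.inl (Sum.inl (Sum.inl ⟨false⟩)))
  simp only [Sum.elim_inl, if_true] at hi0
  simp only [Sum.elim_inl, Bool.false_eq_true, if_false] at hi1
  have hid : EUlt κ H F e (fun z => z) (e i0) := by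
    have := hU.self i0
    rwa [hi0] at this
  have hnn : EUlt κ H F e n (e i1) := by
    have := hU.self i1
    rwa [hi1] at this
  -- the identity represents κ
  have hk1 : κ.ord ≤ e i0 := le_of_forall_lt fun c hc =>
    (hU.lt_iff (hU.const c hc) hid).mpr (AE.gt hc)
  have hk : e i0 = κ.ord := by
    refine le_antisymm ?_ hk1
    by_contra hcon
    rw [not_le] at hcon
    obtain ⟨i, hi⟩ := hU.ex (hcon.trans (hU.lt_d i0))
    have h1 := (hU.lt_iff hi hid).mp hcon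
    rcases hnorm i with h2 | ⟨c, hc, h2⟩
    · exact hU.irr (h1.and h2) fun z hz => absurd hz.1 (not_lt.mpr hz.2)
    · have := (hU.eq_iff hi (hU.const c hc)).mpr h2
      exact absurd hc (not_lt.mpr this.le)
  rw [hk] at hid
  have hlev : AE κ H (fun z => lev z = z) := by
    have h1 := (hU.loc hLOC hREC _ _ hid).1
    rw [hLOC.lev_ord κ h0.le] at h1
    exact (hU.eq_iff h1 hid).mp rfl
  -- the trace of the code of n
  obtain ⟨e₁, he₁, htr₁⟩ := old_trace hyN ((hU.lt_d i1).trans hU.d_lt)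
  obtain ⟨t₁, rfl⟩ := hyo e₁ he₁
  obtain ⟨e₃, he₃, hWW₃⟩ := hBP.2.2 (yo t₁) (he₁.trans_lt hy)
  obtain ⟨e₂, he₂, htr₂⟩ := old_trace hyN he₃
  obtain ⟨t₂, rfl⟩ := hyo e₂ he₂
  have hWW : WW κ.ord (yo t₁) (yo t₂) := WW.congr hLOC (hLOC.lev_ord κ h0.le) hWW₃
    (fun w _ => Iff.rfl) (fun w hw => (htr₂ w hw).symm)
  -- n and yo t₁ agree
  have hA : AE κ H (fun a => ∀ w < a, (Mem w (n a) ↔ Mem w (yo t₁))) := by
    obtain ⟨j, hj⟩ := hgen (Sum.inl (Sum.inl (Sum.inr t₁)))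
    simp only [Sum.elim_inl, Sum.elim_inr] at hj
    have h1 := hnorm j
    rw [hj] at h1
    rcases h1 with h1 | ⟨c, hc, h1⟩
    · exact h1.mono fun a _ ha => (hwf t₁ a).2.2 ha
    · exfalso
      have h2 : AE κ H (fun a => ¬ (Mem c (n a) ↔ Mem c (yo t₁))) :=
        (h1.and (AE.gt hc)).mono fun a _ ha => by
          have h3 := (hwf t₁ a).2.1
          rw [ha.1] at h3
          exact h3 ha.2
      have h4 := hU.mem hLOC hMEM hREC _ _ _ _ (hU.const c hc) hnn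
      have h5 := htr₁ c hc
      by_cases h6 : Mem c (yo t₁)
      · have h7 := h4.mp (h5.mp h6)
        exact hU.irr (h2.and h7) fun z hz => hz.1 ⟨fun _ => h6, fun _ => hz.2⟩
      · have h7 : AE κ H (fun a => Mem c (n a)) := h2.mono fun a _ ha => by
          by_contra h8
          exact ha ⟨fun h => absurd h h8, fun h => absurd h h6⟩
        exact h6 (h5.mpr (h4.mpr h7))
  -- the failure of WW
  have hB : AE κ H (fun a => WW a (yo t₁) (yo t₂)) := by
    obtain ⟨j, hj⟩ := hgen (Sum.inl (Sum.inr (Sum.inl (t₁, t₂))))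
    obtain ⟨k, hk⟩ := hgen (Sum.inl (Sum.inr (Sum.inr (t₁, t₂))))
    simp only [Sum.elim_inl, Sum.elim_inr] at hj hk
    have h1 := hnorm j
    have h2 := hnorm k
    rw [hj] at h1
    rw [hk] at h2
    rcases h1 with h1 | ⟨c, hc, h1⟩
    · exact h1.mono fun a _ ha => (hxf (t₁, t₂) a).2.2.2 (Or.inl ha)
    rcases h2 with h2 | ⟨c', hc', h2⟩
    · exact h2.mono fun a _ ha => (hxf (t₁, t₂) a).2.2.2 (Or.inr ha)
    exfalso
    obtain ⟨z, hz, hz', hz''⟩ := hWW c hc c' hc'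
    obtain ⟨a, haH, hza, ⟨ha1, ha2⟩, ha3, ha4⟩ := ((h1.and h2).and
      ((AE.gt hc).and (AE.gt hc'))).exists hU.unb hz
    have h3 := (hxf (t₁, t₂) a).2.2.1
    rw [ha1, ha2] at h3
    obtain ⟨i, hi, hi'⟩ := h3 ha3 ha4 z hza hz'
    exact hi' (hz'' i hi)
  -- closure under f
  have hQ : AE κ H (fun a => ∀ x < a, f x < a) := by
    obtain ⟨j, hj⟩ := hgen (Sum.inr ⟨⟩)
    simp only [Sum.elim_inr] at hj
    have h1 := hnorm j
    rw [hj] at h1
    rcases h1 with h1 | ⟨c, hc, h1⟩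
    · exact h1.mono fun a _ ha => (hqf a).2.2 ha
    · exfalso
      obtain ⟨a, haH, hfa, ha1, ha2⟩ := (h1.and (AE.gt hc)).exists hU.unb (hf c hc)
      have h3 := (hqf a).2.1
      rw [ha1] at h3
      exact absurd hfa (not_lt.mpr (h3 ha2))
  -- the contradiction
  obtain ⟨a, haH, _, ⟨⟨ha1, ha2⟩, ha5⟩, ha3, ha4⟩ := (((hlev.and (AE.gt (omega_lt_ord h0))).and
    hQ).and (hA.and hB)).exists hU.unb (zero_lt_ord h0)
  have hak := hU.sub a haH
  obtain ⟨e₄, he₄, htr₄⟩ := hRED κ h0 a hak (yo t₂)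
  exact (hn a).2 hak ha2 ha1 ha5 e₄ he₄ (WW.congr hLOC ha1 ha4 (fun w hw => (ha3 w hw).symm)
    (fun w hw => (htr₄ w hw).symm))

end Pool.Agent.LMach
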