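import Pool.Agent.LMach.Base

/-!
# Ultrapowers: the abstract rank function

`κ` is regular and uncountable, `H` is an unbounded subset of `κ`, `F` is a family of at most `κ`
functions.  If `H` decides all the relations `F i z < F j z`, then the family is well-ordered
modulo `AE κ H`.
-/

open Set Cardinal Order

universe u

namespace Pool.Agent.LMach

theorem zero_lt_ord {κ : Cardinal.{u}} (h0 : ℵ₀ < κ) : 0 < κ.ord := by
  rw [Cardinal.lt_ord, Ordinal.card_zero]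
  exact lt_of_le_of_lt zero_le h0

/-! ### Almost everywhere -/

section AE

variable {κ : Cardinal.{u}} {H : Set Ordinal.{u}} {P Q : Ordinal.{u} → Prop}

theorem AE.mono (h : AE κ H P) (hPQ : ∀ z ∈ H, P z → Q z) : AE κ H Q := by
  obtain ⟨b, hb, hP⟩ := h
  exact ⟨b, hb, fun z hz hbz => hPQ z hz (hP z hz hbz)⟩

theorem AE.and (hP : AE κ H P) (hQ : AE κ H Q) : AE κ H (fun z => P z ∧ Q z) := by
  obtain ⟨b, hb, hP⟩ := hP
  obtain ⟨c, hc, hQ⟩ := hQ
  exact ⟨max b c, max_lt hb hc, fun z hz hbz =>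
    ⟨hP z hz (lt_of_le_of_lt (le_max_left _ _) hbz), hQ z hz (lt_of_le_of_lt (le_max_right _ _) hbz)⟩⟩

theorem AE.of_all (h0 : ℵ₀ < κ) (h : ∀ z ∈ H, P z) : AE κ H P := by
  exact ⟨0, zero_lt_ord h0, fun z hz _ => h z hz⟩

theorem AE.gt {c : Ordinal.{u}} (hc : c < κ.ord) : AE κ H (fun z => c < z) :=
  ⟨c, hc, fun _ _ h => h⟩

theorem AE.exists (hU : ∀ x < κ.ord, ∃ z ∈ H, x < z) (h : AE κ H P) {c : Ordinal.{u}}
    (hc : c < κ.ord) : ∃ z ∈ H, c < z ∧ P z := by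
  obtain ⟨b, hb, hP⟩ := h
  obtain ⟨z, hz, hbz⟩ := hU (max b c) (max_lt hb hc)
  exact ⟨z, hz, lt_of_le_of_lt (le_max_right _ _) hbz,
    hP z hz (lt_of_le_of_lt (le_max_left _ _) hbz)⟩

theorem AE.not_not (h0 : ℵ₀ < κ) (hU : ∀ x < κ.ord, ∃ z ∈ H, x < z) (h : AE κ H P) :
    ¬ AE κ H (fun z => ¬ P z) := by
  intro h'
  obtain ⟨z, _, _, hz, hz'⟩ := (h.and h').exists hU (c := 0) (zero_lt_ord h0)
  exact hz' hz

theorem AE.ball (hκ : κ.IsRegular) {c : Ordinal.{u}} (hc : c < κ.ord)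
    {R : Ordinal.{u} → Ordinal.{u} → Prop} (h : ∀ i < c, AE κ H (R i)) :
    AE κ H (fun z => ∀ i < c, R i z) := by
  choose! f hf using h
  obtain ⟨b, hb, hb'⟩ := bddIio hκ f hc (fun i hi => (hf i hi).1)
  exact ⟨b, hb, fun z hz hbz i hi => (hf i hi).2 z hz ((hb' i hi).trans hbz)⟩

theorem AE.nat (h0 : ℵ₀ < κ) (hκ : κ.IsRegular) {R : ℕ → Ordinal.{u} → Prop}
    (h : ∀ i, AE κ H (R i)) : AE κ H (fun z => ∀ i, R i z) := by
  choose f hf using h
  obtain ⟨b, hb, hb'⟩ := bddNat h0 hκ f (fun i => (hf i).1)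
  exact ⟨b, hb, fun z hz hbz i => (hf i).2 z hz ((hb' i).trans hbz)⟩

end AE

/-! ### The rank -/

/-- The data of an ultrapower: a family of functions and an unbounded set that decides the
comparisons. -/
structure UD (κ : Cardinal.{u}) (H : Set Ordinal.{u}) (ι : Type u)
    (F : ι → Ordinal.{u} → Ordinal.{u}) : Prop where
  unc : ℵ₀ < κ
  reg : κ.IsRegular
  card : Cardinal.mk ι ≤ κ
  sub : ∀ z ∈ H, z < κ.ord
  unb : ∀ x < κ.ord, ∃ z ∈ H, x < z
  val : ∀ i, ∀ z < κ.ord, F i z < κ.ord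
  dec : ∀ i j, AE κ H (fun z => F i z < F j z) ∨ AE κ H (fun z => ¬ F i z < F j z)
  decm : ∀ i j, AE κ H (fun z => Mem (F i z) (F j z)) ∨ AE κ H (fun z => ¬ Mem (F i z) (F j z))

section Rank

variable {κ : Cardinal.{u}} {H : Set Ordinal.{u}} {ι : Type u}
    {F : ι → Ordinal.{u} → Ordinal.{u}}

/-- The comparison of two members of the family. -/
def UR (κ : Cardinal.{u}) (H : Set Ordinal.{u}) (F : ι → Ordinal.{u} → Ordinal.{u}) (i j : ι) :
    Prop := AE κ H (fun z => F i z < F j z)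

theorem UD.wf (h : UD κ H ι F) : WellFounded (UR κ H F) := by
  rw [wellFounded_iff_isEmpty_descending_chain]
  refine ⟨fun ⟨s, hs⟩ => ?_⟩
  have h1 : AE κ H (fun z => ∀ n, F (s (n + 1)) z < F (s n) z) := AE.nat h.unc h.reg hs
  obtain ⟨z, _, _, hz⟩ := h1.exists h.unb (c := 0)
    (zero_lt_ord h.unc)
  exact (wellFounded_iff_isEmpty_descending_chain.mp (Ordinal.lt_wf.{u})).false
    ⟨fun n => F (s n) z, hz⟩

/-- AE equality -/
theorem UD.eq_or (h : UD κ H ι F) (i j : ι) :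
    UR κ H F i j ∨ AE κ H (fun z => F i z = F j z) ∨ UR κ H F j i := by
  rcases h.dec i j with h1 | h1
  · exact Or.inl h1
  rcases h.dec j i with h2 | h2
  · exact Or.inr (Or.inr h2)
  · exact Or.inr (Or.inl ((h1.and h2).mono fun z _ hz => le_antisymm (not_lt.mp hz.2)
      (not_lt.mp hz.1)))

theorem UD.irr (h : UD κ H ι F) {P : Ordinal.{u} → Prop} (hP : AE κ H P) (hn : ∀ z, ¬ P z) :
    False := by
  obtain ⟨z, _, _, hz⟩ := hP.exists h.unb (c := 0) (zero_lt_ord h.unc)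
  exact hn z hz

/-- the rank function -/
theorem UD.rank (h : UD κ H ι F) : ∃ (d : Ordinal.{u}) (e : ι → Ordinal.{u}),
    d < (succ κ).ord ∧ (∀ i, e i < d) ∧ (∀ x < d, ∃ i, e i = x) ∧
    (∀ i j, e i < e j ↔ UR κ H F i j) := by
  have : IsWellFounded ι (UR κ H F) := ⟨h.wf⟩
  let e : ι → Ordinal.{u} := IsWellFounded.rank (UR κ H F)
  have hlt : ∀ i j, UR κ H F i j → e i < e j := fun i j hij => IsWellFounded.rank_lt_of_rel hij
  have hle : ∀ i j, AE κ H (fun z => F i z = F j z) → e i ≤ e j := by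
    intro i j hij
    change IsWellFounded.rank (UR κ H F) i ≤ _
    rw [IsWellFounded.rank_eq]
    refine Ordinal.iSup_le fun b => succ_le_of_lt (hlt _ _ ?_)
    exact (b.2.and hij).mono fun z _ hz => hz.2 ▸ hz.1
  have hiff : ∀ i j, e i < e j ↔ UR κ H F i j := by
    intro i j
    refine ⟨fun hij => ?_, hlt i j⟩
    rcases h.eq_or i j with h1 | h1 | h1
    · exact h1
    · exact absurd (hle j i (h1.mono fun z _ hz => hz.symm)) (not_le.mpr hij)
    · exact absurd (hlt j i h1) hij.asymm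
  refine ⟨⨆ i, succ (e i), e, ?_, ?_, ?_, hiff⟩
  · rw [Cardinal.lt_ord, lt_succ_iff]
    have hsub : ∀ x : Iio (⨆ i, succ (e i)), ∃ i, e i = x.1 := by
      rintro ⟨x, hx⟩
      obtain ⟨i, hi⟩ := (Ordinal.lt_iSup_iff).mp hx
      obtain ⟨j, hj⟩ := IsWellFounded.mem_range_rank_of_le (lt_succ_iff.mp hi)
      exact ⟨j, hj⟩
    choose g hg using hsub
    have hinj : Function.Injective g := by
      intro a b hab
      apply Subtype.ext
      rw [← hg a, ← hg b, hab]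
    have := Cardinal.mk_le_of_injective (f := fun x : (⨆ i, succ (e i)).ToType =>
      g ((Ordinal.ToType.mk (o := ⨆ i, succ (e i))).symm x))
      (hinj.comp (Ordinal.ToType.mk (o := ⨆ i, succ (e i))).symm.injective)
    rw [mk_toType] at this
    exact this.trans h.card
  · intro i
    exact lt_of_lt_of_le (lt_succ _) (Ordinal.le_iSup (fun i => succ (e i)) i)
  · intro x hx
    obtain ⟨i, hi⟩ := (Ordinal.lt_iSup_iff).mp hx
    obtain ⟨j, hj⟩ := IsWellFounded.mem_range_rank_of_le (lt_succ_iff.mp hi)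
    exact ⟨j, hj⟩

end Rank

/-! ### Closed families -/

/-- A family that is closed under the functions of the machine. -/
structure UC (κ : Cardinal.{u}) (H : Set Ordinal.{u}) (ι : Type u)
    (F : ι → Ordinal.{u} → Ordinal.{u}) : Prop extends UD κ H ι F where
  cst : ∀ c < κ.ord, ∃ i, AE κ H (fun z => F i z = c)
  clev : ∀ i, ∃ j, ∀ z ∈ H, F j z = lev (F i z)
  chd : ∀ i, ∃ j, ∀ z ∈ H, F j z = hd (F i z)
  ctl : ∀ i, ∃ j, ∀ z ∈ H, F j z = tl (F i z)
  ccode : ∀ i j k, ∃ m, ∀ z ∈ H, F j z ≤ F i z → F k z ≤ F i z →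
    F m z = code (F i z) (F j z) (F k z)
  cmn : ∀ i, ∃ j, ∀ z ∈ H, (∃ w, Mem w (F i z)) → IsMn (F j z) (F i z)

/-- A closed family with a rank function. -/
structure UE (κ : Cardinal.{u}) (H : Set Ordinal.{u}) (ι : Type u)
    (F : ι → Ordinal.{u} → Ordinal.{u}) (d : Ordinal.{u}) (e : ι → Ordinal.{u}) : Prop
    extends UC κ H ι F where
  d_lt : d < (succ κ).ord
  lt_d : ∀ i, e i < d
  surj : ∀ x < d, ∃ i, e i = x
  lt_iff' : ∀ i j, e i < e j ↔ AE κ H (fun z => F i z < F j z)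

/-- The function `f` represents the ordinal `x`. -/
def EUlt (κ : Cardinal.{u}) (H : Set Ordinal.{u}) {ι : Type u}
    (F : ι → Ordinal.{u} → Ordinal.{u}) (e : ι → Ordinal.{u}) (f : Ordinal.{u} → Ordinal.{u})
    (x : Ordinal.{u}) : Prop :=
  ∃ i, AE κ H (fun z => F i z = f z) ∧ e i = x

section EUlt

variable {κ : Cardinal.{u}} {H : Set Ordinal.{u}} {ι : Type u}
    {F : ι → Ordinal.{u} → Ordinal.{u}} {d : Ordinal.{u}} {e : ι → Ordinal.{u}}
    {f g : Ordinal.{u} → Ordinal.{u}} {x y : Ordinal.{u}}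

theorem UE.lt_iff (h : UE κ H ι F d e) (hf : EUlt κ H F e f x) (hg : EUlt κ H F e g y) :
    x < y ↔ AE κ H (fun z => f z < g z) := by
  obtain ⟨i, hi, rfl⟩ := hf
  obtain ⟨j, hj, rfl⟩ := hg
  rw [h.lt_iff' i j]
  constructor
  · intro hh
    exact (hh.and (hi.and hj)).mono fun z _ hz => by rw [← hz.2.1, ← hz.2.2]; exact hz.1
  · intro hh
    exact (hh.and (hi.and hj)).mono fun z _ hz => by rw [hz.2.1, hz.2.2]; exact hz.1

theorem UE.dec_lt (h : UE κ H ι F d e) (hf : EUlt κ H F e f x) (hg : EUlt κ H F e g y) :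
    AE κ H (fun z => f z < g z) ∨ AE κ H (fun z => ¬ f z < g z) := by
  obtain ⟨i, hi, rfl⟩ := hf
  obtain ⟨j, hj, rfl⟩ := hg
  rcases h.dec i j with hh | hh
  · exact Or.inl ((hh.and (hi.and hj)).mono fun z _ hz => by
      rw [← hz.2.1, ← hz.2.2]; exact hz.1)
  · exact Or.inr ((hh.and (hi.and hj)).mono fun z _ hz => by
      rw [← hz.2.1, ← hz.2.2]; exact hz.1)

theorem UE.dec_mem (h : UE κ H ι F d e) (hf : EUlt κ H F e f x) (hg : EUlt κ H F e g y) :
    AE κ H (fun z => Mem (f z) (g z)) ∨ AE κ H (fun z => ¬ Mem (f z) (g z)) := by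
  obtain ⟨i, hi, rfl⟩ := hf
  obtain ⟨j, hj, rfl⟩ := hg
  rcases h.decm i j with hh | hh
  · exact Or.inl ((hh.and (hi.and hj)).mono fun z _ hz => by
      rw [← hz.2.1, ← hz.2.2]; exact hz.1)
  · exact Or.inr ((hh.and (hi.and hj)).mono fun z _ hz => by
      rw [← hz.2.1, ← hz.2.2]; exact hz.1)

theorem UE.le_iff (h : UE κ H ι F d e) (hf : EUlt κ H F e f x) (hg : EUlt κ H F e g y) :
    x ≤ y ↔ AE κ H (fun z => f z ≤ g z) := by
  rw [← not_lt, h.lt_iff hg hf]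
  constructor
  · intro hh
    rcases h.dec_lt hg hf with h1 | h1
    · exact absurd h1 hh
    · exact h1.mono fun z _ hz => not_lt.mp hz
  · intro hh h1
    exact h.irr (hh.and h1) fun z hz => absurd hz.2 (not_lt.mpr hz.1)

theorem UE.eq_iff (h : UE κ H ι F d e) (hf : EUlt κ H F e f x) (hg : EUlt κ H F e g y) :
    x = y ↔ AE κ H (fun z => f z = g z) := by
  rw [le_antisymm_iff, h.le_iff hf hg, h.le_iff hg hf]
  constructor
  · rintro ⟨h1, h2⟩
    exact (h1.and h2).mono fun z _ hz => le_antisymm hz.1 hz.2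
  · intro h1
    exact ⟨h1.mono fun z _ hz => hz.le, h1.mono fun z _ hz => hz.ge⟩

theorem EUlt.congr (hf : EUlt κ H F e f x) (hfg : AE κ H (fun z => f z = g z)) :
    EUlt κ H F e g x := by
  obtain ⟨i, hi, rfl⟩ := hf
  exact ⟨i, (hi.and hfg).mono fun z _ hz => hz.1.trans hz.2, rfl⟩

theorem UE.self (h : UE κ H ι F d e) (i : ι) : EUlt κ H F e (F i) (e i) :=
  ⟨i, AE.of_all h.unc fun _ _ => rfl, rfl⟩

theorem UE.lt_d' (h : UE κ H ι F d e) (hf : EUlt κ H F e f x) : x < d := by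
  obtain ⟨i, _, rfl⟩ := hf
  exact h.lt_d i

theorem UE.ex (h : UE κ H ι F d e) (hx : x < d) : ∃ i, EUlt κ H F e (F i) x := by
  obtain ⟨i, rfl⟩ := h.surj x hx
  exact ⟨i, h.self i⟩

theorem UE.const (h : UE κ H ι F d e) (c : Ordinal.{u}) (hc : c < κ.ord) :
    EUlt κ H F e (fun _ => c) c := by
  induction c using WellFoundedLT.induction with
  | ind c ih =>
    obtain ⟨i, hi⟩ := h.cst c hc
    refine ⟨i, hi, ?_⟩
    have hi' : EUlt κ H F e (fun _ => c) (e i) := (h.self i).congr hi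
    apply le_antisymm
    · by_contra hcon
      rw [not_le] at hcon
      obtain ⟨j, hj⟩ := h.ex (hcon.trans (h.lt_d i))
      have h1 : AE κ H (fun z => F j z < c) := (h.lt_iff hj hi').mp hcon
      have h2 : ∀ c' < c, AE κ H (fun z => F j z ≠ c') := by
        intro c' hc'
        have h3 := ih c' hc' (hc'.trans hc)
        have h4 : ¬ c = c' := hc'.ne'
        rcases lt_trichotomy c c' with h5 | h5 | h5
        · exact absurd h5 hc'.asymm
        · exact absurd h5 h4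
        · exact ((h.lt_iff h3 hj).mp h5).mono fun z _ hz => hz.ne'
      exact h.irr (h1.and (AE.ball h.reg hc h2)) fun z hz => hz.2 _ hz.1 rfl
    · refine le_of_forall_lt fun c' hc' => ?_
      exact (h.lt_iff (ih c' hc' (hc'.trans hc)) hi').mpr (AE.of_all h.unc fun _ _ => hc')

theorem UE.lex (h : UE κ H ι F d e) {f₁ f₂ f₃ g₁ g₂ g₃ : Ordinal.{u} → Ordinal.{u}}
    {x₁ x₂ x₃ y₁ y₂ y₃ : Ordinal.{u}}
    (hf₁ : EUlt κ H F e f₁ x₁) (hf₂ : EUlt κ H F e f₂ x₂) (hf₃ : EUlt κ H F e f₃ x₃)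
    (hg₁ : EUlt κ H F e g₁ y₁) (hg₂ : EUlt κ H F e g₂ y₂) (hg₃ : EUlt κ H F e g₃ y₃) :
    LexLt x₁ x₂ x₃ y₁ y₂ y₃ ↔
      AE κ H (fun z => LexLt (f₁ z) (f₂ z) (f₃ z) (g₁ z) (g₂ z) (g₃ z)) := by
  unfold LexLt
  rcases lt_trichotomy x₁ y₁ with h1 | h1 | h1
  · have h2 := (h.lt_iff hf₁ hg₁).mp h1
    exact ⟨fun _ => h2.mono fun z _ hz => Or.inl hz, fun _ => Or.inl h1⟩
  · have h2 := (h.eq_iff hf₁ hg₁).mp h1
    rcases lt_trichotomy x₂ y₂ with h3 | h3 | h3
    · have h4 := (h.lt_iff hf₂ hg₂).mp h3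
      exact ⟨fun _ => (h2.and h4).mono fun z _ hz => Or.inr ⟨hz.1, Or.inl hz.2⟩,
        fun _ => Or.inr ⟨h1, Or.inl h3⟩⟩
    · have h4 := (h.eq_iff hf₂ hg₂).mp h3
      have h5 := h.lt_iff hf₃ hg₃
      constructor
      · rintro (h6 | ⟨_, h6 | ⟨_, h6⟩⟩)
        · exact absurd h6 h1.not_lt
        · exact absurd h6 h3.not_lt
        · exact (h2.and (h4.and (h5.mp h6))).mono fun z _ hz =>
            Or.inr ⟨hz.1, Or.inr ⟨hz.2.1, hz.2.2⟩⟩
      · intro h6
        refine Or.inr ⟨h1, Or.inr ⟨h3, h5.mpr ((h2.and (h4.and h6)).mono fun z _ hz => ?_)⟩⟩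
        obtain ⟨h7, h8, h9 | ⟨_, h9 | ⟨_, h9⟩⟩⟩ := hz
        · exact absurd h9 h7.not_lt
        · exact absurd h9 h8.not_lt
        · exact h9
    · have h4 := (h.lt_iff hg₂ hf₂).mp h3
      constructor
      · rintro (h6 | ⟨_, h6 | ⟨h6, _⟩⟩)
        · exact absurd h6 h1.not_lt
        · exact absurd h6 h3.asymm
        · exact absurd h6 h3.ne'
      · intro h6
        refine absurd (h2.and (h4.and h6)) fun h7 => h.irr h7 fun z hz => ?_
        obtain ⟨h7, h8, h9 | ⟨_, h9 | ⟨h9, _⟩⟩⟩ := hz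
        · exact absurd h9 h7.not_lt
        · exact absurd h9 h8.asymm
        · exact absurd h9 h8.ne'
  · have h2 := (h.lt_iff hg₁ hf₁).mp h1
    constructor
    · rintro (h6 | ⟨h6, _⟩)
      · exact absurd h6 h1.asymm
      · exact absurd h6 h1.ne'
    · intro h6
      refine absurd (h2.and h6) fun h7 => h.irr h7 fun z hz => ?_
      obtain ⟨h7, h9 | ⟨h9, _⟩⟩ := hz
      · exact absurd h9 h7.asymm
      · exact absurd h9 h7.ne'

theorem UE.loc (hLOC : T_LOC.{u}) (hREC : T_REC.{u}) (h : UE κ H ι F d e) :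
    ∀ f x, EUlt κ H F e f x → EUlt κ H F e (fun z => lev (f z)) (lev x) ∧
      EUlt κ H F e (fun z => hd (f z)) (hd x) ∧ EUlt κ H F e (fun z => tl (f z)) (tl x) := by
  have hne : Nonempty ι := ⟨(h.cst 0 (zero_lt_ord h.unc)).choose⟩
  have hsurj := h.surj
  choose! s hs using hsurj
  obtain ⟨L, hL⟩ := Classical.axiomOfChoice h.clev
  obtain ⟨D, hD⟩ := Classical.axiomOfChoice h.chd
  obtain ⟨T, hT⟩ := Classical.axiomOfChoice h.ctl
  have hEs : ∀ x < d, EUlt κ H F e (F (s x)) x := by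
    intro x hx
    have := h.self (s x)
    rwa [hs x hx] at this
  have hLs : ∀ x < d, EUlt κ H F e (fun z => lev (F (s x) z)) (e (L (s x))) := fun x _ =>
    (h.self (L (s x))).congr (AE.of_all h.unc fun z hz => hL _ z hz)
  have hDs : ∀ x < d, EUlt κ H F e (fun z => hd (F (s x) z)) (e (D (s x))) := fun x _ =>
    (h.self (D (s x))).congr (AE.of_all h.unc fun z hz => hD _ z hz)
  have hTs : ∀ x < d, EUlt κ H F e (fun z => tl (F (s x) z)) (e (T (s x))) := fun x _ =>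
    (h.self (T (s x))).congr (AE.of_all h.unc fun z hz => hT _ z hz)
  have key := (hREC d (fun v => e (L (s v))) (fun v => e (D (s v))) (fun v => e (T (s v)))
    (fun _ _ => False) ?_ ?_ ?_).1
  · intro f x hf
    have hx := h.lt_d' hf
    obtain ⟨k1, k2, k3⟩ := key x hx
    have hfs : AE κ H (fun z => F (s x) z = f z) := (h.eq_iff (hEs x hx) hf).mp rfl
    refine ⟨?_, ?_, ?_⟩
    · rw [← k1]
      exact (hLs x hx).congr (hfs.mono fun z _ hz => by rw [hz])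
    · rw [← k2]
      exact (hDs x hx).congr (hfs.mono fun z _ hz => by rw [hz])
    · rw [← k3]
      exact (hTs x hx).congr (hfs.mono fun z _ hz => by rw [hz])
  · intro v hv
    exact ⟨h.lt_d _, (h.le_iff (hDs v hv) (hLs v hv)).mpr (AE.of_all h.unc fun z _ => hLOC.hd_le _),
      (h.le_iff (hTs v hv) (hLs v hv)).mpr (AE.of_all h.unc fun z _ => hLOC.tl_le _)⟩
  · intro v w hvw hw
    have hv := hvw.trans hw
    rw [h.lex (hLs v hv) (hDs v hv) (hTs v hv) (hLs w hw) (hDs w hw) (hTs w hw)]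
    exact ((h.lt_iff (hEs v hv) (hEs w hw)).mp hvw).mono fun z _ hz => (hLOC.lt_iff _ _).mp hz
  · intro w g a t hw ha ht hlex
    have hg : g < d := by
      rcases hlex with h1 | ⟨h1, _⟩
      · exact h1.trans (h.lt_d _)
      · rw [h1]
        exact h.lt_d _
    obtain ⟨i, hi⟩ := h.ex hg
    obtain ⟨j, hj⟩ := h.ex (lt_of_le_of_lt ha hg)
    obtain ⟨k, hk⟩ := h.ex (lt_of_le_of_lt ht hg)
    obtain ⟨m, hm⟩ := h.ccode i j k
    have h1 := (h.le_iff hj hi).mp ha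
    have h2 := (h.le_iff hk hi).mp ht
    have h3 : AE κ H (fun z => F j z ≤ F i z ∧ F k z ≤ F i z ∧
        F m z = code (F i z) (F j z) (F k z)) :=
      (h1.and h2).mono fun z hzH hz => ⟨hz.1, hz.2, hm z hzH hz.1 hz.2⟩
    have hv := h.lt_d m
    have h4 : AE κ H (fun z => F (s (e m)) z = F m z) := (h.eq_iff (hEs _ hv) (h.self m)).mp rfl
    refine ⟨e m, hv, ?_, ?_, ?_⟩
    · refine (h.eq_iff (hLs _ hv) hi).mpr ((h3.and h4).mono fun z _ hz => ?_)
      rw [hz.2, hz.1.2.2, hLOC.lev_code _ _ _ hz.1.1 hz.1.2.1]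
    · refine (h.eq_iff (hDs _ hv) hj).mpr ((h3.and h4).mono fun z _ hz => ?_)
      rw [hz.2, hz.1.2.2, hLOC.hd_code _ _ _ hz.1.1 hz.1.2.1]
    · refine (h.eq_iff (hTs _ hv) hk).mpr ((h3.and h4).mono fun z _ hz => ?_)
      rw [hz.2, hz.1.2.2, hLOC.tl_code _ _ _ hz.1.1 hz.1.2.1]

theorem UE.code (hLOC : T_LOC.{u}) (hREC : T_REC.{u}) (h : UE κ H ι F d e)
    {f₁ f₂ f₃ : Ordinal.{u} → Ordinal.{u}} {x₁ x₂ x₃ : Ordinal.{u}}
    (h₁ : EUlt κ H F e f₁ x₁) (h₂ : EUlt κ H F e f₂ x₂) (h₃ : EUlt κ H F e f₃ x₃)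
    (h21 : x₂ ≤ x₁) (h31 : x₃ ≤ x₁) :
    EUlt κ H F e (fun z => LMach.code (f₁ z) (f₂ z) (f₃ z)) (LMach.code x₁ x₂ x₃) := by
  have k2 := (h.le_iff h₂ h₁).mp h21
  have k3 := (h.le_iff h₃ h₁).mp h31
  obtain ⟨i, hi, hi'⟩ := id h₁
  obtain ⟨j, hj, hj'⟩ := id h₂
  obtain ⟨k, hk, hk'⟩ := id h₃
  obtain ⟨m, hm⟩ := h.ccode i j k
  have h3 : AE κ H (fun z => (f₂ z ≤ f₁ z ∧ f₃ z ≤ f₁ z) ∧
        F m z = LMach.code (f₁ z) (f₂ z) (f₃ z)) :=
    ((k2.and k3).and (hi.and (hj.and hk))).mono fun z hzH hz => by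
      obtain ⟨⟨a1, a2⟩, a3, a4, a5⟩ := hz
      refine ⟨⟨a1, a2⟩, ?_⟩
      rw [hm z hzH (by rw [a3, a4]; exact a1) (by rw [a3, a5]; exact a2), a3, a4, a5]
  have hl := h.loc hLOC hREC _ _ (h.self m)
  have e1 : lev (e m) = x₁ := (h.eq_iff hl.1 h₁).mpr (h3.mono fun z _ hz => by
    rw [hz.2, hLOC.lev_code _ _ _ hz.1.1 hz.1.2])
  have e2 : hd (e m) = x₂ := (h.eq_iff hl.2.1 h₂).mpr (h3.mono fun z _ hz => by
    rw [hz.2, hLOC.hd_code _ _ _ hz.1.1 hz.1.2])
  have e3 : tl (e m) = x₃ := (h.eq_iff hl.2.2 h₃).mpr (h3.mono fun z _ hz => by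
    rw [hz.2, hLOC.tl_code _ _ _ hz.1.1 hz.1.2])
  rw [← e1, ← e2, ← e3, hLOC.code_eq]
  exact (h.self m).congr (h3.mono fun z _ hz => hz.2)

theorem UE.J (hLOC : T_LOC.{u}) (hREC : T_REC.{u}) (h : UE κ H ι F d e)
    (hf : EUlt κ H F e f x) (hg : EUlt κ H F e g y) :
    EUlt κ H F e (fun z => LMach.J (f z) (g z)) (LMach.J x y) := by
  unfold LMach.J
  rcases le_total x y with h1 | h1
  · rw [max_eq_right h1]
    refine (h.code hLOC hREC hg hf hg h1 le_rfl).congr ?_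
    exact ((h.le_iff hf hg).mp h1).mono fun z _ hz => by rw [max_eq_right hz]
  · rw [max_eq_left h1]
    refine (h.code hLOC hREC hf hf hg le_rfl h1).congr ?_
    exact ((h.le_iff hg hf).mp h1).mono fun z _ hz => by rw [max_eq_left hz]

theorem UE.var (hLOC : T_LOC.{u}) (hREC : T_REC.{u}) (h : UE κ H ι F d e) (n : ℕ)
    (hf : EUlt κ H F e f x) : EUlt κ H F e (fun z => LMach.var n (f z)) (LMach.var n x) := by
  have key : ∀ n : ℕ, EUlt κ H F e (fun z => tl^[n] (f z)) (tl^[n] x) := by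
    intro n
    induction n with
    | zero => exact hf
    | succ n ih =>
      simp only [Function.iterate_succ', Function.comp_apply]
      exact (h.loc hLOC hREC _ _ ih).2.2
  exact (h.loc hLOC hREC _ _ (key n)).2.1

/-! ### Pointwise clauses -/

theorem pw_sat (hMEM : T_MEM.{u}) {v w : Ordinal.{u}} {p : Fm} (h1 : lev (lev v) = lev v)
    (h2 : w < lev v) (h3 : tl v < lev v) (h4 : hd v = (idx p : Ordinal.{u})) :
    Mem w v ↔ SatE (lev v) Mem p (fun i => LMach.var i (LMach.J w (tl v))) := by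
  rw [hMEM.mem_iff]
  constructor
  · rintro ⟨_, _, _, q, hq, hs⟩
    have : p = q := hMEM.idx_inj (Nat.cast_injective (h4.symm.trans hq))
    rw [this]
    exact hs
  · intro hs
    exact ⟨h1, h2, h3, p, h4, hs⟩

theorem pw_sub (hMEM : T_MEM.{u}) {v w : Ordinal.{u}} (p : Fm) (h1 : lev (lev v) = lev v)
    (h2 : w < lev v) (h3 : tl v < lev v) (h4 : 1 < lev v) :
    Mem w (LMach.code (lev v) (idx p : Ordinal.{u}) (tl v)) ↔
      SatE (lev v) Mem p (fun i => LMach.var i (LMach.J w (tl v))) := by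
  rw [hMEM.mem_code (lev v) (tl v) w p h1 h4 h3]
  exact ⟨fun h => h.2, fun h => ⟨h2, h⟩⟩

theorem pw_ex (hLOC : T_LOC.{u}) (hMEM : T_MEM.{u}) {v w : Ordinal.{u}} {p : Fm}
    (h1 : lev (lev v) = lev v)
    (h2 : w < lev v) (h3 : tl v < lev v) (h4 : hd v = (idx (Fm.ex p) : Ordinal.{u}))
    (h5 : 1 < lev v) :
    Mem w v ↔ ∃ z < lev v,
      Mem z (LMach.code (lev v) (idx p : Ordinal.{u}) (LMach.J w (tl v))) := by
  rw [pw_sat hMEM h1 h2 h3 h4]
  have hJ := hLOC.J_lt (lev v) w (tl v) h1 h2 h3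
  have henv : ∀ z : Ordinal.{u}, (fun i => LMach.var i (LMach.J z (LMach.J w (tl v)))) =
      econs z (fun i => LMach.var i (LMach.J w (tl v))) := by
    intro z
    funext i
    cases i with
    | zero => exact hLOC.var_zero_J _ _
    | succ i => exact hLOC.var_succ_J _ _ _
  constructor
  · rintro ⟨z, hz, hs⟩
    refine ⟨z, hz, (hMEM.mem_code (lev v) _ z p h1 h5 hJ).mpr ⟨hz, ?_⟩⟩
    rw [henv]
    exact hs
  · rintro ⟨z, hz, hs⟩
    have := ((hMEM.mem_code (lev v) _ z p h1 h5 hJ).mp hs).2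
    rw [henv] at this
    exact ⟨z, hz, this⟩

theorem lev_gt_one (hLOC : T_LOC.{u}) {v : Ordinal.{u}} {n : ℕ} (hn : 1 < n)
    (h : hd v = (n : Ordinal.{u})) : 1 < lev v := by
  refine lt_of_lt_of_le ?_ (h ▸ hLOC.hd_le v)
  exact_mod_cast hn

theorem idx_neg_gt (p : Fm) : 1 < idx (Fm.neg p) := by
  have := Nat.left_le_pair 3 (idx p)
  simp only [idx]
  omega

theorem idx_and_gt (p q : Fm) : 1 < idx (Fm.and p q) := by
  have := Nat.left_le_pair 4 (Nat.pair (idx p) (idx q))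
  simp only [idx]
  omega

theorem idx_ex_gt (p : Fm) : 1 < idx (Fm.ex p) := by
  have := Nat.left_le_pair 5 (idx p)
  simp only [idx]
  omega

theorem nat_lt_ord (h0 : ℵ₀ < κ) (n : ℕ) : (n : Ordinal.{u}) < κ.ord :=
  (Ordinal.natCast_lt_omega0 n).trans (by
    rw [← Cardinal.ord_aleph0]
    exact Cardinal.ord_lt_ord.mpr h0)

theorem nat_le_closed (hLOC : T_LOC.{u}) {g : Ordinal.{u}} (h : lev g = g) (h1 : 1 < g) (n : ℕ) :
    (n : Ordinal.{u}) ≤ g :=
  (Ordinal.natCast_lt_omega0 n).le.trans (hLOC.closed_lim g h h1).1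

theorem UE.mem (hLOC : T_LOC.{u}) (hMEM : T_MEM.{u}) (hREC : T_REC.{u}) (h : UE κ H ι F d e) :
    ∀ f g x y, EUlt κ H F e f x → EUlt κ H F e g y →
      (Mem x y ↔ AE κ H (fun z => Mem (f z) (g z))) := by
  have hne : Nonempty ι := ⟨(h.cst 0 (zero_lt_ord h.unc)).choose⟩
  have hsurj := h.surj
  choose! s hs using hsurj
  have hEs : ∀ x < d, EUlt κ H F e (F (s x)) x := by
    intro x hx
    have := h.self (s x)
    rwa [hs x hx] at this
  let MM : Ordinal.{u} → Ordinal.{u} → Prop := fun w v =>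
    AE κ H (fun z => Mem (F (s w) z) (F (s v) z))
  have hMM : ∀ f g x y, EUlt κ H F e f x → EUlt κ H F e g y →
      (MM x y ↔ AE κ H (fun z => Mem (f z) (g z))) := by
    intro f g x y hf hg
    have h1 : AE κ H (fun z => F (s x) z = f z) := (h.eq_iff (hEs x (h.lt_d' hf)) hf).mp rfl
    have h2 : AE κ H (fun z => F (s y) z = g z) := (h.eq_iff (hEs y (h.lt_d' hg)) hg).mp rfl
    constructor
    · intro h3
      exact (h3.and (h1.and h2)).mono fun z _ hz => by rw [← hz.2.1, ← hz.2.2]; exact hz.1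
    · intro h3
      exact (h3.and (h1.and h2)).mono fun z _ hz => by
        rw [hz.2.1, hz.2.2]; exact hz.1
  have hcl := hREC d lev hd tl MM (fun v hv => ⟨(hLOC.lev_le v).trans_lt hv, hLOC.hd_le v,
    hLOC.tl_le v⟩) (fun v w hvw _ => (hLOC.lt_iff v w).mp hvw) (fun w g a t hw ha ht hlex => by
      refine ⟨LMach.code g a t, ?_, hLOC.lev_code _ _ _ ha ht, hLOC.hd_code _ _ _ ha ht,
        hLOC.tl_code _ _ _ ha ht⟩
      refine lt_trans ?_ hw
      rw [hLOC.lt_iff, hLOC.lev_code _ _ _ ha ht, hLOC.hd_code _ _ _ ha ht,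
        hLOC.tl_code _ _ _ ha ht]
      exact hlex)
  have key := hcl.2 ?_ ?_
  · intro f g x y hf hg
    rw [← hMM f g x y hf hg]
    exact (key x y (h.lt_d' hf) (h.lt_d' hg)).symm
  · -- the structure of codes
    intro w v hw hv hMMwv
    obtain ⟨i, hi⟩ := h.ex hw
    obtain ⟨j, hj⟩ := h.ex hv
    have h1 := (hMM _ _ _ _ hi hj).mp hMMwv
    have hl := h.loc hLOC hREC _ _ hj
    have hll := h.loc hLOC hREC _ _ hl.1
    have h2 : AE κ H (fun z => lev (lev (F j z)) = lev (F j z) ∧ F i z < lev (F j z) ∧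
        tl (F j z) < lev (F j z) ∧ ∃ p : Fm, hd (F j z) = (idx p : Ordinal.{u})) :=
      h1.mono fun z _ hz => by
        obtain ⟨a1, a2, a3, p, a4, _⟩ := (hMEM.mem_iff _ _).mp hz
        exact ⟨a1, a2, a3, p, a4⟩
    refine ⟨(h.eq_iff hll.1 hl.1).mpr (h2.mono fun z _ hz => hz.1),
      (h.lt_iff hi hl.1).mpr (h2.mono fun z _ hz => hz.2.1),
      (h.lt_iff hl.2.2 hl.1).mpr (h2.mono fun z _ hz => hz.2.2.1), ?_⟩
    have hω : Ordinal.omega0.{u} < κ.ord := by
      rw [← Cardinal.ord_aleph0]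
      exact Cardinal.ord_lt_ord.mpr h.unc
    have h3 : hd v < Ordinal.omega0 := (h.lt_iff hl.2.1 (h.const _ hω)).mpr
      (h2.mono fun z _ hz => by
        obtain ⟨p, hp⟩ := hz.2.2.2
        rw [hp]
        exact Ordinal.natCast_lt_omega0 _)
    obtain ⟨n, hn⟩ := Ordinal.lt_omega0.mp h3
    have h4 : AE κ H (fun z => hd (F j z) = (n : Ordinal.{u})) :=
      (h.eq_iff hl.2.1 (h.const _ (nat_lt_ord h.unc n))).mp hn
    obtain ⟨z, _, _, hz⟩ := (h2.and h4).exists h.unb (c := 0) (zero_lt_ord h.unc)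
    obtain ⟨p, hp⟩ := hz.1.2.2.2
    exact ⟨p, by rw [hn, ← hz.2, hp]⟩
  · -- the clauses
    intro w v hw hv hc hwv htv
    obtain ⟨i₀, ha⟩ := h.ex hw
    obtain ⟨j₀, hb⟩ := h.ex hv
    set a := F i₀ with ha_def
    set b := F j₀ with hb_def
    have hl := h.loc hLOC hREC _ _ hb
    have hll := h.loc hLOC hREC _ _ hl.1
    have p1 : AE κ H (fun z => lev (lev (b z)) = lev (b z)) := (h.eq_iff hll.1 hl.1).mp hc
    have p2 : AE κ H (fun z => a z < lev (b z)) := (h.lt_iff ha hl.1).mp hwv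
    have p3 : AE κ H (fun z => tl (b z) < lev (b z)) := (h.lt_iff hl.2.2 hl.1).mp htv
    have hJ := h.J hLOC hREC ha hl.2.2
    have pw : AE κ H (fun z => lev (lev (b z)) = lev (b z) ∧ a z < lev (b z) ∧
        tl (b z) < lev (b z)) := (p1.and (p2.and p3))
    have hM0 := hMM _ _ _ _ ha hb
    have phd : ∀ n : ℕ, hd v = (n : Ordinal.{u}) → AE κ H (fun z => hd (b z) = (n : Ordinal.{u})) :=
      fun n hn => (h.eq_iff hl.2.1 (h.const _ (nat_lt_ord h.unc n))).mp hn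
    have hsub : ∀ p : Fm, 1 < lev v → EUlt κ H F e
        (fun z => LMach.code (lev (b z)) (idx p : Ordinal.{u}) (tl (b z)))
        (LMach.code (lev v) (idx p : Ordinal.{u}) (tl v)) := fun p h1 =>
      h.code hLOC hREC hl.1 (h.const _ (nat_lt_ord h.unc (idx p))) hl.2.2
        (nat_le_closed hLOC hc h1 _) htv.le
    have hcong : ∀ {P Q : Ordinal.{u} → Prop}, AE κ H (fun z => P z ↔ Q z) →
        (AE κ H P ↔ AE κ H Q) := fun {P Q} hPQ =>
      ⟨fun hP => (hP.and hPQ).mono fun z _ hz => hz.2.mp hz.1,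
       fun hQ => (hQ.and hPQ).mono fun z _ hz => hz.2.mpr hz.1⟩
    refine ⟨?_, ?_, ?_, ?_, ?_, ?_⟩
    · intro i j hij
      rw [hM0, h.lt_iff (h.var hLOC hREC i hJ) (h.var hLOC hREC j hJ)]
      exact hcong ((pw.and (phd _ hij)).mono fun z _ hz =>
        (pw_sat hMEM hz.1.1 hz.1.2.1 hz.1.2.2 hz.2))
    · intro i j hij
      rw [hM0, hMM _ _ _ _ (h.var hLOC hREC i hJ) (h.var hLOC hREC j hJ)]
      exact hcong ((pw.and (phd _ hij)).mono fun z _ hz =>
        (pw_sat hMEM hz.1.1 hz.1.2.1 hz.1.2.2 hz.2))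
    · intro i j k hij
      rw [hM0, h.eq_iff (h.J hLOC hREC (h.var hLOC hREC i hJ) (h.var hLOC hREC j hJ))
        (h.var hLOC hREC k hJ)]
      exact hcong ((pw.and (phd _ hij)).mono fun z _ hz =>
        (pw_sat hMEM hz.1.1 hz.1.2.1 hz.1.2.2 hz.2))
    · intro p hp
      have h1 := lev_gt_one hLOC (idx_neg_gt p) hp
      rw [hM0, hMM _ _ _ _ ha (hsub p h1)]
      have h2 : AE κ H (fun z => Mem (a z) (b z) ↔
          ¬ Mem (a z) (LMach.code (lev (b z)) (idx p : Ordinal.{u}) (tl (b z)))) :=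
        (pw.and (phd _ hp)).mono fun z _ hz => by
          rw [pw_sat hMEM hz.1.1 hz.1.2.1 hz.1.2.2 hz.2, pw_sub hMEM p hz.1.1 hz.1.2.1 hz.1.2.2
            (lev_gt_one hLOC (idx_neg_gt p) hz.2)]
          rfl
      rw [hcong h2]
      constructor
      · intro h3 h4
        exact AE.not_not h.unc h.unb h4 h3
      · intro h3
        exact (h.dec_mem ha (hsub p h1)).resolve_left h3
    · intro p q hp
      have h1 := lev_gt_one hLOC (idx_and_gt p q) hp
      rw [hM0, hMM _ _ _ _ ha (hsub p h1), hMM _ _ _ _ ha (hsub q h1)]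
      have h2 : AE κ H (fun z => Mem (a z) (b z) ↔
          (Mem (a z) (LMach.code (lev (b z)) (idx p : Ordinal.{u}) (tl (b z))) ∧
          Mem (a z) (LMach.code (lev (b z)) (idx q : Ordinal.{u}) (tl (b z))))) :=
        (pw.and (phd _ hp)).mono fun z _ hz => by
          rw [pw_sat hMEM hz.1.1 hz.1.2.1 hz.1.2.2 hz.2, pw_sub hMEM p hz.1.1 hz.1.2.1 hz.1.2.2
            (lev_gt_one hLOC (idx_and_gt p q) hz.2), pw_sub hMEM q hz.1.1 hz.1.2.1 hz.1.2.2
            (lev_gt_one hLOC (idx_and_gt p q) hz.2)]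
          rfl
      rw [hcong h2]
      exact ⟨fun h3 => ⟨h3.mono fun z _ hz => hz.1, h3.mono fun z _ hz => hz.2⟩,
        fun h3 => h3.1.and h3.2⟩
    · intro p hp
      have h1 := lev_gt_one hLOC (idx_ex_gt p) hp
      have hJlt := hLOC.J_lt _ _ _ hc hwv htv
      have hC : EUlt κ H F e
          (fun z => LMach.code (lev (b z)) (idx p : Ordinal.{u}) (LMach.J (a z) (tl (b z))))
          (LMach.code (lev v) (idx p : Ordinal.{u}) (LMach.J w (tl v))) :=
        h.code hLOC hREC hl.1 (h.const _ (nat_lt_ord h.unc (idx p))) hJ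
          (nat_le_closed hLOC hc h1 _) hJlt.le
      have h2 : AE κ H (fun z => Mem (a z) (b z) ↔ ∃ t < lev (b z), Mem t
          (LMach.code (lev (b z)) (idx p : Ordinal.{u}) (LMach.J (a z) (tl (b z))))) :=
        (pw.and (phd _ hp)).mono fun z _ hz =>
          pw_ex hLOC hMEM hz.1.1 hz.1.2.1 hz.1.2.2 hz.2 (lev_gt_one hLOC (idx_ex_gt p) hz.2)
      rw [hM0, hcong h2]
      constructor
      · intro h3
        obtain ⟨k, hk, hk'⟩ := id hC
        obtain ⟨m, hm⟩ := h.cmn k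
        have h4 : AE κ H (fun z => F m z < lev (b z) ∧ Mem (F m z)
            (LMach.code (lev (b z)) (idx p : Ordinal.{u}) (LMach.J (a z) (tl (b z))))) :=
          ((h3.and hk).and (pw.and (phd _ hp))).mono fun z hzH hz => by
            obtain ⟨⟨⟨t, ht1, ht2⟩, h5⟩, h6, h7⟩ := hz
            have h8 := hm z hzH ⟨t, by rw [h5]; exact ht2⟩
            rw [h5] at h8
            have h9 := lev_gt_one hLOC (idx_ex_gt p) h7
            have h10 := ((hMEM.mem_code (lev (b z)) _ (F m z) p h6.1 h9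
              (hLOC.J_lt _ _ _ h6.1 h6.2.1 h6.2.2)).mp h8.1).1
            exact ⟨h10, h8.1⟩
        refine ⟨e m, (h.lt_iff (h.self m) hl.1).mpr (h4.mono fun z _ hz => hz.1), ?_⟩
        exact (hMM _ _ _ _ (h.self m) hC).mpr (h4.mono fun z _ hz => hz.2)
      · rintro ⟨t, ht, ht'⟩
        obtain ⟨m, hm⟩ := h.ex (ht.trans (h.lt_d' hl.1))
        have h4 := (h.lt_iff hm hl.1).mp ht
        have h5 := (hMM _ _ _ _ hm hC).mp ht'
        exact (h4.and h5).mono fun z _ hz => ⟨F m z, hz.1, hz.2⟩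

end EUlt

end Pool.Agent.LMach
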