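import Pool.Agent.LMach.UltA
import Mathlib.Data.W.Cardinal

/-!
# Ultrapowers: the family of functions
-/

open Set Cardinal Order

universe u

namespace Pool.Agent.LMach

/-- The operations. -/
noncomputable def opF : Fin 5 → Ordinal.{u} → Ordinal.{u} → Ordinal.{u} → Ordinal.{u}
  | 0, a, _, _ => lev a
  | 1, a, _, _ => hd a
  | 2, a, _, _ => tl a
  | 3, a, _, _ => sInf {w | Mem w a}
  | 4, a, b, c => open Classical in if b ≤ a ∧ c ≤ a then code a b c else 0

/-- Names of the constructors. -/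
abbrev TA (κ : Cardinal.{u}) (α : Type u) : Type u := (κ.ord.ToType ⊕ α) ⊕ Fin 5

/-- Arities of the constructors. -/
def TB (κ : Cardinal.{u}) (α : Type u) : TA κ α → Type
  | Sum.inl _ => Empty
  | Sum.inr _ => Fin 3

instance (κ : Cardinal.{u}) (α : Type u) (a : TA κ α) : Finite (TB κ α a) := by
  rcases a with a | a
  · exact inferInstanceAs (Finite Empty)
  · exact inferInstanceAs (Finite (Fin 3))

/-- One step of the evaluation. -/
noncomputable def evS {κ : Cardinal.{u}} {α : Type u} (gens : α → Ordinal.{u} → Ordinal.{u}) :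
    (Σ a : TA κ α, TB κ α a → (Ordinal.{u} → Ordinal.{u})) → (Ordinal.{u} → Ordinal.{u})
  | ⟨Sum.inl (Sum.inl c), _⟩ => fun _ => ((Ordinal.ToType.mk (o := κ.ord)).symm c).1
  | ⟨Sum.inl (Sum.inr a), _⟩ => gens a
  | ⟨Sum.inr k, f⟩ => fun z => opF k (f (0 : Fin 3) z) (f (1 : Fin 3) z) (f (2 : Fin 3) z)

/-- The evaluation of terms. -/
noncomputable def ev {κ : Cardinal.{u}} {α : Type u} (gens : α → Ordinal.{u} → Ordinal.{u}) :
    WType (TB κ α) → Ordinal.{u} → Ordinal.{u} :=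
  WType.elim (Ordinal.{u} → Ordinal.{u}) (evS gens)

theorem mk_terms {κ : Cardinal.{u}} {α : Type u} (h0 : ℵ₀ < κ) (hα : Cardinal.mk α ≤ κ) :
    Cardinal.mk (WType (TB κ α)) ≤ κ := by
  refine (WType.cardinalMk_le_max_aleph0_of_finite').trans ?_
  rw [Cardinal.lift_uzero]
  refine max_le ?_ h0.le
  simp only [mk_sum, lift_id, mk_toType, card_ord, mk_fin, lift_natCast, lift_uzero]
  refine (add_le_add (add_le_add le_rfl hα) (natCast_lt_aleph0.le.trans h0.le)).trans ?_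
  rw [add_eq_self h0.le, add_eq_self h0.le]

section

variable {κ : Cardinal.{u}} {α : Type u} {gens : α → Ordinal.{u} → Ordinal.{u}}

theorem ev_const (c : κ.ord.ToType) (f : TB κ α (Sum.inl (Sum.inl c)) → WType (TB κ α)) :
    ev gens ⟨Sum.inl (Sum.inl c), f⟩ =
      fun _ => ((Ordinal.ToType.mk (o := κ.ord)).symm c).1 := rfl

theorem ev_gen (a : α) (f : TB κ α (Sum.inl (Sum.inr a)) → WType (TB κ α)) :
    ev gens ⟨Sum.inl (Sum.inr a), f⟩ = gens a := rfl

theorem ev_op (k : Fin 5) (f : TB κ α (Sum.inr k) → WType (TB κ α)) :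
    ev gens ⟨Sum.inr k, f⟩ = fun z => opF k (ev gens (f (0 : Fin 3)) z)
      (ev gens (f (1 : Fin 3)) z) (ev gens (f (2 : Fin 3)) z) := rfl

theorem opF_lt (hLOC : T_LOC.{u}) (hMEM : T_MEM.{u}) (h0 : ℵ₀ < κ) (k : Fin 5)
    {a b c : Ordinal.{u}} (ha : a < κ.ord) (hb : b < κ.ord) (hc : c < κ.ord) :
    opF k a b c < κ.ord := by
  have hz := zero_lt_ord h0
  fin_cases k
  · exact (hLOC.lev_le a).trans_lt ha
  · exact ((hLOC.hd_le a).trans (hLOC.lev_le a)).trans_lt ha
  · exact ((hLOC.tl_le a).trans (hLOC.lev_le a)).trans_lt ha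
  · change sInf {w | Mem w a} < κ.ord
    by_cases hne : ({w | Mem w a} : Set Ordinal.{u}).Nonempty
    · exact (hMEM.mem_lt _ _ (csInf_mem hne)).trans ha
    · rw [not_nonempty_iff_eq_empty.mp hne, Ordinal.sInf_empty]
      exact hz
  · change (open Classical in if b ≤ a ∧ c ≤ a then code a b c else 0) < κ.ord
    split_ifs
    · exact hLOC.code_lt_ord κ a b c h0.le ha hb hc
    · exact hz

theorem ev_lt (hLOC : T_LOC.{u}) (hMEM : T_MEM.{u}) (h0 : ℵ₀ < κ)
    (hg : ∀ a, ∀ z < κ.ord, gens a z < κ.ord) (t : WType (TB κ α)) :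
    ∀ z < κ.ord, ev gens t z < κ.ord := by
  induction t with
  | mk a f ih =>
    intro z hz
    rcases a with (c | a) | k
    · rw [ev_const]
      exact ((Ordinal.ToType.mk (o := κ.ord)).symm c).2
    · rw [ev_gen]
      exact hg a z hz
    · rw [ev_op]
      exact opF_lt hLOC hMEM h0 k (ih _ z hz) (ih _ z hz) (ih _ z hz)

theorem exists_code (κ : Cardinal.{u}) (T : Type u) (hT : Cardinal.mk T ≤ κ) :
    ∃ j : T → Ordinal.{u}, Function.Injective j ∧ ∀ t, j t < κ.ord := by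
  have h : Cardinal.mk T ≤ Cardinal.mk κ.ord.ToType := by rwa [mk_toType, card_ord]
  obtain ⟨f⟩ := h
  refine ⟨fun t => ((Ordinal.ToType.mk (o := κ.ord)).symm (f t)).1, ?_, ?_⟩
  · intro a b hab
    exact f.injective ((Ordinal.ToType.mk (o := κ.ord)).symm.injective (Subtype.ext hab))
  · intro t
    exact ((Ordinal.ToType.mk (o := κ.ord)).symm (f t)).2

theorem nul' (hNUL : T_NUL.{u}) (hκ : WC κ) (T : Type u) (hT : Cardinal.mk T ≤ κ)
    (S : T → Set Ordinal.{u}) (I : Type u) (hI : Cardinal.mk I ≤ κ)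
    (f : I → Ordinal.{u} → Ordinal.{u}) (hf : ∀ i, ∀ z < κ.ord, f i z < κ.ord) :
    ∃ H : Set Ordinal.{u}, (∀ z ∈ H, z < κ.ord) ∧ (∀ x < κ.ord, ∃ z ∈ H, x < z) ∧
        (∀ t, AE κ H (fun z => z ∈ S t) ∨ AE κ H (fun z => z ∉ S t)) ∧
        (∀ i, AE κ H (fun z => z ≤ f i z) ∨ ∃ c < κ.ord, AE κ H (fun z => f i z = c)) := by
  classical
  obtain ⟨j, hj, hj'⟩ := exists_code κ T hT
  obtain ⟨k, hk, hk'⟩ := exists_code κ I hI
  obtain ⟨H, h1, h2, h3, h4⟩ := hNUL κ hκ (fun o => {z | ∃ t, j t = o ∧ z ∈ S t})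
    (fun o z => if h : ∃ i, k i = o then f h.choose z else 0) (by
      intro i _ z hz
      split_ifs with h
      · exact hf _ z hz
      · exact zero_lt_ord hκ.1)
  refine ⟨H, h1, h2, ?_, ?_⟩
  · intro t
    have e : ∀ z, z ∈ {z | ∃ t', j t' = j t ∧ z ∈ S t'} ↔ z ∈ S t := by
      intro z
      constructor
      · rintro ⟨t', ht', hz⟩
        rwa [← hj ht']
      · intro hz
        exact ⟨t, rfl, hz⟩
    rcases h3 (j t) (hj' t) with h5 | h5
    · exact Or.inl (h5.mono fun z _ hz => (e z).mp hz)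
    · exact Or.inr (h5.mono fun z _ hz hz' => hz ((e z).mpr hz'))
  · intro i
    have e : ∀ z, (if h : ∃ i', k i' = k i then f h.choose z else 0) = f i z := by
      intro z
      have hex : ∃ i', k i' = k i := ⟨i, rfl⟩
      rw [dif_pos hex, hk hex.choose_spec]
    have h5 := h4 (k i) (hk' i)
    simp only [e] at h5
    exact h5

theorem ult_exists (hLOC : T_LOC.{u}) (hMEM : T_MEM.{u}) (hNUL : T_NUL.{u}) (hSL : T_SL.{u})
    (hκ : WC κ) (hα : Cardinal.mk α ≤ κ) (hg : ∀ a, ∀ z < κ.ord, gens a z < κ.ord) :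
    ∃ (H : Set Ordinal.{u}) (ι : Type u) (F : ι → Ordinal.{u} → Ordinal.{u}) (d : Ordinal.{u})
      (e : ι → Ordinal.{u}), UE κ H ι F d e ∧ (∀ a, ∃ i, F i = gens a) ∧
      ∀ i, AE κ H (fun z => z ≤ F i z) ∨ ∃ c < κ.ord, AE κ H (fun z => F i z = c) := by
  have hreg := (hSL κ hκ).1
  have h0 := hκ.1
  have hcard := mk_terms h0 hα
  obtain ⟨H, h1, h2, h3, h4⟩ := nul' hNUL hκ
    ((WType (TB κ α) × WType (TB κ α)) ⊕ (WType (TB κ α) × WType (TB κ α))) (by
      simp only [mk_sum, mk_prod, lift_id]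
      refine (add_le_add (mul_le_mul' hcard hcard) (mul_le_mul' hcard hcard)).trans ?_
      rw [mul_eq_self h0.le, add_eq_self h0.le])
    (fun t => Sum.elim (fun p => {z | ev gens p.1 z < ev gens p.2 z})
      (fun p => {z | Mem (ev gens p.1 z) (ev gens p.2 z)}) t)
    (WType (TB κ α)) hcard (ev gens) (ev_lt hLOC hMEM h0 hg)
  have hUC : UC κ H (WType (TB κ α)) (ev gens) :=
    { unc := h0
      reg := hreg
      card := hcard
      sub := h1
      unb := h2
      val := ev_lt hLOC hMEM h0 hg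
      dec := fun i j => h3 (Sum.inl (i, j))
      decm := fun i j => h3 (Sum.inr (i, j))
      cst := fun c hc => by
        refine ⟨⟨Sum.inl (Sum.inl (Ordinal.ToType.mk ⟨c, hc⟩)), fun x => x.elim⟩, ?_⟩
        refine AE.of_all h0 fun z _ => ?_
        rw [ev_const]
        simp
      clev := fun i => ⟨⟨Sum.inr 0, fun _ => i⟩, fun z _ => rfl⟩
      chd := fun i => ⟨⟨Sum.inr 1, fun _ => i⟩, fun z _ => rfl⟩
      ctl := fun i => ⟨⟨Sum.inr 2, fun _ => i⟩, fun z _ => rfl⟩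
      ccode := fun i j k => by
        refine ⟨⟨Sum.inr 4, (![i, j, k] : Fin 3 → WType (TB κ α))⟩, fun z _ hj hk => ?_⟩
        change (open Classical in if ev gens j z ≤ ev gens i z ∧ ev gens k z ≤ ev gens i z then
          code (ev gens i z) (ev gens j z) (ev gens k z) else 0) = _
        rw [if_pos ⟨hj, hk⟩]
      cmn := fun i => by
        refine ⟨⟨Sum.inr 3, fun _ => i⟩, fun z _ hz => ?_⟩
        change IsMn (sInf {w | Mem w (ev gens i z)}) _
        exact ⟨csInf_mem hz, fun w hw hw' => absurd (csInf_le' hw') (not_le.mpr hw)⟩ }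
  obtain ⟨d, e, e1, e2, e3, e4⟩ := hUC.toUD.rank
  refine ⟨H, WType (TB κ α), ev gens, d, e, { hUC with
    d_lt := e1, lt_d := e2, surj := e3, lt_iff' := e4 }, ?_, h4⟩
  intro a
  exact ⟨⟨Sum.inl (Sum.inr a), fun x => x.elim⟩, rfl⟩

end

end Pool.Agent.LMach
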