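import Pool.Agent.LMach.DefK

/-!
# The machine: the model of ZFC
-/

set_option autoImplicit false

open Set Cardinal

universe u

namespace Pool.Agent.LMach

instance small_memSub (v : Ordinal.{u}) : Small.{u} {w : Ordinal.{u} // w < v ∧ Mem w v} :=
  small_of_injective (β := Set.Iio v) (f := fun w => ⟨w.1, w.2.1⟩)
    (fun _ _ h => Subtype.ext (congrArg (fun x : Set.Iio v => x.1) h))

/-- The set of the names of the members is mapped to the set of the sets. -/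
noncomputable def Fz (v : Ordinal.{u}) : ZFSet.{u} :=
  ZFSet.range (fun w : {w : Ordinal.{u} // w < v ∧ Mem w v} => Fz w.1)
termination_by v
decreasing_by exact w.2.1

/-- The model: all sets named below `kk`. -/
noncomputable def MM (kk : Ordinal.{u}) : ZFSet.{u} :=
  ZFSet.range (fun w : Set.Iio kk => Fz w.1)

theorem mem_MM {kk : Ordinal.{u}} {x : ZFSet.{u}} : x ∈ MM kk ↔ ∃ v < kk, Fz v = x := by
  rw [MM, ZFSet.mem_range]
  constructor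
  · rintro ⟨w, hw⟩; exact ⟨w.1, w.2, hw⟩
  · rintro ⟨v, hv, h⟩; exact ⟨⟨v, hv⟩, h⟩

theorem mem_Fz {v : Ordinal.{u}} {x : ZFSet.{u}} : x ∈ Fz v ↔ ∃ w, Mem w v ∧ Fz w = x := by
  rw [Fz, ZFSet.mem_range]
  constructor
  · rintro ⟨w, hw⟩; exact ⟨w.1, w.2.2, hw⟩
  · rintro ⟨w, hw, h⟩; exact ⟨⟨w, p_MEM.mem_lt w v hw, hw⟩, h⟩

theorem Fz_mem_MM {kk v : Ordinal.{u}} (h : v < kk) : Fz v ∈ MM kk := mem_MM.2 ⟨v, h, rfl⟩

theorem Fz_mem_of_Mem {w v : Ordinal.{u}} (h : Mem w v) : Fz w ∈ Fz v := mem_Fz.2 ⟨w, h, rfl⟩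

theorem Fz_zero : Fz (0 : Ordinal.{u}) = ∅ := by
  ext x
  simp only [mem_Fz, ZFSet.notMem_empty, iff_false]
  rintro ⟨w, hw, -⟩
  exact not_lt_bot (p_MEM.mem_lt w 0 hw)

theorem Fz_eq_iff {x y : Ordinal.{u}} : Fz x = Fz y ↔
    (∀ u, Mem u x → ∃ v, Mem v y ∧ Fz u = Fz v) ∧ (∀ v, Mem v y → ∃ u, Mem u x ∧ Fz u = Fz v) := by
  constructor
  · intro h
    refine ⟨fun u hu => ?_, fun v hv => ?_⟩
    · have := Fz_mem_of_Mem hu
      rw [h, mem_Fz] at this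
      obtain ⟨v, hv, e⟩ := this
      exact ⟨v, hv, e.symm⟩
    · have := Fz_mem_of_Mem hv
      rw [← h, mem_Fz] at this
      obtain ⟨u, hu, e⟩ := this
      exact ⟨u, hu, e⟩
  · rintro ⟨h1, h2⟩
    ext z
    rw [mem_Fz, mem_Fz]
    constructor
    · rintro ⟨u, hu, rfl⟩
      obtain ⟨v, hv, e⟩ := h1 u hu
      exact ⟨v, hv, e.symm⟩
    · rintro ⟨v, hv, rfl⟩
      obtain ⟨u, hu, e⟩ := h2 v hv
      exact ⟨u, hu, e⟩

theorem DefK.congr' {kk : Ordinal.{u}} {P Q : (ℕ → Ordinal.{u}) → Prop} (h : DefK kk P)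
    (hPQ : ∀ e, (∀ i, e i < kk) → (P e ↔ Q e)) : DefK kk Q :=
  h.congr fun e he => (hPQ e he).symm

section

variable {κ : Cardinal.{u}}

theorem lev_kk (h0 : ℵ₀ < κ) : lev κ.ord = κ.ord := p_LOC.lev_ord κ h0.le

theorem J_lt_kk (h0 : ℵ₀ < κ) {x y : Ordinal.{u}} (hx : x < κ.ord) (hy : y < κ.ord) :
    J x y < κ.ord := p_LOC.J_lt _ x y (lev_kk h0) hx hy

theorem le_J_left (x y : Ordinal.{u}) : x ≤ J x y := by
  have h := p_LOC.lev_J x y
  exact (le_max_left x y).trans (h ▸ p_LOC.lev_le (J x y))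

theorem le_J_right (x y : Ordinal.{u}) : y ≤ J x y := by
  have h := p_LOC.lev_J x y
  exact (le_max_right x y).trans (h ▸ p_LOC.lev_le (J x y))

theorem J_inj {x y x' y' : Ordinal.{u}} (h : J x y = J x' y') : x = x' ∧ y = y' := by
  constructor
  · rw [← p_LOC.hd_J x y, h, p_LOC.hd_J]
  · rw [← p_LOC.tl_J x y, h, p_LOC.tl_J]

/-- The relation `Fz x = Fz y`, on codes of pairs. -/
def EqT (w : Ordinal.{u}) : Prop := ∃ x y, J x y = w ∧ Fz x = Fz y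

theorem EqT_J {x y : Ordinal.{u}} : EqT (J x y) ↔ Fz x = Fz y := by
  constructor
  · rintro ⟨a, b, h, e⟩
    obtain ⟨rfl, rfl⟩ := J_inj h
    exact e
  · intro h; exact ⟨x, y, rfl, h⟩

/-- The recursion step for `EqT`. -/
def EqPsi (kk : Ordinal.{u}) (e : ℕ → Ordinal.{u}) : Prop :=
  ∃ x < kk, ∃ y < kk, J x y = e 0 ∧
    ((∀ u < kk, Mem u x → ∃ v < kk, Mem v y ∧ ∃ j < kk, J u v = j ∧ Mem j (e 1)) ∧
     (∀ v < kk, Mem v y → ∃ u < kk, Mem u x ∧ ∃ j < kk, J u v = j ∧ Mem j (e 1)))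

theorem defK_EqPsi (kk : Ordinal.{u}) : DefK kk (EqPsi kk) := by
  have h := DefK.ex (DefK.ex ((DefK.pr (kk := kk) 1 0 2).and
    ((DefK.all ((DefK.mem (kk := kk) 0 2).imp (DefK.ex ((DefK.mem 0 2).and
      (DefK.ex ((DefK.pr 2 1 0).and (DefK.mem 0 6))))))).and
     (DefK.all ((DefK.mem (kk := kk) 0 1).imp (DefK.ex ((DefK.mem 0 3).and
      (DefK.ex ((DefK.pr 1 2 0).and (DefK.mem 0 6))))))))))
  exact h

theorem defK_feq01 (h0 : ℵ₀ < κ) (hκ : κ.IsRegular) :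
    DefK κ.ord (fun e => Fz (e 0) = Fz (e 1)) := by
  have hP := DefK.recP (defK_EqPsi κ.ord)
  set P := RecP κ.ord (EqPsi κ.ord) with hPd
  have key : ∀ e : ℕ → Ordinal.{u}, (∀ i, e i < κ.ord) → ∀ w < κ.ord,
      (EqT w ↔ P (econs w e)) := by
    intro e he
    refine (DefK.recursion h0 hκ (defK_EqPsi κ.ord) he ?_).1
    intro w hw z hz hwz
    have hz' : ∀ u v x y, J x y = w → Mem u x → Mem v y → (Mem (J u v) z ↔ Fz u = Fz v) := by
      intro u v x y hxy hu hv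
      rw [← EqT_J]
      apply hwz
      rw [← hxy]
      exact p_LOC.J_mono u v x y (p_MEM.mem_lt _ _ hu) (p_MEM.mem_lt _ _ hv)
    constructor
    · rintro ⟨x, y, hxy, hE⟩
      have hx : x < κ.ord := (le_J_left x y).trans_lt (hxy ▸ hw)
      have hy : y < κ.ord := (le_J_right x y).trans_lt (hxy ▸ hw)
      obtain ⟨e1, e2⟩ := Fz_eq_iff.1 hE
      refine ⟨x, hx, y, hy, hxy, fun u hu hux => ?_, fun v hv hvy => ?_⟩
      · obtain ⟨v, hv, e⟩ := e1 u hux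
        have hv' : v < κ.ord := (p_MEM.mem_lt _ _ hv).trans hy
        exact ⟨v, hv', hv, J u v, J_lt_kk h0 hu hv', rfl, (hz' u v x y hxy hux hv).2 e⟩
      · obtain ⟨u, hu, e⟩ := e2 v hvy
        have hu' : u < κ.ord := (p_MEM.mem_lt _ _ hu).trans hx
        exact ⟨u, hu', hu, J u v, J_lt_kk h0 hu' hv, rfl, (hz' u v x y hxy hu hvy).2 e⟩
    · rintro ⟨x, hx, y, hy, hxy, e1, e2⟩
      change J x y = w at hxy
      refine ⟨x, y, hxy, Fz_eq_iff.2 ⟨fun u hu => ?_, fun v hv => ?_⟩⟩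
      · obtain ⟨v, -, hv, j, -, hj, hjz⟩ := e1 u ((p_MEM.mem_lt _ _ hu).trans hx) hu
        rw [← hj] at hjz
        exact ⟨v, hv, (hz' u v x y hxy hu hv).1 hjz⟩
      · obtain ⟨u, -, hu, j, -, hj, hjz⟩ := e2 v ((p_MEM.mem_lt _ _ hv).trans hy) hv
        rw [← hj] at hjz
        exact ⟨u, hu, (hz' u v x y hxy hu hv).1 hjz⟩
  -- now eliminate the code
  have h2 := DefK.ex ((DefK.pr (kk := κ.ord) 1 2 0).and
    (DefK.ren hP (fun i => if i = 0 then 0 else i + 1)))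
  refine h2.congr' ?_
  intro e he
  constructor
  · rintro ⟨j, hj, hJ, hPj⟩
    change J (e 0) (e 1) = j at hJ
    rw [← EqT_J, hJ]
    refine (key (fun i => e (i + 1)) (fun i => he _) j hj).2 ?_
    convert hPj using 1
    funext i
    cases i with
    | zero => rfl
    | succ n => simp [econs]
  · intro hE
    refine ⟨J (e 0) (e 1), J_lt_kk h0 (he 0) (he 1), rfl, ?_⟩
    have := (key (fun i => e (i + 1)) (fun i => he _) _ (J_lt_kk h0 (he 0) (he 1))).1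
      (EqT_J.2 hE)
    convert this using 1
    funext i
    cases i with
    | zero => rfl
    | succ n => simp [econs]

/-- Equality of the named elements of the model is definable. -/
theorem DefK.feq (h0 : ℵ₀ < κ) (hκ : κ.IsRegular) (i j : ℕ) :
    DefK κ.ord (fun e => Fz (e i) = Fz (e j)) :=
  DefK.ren (defK_feq01 h0 hκ) (fun n => if n = 0 then i else j)

/-- Membership of the named elements of the model is definable. -/
theorem DefK.fmem (h0 : ℵ₀ < κ) (hκ : κ.IsRegular) (i j : ℕ) :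
    DefK κ.ord (fun e => Fz (e i) ∈ Fz (e j)) := by
  have h := DefK.ex ((DefK.mem (kk := κ.ord) 0 (j + 1)).and (DefK.feq h0 hκ 0 (i + 1)))
  refine h.congr' ?_
  intro e he
  constructor
  · rintro ⟨w, hw, hm, hE⟩
    exact mem_Fz.2 ⟨w, hm, hE⟩
  · intro hE
    obtain ⟨w, hm, hE⟩ := mem_Fz.1 hE
    exact ⟨w, (p_MEM.mem_lt _ _ hm).trans (he j), hm, hE⟩

theorem zcons_Fz (v : Ordinal.{u}) (e : ℕ → Ordinal.{u}) :
    zcons (Fz v) (fun i => Fz (e i)) = fun i => Fz (econs v e i) := by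
  funext i
  cases i <;> rfl

/-- Truth in the model is definable. -/
theorem DefK.holds (h0 : ℵ₀ < κ) (hκ : κ.IsRegular) (p : Fml) :
    DefK κ.ord (fun e => Holds (MM κ.ord) p (fun i => Fz (e i))) := by
  induction p with
  | mem i j => exact DefK.fmem h0 hκ i j
  | eq i j => exact DefK.feq h0 hκ i j
  | neg p ih => exact ih.neg
  | and p q ih1 ih2 => exact ih1.and ih2
  | all p ih =>
    refine ih.all.congr' ?_
    intro e he
    simp only [Holds]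
    constructor
    · intro h x hx
      obtain ⟨v, hv, rfl⟩ := mem_MM.1 hx
      rw [zcons_Fz]
      exact h v hv
    · intro h v hv
      have := h (Fz v) (Fz_mem_MM hv)
      rw [zcons_Fz] at this
      exact this

/-- Sets of the form `{Fz w : w < μ, P w}` with a definable `P` belong to the model. -/
theorem exists_name (h0 : ℵ₀ < κ) (hκ : κ.IsRegular)
    {P : (ℕ → Ordinal.{u}) → Prop} (hP : DefK κ.ord P) (e : ℕ → Ordinal.{u})
    (he : ∀ i, e i < κ.ord) (μ : Ordinal.{u}) (hμ : μ < κ.ord) :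
    ∃ v < κ.ord, ∀ z, z ∈ Fz v ↔ ∃ w < μ, P (econs w e) ∧ Fz w = z := by
  obtain ⟨v, hv, h⟩ := DefK.cod h0 hκ hP he hμ
  refine ⟨v, hv, fun z => ?_⟩
  rw [mem_Fz]
  constructor
  · rintro ⟨w, hw, e⟩; exact ⟨w, ((h w).1 hw).1, ((h w).1 hw).2, e⟩
  · rintro ⟨w, hw, hP, e⟩; exact ⟨w, (h w).2 ⟨hw, hP⟩, e⟩

theorem kk_pos (h0 : ℵ₀ < κ) : (0 : Ordinal.{u}) < κ.ord := by
  have := Cardinal.omega0_le_ord.2 h0.le
  exact Ordinal.omega0_pos.trans_le this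

theorem exists_env {e : ℕ → ZFSet.{u}} (he : ∀ n, e n ∈ MM κ.ord) :
    ∃ v : ℕ → Ordinal.{u}, (∀ n, v n < κ.ord) ∧ e = fun n => Fz (v n) := by
  choose v hv hv' using fun n => mem_MM.1 (he n)
  exact ⟨v, hv, funext fun n => (hv' n).symm⟩

theorem econs_lt_kk {kk : Ordinal.{u}} {w : Ordinal.{u}} {e : ℕ → Ordinal.{u}} (hw : w < kk)
    (he : ∀ i, e i < kk) : ∀ i, econs w e i < kk := by
  intro i
  cases i with
  | zero => exact hw
  | succ n => exact he n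

/-- The constant environment `0`. -/
def ez : ℕ → Ordinal.{u} := fun _ => 0

theorem ez_lt (h0 : ℵ₀ < κ) : ∀ i, ez.{u} i < κ.ord := fun _ => kk_pos h0

theorem MM_trans : (MM κ.ord).IsTransitive := by
  intro x hx z hz
  obtain ⟨v, hv, rfl⟩ := mem_MM.1 hx
  obtain ⟨w, hw, rfl⟩ := mem_Fz.1 hz
  exact Fz_mem_MM ((p_MEM.mem_lt _ _ hw).trans hv)

theorem MM_pair (h0 : ℵ₀ < κ) (hκ : κ.IsRegular) :
    ∀ x ∈ MM κ.ord, ∀ y ∈ MM κ.ord, ({x, y} : ZFSet.{u}) ∈ MM κ.ord := by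
  intro x hx y hy
  obtain ⟨a, ha, rfl⟩ := mem_MM.1 hx
  obtain ⟨b, hb, rfl⟩ := mem_MM.1 hy
  have hμ : max a b + 1 < κ.ord := succ_lt h0.le (max_lt ha hb)
  obtain ⟨v, hv, h⟩ := exists_name h0 hκ ((DefK.eq 0 1).or (DefK.eq 0 2))
    (econs a (econs b ez)) (econs_lt_kk ha (econs_lt_kk hb (ez_lt h0))) _ hμ
  refine mem_MM.2 ⟨v, hv, ?_⟩
  ext z
  rw [h, ZFSet.mem_pair]
  constructor
  · rintro ⟨w, -, (h1 | h1), rfl⟩
    · left; change w = a at h1; rw [h1]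
    · right; change w = b at h1; rw [h1]
  · rintro (rfl | rfl)
    · exact ⟨a, Order.lt_add_one_iff.2 (le_max_left _ _), Or.inl rfl, rfl⟩
    · exact ⟨b, Order.lt_add_one_iff.2 (le_max_right _ _), Or.inr rfl, rfl⟩

theorem MM_union (h0 : ℵ₀ < κ) (hκ : κ.IsRegular) :
    ∀ x ∈ MM κ.ord, ZFSet.sUnion x ∈ MM κ.ord := by
  intro x hx
  obtain ⟨a, ha, rfl⟩ := mem_MM.1 hx
  obtain ⟨v, hv, h⟩ := exists_name h0 hκ (DefK.ex ((DefK.mem (kk := κ.ord) 0 2).and (DefK.mem 1 0)))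
    (econs a ez) (econs_lt_kk ha (ez_lt h0)) a ha
  refine mem_MM.2 ⟨v, hv, ?_⟩
  ext z
  rw [h, ZFSet.mem_sUnion]
  constructor
  · rintro ⟨w, -, ⟨y, -, h1, h2⟩, rfl⟩
    exact ⟨Fz y, Fz_mem_of_Mem h1, Fz_mem_of_Mem h2⟩
  · rintro ⟨y, hy, hz⟩
    obtain ⟨b, hb, rfl⟩ := mem_Fz.1 hy
    obtain ⟨w, hw, rfl⟩ := mem_Fz.1 hz
    have hb' := p_MEM.mem_lt _ _ hb
    exact ⟨w, (p_MEM.mem_lt _ _ hw).trans hb', ⟨b, hb'.trans ha, hb, hw⟩, rfl⟩

/-- The least names of the named subsets of `Iio a` are bounded. -/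
theorem bdd_names (hκ : κ.IsRegular) (hs : κ.IsStrongLimit) {a : Ordinal.{u}} (ha : a < κ.ord) :
    ∃ μ < κ.ord, ∀ c < κ.ord, (∀ w, Mem w c → w < a) → ∃ d < μ, ∀ w, Mem w d ↔ Mem w c := by
  classical
  let f' : Set a.ToType → Ordinal.{u} := fun S =>
    sInf {d | ∀ w, Mem w d ↔ ∃ h : w < a, Ordinal.ToType.mk ⟨w, h⟩ ∈ S}
  let f : Set a.ToType → Ordinal.{u} := fun S => if f' S < κ.ord then f' S else 0
  have hκ0 : (0 : Ordinal.{u}) < κ.ord := zero_le.trans_lt ha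
  obtain ⟨μ, hμ, h⟩ := bdd hκ f (by
    rw [mk_set, mk_toType]
    exact hs.isStrongPrelimit (lt_ord.mp ha)) (by
    intro S
    simp only [f]
    split_ifs with h
    · exact h
    · exact hκ0)
  refine ⟨μ, hμ, fun c hc hca => ?_⟩
  set S : Set a.ToType := {x | Mem ((Ordinal.ToType.mk (o := a)).symm x).1 c} with hS
  have hcS : c ∈ {d | ∀ w, Mem w d ↔ ∃ h : w < a, Ordinal.ToType.mk ⟨w, h⟩ ∈ S} := by
    intro w
    constructor
    · intro hw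
      exact ⟨hca w hw, by simpa [hS] using hw⟩
    · rintro ⟨h, hw⟩
      simpa [hS] using hw
  have h1 : f' S ∈ {d | ∀ w, Mem w d ↔ ∃ h : w < a, Ordinal.ToType.mk ⟨w, h⟩ ∈ S} :=
    csInf_mem ⟨c, hcS⟩
  have h2 : f' S < κ.ord := (csInf_le' hcS).trans_lt hc
  have h3 : f S = f' S := if_pos h2
  refine ⟨f' S, h3 ▸ h S, fun w => ?_⟩
  exact (h1 w).trans (hcS w).symm

theorem MM_power (h0 : ℵ₀ < κ) (hκ : κ.IsRegular) (hs : κ.IsStrongLimit) :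
    ∀ x ∈ MM κ.ord, ∃ y ∈ MM κ.ord, ∀ z ∈ MM κ.ord, z ∈ y ↔ z ⊆ x := by
  intro x hx
  obtain ⟨a, ha, rfl⟩ := mem_MM.1 hx
  obtain ⟨μ, hμ, hb⟩ := bdd_names hκ hs ha
  have hP : DefK κ.ord (fun e => ∀ u < κ.ord, Mem u (e 0) → Fz u ∈ Fz (e 1)) :=
    DefK.all ((DefK.mem (kk := κ.ord) 0 1).imp (DefK.fmem h0 hκ 0 2))
  obtain ⟨v, hv, h⟩ := exists_name h0 hκ hP (econs a ez) (econs_lt_kk ha (ez_lt h0)) μ hμ
  refine ⟨Fz v, Fz_mem_MM hv, fun z hz => ?_⟩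
  obtain ⟨b, hbk, rfl⟩ := mem_MM.1 hz
  rw [h]
  constructor
  · rintro ⟨w, hw, hP, hE⟩ t ht
    rw [← hE] at ht
    obtain ⟨u, hu, rfl⟩ := mem_Fz.1 ht
    exact hP u (((p_MEM.mem_lt _ _ hu).trans hw).trans hμ) hu
  · intro hsub
    obtain ⟨c, hc, hc'⟩ := DefK.cod h0 hκ
      ((DefK.mem (kk := κ.ord) 0 1).and (DefK.fmem h0 hκ 0 2))
      (e := econs a (econs b ez)) (econs_lt_kk ha (econs_lt_kk hbk (ez_lt h0))) ha
    obtain ⟨d, hd, hd'⟩ := hb c hc (fun w hw => ((hc' w).1 hw).1)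
    have hdb : Fz d = Fz b := by
      ext t
      rw [mem_Fz]
      constructor
      · rintro ⟨w, hw, rfl⟩
        exact ((hc' w).1 ((hd' w).1 hw)).2.2
      · intro ht
        obtain ⟨w, hw, rfl⟩ := mem_Fz.1 (hsub ht)
        exact ⟨w, (hd' w).2 ((hc' w).2 ⟨p_MEM.mem_lt _ _ hw, hw, ht⟩), rfl⟩
    refine ⟨d, hd, ?_, hdb⟩
    intro u hu hud
    change Mem u d at hud
    change Fz u ∈ Fz a
    apply hsub
    rw [← hdb]
    exact Fz_mem_of_Mem hud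

theorem MM_infinity (h0 : ℵ₀ < κ) (hκ : κ.IsRegular) :
    ∃ x ∈ MM κ.ord, (∅ : ZFSet.{u}) ∈ x ∧ ∀ y ∈ x, insert y y ∈ x := by
  classical
  have hins : ∀ w < κ.ord, ∃ w' < κ.ord, Fz w' = insert (Fz w) (Fz w) := by
    intro w hw
    have h1 := MM_pair h0 hκ _ (Fz_mem_MM hw) _ (Fz_mem_MM hw)
    have h2 := MM_union h0 hκ _ (MM_pair h0 hκ _ (Fz_mem_MM hw) _ h1)
    obtain ⟨v, hv, h⟩ := mem_MM.1 h2
    refine ⟨v, hv, ?_⟩
    rw [h]
    ext z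
    simp only [ZFSet.mem_sUnion, ZFSet.mem_insert_iff, ZFSet.mem_singleton]
    constructor
    · rintro ⟨y, (rfl | rfl), hz⟩
      · exact Or.inr hz
      · left; simpa using hz
    · rintro (rfl | hz)
      · exact ⟨{Fz w, Fz w}, Or.inr rfl, by simp⟩
      · exact ⟨Fz w, Or.inl rfl, hz⟩
  choose! s hs hs' using hins
  have hb : ∀ b < κ.ord, ∃ b' < κ.ord, ∀ w < b, s w < b' := fun b hb =>
    bddIio hκ s hb (fun y hy => hs y (hy.trans hb))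
  choose! g hg hg' using hb
  let t : ℕ → Ordinal.{u} := fun n => Nat.rec 1 (fun _ b => g b) n
  have ht : ∀ n, t n < κ.ord := by
    intro n
    induction n with
    | zero =>
      have := succ_lt h0.le (kk_pos h0)
      rw [zero_add] at this
      exact this
    | succ n ih => exact hg _ ih
  obtain ⟨μ', hμ', hμ⟩ := bddNat h0 hκ t ht
  let μ : Ordinal.{u} := sInf {b | ∀ n, t n ≤ b}
  have hμ2 : μ ∈ {b | ∀ n, t n ≤ b} := csInf_mem ⟨μ', fun n => (hμ n).le⟩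
  have hμ3 : μ < κ.ord := by
    have h1 : μ' ∈ {b | ∀ n, t n ≤ b} := fun n => (hμ n).le
    exact (csInf_le' h1).trans_lt hμ'
  have hμ4 : ∀ w < μ, ∃ n, w < t n := by
    intro w hw
    by_contra! hc
    exact absurd (csInf_le' (show w ∈ {b | ∀ n, t n ≤ b} from hc)) (not_le.2 hw)
  obtain ⟨v, hv, h⟩ := exists_name h0 hκ (DefK.eq (kk := κ.ord) 0 0) ez (ez_lt h0) μ hμ3
  refine ⟨Fz v, Fz_mem_MM hv, ?_, ?_⟩
  · rw [h]
    refine ⟨0, ?_, rfl, Fz_zero⟩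
    have : (1 : Ordinal.{u}) ≤ μ := hμ2 0
    exact lt_of_lt_of_le zero_lt_one this
  · intro y hy
    rw [h] at hy ⊢
    obtain ⟨w, hw, -, rfl⟩ := hy
    obtain ⟨n, hn⟩ := hμ4 w hw
    refine ⟨s w, ?_, rfl, hs' w (hw.trans hμ3)⟩
    exact (hg' (t n) (ht n) w hn).trans_le (hμ2 (n + 1))

theorem MM_separation (h0 : ℵ₀ < κ) (hκ : κ.IsRegular) (p : Fml) (e : ℕ → ZFSet.{u})
    (he : ∀ n, e n ∈ MM κ.ord) : ∀ x ∈ MM κ.ord,
    ∃ y ∈ MM κ.ord, ∀ z ∈ MM κ.ord, z ∈ y ↔ z ∈ x ∧ Holds (MM κ.ord) p (zcons z e) := by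
  intro x hx
  obtain ⟨a, ha, rfl⟩ := mem_MM.1 hx
  obtain ⟨v, hv, rfl⟩ := exists_env he
  have hP := (DefK.mem (kk := κ.ord) 0 1).and
    (DefK.ren (DefK.holds h0 hκ p) (fun i => if i = 0 then 0 else i + 1))
  have hQ : ∀ w, (fun i => Fz (econs w (econs a v) (if i = 0 then 0 else i + 1))) =
      zcons (Fz w) (fun n => Fz (v n)) := by
    intro w
    funext i
    cases i with
    | zero => rfl
    | succ n => simp [econs, zcons]
  obtain ⟨c, hc, h⟩ := exists_name h0 hκ hP (econs a v) (econs_lt_kk ha hv) a ha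
  refine ⟨Fz c, Fz_mem_MM hc, fun z hz => ?_⟩
  rw [h]
  constructor
  · rintro ⟨w, hw, ⟨h1, h2⟩, rfl⟩
    refine ⟨Fz_mem_of_Mem h1, ?_⟩
    rw [← hQ]
    exact h2
  · rintro ⟨h1, h2⟩
    obtain ⟨w, hw, rfl⟩ := mem_Fz.1 h1
    refine ⟨w, p_MEM.mem_lt _ _ hw, ⟨hw, ?_⟩, rfl⟩
    rw [← hQ] at h2
    exact h2

theorem MM_replacement (h0 : ℵ₀ < κ) (hκ : κ.IsRegular) (p : Fml) (e : ℕ → ZFSet.{u})
    (he : ∀ n, e n ∈ MM κ.ord) : ∀ x ∈ MM κ.ord,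
    (∀ z ∈ MM κ.ord, z ∈ x → ∃! w, w ∈ MM κ.ord ∧ Holds (MM κ.ord) p (zcons w (zcons z e))) →
    ∃ y ∈ MM κ.ord, ∀ w ∈ MM κ.ord, w ∈ y ↔
      ∃ z ∈ x, Holds (MM κ.ord) p (zcons w (zcons z e)) := by
  classical
  intro x hx hfun
  obtain ⟨a, ha, rfl⟩ := mem_MM.1 hx
  obtain ⟨v, hv, rfl⟩ := exists_env he
  have hex : ∀ c < κ.ord, Mem c a → ∃ d < κ.ord, Holds (MM κ.ord) p
      (zcons (Fz d) (zcons (Fz c) (fun n => Fz (v n)))) := by
    intro c hc hca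
    obtain ⟨w, ⟨hw, hw'⟩, -⟩ := hfun (Fz c) (Fz_mem_MM hc) (Fz_mem_of_Mem hca)
    obtain ⟨d, hd, rfl⟩ := mem_MM.1 hw
    exact ⟨d, hd, hw'⟩
  have hex' : ∀ c, ∃ d < κ.ord, (c < κ.ord → Mem c a → Holds (MM κ.ord) p
      (zcons (Fz d) (zcons (Fz c) (fun n => Fz (v n))))) := by
    intro c
    by_cases hc : c < κ.ord ∧ Mem c a
    · obtain ⟨d, hd, h⟩ := hex c hc.1 hc.2
      exact ⟨d, hd, fun _ _ => h⟩
    · exact ⟨0, kk_pos h0, fun h1 h2 => absurd ⟨h1, h2⟩ hc⟩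
  choose d hd hd' using hex'
  obtain ⟨μ, hμ, hb⟩ := bddIio hκ d ha (fun y _ => hd y)
  -- the environment is `w, a, v`
  have hP := DefK.ex ((DefK.mem (kk := κ.ord) 0 2).and
    (DefK.ren (DefK.holds h0 hκ p) (fun i => if i = 0 then 1 else if i = 1 then 0 else i + 1)))
  have hQ : ∀ w c, (fun i => Fz (econs c (econs w (econs a v))
      (if i = 0 then 1 else if i = 1 then 0 else i + 1))) =
      zcons (Fz w) (zcons (Fz c) (fun n => Fz (v n))) := by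
    intro w c
    funext i
    match i with
    | 0 => rfl
    | 1 => rfl
    | n + 2 => simp [econs, zcons]
  obtain ⟨c, hc, h⟩ := exists_name h0 hκ hP (econs a v) (econs_lt_kk ha hv) μ hμ
  refine ⟨Fz c, Fz_mem_MM hc, fun z hz => ?_⟩
  rw [h]
  constructor
  · rintro ⟨w, hw, ⟨b, hb, h1, h2⟩, rfl⟩
    refine ⟨Fz b, Fz_mem_of_Mem h1, ?_⟩
    rw [← hQ]
    exact h2
  · rintro ⟨y, h1, h2⟩
    obtain ⟨b, hba, rfl⟩ := mem_Fz.1 h1
    have hbk : b < κ.ord := (p_MEM.mem_lt _ _ hba).trans ha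
    have h3 := hd' b hbk hba
    have h4 : z = Fz (d b) := (hfun (Fz b) (Fz_mem_MM hbk) (Fz_mem_of_Mem hba)).unique
      ⟨hz, h2⟩ ⟨Fz_mem_MM (hd b), h3⟩
    refine ⟨d b, hb b (p_MEM.mem_lt _ _ hba), ⟨b, hbk, hba, ?_⟩, h4.symm⟩
    rw [← hQ] at h3
    exact h3

theorem MM_choice (h0 : ℵ₀ < κ) (hκ : κ.IsRegular) :
    ∀ x ∈ MM κ.ord, (∀ y ∈ x, y ≠ ∅) → (∀ y ∈ x, ∀ z ∈ x, y ≠ z → y ∩ z = ∅) →
    ∃ t ∈ MM κ.ord, ∀ y ∈ x, ∃! z, z ∈ t ∧ z ∈ y := by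
  intro x hx hne hdis
  obtain ⟨a, ha, rfl⟩ := mem_MM.1 hx
  -- `w` is the least name of an element of some member of the family
  have hP : DefK κ.ord (fun e => ∃ b < κ.ord, Mem b (e 1) ∧ Fz (e 0) ∈ Fz b ∧
      ∀ u < κ.ord, u < e 0 → ¬ Fz u ∈ Fz b) :=
    DefK.ex ((DefK.mem (kk := κ.ord) 0 2).and ((DefK.fmem h0 hκ 1 0).and
      (DefK.all ((DefK.lt (kk := κ.ord) 0 2).imp (DefK.fmem h0 hκ 0 1).neg))))
  obtain ⟨c, hc, h⟩ := exists_name h0 hκ hP (econs a ez) (econs_lt_kk ha (ez_lt h0)) a ha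
  refine ⟨Fz c, Fz_mem_MM hc, fun y hy => ?_⟩
  obtain ⟨b, hba, rfl⟩ := mem_Fz.1 hy
  have hb' := p_MEM.mem_lt _ _ hba
  have hbk : b < κ.ord := hb'.trans ha
  obtain ⟨z0, hz0⟩ : ∃ z, z ∈ Fz b := by
    by_contra hc
    push Not at hc
    exact hne _ hy ((ZFSet.eq_empty _).2 hc)
  obtain ⟨w0, hw0, rfl⟩ := mem_Fz.1 hz0
  have hne' : {w | Fz w ∈ Fz b}.Nonempty := ⟨w0, hz0⟩
  set m := sInf {w | Fz w ∈ Fz b} with hm
  have hm1 : Fz m ∈ Fz b := csInf_mem hne'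
  have hm2 : ∀ u < m, ¬ Fz u ∈ Fz b := fun u hu hc =>
    absurd (csInf_le' (show u ∈ {w | Fz w ∈ Fz b} from hc)) (not_le.2 hu)
  have hma : m < a := ((csInf_le' (show w0 ∈ {w | Fz w ∈ Fz b} from hz0)).trans_lt
    (p_MEM.mem_lt _ _ hw0)).trans hb'
  refine ⟨Fz m, ⟨?_, hm1⟩, ?_⟩
  · rw [h]
    exact ⟨m, hma, ⟨b, hbk, hba, hm1, fun u _ hu => hm2 u hu⟩, rfl⟩
  · rintro z ⟨hz1, hz2⟩
    rw [h] at hz1
    obtain ⟨w, hw, ⟨b', hb'k, hb'a, h1, h2⟩, rfl⟩ := hz1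
    change Mem b' a at hb'a
    change Fz w ∈ Fz b' at h1
    have hEq : Fz b' = Fz b := by
      by_contra hne2
      have := hdis _ (Fz_mem_of_Mem hb'a) _ hy hne2
      have h3 : Fz w ∈ Fz b' ∩ Fz b := ZFSet.mem_inter.2 ⟨h1, hz2⟩
      rw [this] at h3
      exact ZFSet.notMem_empty _ h3
    rcases lt_trichotomy w m with h3 | h3 | h3
    · exact absurd hz2 (hm2 w h3)
    · rw [h3]
    · exfalso
      refine h2 m (hma.trans ha) h3 ?_
      rw [hEq]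
      exact hm1

/-- The sets named below an uncountable strong limit regular cardinal form a transitive model
of ZFC. -/
theorem transModel (h0 : ℵ₀ < κ) (hκ : κ.IsRegular) (hs : κ.IsStrongLimit) :
    TransModel (MM κ.ord) where
  trans := MM_trans
  pair := MM_pair h0 hκ
  union := MM_union h0 hκ
  power := MM_power h0 hκ hs
  infinity := MM_infinity h0 hκ
  separation := MM_separation h0 hκ
  replacement := MM_replacement h0 hκ
  choice := MM_choice h0 hκ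

end

end Pool.Agent.LMach
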