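import Pool.Agent.LMach.ZFC
import Pool.Agent.LMach.Col

/-!
# The weakly compact cardinal of the model
-/

set_option autoImplicit false

open Set Cardinal

universe u

namespace Pool.Agent.LMach

section

variable {κ : Cardinal.{u}}

/-! ### Pairs and ordinals of the model -/

theorem DefK.fup (h0 : ℵ₀ < κ) (hκ : κ.IsRegular) (i j k : ℕ) :
    DefK κ.ord (fun e => Fz (e i) = {Fz (e j), Fz (e k)}) := by
  have h := (DefK.all ((DefK.mem (kk := κ.ord) 0 (i + 1)).imp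
      ((DefK.feq h0 hκ 0 (j + 1)).or (DefK.feq h0 hκ 0 (k + 1))))).and
    ((DefK.fmem h0 hκ j i).and (DefK.fmem h0 hκ k i))
  refine h.congr' (fun e he => ?_)
  constructor
  · rintro ⟨ha, hb, hc⟩
    ext x
    rw [ZFSet.mem_pair]
    constructor
    · intro hx
      obtain ⟨w, hw, rfl⟩ := mem_Fz.1 hx
      exact ha w ((p_MEM.mem_lt _ _ hw).trans (he i)) hw
    · rintro (rfl | rfl)
      · exact hb
      · exact hc
  · intro heq
    have hx : ∀ x, x ∈ Fz (e i) ↔ x = Fz (e j) ∨ x = Fz (e k) := by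
      intro x
      rw [heq, ZFSet.mem_pair]
    exact ⟨fun w _ hw => (hx _).1 (Fz_mem_of_Mem hw), (hx _).2 (Or.inl rfl), (hx _).2 (Or.inr rfl)⟩

theorem DefK.fpr (h0 : ℵ₀ < κ) (hκ : κ.IsRegular) (i j k : ℕ) :
    DefK κ.ord (fun e => Fz (e i) = ZFSet.pair (Fz (e j)) (Fz (e k))) := by
  have h := (DefK.ex ((DefK.fmem h0 hκ 0 (i + 1)).and (DefK.fup h0 hκ 0 (j + 1) (j + 1)))).and
    ((DefK.ex ((DefK.fmem h0 hκ 0 (i + 1)).and (DefK.fup h0 hκ 0 (j + 1) (k + 1)))).and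
    (DefK.all ((DefK.mem (kk := κ.ord) 0 (i + 1)).imp
      ((DefK.fup h0 hκ 0 (j + 1) (j + 1)).or (DefK.fup h0 hκ 0 (j + 1) (k + 1))))))
  refine h.congr' (fun e he => ?_)
  have hp : ZFSet.pair (Fz (e j)) (Fz (e k)) =
      {{Fz (e j), Fz (e j)}, {Fz (e j), Fz (e k)}} := by
    rw [ZFSet.pair_eq_singleton]; rfl
  rw [hp]
  constructor
  · rintro ⟨⟨w1, hw1, hb1, hb2⟩, ⟨w2, hw2, hc1, hc2⟩, ha⟩
    change Fz w1 ∈ Fz (e i) at hb1
    change Fz w1 = {Fz (e j), Fz (e j)} at hb2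
    change Fz w2 ∈ Fz (e i) at hc1
    change Fz w2 = {Fz (e j), Fz (e k)} at hc2
    ext x
    rw [ZFSet.mem_pair]
    constructor
    · intro hx
      obtain ⟨w, hw, rfl⟩ := mem_Fz.1 hx
      exact ha w ((p_MEM.mem_lt _ _ hw).trans (he i)) hw
    · rintro (rfl | rfl)
      · rw [← hb2]; exact hb1
      · rw [← hc2]; exact hc1
  · intro heq
    have hx : ∀ x, x ∈ Fz (e i) ↔ x = {Fz (e j), Fz (e j)} ∨ x = {Fz (e j), Fz (e k)} := by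
      intro x
      rw [heq, ZFSet.mem_pair]
    refine ⟨?_, ?_, fun w _ hw => (hx _).1 (Fz_mem_of_Mem hw)⟩
    · obtain ⟨w, hw, hww⟩ := mem_Fz.1 ((hx _).mpr (Or.inl rfl))
      refine ⟨w, (p_MEM.mem_lt _ _ hw).trans (he i), Fz_mem_of_Mem hw, hww⟩
    · obtain ⟨w, hw, hww⟩ := mem_Fz.1 ((hx _).mpr (Or.inr rfl))
      refine ⟨w, (p_MEM.mem_lt _ _ hw).trans (he i), Fz_mem_of_Mem hw, hww⟩

/-- The relation `Fz x = ξ`, on codes of pairs. -/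
def OrT (w : Ordinal.{u}) : Prop := ∃ x ξ, J x ξ = w ∧ Fz x = ξ.toZFSet

theorem OrT_J {x ξ : Ordinal.{u}} : OrT (J x ξ) ↔ Fz x = ξ.toZFSet := by
  constructor
  · rintro ⟨a, b, h, e⟩
    obtain ⟨rfl, rfl⟩ := J_inj h
    exact e
  · intro h; exact ⟨x, ξ, rfl, h⟩

/-- The recursion step for `OrT`. -/
def OrPsi (kk : Ordinal.{u}) (e : ℕ → Ordinal.{u}) : Prop :=
  ∃ x < kk, ∃ ξ < kk, J x ξ = e 0 ∧
    ((∀ u < kk, Mem u x → ∃ v < kk, v < ξ ∧ ∃ j < kk, J u v = j ∧ Mem j (e 1)) ∧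
     (∀ v < kk, v < ξ → ∃ u < kk, Mem u x ∧ ∃ j < kk, J u v = j ∧ Mem j (e 1)))

theorem defK_OrPsi (kk : Ordinal.{u}) : DefK kk (OrPsi kk) := by
  have h := DefK.ex (DefK.ex ((DefK.pr (kk := kk) 1 0 2).and
    ((DefK.all ((DefK.mem (kk := kk) 0 2).imp (DefK.ex ((DefK.lt 0 2).and
      (DefK.ex ((DefK.pr 2 1 0).and (DefK.mem 0 6))))))).and
     (DefK.all ((DefK.lt (kk := kk) 0 1).imp (DefK.ex ((DefK.mem 0 3).and
      (DefK.ex ((DefK.pr 1 2 0).and (DefK.mem 0 6))))))))))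
  exact h

theorem defK_ford01 (h0 : ℵ₀ < κ) (hκ : κ.IsRegular) :
    DefK κ.ord (fun e => Fz (e 0) = (e 1).toZFSet) := by
  have hP := DefK.recP (defK_OrPsi κ.ord)
  have key : ∀ e : ℕ → Ordinal.{u}, (∀ i, e i < κ.ord) → ∀ w < κ.ord,
      (OrT w ↔ RecP κ.ord (OrPsi κ.ord) (econs w e)) := by
    intro e he
    refine (DefK.recursion h0 hκ (defK_OrPsi κ.ord) he ?_).1
    intro w hw z hz hwz
    have hz' : ∀ u v x y, J x y = w → Mem u x → v < y → (Mem (J u v) z ↔ Fz u = v.toZFSet) := by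
      intro u v x y hxy hu hv
      rw [← OrT_J]
      apply hwz
      rw [← hxy]
      exact p_LOC.J_mono u v x y (p_MEM.mem_lt _ _ hu) hv
    constructor
    · rintro ⟨x, y, hxy, hE⟩
      have hx : x < κ.ord := (le_J_left x y).trans_lt (hxy ▸ hw)
      have hy : y < κ.ord := (le_J_right x y).trans_lt (hxy ▸ hw)
      refine ⟨x, hx, y, hy, hxy, fun u hu hux => ?_, fun v hv hvy => ?_⟩
      · have h1 := Fz_mem_of_Mem hux
        rw [hE, Ordinal.mem_toZFSet_iff] at h1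
        obtain ⟨v, hv, e⟩ := h1
        exact ⟨v, hv.trans hy, hv, J u v, J_lt_kk h0 hu (hv.trans hy), rfl,
          (hz' u v x y hxy hux hv).2 e.symm⟩
      · have h1 : v.toZFSet ∈ Fz x := by
          rw [hE]; exact Ordinal.toZFSet_mem_toZFSet_iff.2 hvy
        obtain ⟨u, hu, e⟩ := mem_Fz.1 h1
        have hu' : u < κ.ord := (p_MEM.mem_lt _ _ hu).trans hx
        exact ⟨u, hu', hu, J u v, J_lt_kk h0 hu' hv, rfl, (hz' u v x y hxy hu hvy).2 e⟩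
    · rintro ⟨x, hx, y, hy, hxy, e1, e2⟩
      change J x y = w at hxy
      refine ⟨x, y, hxy, ?_⟩
      ext t
      rw [mem_Fz, Ordinal.mem_toZFSet_iff]
      constructor
      · rintro ⟨u, hu, rfl⟩
        obtain ⟨v, -, hv, j, -, hj, hjz⟩ := e1 u ((p_MEM.mem_lt _ _ hu).trans hx) hu
        rw [← hj] at hjz
        exact ⟨v, hv, ((hz' u v x y hxy hu hv).1 hjz).symm⟩
      · rintro ⟨v, hv, rfl⟩
        obtain ⟨u, -, hu, j, -, hj, hjz⟩ := e2 v (hv.trans hy) hv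
        rw [← hj] at hjz
        exact ⟨u, hu, (hz' u v x y hxy hu hv).1 hjz⟩
  refine (DefK.comp0 (DefF.J (lev_kk h0) (DefF.var 0) (DefF.var 1)) hP).congr' ?_
  intro e he
  rw [← OrT_J]
  exact (key e he _ (J_lt_kk h0 (he 0) (he 1))).symm

/-- The relation `Fz x = ξ` is definable. -/
theorem DefK.ford (h0 : ℵ₀ < κ) (hκ : κ.IsRegular) (i j : ℕ) :
    DefK κ.ord (fun e => Fz (e i) = (e j).toZFSet) :=
  DefK.ren (defK_ford01 h0 hκ) (fun n => if n = 0 then i else j)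

/-- Every ordinal below `κ` has a name. -/
theorem exists_ord_name (h0 : ℵ₀ < κ) (hκ : κ.IsRegular) (ξ : Ordinal.{u}) :
    ξ < κ.ord → ∃ x < κ.ord, Fz x = ξ.toZFSet := by
  induction ξ using WellFoundedLT.induction with
  | ind ξ ih =>
    intro hξ
    have hn : ∀ η, ∃ x < κ.ord, (η < ξ → Fz x = η.toZFSet) := by
      intro η
      by_cases h : η < ξ
      · obtain ⟨x, hx, hx'⟩ := ih η h (h.trans hξ)
        exact ⟨x, hx, fun _ => hx'⟩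
      · exact ⟨0, kk_pos h0, fun h' => absurd h' h⟩
    choose n hn hn' using hn
    obtain ⟨b, hb, hb'⟩ := bddIio hκ n hξ (fun y _ => hn y)
    obtain ⟨v, hv, h⟩ := exists_name h0 hκ
      (DefK.exb 1 (DefK.ford h0 hκ 1 0)) (econs ξ ez) (econs_lt_kk hξ (ez_lt h0)) b hb
    refine ⟨v, hv, ?_⟩
    ext z
    rw [h, Ordinal.mem_toZFSet_iff]
    constructor
    · rintro ⟨w, hw, ⟨η, hη, hη'⟩, rfl⟩
      exact ⟨η, hη, hη'.symm⟩
    · rintro ⟨η, hη, rfl⟩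
      exact ⟨n η, hb' η hη, ⟨η, hη, hn' η hη⟩, hn' η hη⟩

theorem ord_mem_MM (h0 : ℵ₀ < κ) (hκ : κ.IsRegular) {ξ : Ordinal.{u}} (hξ : ξ < κ.ord) :
    ξ.toZFSet ∈ MM κ.ord := mem_MM.2 (exists_ord_name h0 hκ ξ hξ)

theorem pair_mem_MM (h0 : ℵ₀ < κ) (hκ : κ.IsRegular) {x y : ZFSet.{u}} (hx : x ∈ MM κ.ord)
    (hy : y ∈ MM κ.ord) : ZFSet.pair x y ∈ MM κ.ord := by
  have hp : ZFSet.pair x y = {{x, x}, {x, y}} := by
    rw [ZFSet.pair_eq_singleton]; rfl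
  rw [hp]
  exact MM_pair h0 hκ _ (MM_pair h0 hκ _ hx _ hx) _ (MM_pair h0 hκ _ hx _ hy)

/-- The relation `(ξ, η) ∈ Fz v` is definable. -/
theorem DefK.fprm (h0 : ℵ₀ < κ) (hκ : κ.IsRegular) (i j k : ℕ) :
    DefK κ.ord (fun e => ZFSet.pair (e i).toZFSet (e j).toZFSet ∈ Fz (e k)) := by
  have h := DefK.ex (DefK.ex (DefK.ex ((DefK.ford h0 hκ 2 (i + 3)).and
    ((DefK.ford h0 hκ 1 (j + 3)).and ((DefK.fpr h0 hκ 0 2 1).and (DefK.fmem h0 hκ 0 (k + 3)))))))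
  refine h.congr' (fun e he => ?_)
  constructor
  · rintro ⟨x, hx, y, hy, t, ht, h1, h2, h3, h4⟩
    change Fz x = (e i).toZFSet at h1
    change Fz y = (e j).toZFSet at h2
    change Fz t = ZFSet.pair (Fz x) (Fz y) at h3
    change Fz t ∈ Fz (e k) at h4
    rw [← h1, ← h2, ← h3]
    exact h4
  · intro hm
    obtain ⟨x, hx, hx'⟩ := exists_ord_name h0 hκ _ (he i)
    obtain ⟨y, hy, hy'⟩ := exists_ord_name h0 hκ _ (he j)
    obtain ⟨t, ht, ht'⟩ := mem_Fz.1 hm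
    refine ⟨x, hx, y, hy, t, (p_MEM.mem_lt _ _ ht).trans (he k), hx', hy', ?_, Fz_mem_of_Mem ht⟩
    change Fz t = ZFSet.pair (Fz x) (Fz y)
    rw [hx', hy', ht']

theorem omega_toZFSet : ZFSet.omega.{u} = Ordinal.omega0.toZFSet := by
  have hn : ∀ n : ℕ, ZFSet.mk (PSet.ofNat.{u} n) = (n : Ordinal.{u}).toZFSet := by
    intro n
    induction n with
    | zero =>
      rw [Nat.cast_zero, Ordinal.toZFSet_zero]; rfl
    | succ n ih =>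
      rw [Nat.cast_succ, Ordinal.toZFSet_add_one, ← ih]; rfl
  ext x
  rw [Ordinal.mem_toZFSet_iff]
  constructor
  · intro hx
    obtain ⟨y, rfl⟩ := Quotient.exists_rep x
    obtain ⟨n, hn'⟩ := hx
    refine ⟨(n.down : Ordinal), Ordinal.natCast_lt_omega0 _, ?_⟩
    rw [← hn]
    exact (ZFSet.sound hn').symm
  · rintro ⟨a, ha, rfl⟩
    obtain ⟨n, rfl⟩ := Ordinal.lt_omega0.1 ha
    rw [← hn]
    exact ⟨⟨n⟩, PSet.Equiv.rfl⟩

/-! ### Relations on `l` -/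

/-- Naming of definable relations on `l`. -/
theorem exists_rel (h0 : ℵ₀ < κ) (hκ : κ.IsRegular) {R : (ℕ → Ordinal.{u}) → Prop}
    (hR : DefK κ.ord R) {e : ℕ → Ordinal.{u}} (he : ∀ i, e i < κ.ord) {l : Ordinal.{u}}
    (hl : l < κ.ord) (hll : lev l = l) :
    ∃ c < κ.ord, ∀ x < l, ∀ y < l, (Mem (J x y) c ↔ R (econs x (econs y e))) := by
  have h1 := DefK.ex (DefK.ex ((DefK.pr (kk := κ.ord) 1 0 2).and
    (DefK.ren hR (fun i => match i with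
      | 0 => 1
      | 1 => 0
      | i + 2 => i + 3))))
  obtain ⟨c, hc, h⟩ := DefK.cod h0 hκ h1 he hl
  refine ⟨c, hc, fun x hx y hy => ?_⟩
  have key : ∀ x y w, (fun i => econs y (econs x (econs w e)) (match i with
      | 0 => 1
      | 1 => 0
      | i + 2 => i + 3)) = econs x (econs y e) := by
    intro x y w
    funext i
    match i with
    | 0 => rfl
    | 1 => rfl
    | i + 2 => rfl
  rw [h]
  constructor
  · rintro ⟨-, x', hx', y', hy', hJ, hR'⟩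
    change J x' y' = J x y at hJ
    obtain ⟨rfl, rfl⟩ := J_inj hJ
    rw [key] at hR'
    exact hR'
  · intro hR'
    refine ⟨p_LOC.J_lt l x y hll hx hy, x, hx.trans hl, y, hy.trans hl, rfl, ?_⟩
    rw [key]
    exact hR'

theorem lim_l {l : Ordinal.{u}} (hw : Ordinal.omega0 < l) (hll : lev l = l) {x : Ordinal.{u}}
    (hx : x < l) : x + 1 < l :=
  (p_LOC.closed_lim l hll (Ordinal.one_lt_omega0.trans hw)).2 x hx

/-- `l` is regular for relations that have a name. -/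
theorem Good.regular (h0 : ℵ₀ < κ) (hκ : κ.IsRegular) {l : Ordinal.{u}} (hl : l < κ.ord)
    (hG : Good κ.ord l) {g : Ordinal.{u}} (hg : g < κ.ord) {ι : Ordinal.{u}} (hι : ι < l)
    (h : ∀ i < ι, ∃ ξ < l, Mem (J i ξ) g) : ∃ z < l, ∀ i < ι, ∃ ξ < z, Mem (J i ξ) g := by
  obtain ⟨hw, hll, hG⟩ := hG
  obtain ⟨c, hc, hc'⟩ := exists_rel h0 hκ (R := fun e => ∃ ξ < e 0, Mem (J (e 1) ξ) (e 2))
    (DefK.exb 0 (DefK.mem' (DefF.J (lev_kk h0) (DefF.var 2) (DefF.var 0)) (DefF.var 3)))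
    (e := econs g ez) (econs_lt_kk hg (ez_lt h0)) hl hll
  obtain ⟨d, hd, hW⟩ := hG c hc
  have hid : ∀ i < ι, Mem i d := by
    intro i hi
    obtain ⟨ξ, hξ, hξ'⟩ := h i hi
    obtain ⟨z, hz, hz1, hz2⟩ := hW (i + 1) (lim_l hw hll (hi.trans hι)) ξ hξ
    rw [← hz2 i (lt_add_one i), hc' z hz i (hi.trans hι)]
    exact ⟨ξ, hz1, hξ'⟩
  obtain ⟨z, hz, hz1, hz2⟩ := hW ι hι 0 (Ordinal.omega0_pos.trans hw)
  refine ⟨z, hz, fun i hi => ?_⟩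
  have h1 := (hz2 i hi).2 (hid i hi)
  rw [hc' z hz i (hi.trans hι)] at h1
  exact h1

/-- There is no bijection in the model between `l` and a smaller ordinal. -/
theorem Good.no_bij (h0 : ℵ₀ < κ) (hκ : κ.IsRegular) {l : Ordinal.{u}} (hl : l < κ.ord)
    (hG : Good κ.ord l) : ∀ a ∈ l.toZFSet, ∀ f ∈ MM κ.ord, ¬ IsBij f a l.toZFSet := by
  rintro a ha f hf ⟨hf1, hf2, hf3⟩
  obtain ⟨ι, hι, rfl⟩ := Ordinal.mem_toZFSet_iff.1 ha
  obtain ⟨v, hv, rfl⟩ := mem_MM.1 hf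
  obtain ⟨g, hg, hg'⟩ := exists_rel h0 hκ (DefK.fprm h0 hκ 0 1 2)
    (e := econs v ez) (econs_lt_kk hv (ez_lt h0)) hl hG.2.1
  have h1 : ∀ i < ι, ∃ ξ < l, ZFSet.pair i.toZFSet ξ.toZFSet ∈ Fz v := by
    intro i hi
    obtain ⟨b, hb, -⟩ := hf2 _ (Ordinal.toZFSet_mem_toZFSet_iff.2 hi)
    obtain ⟨a', -, b', hb', hab⟩ := hf1 _ hb
    obtain ⟨-, rfl⟩ := ZFSet.pair_inj.1 hab
    obtain ⟨ξ, hξ, rfl⟩ := Ordinal.mem_toZFSet_iff.1 hb'
    exact ⟨ξ, hξ, hb⟩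
  obtain ⟨z, hz, hz'⟩ := hG.regular h0 hκ hl hg hι (fun i hi => by
    obtain ⟨ξ, hξ, h2⟩ := h1 i hi
    exact ⟨ξ, hξ, (hg' i (hi.trans hι) ξ hξ).2 h2⟩)
  obtain ⟨a', ha', -⟩ := hf3 _ (Ordinal.toZFSet_mem_toZFSet_iff.2 hz)
  obtain ⟨a'', ha'', b'', hb'', hab⟩ := hf1 _ ha'
  obtain ⟨rfl, -⟩ := ZFSet.pair_inj.1 hab
  obtain ⟨i, hi, rfl⟩ := Ordinal.mem_toZFSet_iff.1 ha''
  obtain ⟨ξ, hξ, h2⟩ := hz' i hi
  have h3 : ZFSet.pair i.toZFSet ξ.toZFSet ∈ Fz v :=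
    (hg' i (hi.trans hι) ξ (hξ.trans hz)).1 h2
  obtain ⟨b, -, hb2⟩ := hf2 _ ha''
  have h4 := (hb2 _ h3).trans (hb2 _ ha').symm
  exact hξ.ne (Ordinal.toZFSet_injective h4)

/-! ### The homogeneous set -/

/-- A homogeneous set that has a name, for a colouring that has a name. -/
theorem Good.hom (h0 : ℵ₀ < κ) (hκ : κ.IsRegular) {l : Ordinal.{u}} (hl : l < κ.ord)
    (hG : Good κ.ord l) {C : Ordinal.{u}} (hC : C < κ.ord) :
    ∃ B < κ.ord, (∀ x, Mem x B → x < l) ∧ (∀ x < l, ∃ z, x < z ∧ Mem z B) ∧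
      ((∀ x z, Mem x B → Mem z B → x < z → Mem (J z x) C) ∨
        (∀ x z, Mem x B → Mem z B → x < z → ¬ Mem (J z x) C)) := by
  obtain ⟨hw, hll, hG⟩ := hG
  obtain ⟨d, hd, hW⟩ := hG C hC
  -- the recursion for the greedy set; the parameters are `l, C, d`
  have hPsi : DefK κ.ord (fun e => e 0 < e 2 ∧
      ∀ x < e 0, Mem x (e 1) → (Mem (J (e 0) x) (e 3) ↔ Mem x (e 4))) :=
    (DefK.lt 0 2).and (DefK.allb 0 ((DefK.mem 0 2).imp
      ((DefK.mem' (DefF.J (lev_kk h0) (DefF.var 1) (DefF.var 0)) (DefF.var 4)).iff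
        (DefK.mem 0 5))))
  let T : Ordinal.{u} → Prop := WellFounded.fix (C := fun _ => Prop) Ordinal.lt_wf
    (fun z IH => z < l ∧ ∀ x (hx : x < z), IH x hx → (Mem (J z x) C ↔ Mem x d))
  have hT : ∀ z, T z ↔ (z < l ∧ ∀ x < z, T x → (Mem (J z x) C ↔ Mem x d)) := by
    intro z
    have := WellFounded.fix_eq (C := fun _ => Prop) Ordinal.lt_wf
      (fun z IH => z < l ∧ ∀ x (hx : x < z), IH x hx → (Mem (J z x) C ↔ Mem x d)) z
    exact iff_of_eq this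
  have he : ∀ i, econs l (econs C (econs d ez)) i < κ.ord :=
    econs_lt_kk hl (econs_lt_kk hC (econs_lt_kk hd (ez_lt h0)))
  obtain ⟨-, hcod⟩ := DefK.recursion h0 hκ hPsi he (T := T) (by
    intro w hw z hz hag
    rw [hT]
    refine and_congr Iff.rfl ?_
    constructor
    · intro h x hx hxz
      exact h x hx ((hag x hx).1 hxz)
    · intro h x hx hxz
      exact h x hx ((hag x hx).2 hxz))
  obtain ⟨h, hh, hh'⟩ := hcod l hl
  have hlT : ∀ z, T z → z < l := fun z hz => ((hT z).1 hz).1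
  have hunb : ∀ z₀ < l, ∃ z, z₀ < z ∧ T z := by
    intro z₀ hz₀
    by_contra! hcon
    obtain ⟨z, hz, hz1, hz2⟩ := hW (z₀ + 1) (lim_l hw hll hz₀) z₀ hz₀
    refine hcon z hz1 ((hT z).2 ⟨hz, fun x hx hTx => hz2 x ?_⟩)
    rw [Order.lt_add_one_iff]
    by_contra! h1
    exact hcon x h1 hTx
  by_cases hcase : ∀ x < l, ∃ z, x < z ∧ T z ∧ Mem z d
  · obtain ⟨B, hB, hB'⟩ := DefK.cod h0 hκ ((DefK.mem (kk := κ.ord) 0 1).and (DefK.mem 0 2))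
      (e := econs h (econs d ez)) (econs_lt_kk hh (econs_lt_kk hd (ez_lt h0))) hl
    have hB2 : ∀ x, Mem x B ↔ T x ∧ Mem x d := by
      intro x
      rw [hB']
      constructor
      · rintro ⟨-, h1, h2⟩
        exact ⟨((hh' x).1 h1).2, h2⟩
      · rintro ⟨h1, h2⟩
        exact ⟨hlT x h1, (hh' x).2 ⟨hlT x h1, h1⟩, h2⟩
    refine ⟨B, hB, fun x hx => hlT x ((hB2 x).1 hx).1, ?_, Or.inl ?_⟩
    · intro x hx
      obtain ⟨z, hz, h1, h2⟩ := hcase x hx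
      exact ⟨z, hz, (hB2 z).2 ⟨h1, h2⟩⟩
    · intro x z hx hz hxz
      rw [hB2] at hx hz
      exact (((hT z).1 hz.1).2 x hxz hx.1).2 hx.2
  · push Not at hcase
    obtain ⟨x₀, hx₀, hcase⟩ := hcase
    obtain ⟨B, hB, hB'⟩ := DefK.cod h0 hκ ((DefK.mem (kk := κ.ord) 0 1).and (DefK.mem 0 2).neg)
      (e := econs h (econs d ez)) (econs_lt_kk hh (econs_lt_kk hd (ez_lt h0))) hl
    have hB2 : ∀ x, Mem x B ↔ T x ∧ ¬ Mem x d := by
      intro x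
      rw [hB']
      constructor
      · rintro ⟨-, h1, h2⟩
        exact ⟨((hh' x).1 h1).2, h2⟩
      · rintro ⟨h1, h2⟩
        exact ⟨hlT x h1, (hh' x).2 ⟨hlT x h1, h1⟩, h2⟩
    refine ⟨B, hB, fun x hx => hlT x ((hB2 x).1 hx).1, ?_, Or.inr ?_⟩
    · intro x hx
      obtain ⟨z, hz, h1⟩ := hunb (max x x₀) (max_lt hx hx₀)
      exact ⟨z, (le_max_left _ _).trans_lt hz, (hB2 z).2 ⟨h1,
        hcase z ((le_max_right _ _).trans_lt hz) h1⟩⟩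
    · intro x z hx hz hxz hm
      rw [hB2] at hx hz
      exact hx.2 ((((hT z).1 hz.1).2 x hxz hx.1).1 hm)

/-- The enumeration of a set has a name. -/
theorem exists_enum (h0 : ℵ₀ < κ) (hκ : κ.IsRegular) {l : Ordinal.{u}} (hl : l < κ.ord)
    (hll : lev l = l) {B : Ordinal.{u}} (hB : B < κ.ord) :
    ∃ E < κ.ord, (∀ w, Mem w E → w < l) ∧
      ∀ ξ < l, ∀ z < l, (Mem (J ξ z) E ↔ Mem z B ∧ col {y | Mem y B} z = ξ) := by
  set b : Set Ordinal.{u} := {y | Mem y B} with hb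
  let T : Ordinal.{u} → Prop := fun w => ∃ ξ z, J ξ z = w ∧ Mem z B ∧ col b z = ξ
  have hTJ : ∀ ξ z, T (J ξ z) ↔ Mem z B ∧ col b z = ξ := by
    intro ξ z
    constructor
    · rintro ⟨ξ', z', hJ, h⟩
      obtain ⟨rfl, rfl⟩ := J_inj hJ
      exact h
    · intro h; exact ⟨ξ, z, rfl, h⟩
  have hcol : ∀ ξ z, col b z = ξ ↔ (∀ η < ξ, ∃ y < z, y ∈ b ∧ col b y = η) ∧
      (∀ y < z, y ∈ b → ∃ η < ξ, col b y = η) := by
    intro ξ z
    constructor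
    · rintro rfl
      refine ⟨fun η hη => ?_, fun y hy hyb => ⟨_, col_smono hyb hy, rfl⟩⟩
      obtain ⟨y, hy, hyz, h⟩ := col_onto hη
      exact ⟨y, hyz, hy, h⟩
    · rintro ⟨h1, h2⟩
      refine le_antisymm (col_le_of fun y hy hyz => ?_) ?_
      · obtain ⟨η, hη, h⟩ := h2 y hyz hy
        rw [h]
        exact Order.add_one_le_iff.2 hη
      · by_contra! hcon
        obtain ⟨y, hyz, hy, h⟩ := h1 _ hcon
        exact absurd (col_smono hy hyz) (by rw [h]; exact lt_irrefl _)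
  have hPsi : DefK κ.ord (fun e => ∃ ξ < κ.ord, ∃ z < κ.ord, J ξ z = e 0 ∧ (Mem z (e 2) ∧
      ((∀ η < ξ, ∃ y < z, Mem (J η y) (e 1)) ∧
        (∀ y < z, Mem y (e 2) → ∃ η < ξ, Mem (J η y) (e 1))))) :=
    DefK.ex (DefK.ex ((DefK.pr (kk := κ.ord) 1 0 2).and ((DefK.mem 0 4).and
      ((DefK.allb 1 (DefK.exb 1 (DefK.mem' (DefF.J (lev_kk h0) (DefF.var 1) (DefF.var 0))
        (DefF.var 5)))).and
      (DefK.allb 0 ((DefK.mem 0 5).imp (DefK.exb 2 (DefK.mem'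
        (DefF.J (lev_kk h0) (DefF.var 0) (DefF.var 1)) (DefF.var 5)))))))))
  obtain ⟨-, hcod⟩ := DefK.recursion h0 hκ hPsi (e := econs B ez) (econs_lt_kk hB (ez_lt h0))
    (T := T) (by
    intro w hw n hn hag
    constructor
    · rintro ⟨ξ, z, hJ, hz, hc⟩
      have hξk : ξ < κ.ord := (le_J_left ξ z).trans_lt (hJ ▸ hw)
      have hzk : z < κ.ord := (le_J_right ξ z).trans_lt (hJ ▸ hw)
      obtain ⟨h1, h2⟩ := (hcol ξ z).1 hc
      refine ⟨ξ, hξk, z, hzk, hJ, hz, fun η hη => ?_, fun y hy hyb => ?_⟩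
      · obtain ⟨y, hy, hyb, h⟩ := h1 η hη
        refine ⟨y, hy, (hag _ ?_).2 ((hTJ η y).2 ⟨hyb, h⟩)⟩
        rw [← hJ]; exact p_LOC.J_mono _ _ _ _ hη hy
      · obtain ⟨η, hη, h⟩ := h2 y hy hyb
        refine ⟨η, hη, (hag _ ?_).2 ((hTJ η y).2 ⟨hyb, h⟩)⟩
        rw [← hJ]; exact p_LOC.J_mono _ _ _ _ hη hy
    · rintro ⟨ξ, hξ, z, hz, hJ, hzB, h1, h2⟩
      change J ξ z = w at hJ
      refine ⟨ξ, z, hJ, hzB, (hcol ξ z).2 ⟨fun η hη => ?_, fun y hy hyb => ?_⟩⟩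
      · obtain ⟨y, hy, hm⟩ := h1 η hη
        have hm' := (hag _ (by rw [← hJ]; exact p_LOC.J_mono _ _ _ _ hη hy)).1 hm
        obtain ⟨h3, h4⟩ := (hTJ η y).1 hm'
        exact ⟨y, hy, h3, h4⟩
      · obtain ⟨η, hη, hm⟩ := h2 y hy hyb
        have hm' := (hag _ (by rw [← hJ]; exact p_LOC.J_mono _ _ _ _ hη hy)).1 hm
        exact ⟨η, hη, ((hTJ η y).1 hm').2⟩)
  obtain ⟨E, hE, hE'⟩ := hcod l hl
  refine ⟨E, hE, fun w hw => ((hE' w).1 hw).1, fun ξ hξ z hz => ?_⟩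
  rw [hE', hTJ]
  exact and_iff_right (p_LOC.J_lt l ξ z hll hξ hz)

/-- The order type of an unbounded subset of `l` that has a name. -/
theorem Good.col_eq (h0 : ℵ₀ < κ) (hκ : κ.IsRegular) {l : Ordinal.{u}} (hl : l < κ.ord)
    (hG : Good κ.ord l) {B E : Ordinal.{u}} (hE : E < κ.ord)
    (hEB : ∀ ξ < l, ∀ z < l, (Mem (J ξ z) E ↔ Mem z B ∧ col {y | Mem y B} z = ξ))
    (hB1 : ∀ x, Mem x B → x < l) (hB2 : ∀ x < l, ∃ z, x < z ∧ Mem z B) :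
    col {y | Mem y B} l = l := by
  set b : Set Ordinal.{u} := {y | Mem y B} with hb
  by_contra hne
  have hlt : col b l < l := lt_of_le_of_ne (col_le b l) hne
  obtain ⟨z₀, hz₀, h⟩ := hG.regular h0 hκ hl hE hlt (fun i hi => by
    obtain ⟨x, hx, hxl, hxi⟩ := col_onto hi
    exact ⟨x, hxl, (hEB i (hi.trans hlt) x hxl).2 ⟨hx, hxi⟩⟩)
  obtain ⟨y, hy, hyB⟩ := hB2 z₀ hz₀
  have hyl := hB1 y hyB
  obtain ⟨z, hz, hm⟩ := h (col b y) (col_smono hyB hyl)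
  obtain ⟨h1, h2⟩ := (hEB _ ((col_smono (X := b) hyB hyl).trans hlt) z (hz.trans hz₀)).1 hm
  have h3 := col_inj (X := b) h1 hyB h2
  rw [h3] at hz
  exact absurd hy (not_lt.2 hz.le)

/-- `l` is weakly compact in the model. -/
theorem Good.wcIn (h0 : ℵ₀ < κ) (hκ : κ.IsRegular) {l : Ordinal.{u}} (hl : l < κ.ord)
    (hG : Good κ.ord l) : WCIn (MM κ.ord) l.toZFSet := by
  refine ⟨ord_mem_MM h0 hκ hl, ZFSet.isOrdinal_toZFSet l, ?_, hG.no_bij h0 hκ hl, ?_⟩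
  · rw [omega_toZFSet]; exact Ordinal.toZFSet_mem_toZFSet_iff.2 hG.1
  intro c hc
  obtain ⟨v, hv, rfl⟩ := mem_MM.1 hc
  -- the code of the colouring
  obtain ⟨C, hC, hC'⟩ := exists_rel h0 hκ (DefK.fprm h0 hκ 1 0 2)
    (e := econs v ez) (econs_lt_kk hv (ez_lt h0)) hl hG.2.1
  obtain ⟨B, hB, hB1, hB2, hB3⟩ := hG.hom h0 hκ hl hC
  obtain ⟨E, hE, hEl, hEB⟩ := exists_enum h0 hκ hl hG.2.1 hB
  have hcol := hG.col_eq h0 hκ hl hE hEB hB1 hB2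
  -- the names of the ordinals and of the pairs of ordinals
  have hn : ∀ w, ∃ n < κ.ord, (w < l → Fz n = w.toZFSet) := by
    intro w
    by_cases h : w < l
    · obtain ⟨x, hx, hx'⟩ := exists_ord_name h0 hκ w (h.trans hl)
      exact ⟨x, hx, fun _ => hx'⟩
    · exact ⟨0, kk_pos h0, fun h' => absurd h' h⟩
  choose n hn hn' using hn
  have hm : ∀ w, ∃ m < κ.ord, (w < l → Fz m = ZFSet.pair (hd w).toZFSet (tl w).toZFSet) := by
    intro w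
    by_cases h : w < l
    · have h1 : hd w < κ.ord := ((p_LOC.hd_le w).trans (p_LOC.lev_le w)).trans_lt (h.trans hl)
      have h2 : tl w < κ.ord := ((p_LOC.tl_le w).trans (p_LOC.lev_le w)).trans_lt (h.trans hl)
      obtain ⟨x, hx, hx'⟩ := mem_MM.1 (pair_mem_MM h0 hκ (ord_mem_MM h0 hκ h1)
        (ord_mem_MM h0 hκ h2))
      exact ⟨x, hx, fun _ => hx'⟩
    · exact ⟨0, kk_pos h0, fun h' => absurd h' h⟩
  choose m hm hm' using hm
  obtain ⟨b1, hb1, hnb⟩ := bddIio hκ n hl (fun y _ => hn y)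
  obtain ⟨b2, hb2, hmb⟩ := bddIio hκ m hl (fun y _ => hm y)
  have hmJ : ∀ ξ < l, ∀ z < l, m (J ξ z) < b2 ∧
      Fz (m (J ξ z)) = ZFSet.pair ξ.toZFSet z.toZFSet := by
    intro ξ hξ z hz
    have hJ := p_LOC.J_lt l ξ z hG.2.1 hξ hz
    refine ⟨hmb _ hJ, ?_⟩
    rw [hm' _ hJ, p_LOC.hd_J, p_LOC.tl_J]
  -- the set `H`
  obtain ⟨h, hh, hH⟩ := exists_name h0 hκ (DefK.ex ((DefK.mem (kk := κ.ord) 0 2).and
    (DefK.ford h0 hκ 1 0))) (econs B ez) (econs_lt_kk hB (ez_lt h0)) b1 hb1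
  have hH' : ∀ x, x ∈ Fz h ↔ ∃ z, Mem z B ∧ z.toZFSet = x := by
    intro x
    rw [hH]
    constructor
    · rintro ⟨w, -, ⟨z, -, h1, h2⟩, rfl⟩
      exact ⟨z, h1, h2.symm⟩
    · rintro ⟨z, h1, rfl⟩
      have hz := hB1 z h1
      exact ⟨n z, hnb z hz, ⟨z, hz.trans hl, h1, hn' z hz⟩, hn' z hz⟩
  -- the bijection
  obtain ⟨f, hf, hF⟩ := exists_name h0 hκ (P := fun e => ∃ ξ < κ.ord, ∃ z < κ.ord,
      ∃ x < κ.ord, ∃ y < κ.ord, Mem (J ξ z) (e 1) ∧ (Fz x = ξ.toZFSet ∧ (Fz y = z.toZFSet ∧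
        Fz (e 0) = ZFSet.pair (Fz x) (Fz y))))
    (DefK.ex (DefK.ex (DefK.ex (DefK.ex
      ((DefK.mem' (DefF.J (lev_kk h0) (DefF.var 3) (DefF.var 2)) (DefF.var 5)).and
        ((DefK.ford h0 hκ 1 3).and ((DefK.ford h0 hκ 0 2).and (DefK.fpr h0 hκ 4 1 0))))))))
    (econs E ez) (econs_lt_kk hE (ez_lt h0)) b2 hb2
  have hF' : ∀ x, x ∈ Fz f ↔ ∃ ξ < l, ∃ z, Mem z B ∧ col {y | Mem y B} z = ξ ∧
      x = ZFSet.pair ξ.toZFSet z.toZFSet := by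
    intro x
    rw [hF]
    constructor
    · rintro ⟨w, -, ⟨ξ, -, z, -, x, -, y, -, h1, h2, h3, h4⟩, rfl⟩
      change Mem (J ξ z) E at h1
      change Fz w = ZFSet.pair (Fz x) (Fz y) at h4
      have hJ := hEl _ h1
      have hξ := (le_J_left ξ z).trans_lt hJ
      have hz := (le_J_right ξ z).trans_lt hJ
      obtain ⟨h5, h6⟩ := (hEB ξ hξ z hz).1 h1
      exact ⟨ξ, hξ, z, h5, h6, by rw [h4, h2, h3]⟩
    · rintro ⟨ξ, hξ, z, h1, h2, rfl⟩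
      have hz := hB1 z h1
      obtain ⟨h3, h4⟩ := hmJ ξ hξ z hz
      obtain ⟨x, hx, hx'⟩ := exists_ord_name h0 hκ ξ (hξ.trans hl)
      obtain ⟨y, hy, hy'⟩ := exists_ord_name h0 hκ z (hz.trans hl)
      refine ⟨m (J ξ z), h3, ⟨ξ, hξ.trans hl, z, hz.trans hl, x, hx, y, hy,
        (hEB ξ hξ z hz).2 ⟨h1, h2⟩, hx', hy', ?_⟩, h4⟩
      change Fz (m (J ξ z)) = ZFSet.pair (Fz x) (Fz y)
      rw [h4, hx', hy']
  have hFp : ∀ ξ z : Ordinal.{u}, ZFSet.pair ξ.toZFSet z.toZFSet ∈ Fz f ↔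
      Mem z B ∧ col {y | Mem y B} z = ξ := by
    intro ξ z
    rw [hF']
    constructor
    · rintro ⟨ξ', -, z', h1, h2, h3⟩
      obtain ⟨h4, h5⟩ := ZFSet.pair_inj.1 h3
      rw [Ordinal.toZFSet_injective h4, Ordinal.toZFSet_injective h5]
      exact ⟨h1, h2⟩
    · rintro ⟨h1, h2⟩
      refine ⟨ξ, ?_, z, h1, h2, rfl⟩
      rw [← h2]
      exact (col_le _ _).trans_lt (hB1 z h1)
  refine ⟨Fz h, Fz_mem_MM hh, ?_, ⟨Fz f, Fz_mem_MM hf, ?_, ?_, ?_⟩, ?_⟩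
  · intro x hx
    obtain ⟨z, hz, rfl⟩ := (hH' x).1 hx
    exact Ordinal.toZFSet_mem_toZFSet_iff.2 (hB1 z hz)
  · intro x hx
    obtain ⟨ξ, hξ, z, h1, h2, rfl⟩ := (hF' x).1 hx
    exact ⟨_, Ordinal.toZFSet_mem_toZFSet_iff.2 hξ, _, (hH' _).2 ⟨z, h1, rfl⟩, rfl⟩
  · intro a ha
    obtain ⟨ξ, hξ, rfl⟩ := Ordinal.mem_toZFSet_iff.1 ha
    rw [← hcol] at hξ
    obtain ⟨z, hz, hzl, hzξ⟩ := col_onto hξ
    refine ⟨z.toZFSet, (hFp ξ z).2 ⟨hz, hzξ⟩, ?_⟩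
    intro y hy
    obtain ⟨ξ', -, z', h1, h2, h3⟩ := (hF' _).1 hy
    obtain ⟨h4, h5⟩ := ZFSet.pair_inj.1 h3
    have h6 := Ordinal.toZFSet_injective h4
    rw [h5, col_inj (X := {y | Mem y B}) h1 hz (h2.trans (h6.symm.trans hzξ.symm))]
  · intro b hb
    obtain ⟨z, hz, rfl⟩ := (hH' _).1 hb
    refine ⟨(col {y | Mem y B} z).toZFSet, (hFp _ z).2 ⟨hz, rfl⟩, ?_⟩
    intro a ha
    obtain ⟨ξ', -, z', h1, h2, h3⟩ := (hF' _).1 ha
    obtain ⟨h4, h5⟩ := ZFSet.pair_inj.1 h3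
    rw [h4, Ordinal.toZFSet_injective h5, h2]
  · rcases hB3 with hB3 | hB3
    · left
      intro x hx y hy hxy
      obtain ⟨i, hi, rfl⟩ := (hH' _).1 hx
      obtain ⟨j, hj, rfl⟩ := (hH' _).1 hy
      have hij := Ordinal.toZFSet_mem_toZFSet_iff.1 hxy
      exact (hC' j (hB1 j hj) i (hB1 i hi)).1 (hB3 i j hi hj hij)
    · right
      intro x hx y hy hxy hm
      obtain ⟨i, hi, rfl⟩ := (hH' _).1 hx
      obtain ⟨j, hj, rfl⟩ := (hH' _).1 hy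
      have hij := Ordinal.toZFSet_mem_toZFSet_iff.1 hxy
      exact hB3 i j hi hj hij ((hC' j (hB1 j hj) i (hB1 i hi)).2 hm)

theorem rank_Fz (v : Ordinal.{u}) : (Fz v).rank ≤ v := by
  induction v using WellFoundedLT.induction with
  | _ v ih =>
    rw [ZFSet.rank_le_iff]
    intro x hx
    obtain ⟨w, hw, rfl⟩ := mem_Fz.1 hx
    exact (ih w (p_MEM.mem_lt _ _ hw)).trans_lt (p_MEM.mem_lt _ _ hw)

theorem toZFSet_mem_MM (h0 : ℵ₀ < κ) (hκ : κ.IsRegular) (a : Ordinal.{u}) :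
    a.toZFSet ∈ MM κ.ord ↔ a < κ.ord := by
  refine ⟨fun h => ?_, ord_mem_MM h0 hκ⟩
  obtain ⟨v, hv, hva⟩ := mem_MM.1 h
  have h1 := rank_Fz v
  rw [hva, Ordinal.rank_toZFSet] at h1
  exact h1.trans_lt hv

/-- The model. -/
theorem p_ZF : T_ZF.{u} := by
  intro κ h0 hκ hs
  exact ⟨MM κ.ord, transModel h0 hκ hs, toZFSet_mem_MM h0 hκ, fun l hl hG => hG.wcIn h0 hκ hl⟩

end

end Pool.Agent.LMach
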